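import Pool.Agent.Lib.MP_1ae3da_al.J.Fc

/-! Yokonuma-Hecke data of type `B`: definitions. -/

namespace Pool.Agent.Lib.MP_1ae3da_al.JM

/-- the braid relations of type `B k`; the double bond joins `0` and `1`. -/
def Br {G : Type} [Mul G] (k : ℕ) (s : ℕ → G) : Prop :=
  (∀ i j, i + 1 < j → j < k → s i * s j = s j * s i) ∧
  (∀ i, 0 < i → i + 1 < k → s i * s (i + 1) * s i = s (i + 1) * s i * s (i + 1)) ∧
  (1 < k → s 0 * s 1 * s 0 * s 1 = s 1 * s 0 * s 1 * s 0)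

/-- positions `a < k`; `T a` exchanges `a` and `a + 1`; `x` acts at position `0`. -/
structure YD (F H : Type) [Field F] [Ring H] [Algebra F H] where
  k : ℕ
  κ : ℕ
  κ0 : ℕ
  u : F
  S : Subalgebra F H
  x : H
  η : H
  ηi : H
  ζ : H
  E : H
  T : ℕ → H
  e : ℕ → H
  h : ℕ → H
  k0 : 0 < k
  hκ : 0 < κ
  u0 : u ≠ 0
  hu : ∀ n : ℤ, u ^ n = 1 → n = 0
  cm : ∀ y ∈ S, ∀ z ∈ S, y * z = z * y
  mη : η ∈ S
  mηi : ηi ∈ S
  mζ : ζ ∈ S
  mE : E ∈ S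
  me : ∀ a, a + 1 < k → e a ∈ S
  mh : ∀ a, a + 1 < k → h a ∈ S
  ηη : η * ηi = 1
  nx : ∀ y ∈ S, ∃ y' ∈ S, x * y = y' * x ∧ x * y' = y * x
  nT : ∀ a, a + 1 < k → ∀ y ∈ S, ∃ y' ∈ S, T a * y = y' * T a ∧ T a * y' = y * T a
  qx : x * x = u ^ (2 * κ0) • η + E * x
  qT : ∀ a, a + 1 < k → T a * T a = u ^ (2 * κ) • h a + (u ^ (2 * κ) - 1) • (e a * T a)
  ee : ∀ a, a + 1 < k → e a * e a = e a
  eh : ∀ a, a + 1 < k → e a * h a = e a
  hh : ∀ a, a + 1 < k → h a * h a = 1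
  eT : ∀ a, a + 1 < k → e a * T a = T a * e a
  hT : ∀ a, a + 1 < k → h a * T a = T a * h a
  ab : ∀ a, a + 1 < k → ∀ y ∈ S, e a * (T a * y) = e a * (y * T a)
  TT : ∀ a c, a + 1 < c → c + 1 < k → T a * T c = T c * T a
  T3 : ∀ a, a + 2 < k → T a * T (a + 1) * T a = T (a + 1) * T a * T (a + 1)
  xT : ∀ c, 0 < c → c + 1 < k → x * T c = T c * x
  x4 : 1 < k → x * T 0 * x * T 0 = T 0 * x * T 0 * x
  hT1 : ∀ a c, a + 1 < c → c + 1 < k → h a * T c = T c * h a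
  hT2 : ∀ a c, a + 1 < c → c + 1 < k → h c * T a = T a * h c
  h3 : ∀ a, a + 2 < k → T a * T (a + 1) * h a = h (a + 1) * (T a * T (a + 1))
  xh : ∀ c, 0 < c → c + 1 < k → x * h c = h c * x
  hx : 1 < k → h 0 * x = ζ * (x * h 0)
  ηx : η * x = x * η
  ηT : ∀ c, 0 < c → c + 1 < k → η * T c = T c * η
  η4 : 1 < k → η * (T 0 * x * T 0) = T 0 * x * T 0 * η
  ζζ : ζ * ζ = 1
  ζx : ζ * x = x * ζ
  ζT : ∀ a, a + 1 < k → ζ * T a = T a * ζ

namespace YD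

variable {F H : Type} [Field F] [Ring H] [Algebra F H] (d : YD F H)

/-- the parameter of the `T a`. -/
def Q : F := d.u ^ (2 * d.κ)

/-- the inverse of `T a`. -/
def Ti (a : ℕ) : H := d.Q⁻¹ • (d.h a * (d.T a - (d.Q - 1) • d.e a))

/-- the Jucys-Murphy elements. -/
def X : ℕ → H
  | 0 => d.x
  | a + 1 => d.Q⁻¹ • (d.T a * X a * d.T a * d.h a)

/-- the squares of the group elements below the `X a`. -/
def et : ℕ → H
  | 0 => d.η
  | a + 1 => d.T a * et a * d.Ti a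

/-- the inverse of `et a`. -/
def ei : ℕ → H
  | 0 => d.ηi
  | a + 1 => d.T a * ei a * d.Ti a

/-- the commuting semisimple elements. -/
def Z (a : ℕ) : H := d.X a * d.X a * d.ei a

/-- the idempotent of the reflected root. -/
noncomputable def ep (a : ℕ) (ε : H) : H := d.X a * ε * Ring.inverse (d.X a)

/-- the spectral hypotheses. -/
structure Good : Prop where
  sp : ∀ a, a < d.k → Sp F (d.Z a)
  z0 : ∀ (z : F) (v : H), v ≠ 0 → d.Z 0 * v = z • v → ∃ n : ℤ, z = d.u ^ (2 * n)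

/-- what the construction delivers; `s 0` lies over `x` and `s (a + 1)` over `T a`. -/
structure Out (s : ℕ → H) : Prop where
  n0 : ∀ y ∈ d.S, ∀ y', d.x * y = y' * d.x → s 0 * y = y' * s 0
  n1 : ∀ a, a + 1 < d.k → ∀ y ∈ d.S, ∀ y', d.T a * y = y' * d.T a →
    s (a + 1) * y = y' * s (a + 1)
  q0 : s 0 * s 0 = d.η
  q1 : ∀ a, a + 1 < d.k → s (a + 1) * s (a + 1) = d.h a
  br : Br d.k s
  gen : ∀ B : Subalgebra F H, d.S ≤ B → (∀ i, i < d.k → s i ∈ B) →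
    d.x ∈ B ∧ ∀ a, a + 1 < d.k → d.T a ∈ B
  m0 : ∀ (B : Subring H) (K : Subfield F), (∀ c ∈ K, algebraMap F H c ∈ B) → d.u ∈ K →
    d.Z 0 ∈ B → ∃ y ∈ B, s 0 = d.x * y
  m1 : ∀ (B : Subring H) (K : Subfield F), (∀ c ∈ K, algebraMap F H c ∈ B) → d.u ∈ K →
    ∀ a, a + 1 < d.k → d.T a ∈ B → d.e a ∈ B → d.ep a (d.e a) ∈ B → d.Z a ∈ B →
      d.Z (a + 1) ∈ B → s (a + 1) ∈ B

end YD

end Pool.Agent.Lib.MP_1ae3da_al.JM
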