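import Pool.Agent.Lib.MP_1ae3da_al.Z.Xw
import Pool.Agent.Lib.MP_1ae3da_al.J.Yd

/-! Split Tits systems: definitions. -/

namespace Pool.Agent.Lib.MP_1ae3da_al.JM

open SLI CT CT.Z

variable {p r : ℕ} {X : Type} [Group X]

/-- a Bruhat decomposition with abelian torus, no `p`-regular orbit of the torus on `U`, and no
quadratic action on the `p`-part of the torus. -/
structure BV (p : ℕ) (U : Sylow r X) (N : Subgroup X) : Prop where
  ne : p ≠ r
  ab : ∀ x ∈ Tor U N, ∀ y ∈ Tor U N, x * y = y * x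
  nrm : N ≤ Subgroup.normalizer (Tor U N : Set X)
  bru : ∀ x, ∃ u ∈ U, ∃ n ∈ N, ∃ v ∈ U, x = u * n * v
  orb : ∀ u ∈ U, u ≠ 1 → p ∣ (Subgroup.centralizer {u}).relIndex (Tor U N)
  quad : ∀ m ∈ N, (∀ d ∈ Tor U N, (∃ c, d ^ p ^ c = 1) → Commute (d * m * d⁻¹ * m⁻¹) m) →
    m ∈ Tor U N

/-- the `p`-part of the torus. -/
def BV.D {U : Sylow r X} {N : Subgroup X} (h : BV p U N) : Subgroup X where
  carrier := {t | t ∈ Tor U N ∧ ∃ k, t ^ p ^ k = 1}
  one_mem' := ⟨one_mem _, 0, one_pow _⟩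
  inv_mem' := fun ⟨ht, k, hk⟩ => ⟨inv_mem ht, k, by rw [inv_pow, hk, inv_one]⟩
  mul_mem' := fun {a b} ⟨ha, k, hk⟩ ⟨hb, l, hl⟩ => ⟨mul_mem ha hb, k + l, by
    have hc : Commute a b := h.ab a ha b hb
    rw [hc.mul_pow, pow_add, pow_mul, hk, one_pow, mul_comm (p ^ k), pow_mul, hl, one_pow,
      mul_one]⟩

/-- the generators of a Tits system. -/
structure TS (k : ℕ) (U : Sylow r X) (N : Subgroup X) (n : ℕ → X) : Prop where
  mem : ∀ i, i < k → n i ∈ N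
  sq : ∀ i, i < k → n i * n i ∈ Tor U N
  nt : ∀ i, i < k → n i ∉ Tor U N
  gen : N ≤ Subgroup.closure ((Tor U N : Set X) ∪ n '' Set.Iio k)
  tits : ∀ i, i < k → ∀ m ∈ N, ∀ u ∈ U, ∃ v ∈ U, ∃ t ∈ Tor U N, ∃ w ∈ U,
    n i * u * m = v * (t * (n i * m)) * w ∨ n i * u * m = v * (t * m) * w

/-- `N / T` is the Weyl group of type `B k` and the `n i` are Tits lifts. -/
structure WB (k : ℕ) (N T : Subgroup X) (n : ℕ → X) : Prop where
  le : T ≤ N
  nrm : N ≤ Subgroup.normalizer (T : Set X)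
  mem : ∀ i, i < k → n i ∈ N
  sq : ∀ i, i < k → n i * n i ∈ T
  br : Br k n
  gen : N ≤ Subgroup.closure ((T : Set X) ∪ n '' Set.Iio k)
  card : T.relIndex N = 2 ^ k * k.factorial

/-- all the hypotheses in type `B`. -/
structure TB (p k : ℕ) (U : Sylow r X) (N : Subgroup X) (n : ℕ → X) : Prop where
  v : BV p U N
  w : WB k N (Tor U N) n
  k3 : 3 ≤ k
  tits : ∀ i, i < k → ∀ m ∈ N, ∀ u ∈ U, ∃ v ∈ U, ∃ t ∈ Tor U N, ∃ w ∈ U,
    n i * u * m = v * (t * (n i * m)) * w ∨ n i * u * m = v * (t * m) * w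
  one : ∀ i, 0 < i → i < k → ∀ u ∈ U, n i * u * (n i)⁻¹ ∈ U ∨
    ∃ s ∈ Tor U N, ∃ v ∈ U, ∃ w ∈ U, n i * u * (n i)⁻¹ = v * (s * n i * s⁻¹) * w
  cen : ∀ i, i < k → Commute (n 1 * n 1 * n 0 * (n 1 * n 1)⁻¹ * (n 0)⁻¹) (n i)

/-- the double cosets of `g` and `m` multiply without a second term. -/
def AA (U : Subgroup X) (g m : X) : Prop :=
  ∀ u ∈ U, ∃ v ∈ U, ∃ w ∈ U, g * u * m = v * (g * m) * w

/-- `B ∪ B g B` is a subgroup. -/
def Atom (U T : Subgroup X) (g : X) : Prop :=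
  ∀ u ∈ U, g * u * g⁻¹ ∈ U ∨ ∃ t ∈ T, ∃ v ∈ U, ∃ w ∈ U, g * u * g⁻¹ = v * (t * g) * w

/-- the index of `U ⊓ g⁻¹ U g` in `U`. -/
noncomputable def Qn (U : Subgroup X) (g : X) : ℕ :=
  (U.comap (MulAut.conj g).toMonoidHom).relIndex U

variable (F : Type) [Field F]

/-- the torus in the corner, completed by the trivial character. -/
noncomputable def jt (U : Subgroup X) (t : X) : MonoidAlgebra F X :=
  gu F X t * av F U + (1 - av F U)

/-- the Hecke generator, completed by the index character. -/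
noncomputable def tau (U : Subgroup X) (g : X) : MonoidAlgebra F X :=
  (Qn U g : F) • (an F U g + (1 - av F U))

variable {F}

/-- `d` is the datum attached to the group. -/
structure Mt (k : ℕ) (U : Sylow r X) (N : Subgroup X) (n : ℕ → X)
    (d : YD F (MonoidAlgebra F X)) : Prop where
  k : d.k = k
  S : ∀ y, y ∈ d.S ↔ y ∈ Submodule.span F (jt F U '' (Tor U N : Set X))
  x : d.x = tau F U (n 0)
  T : ∀ a, d.T a = tau F U (n (a + 1))
  η : d.η = jt F U (n 0 * n 0)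
  ηi : d.ηi = jt F U (n 0 * n 0)⁻¹
  h : ∀ a, d.h a = jt F U (n (a + 1) * n (a + 1))
  Q : d.Q = Qn U (n 1)

end Pool.Agent.Lib.MP_1ae3da_al.JM
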