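import Pool.Agent.Lib.MP_1ae3da_al.J.G4b

/-! Relations among the Hecke generators that do not depend on the type. -/

namespace Pool.Agent.Lib.MP_1ae3da_al.JM

open SLI CT CT.Z

variable {p r k : ℕ} {X : Type} [Group X] [Finite X] [hp : Fact p.Prime] [hr : Fact r.Prime]
  {U : Sylow r X} {N : Subgroup X} {n : ℕ → X} {F : Type} [Field F] [CharZero F]

omit [Finite X] hr in
theorem d3_qm (δ : MulAut X) (hU : ∀ x, δ x ∈ U ↔ x ∈ U) (g : X) :
    Qn (U : Subgroup X) (δ g) = Qn (U : Subgroup X) g := by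
  have e : (U : Subgroup X).comap δ.toMonoidHom = U := Subgroup.ext hU
  have := Subgroup.relIndex_comap ((U : Subgroup X).comap (MulAut.conj (δ g)).toMonoidHom)
    δ.toMonoidHom (U : Subgroup X)
  have e2 : (U : Subgroup X).map δ.toMonoidHom = U := by
    conv_lhs => rw [← e]
    exact Subgroup.map_comap_eq_self_of_surjective δ.surjective _
  rw [e2] at this
  unfold Qn
  rw [← this]
  congr 1
  ext x
  change δ g * δ x * (δ g)⁻¹ ∈ U ↔ g * x * g⁻¹ ∈ U
  rw [← map_inv, ← map_mul, ← map_mul, hU]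

omit hr in
theorem d3_nat {σ : RingAut F} {γ : RingAut (MonoidAlgebra F X)} (hγ : SL F σ γ) {δ : MulAut X}
    (hδ : ∀ x, γ (gu F X x) = gu F X (δ x)) (hU : ∀ x, δ x ∈ U ↔ x ∈ U) :
    γ (av F U) = av F (U : Subgroup X) ∧ (∀ t, γ (jt F U t) = jt F (U : Subgroup X) (δ t)) ∧
      ∀ g, γ (tau F U g) = tau F (U : Subgroup X) (δ g) := by
  have e : (U : Subgroup X).comap δ.toMonoidHom = U := Subgroup.ext hU
  have e2 : (U : Subgroup X).map δ.toMonoidHom = U := by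
    conv_lhs => rw [← e]
    exact Subgroup.map_comap_eq_self_of_surjective δ.surjective _
  have h1 : γ (av F U) = av F (U : Subgroup X) := by rw [av_map hγ hδ, e2]
  refine ⟨h1, fun t => ?_, fun g => ?_⟩
  · rw [jt, jt, map_add, map_mul, map_sub, map_one, h1, hδ]
  · rw [tau, tau, hγ, map_natCast, d3_qm δ hU, an, an, map_add, map_mul, map_mul, map_sub, map_one,
      h1, hδ]

theorem d3_ind (h : BV p U N) {x z : X} (hx : x ∈ N) (hz : z ∈ N) (hn : x * z⁻¹ ∉ Tor U N) :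
    an F U x ∉ Submodule.span F {y | ∃ s ∈ Tor U N, y = an F U (s * z)} := fun hm =>
  (an_ind (F := F) h.pg).notMem_span_image (s := {m | (m : X) * z⁻¹ ∈ Tor U N})
    (x := ⟨x, h.norm_eq.symm ▸ hx⟩) hn (Submodule.span_mono (by
      rintro _ ⟨s, hs, rfl⟩
      exact ⟨⟨s * z, h.norm_eq.symm ▸ mul_mem hs.1 hz⟩, by simpa using hs, rfl⟩) hm)

theorem d3_sq (h : BV p U N) {g : X} (hg : g ∈ N) (h2 : g * g ∈ Tor U N)
    (hat : Atom (U : Subgroup X) (Tor U N) g) :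
    ∃ (Y : Type) (_ : Fintype Y) (t : Y → X), (∀ y, t y ∈ Tor U N) ∧
      (Qn U g : F) • (an F U g * an F U g) = an F U (g * g) + ∑ y, an F U (t y * g) := by
  obtain ⟨Y, _, _, t, hY, tT, -, -, -, e⟩ := tau_sq h hg h2 hat
  refine ⟨Y, inferInstance, fun y => t y * (g * g), fun y => mul_mem (tT y) h2, ?_⟩
  have hQ : (Qn U g : F) ≠ 0 := by
    rw [← hY]
    exact Nat.cast_ne_zero.2 (Nat.succ_ne_zero _)
  have k0 : ∀ a : MonoidAlgebra F X, a * av F U = a → (a + (1 - av F U)) * av F U = a :=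
    fun a ha => by rw [add_mul, ha, sub_mul, one_mul, av_idem, sub_self, add_zero]
  have k4 : ∀ y : Y, jt F U (t y * (g * g)) * (an F U g + (1 - av F U)) * av F U =
      an F U (t y * (g * g) * g) := fun y => by
    have := g4_N (mul_mem (tT y) h2)
    rw [g4_jt this, g4_mul, g4_l this, k0 _ (av_an _).2]
  have e1 := congrArg (· * av F U) (e F)
  simp only [tau, smul_mul_assoc, mul_smul_comm, add_mul (_ • _), Finset.sum_mul, k4, g4_mul] at e1
  rw [g4_jt (g4_N h2), k0 _ (av_an _).2, k0 _ (by rw [mul_assoc, (av_an _).2]), ← smul_add] at e1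
  exact smul_right_injective _ hQ e1

theorem d3_step (h : BV p U N) {a b : X} (ha : a ∈ N) (hb : b ∈ N) (a2 : a * a ∈ Tor U N)
    (b2 : b * b ∈ Tor U N) (aat : Atom (U : Subgroup X) (Tor U N) a)
    (bat : Atom (U : Subgroup X) (Tor U N) b) (bn : b ∉ Tor U N) (br : a * b * a = b * a * b)
    (h1 : AA (U : Subgroup X) a b) (h2 : AA (U : Subgroup X) b a)
    (h3 : AA (U : Subgroup X) a (b * a)) (h4 : AA (U : Subgroup X) b (a * b)) :
    Qn (U : Subgroup X) a = Qn (U : Subgroup X) b := by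
  by_contra hne
  obtain ⟨Y, _, t, tT, e⟩ := d3_sq (F := ℚ) h ha a2 aat
  obtain ⟨Y', _, t', tT', e'⟩ := d3_sq (F := ℚ) h hb b2 bat
  have c1 : an ℚ U (a * b) * an ℚ U a = an ℚ U (a * b * a) := by
    rw [← aa_an h1, mul_assoc, aa_an h2, aa_an h3, mul_assoc]
  have c2 : an ℚ U b * an ℚ U (a * b) = an ℚ U (a * b * a) := by
    rw [aa_an h4, br, mul_assoc]
  have f1 := congrArg (an ℚ U (a * b) * ·) e
  have f2 := congrArg (· * an ℚ U (a * b)) e'
  simp only [mul_smul_comm, smul_mul_assoc, mul_add, add_mul, Finset.mul_sum,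
    Finset.sum_mul] at f1 f2
  rw [← mul_assoc, c1, ← c2, mul_assoc, c1, g4_r (g4_N a2),
    show a * b * (a * a) = b * (a * b * a) by
      rw [← mul_assoc, ← mul_assoc b, ← mul_assoc b, ← br]] at f1
  rw [mul_assoc, c2, g4_l (g4_N b2), show b * b * (a * b) = b * (a * b * a) by
      rw [br, mul_assoc b b, mul_assoc b a]] at f2
  have m1 : ∑ y, an ℚ U (a * b) * an ℚ U (t y * a) ∈
      Submodule.span ℚ {y | ∃ s ∈ Tor U N, y = an ℚ U (s * (a * b * a))} :=
    sum_mem fun y _ => Submodule.subset_span ⟨_, g4_T h (mul_mem ha hb) (tT y), by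
      rw [← g4_l (g4_N (tT y)), ← mul_assoc, g4_r (g4_N (tT y)),
        ← g4_l (g4_N (g4_T h (mul_mem ha hb) (tT y))), ← c1, ← mul_assoc,
        g4_l (g4_N (g4_T h (mul_mem ha hb) (tT y))), inv_mul_cancel_right]⟩
  have m2 : ∑ y, an ℚ U (t' y * b) * an ℚ U (a * b) ∈
      Submodule.span ℚ {y | ∃ s ∈ Tor U N, y = an ℚ U (s * (a * b * a))} :=
    sum_mem fun y _ => Submodule.subset_span ⟨_, tT' y, by
      rw [← g4_l (g4_N (tT' y)), mul_assoc, c2, g4_l (g4_N (tT' y))]⟩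
  refine d3_ind (F := ℚ) h (x := b * (a * b * a)) (z := a * b * a)
    (mul_mem hb (mul_mem (mul_mem ha hb) ha)) (mul_mem (mul_mem ha hb) ha)
    (by rwa [mul_inv_cancel_right]) ?_
  have hd : (Qn (U : Subgroup X) b : ℚ) - Qn (U : Subgroup X) a ≠ 0 :=
    sub_ne_zero.2 fun e => hne (Nat.cast_injective e).symm
  rw [← Submodule.smul_mem_iff _ hd]
  convert sub_mem (Submodule.smul_mem _ (Qn (U : Subgroup X) a : ℚ) m2)
    (Submodule.smul_mem _ (Qn (U : Subgroup X) b : ℚ) m1) using 1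
  rw [← sub_eq_iff_eq_add'.2 f1, ← sub_eq_iff_eq_add'.2 f2]
  module

theorem d3_s2 (h : BV p U N) {g : X} (m : g ∈ N) (s : g * g ∈ Tor U N) (nt : g ∉ Tor U N)
    (one : ∀ u ∈ U, g * u * g⁻¹ ∈ U ∨
      ∃ s ∈ Tor U N, ∃ v ∈ U, ∃ w ∈ U, g * u * g⁻¹ = v * (s * g * s⁻¹) * w) :
    g * g * (g * g) = 1 ∧ ∃ c ∈ Tor U N, g * g = g * c * g⁻¹ * c⁻¹ := by
  obtain ⟨c, hc, e⟩ := inv_conj h m nt one
  refine ⟨?_, c, hc, ?_⟩
  · have : g⁻¹ * g⁻¹ = g * g := by
      conv_lhs => rw [e]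
      rw [show c * g * c⁻¹ * (c * g * c⁻¹) = c * (g * g) * c⁻¹ by group, h.ab c hc _ s]
      group
    conv_lhs => enter [1]; rw [← this]
    group
  · have : g = c * g⁻¹ * c⁻¹ := by
      have e2 := congrArg (·⁻¹) e
      simpa only [mul_inv_rev, inv_inv, mul_assoc] using e2
    rw [mul_assoc g, mul_assoc g, ← this]

theorem d3_qT (h : BV p U N) {g : X} (m : g ∈ N) (s : g * g ∈ Tor U N) (nt : g ∉ Tor U N)
    (hat : Atom (U : Subgroup X) (Tor U N) g)
    (one : ∀ u ∈ U, g * u * g⁻¹ ∈ U ∨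
      ∃ s ∈ Tor U N, ∃ v ∈ U, ∃ w ∈ U, g * u * g⁻¹ = v * (s * g * s⁻¹) * w) :
    tau F U g * tau F U g = (Qn (U : Subgroup X) g : F) • jt F U (g * g) +
      ((Qn (U : Subgroup X) g : F) - 1) • (g4e U N F g * tau F U g) := by
  obtain ⟨Y, _, _, t, hY, ht, ha, -, hu, e⟩ := tau_sq h m s hat
  obtain ⟨-, c, hc, ec⟩ := d3_s2 h m s nt one
  have k1 : ∀ y, g4e U N F g * jt F U (t y * (g * g)) = g4e U N F g := fun y => by
    obtain ⟨u, hu, h1, v, hv, w, hw, e1⟩ := hu y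
    obtain ⟨b, hb, v', hv', w', hw', e2⟩ := (one u hu).resolve_left h1
    have e3 : t y * g = b * g * b⁻¹ := h.dc (mul_mem (ht y).1 m)
      (mul_mem (mul_mem hb.1 m) (inv_mem hb.1)) (mul_mem (inv_mem hv') hv)
      (mul_mem hw (inv_mem hw')) (by
        rw [show v'⁻¹ * v * (t y * g) * (w * w'⁻¹) = v'⁻¹ * (v * (t y * g) * w) * w'⁻¹ by group,
          ← e1, e2]
        group)
    have e4 : t y = g * b⁻¹ * g⁻¹ * b⁻¹⁻¹ := by
      rw [inv_inv, h.ab _ (g4b_cj h m (inv_mem hb)) _ hb, eq_mul_inv_of_mul_eq e3]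
      group
    rw [jt_mul (ht y) s, ← mul_assoc, e4, g4e_abs h m (inv_mem hb), ec, g4e_abs h m hc]
  have k2 : g4e U N F g * ∑ y, jt F U (t y * (g * g)) = ∑ y, jt F U (t y * (g * g)) :=
    g4e_mul fun b hb => by
      rw [Finset.mul_sum, ← Equiv.sum_comp (MulAction.toPerm (⟨b, hb⟩ : Tor U N))
        fun y => jt F (U : Subgroup X) (t y * (g * g))]
      refine Finset.sum_congr rfl fun y _ => ?_
      rw [← jt_mul (g4b_ph h m hb) (mul_mem (ht y) s), MulAction.toPerm_apply, ha,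
        mul_assoc _ (t y), h.ab _ (ht y) _ (inv_mem (⟨b, hb⟩ : Tor U N).2)]
      simp only [mul_assoc]
  rw [e F, ← k2, Finset.mul_sum, Finset.sum_congr rfl fun y _ => k1 y, Finset.sum_const,
    Finset.card_univ, ← hY, Nat.cast_add, Nat.cast_one, add_sub_cancel_right,
    Nat.cast_smul_eq_nsmul, smul_mul_assoc]

omit hp hr in
theorem d3_bn {V : Subgroup X} {a m : X} (h : AA V a m) :
    g4bn F V a * g4bn F V m = g4bn F V (a * m) := by
  rw [g4bn, g4bn, g4b_mul (av_an a).2 (av_an m).1, aa_an h, g4bn]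

omit hp hr in
theorem d3_cm {a b : X} (h1 : AA (U : Subgroup X) a b) (h2 : AA (U : Subgroup X) b a)
    (e : a * b = b * a) : tau F (U : Subgroup X) a * tau F U b = tau F U b * tau F U a := by
  simp only [g4b_tau, smul_mul_assoc, mul_smul_comm]
  rw [smul_comm, d3_bn h1, d3_bn h2, e]

omit hp hr in
theorem d3_br {a b : X} (h1 : AA (U : Subgroup X) a b) (h2 : AA (U : Subgroup X) b a)
    (h3 : AA (U : Subgroup X) a (b * a)) (h4 : AA (U : Subgroup X) b (a * b))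
    (e : a * b * a = b * a * b) (q : Qn (U : Subgroup X) a = Qn (U : Subgroup X) b) :
    tau F (U : Subgroup X) a * tau F U b * tau F U a = tau F U b * tau F U a * tau F U b := by
  simp only [g4b_tau, smul_mul_assoc, mul_smul_comm, q]
  rw [mul_assoc, mul_assoc, d3_bn h1, d3_bn h2, d3_bn h3, d3_bn h4, ← mul_assoc, ← mul_assoc, e]

end Pool.Agent.Lib.MP_1ae3da_al.JM
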