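import Pool.Agent.Lib.MP_1ae3da_al.J.K1

/-! Relations among the Jucys-Murphy elements, second part. -/

namespace Pool.Agent.Lib.MP_1ae3da_al.JM.YD

variable {F H : Type} [Field F] [Ring H] [Algebra F H] (d : YD F H) {a b c : ℕ}

lemma kb_X (a : ℕ) : d.X (a + 1) = d.Q⁻¹ • (d.T a * d.X a * d.T a * d.h a) := rfl

lemma kb_qT (h : a + 1 < d.k) :
    d.T a * d.T a = d.Q • d.h a + (d.Q - 1) • (d.e a * d.T a) := d.qT a h

lemma kb_eT (h : a + 1 < d.k) {y : H} (hy : y ∈ d.S) : Commute y (d.e a * d.T a) := by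
  have h1 := d.ab a h y hy
  have h2 := d.cm _ hy _ (d.me a h)
  show y * (d.e a * d.T a) = d.e a * d.T a * y
  rw [mul_assoc, h1, ← mul_assoc, ← mul_assoc, h2]

lemma kb_TT (h : a + 1 < d.k) {y : H} (hy : y ∈ d.S) : Commute y (d.T a * d.T a) := by
  rw [d.kb_qT h]
  have h2 : Commute y (d.h a) := d.cm _ hy _ (d.mh a h)
  exact (h2.smul_right _).add_right ((d.kb_eT h hy).smul_right _)

theorem ζ_X (ha : a < d.k) : d.ζ * d.X a = d.X a * d.ζ := by
  induction a with
  | zero => exact d.ζx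
  | succ a ih =>
    have h1 : Commute d.ζ (d.X a) := ih (by omega)
    have h2 : Commute d.ζ (d.T a) := d.ζT a ha
    have h3 : Commute d.ζ (d.h a) := d.cm _ d.mζ _ (d.mh a ha)
    rw [kb_X]
    exact ((((h2.mul_right h1).mul_right h2).mul_right h3).smul_right _).eq

theorem h_X0 (h : a + 1 < d.k) : d.h a * d.X a = d.ζ * (d.X a * d.h a) := by
  induction a with
  | zero => exact d.hx h
  | succ a ih =>
    have ha : a + 1 < d.k := by omega
    have i1 := ih ha
    have e1 : d.X (a + 1) =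
        d.Q⁻¹ • (d.T a * d.X a * d.Ti a * (d.T a * d.T a * d.h a)) := by
      rw [kb_X]
      congr 1
      calc d.T a * d.X a * d.T a * d.h a
          = d.T a * d.X a * (d.Ti a * d.T a) * d.T a * d.h a := by rw [d.Ti_T ha, mul_one]
        _ = _ := by simp only [mul_assoc]
    have c1 : Commute (d.h (a + 1)) (d.T a * d.T a * d.h a) :=
      (d.kb_TT ha (d.mh _ h)).mul_right (d.cm _ (d.mh _ h) _ (d.mh _ ha))
    have t1 : d.T (a + 1) * d.X a = d.X a * d.T (a + 1) :=
      d.T_X h (by omega) (by omega) (by omega)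
    have w1 := d.h3 a h
    have z1 := d.ζT a ha
    have z2 := d.ζT (a + 1) h
    have k1 : d.h (a + 1) * (d.T a * d.X a * d.Ti a) =
        d.ζ * (d.T a * d.X a * d.Ti a * d.h (a + 1)) := by
      refine ((d.T_unit ha).mul (d.T_unit h)).mul_right_cancel ?_
      calc d.h (a + 1) * (d.T a * d.X a * d.Ti a) * (d.T a * d.T (a + 1))
          = d.h (a + 1) * (d.T a * (d.X a * ((d.Ti a * d.T a) * d.T (a + 1)))) := by
            simp only [mul_assoc]
        _ = d.h (a + 1) * (d.T a * d.T (a + 1)) * d.X a := by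
            rw [d.Ti_T ha, one_mul, ← t1]; simp only [mul_assoc]
        _ = d.T a * (d.T (a + 1) * d.ζ) * (d.X a * d.h a) := by
            rw [← w1, mul_assoc, i1]; simp only [mul_assoc]
        _ = (d.T a * d.ζ) * (d.T (a + 1) * d.X a) * d.h a := by
            rw [← z2]; simp only [mul_assoc]
        _ = d.ζ * (d.T a * (d.X a * ((d.Ti a * d.T a) * (d.T (a + 1) * d.h a)))) := by
            rw [← z1, t1, d.Ti_T ha, one_mul]; simp only [mul_assoc]
        _ = d.ζ * (d.T a * d.X a * d.Ti a) * (d.T a * d.T (a + 1) * d.h a) := by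
            simp only [mul_assoc]
        _ = _ := by rw [w1]; simp only [mul_assoc]
    rw [e1, mul_smul_comm, smul_mul_assoc, mul_smul_comm, ← mul_assoc, k1, mul_assoc, mul_assoc,
      c1.eq, ← mul_assoc _ _ (d.h (a + 1))]

theorem h_X1 (h : a + 1 < d.k) : d.h a * d.X (a + 1) = d.ζ * (d.X (a + 1) * d.h a) := by
  have i1 := d.h_X0 h
  have t1 := d.hT a h
  have z1 := d.ζT a h
  rw [kb_X, mul_smul_comm, smul_mul_assoc, mul_smul_comm]
  congr 1
  calc d.h a * (d.T a * d.X a * d.T a * d.h a)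
      = (d.h a * d.T a) * d.X a * d.T a * d.h a := by simp only [mul_assoc]
    _ = d.T a * (d.h a * d.X a) * d.T a * d.h a := by rw [t1]; simp only [mul_assoc]
    _ = (d.T a * d.ζ) * d.X a * (d.h a * d.T a) * d.h a := by rw [i1]; simp only [mul_assoc]
    _ = _ := by rw [← z1, t1]; simp only [mul_assoc]

lemma kb_sw {A B : H} (h : A * B = d.ζ * (B * A)) : B * A = d.ζ * (A * B) := by
  rw [h, ← mul_assoc, d.ζζ, one_mul]

/-- one step: what commutes with `T b`, `h b` and twists with `X b` twists with `X (b + 1)`. -/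
lemma kb_up (hb : b + 1 < d.k) {y : H} (h1 : d.T b * y = y * d.T b) (h2 : d.h b * y = y * d.h b)
    (h3 : y * d.X b = d.ζ * (d.X b * y)) : y * d.X (b + 1) = d.ζ * (d.X (b + 1) * y) := by
  have z1 := d.ζT b hb
  rw [kb_X, mul_smul_comm, smul_mul_assoc, mul_smul_comm]
  congr 1
  calc y * (d.T b * d.X b * d.T b * d.h b)
      = (y * d.T b) * d.X b * d.T b * d.h b := by simp only [mul_assoc]
    _ = d.T b * (y * d.X b) * d.T b * d.h b := by rw [← h1]; simp only [mul_assoc]
    _ = (d.T b * d.ζ) * d.X b * (y * d.T b) * d.h b := by rw [h3]; simp only [mul_assoc]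
    _ = d.ζ * d.T b * d.X b * d.T b * (y * d.h b) := by
        rw [← z1, ← h1]; simp only [mul_assoc]
    _ = _ := by rw [← h2]; simp only [mul_assoc]

lemma kb_up' (hab : a < b) (hb : b + 1 < d.k) (h : d.X a * d.X b = d.ζ * (d.X b * d.X a)) :
    d.X a * d.X (b + 1) = d.ζ * (d.X (b + 1) * d.X a) :=
  d.kb_up hb (d.T_X hb (by omega) (by omega) (by omega))
    (d.h_X hb (by omega) (by omega) (by omega)) h

lemma kb_nb (h : a + 1 < d.k) : d.X a * d.X (a + 1) = d.ζ * (d.X (a + 1) * d.X a) := by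
  induction a with
  | zero =>
    have h1 := d.x4 h
    have h2 := d.kb_sw (d.hx h)
    have c1 : Commute d.ζ (d.T 0) := d.ζT 0 h
    have c2 : Commute d.ζ d.x := d.ζx
    have c3 := ((c1.mul_right c2).mul_right c1).eq
    rw [kb_X, mul_smul_comm, smul_mul_assoc, mul_smul_comm]
    congr 1
    show d.x * (d.T 0 * d.x * d.T 0 * d.h 0) = d.ζ * (d.T 0 * d.x * d.T 0 * d.h 0 * d.x)
    calc d.x * (d.T 0 * d.x * d.T 0 * d.h 0)
        = (d.x * d.T 0 * d.x * d.T 0) * d.h 0 := by simp only [mul_assoc]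
      _ = d.T 0 * d.x * d.T 0 * (d.x * d.h 0) := by rw [h1]; simp only [mul_assoc]
      _ = (d.T 0 * d.x * d.T 0 * d.ζ) * (d.h 0 * d.x) := by rw [h2]; simp only [mul_assoc]
      _ = _ := by rw [← c3]; simp only [mul_assoc]
  | succ a ih =>
    have ha : a + 1 < d.k := by omega
    have h1 := d.kb_up' (Nat.lt_succ_self a) h (ih ha)
    exact d.kb_sw (d.kb_up ha (d.T_X ha h (by omega) (by omega))
      (d.h_X ha h (by omega) (by omega)) (d.kb_sw h1))

lemma kb_lt (hab : a < b) (hb : b < d.k) : d.X a * d.X b = d.ζ * (d.X b * d.X a) := by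
  induction b with
  | zero => omega
  | succ b ih =>
    rcases Nat.lt_succ_iff_lt_or_eq.1 hab with k | rfl
    · exact d.kb_up' k hb (ih k (by omega))
    · exact d.kb_nb hb

theorem XX (ha : a < d.k) (hb : b < d.k) (h : a ≠ b) :
    d.X a * d.X b = d.ζ * (d.X b * d.X a) := by
  rcases lt_or_gt_of_ne h with k | k
  · exact d.kb_lt k hb
  · exact d.kb_sw (d.kb_lt k ha)

lemma kb_etx (ha : a < d.k) : d.et a * d.x = d.x * d.et a := by
  induction a with
  | zero => exact d.ηx
  | succ a ih =>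
    have t0 := d.T_et0 ha
    refine (d.T_unit ha).mul_right_cancel ?_
    rcases Nat.eq_zero_or_pos a with rfl | hp
    · have t1 := d.T_et1 ha
      have h4 : d.et 0 * (d.T 0 * d.x * d.T 0) = d.T 0 * d.x * d.T 0 * d.et 0 := d.η4 ha
      refine (d.T_unit ha).mul_left_cancel ?_
      calc d.T 0 * (d.et (0 + 1) * d.x * d.T 0)
          = (d.T 0 * d.et (0 + 1)) * d.x * d.T 0 := by simp only [mul_assoc]
        _ = d.et 0 * (d.T 0 * d.x * d.T 0) := by rw [t1]; simp only [mul_assoc]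
        _ = d.T 0 * d.x * (d.T 0 * d.et 0) := by rw [h4]; simp only [mul_assoc]
        _ = _ := by rw [t0]; simp only [mul_assoc]
    · have x1 := d.xT a hp ha
      rw [mul_assoc, x1, ← mul_assoc, ← t0, mul_assoc, ih (by omega), ← mul_assoc, ← x1,
        mul_assoc, t0, mul_assoc]

theorem et_X (ha : a < d.k) (hb : b < d.k) : d.et a * d.X b = d.X b * d.et a := by
  induction b generalizing a with
  | zero => exact d.kb_etx ha
  | succ b ih =>
    obtain ⟨a', h', h1, h2⟩ : ∃ a', a' < d.k ∧ d.T b * d.et a' = d.et a * d.T b ∧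
        d.T b * d.et a = d.et a' * d.T b := by
      by_cases h0 : a = b
      · subst h0
        exact ⟨a + 1, hb, d.T_et1 hb, d.T_et0 hb⟩
      · by_cases h1 : a = b + 1
        · subst h1
          exact ⟨b, by omega, d.T_et0 hb, d.T_et1 hb⟩
        · exact ⟨a, ha, d.T_et hb ha h0 h1, d.T_et hb ha h0 h1⟩
    have i1 := ih h' (by omega)
    have c1 := d.cm _ (d.met ha) _ (d.mh b hb)
    rw [kb_X, mul_smul_comm, smul_mul_assoc]
    congr 1
    calc d.et a * (d.T b * d.X b * d.T b * d.h b)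
        = (d.et a * d.T b) * d.X b * d.T b * d.h b := by simp only [mul_assoc]
      _ = d.T b * (d.et a' * d.X b) * d.T b * d.h b := by rw [← h1]; simp only [mul_assoc]
      _ = d.T b * d.X b * (d.et a' * d.T b) * d.h b := by rw [i1]; simp only [mul_assoc]
      _ = d.T b * d.X b * d.T b * (d.et a * d.h b) := by rw [← h2]; simp only [mul_assoc]
      _ = _ := by rw [c1]; simp only [mul_assoc]

theorem ei_X (ha : a < d.k) (hb : b < d.k) : d.ei a * d.X b = d.X b * d.ei a := by
  calc d.ei a * d.X b = d.ei a * d.X b * (d.et a * d.ei a) := by rw [d.et_ei ha, mul_one]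
    _ = d.ei a * (d.X b * d.et a) * d.ei a := by simp only [mul_assoc]
    _ = (d.ei a * d.et a) * d.X b * d.ei a := by rw [← d.et_X ha hb]; simp only [mul_assoc]
    _ = _ := by rw [d.ei_et ha, one_mul]

theorem Z_S (ha : a < d.k) {y : H} (hy : y ∈ d.S) : d.Z a * y = y * d.Z a := by
  obtain ⟨y', -, h1, h2⟩ := d.nX ha hy
  have c1 := d.cm _ (d.mei ha) _ hy
  unfold Z
  calc d.X a * d.X a * d.ei a * y = d.X a * d.X a * (d.ei a * y) := by simp only [mul_assoc]
    _ = d.X a * (d.X a * y) * d.ei a := by rw [c1]; simp only [mul_assoc]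
    _ = (d.X a * y') * d.X a * d.ei a := by rw [h1]; simp only [mul_assoc]
    _ = _ := by rw [h2]; simp only [mul_assoc]

theorem Z_X (ha : a < d.k) (hb : b < d.k) : d.Z a * d.X b = d.X b * d.Z a := by
  have c1 : Commute (d.ei a) (d.X b) := d.ei_X ha hb
  have c2 : Commute (d.X a * d.X a) (d.X b) := by
    by_cases h : a = b
    · subst h
      exact (Commute.refl _).mul_left (Commute.refl _)
    · have h1 := d.XX ha hb h
      have z1 := d.ζ_X ha
      show d.X a * d.X a * d.X b = d.X b * (d.X a * d.X a)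
      calc d.X a * d.X a * d.X b = d.X a * (d.X a * d.X b) := mul_assoc _ _ _
        _ = (d.X a * d.ζ) * d.X b * d.X a := by rw [h1]; simp only [mul_assoc]
        _ = d.ζ * (d.X a * d.X b) * d.X a := by rw [← z1]; simp only [mul_assoc]
        _ = (d.ζ * d.ζ) * (d.X b * (d.X a * d.X a)) := by rw [h1]; simp only [mul_assoc]
        _ = _ := by rw [d.ζζ, one_mul]
  exact (c2.mul_left c1).eq

theorem ZZ (ha : a < d.k) (hb : b < d.k) : d.Z a * d.Z b = d.Z b * d.Z a := by
  have c1 : Commute (d.Z a) (d.X b) := d.Z_X ha hb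
  have c2 : Commute (d.Z a) (d.ei b) := d.Z_S ha (d.mei hb)
  exact ((c1.mul_right c1).mul_right c2).eq

theorem T_Z (hc : c + 1 < d.k) (ha : a < d.k) (h0 : a ≠ c) (h1 : a ≠ c + 1) :
    d.T c * d.Z a = d.Z a * d.T c := by
  have c1 : Commute (d.T c) (d.X a) := d.T_X hc ha h0 h1
  have c2 : Commute (d.T c) (d.ei a) := d.T_ei hc ha h0 h1
  exact ((c1.mul_right c1).mul_right c2).eq

theorem Z_unit (ha : a < d.k) : IsUnit (d.Z a) :=
  ((d.X_unit ha).mul (d.X_unit ha)).mul ⟨⟨d.ei a, d.et a, d.ei_et ha, d.et_ei ha⟩, rfl⟩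

theorem R1 (h : a + 1 < d.k) :
    d.T a * d.X a = d.X (a + 1) * d.T a - (d.Q - 1) • (d.X (a + 1) * d.e a) := by
  calc d.T a * d.X a = d.T a * d.X a * (d.T a * d.Ti a) := by rw [d.T_Ti h, mul_one]
    _ = d.X (a + 1) * (d.T a - (d.Q - 1) • d.e a) := by
        rw [kb_X, Ti]; simp only [mul_smul_comm, smul_mul_assoc, mul_assoc]
    _ = _ := by rw [mul_sub, mul_smul_comm]

theorem R2 (h : a + 1 < d.k) :
    d.T a * d.X (a + 1) = d.ζ * (d.X a * d.T a) + (d.Q - 1) • (d.e a * d.X (a + 1)) := by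
  have i1 := d.h_X0 h
  have t1 := d.hT a h
  have e1 : d.h a * (d.X a * d.T a * d.h a) = d.ζ * (d.X a * d.T a) := by
    calc d.h a * (d.X a * d.T a * d.h a) = (d.h a * d.X a) * (d.T a * d.h a) := by
          simp only [mul_assoc]
      _ = d.ζ * (d.X a * ((d.h a * d.h a) * d.T a)) := by rw [i1, ← t1]; simp only [mul_assoc]
      _ = _ := by rw [d.hh a h, one_mul]
  calc d.T a * d.X (a + 1) = d.Q⁻¹ • ((d.T a * d.T a) * (d.X a * d.T a * d.h a)) := by
        rw [kb_X]; simp only [mul_smul_comm, mul_assoc]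
    _ = _ := by
        rw [d.kb_qT h, add_mul, smul_add, smul_mul_assoc, smul_smul, inv_mul_cancel₀ d.Q0,
          one_smul, e1, smul_mul_assoc, smul_comm, kb_X]
        simp only [mul_smul_comm, mul_assoc]

end Pool.Agent.Lib.MP_1ae3da_al.JM.YD
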