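import Pool.Agent.Lib.MP_1ae3da_al.J.G4
import Pool.Agent.Lib.MP_1ae3da_al.J.K1b
import Pool.Agent.Lib.MP_1ae3da_al.A.Sq

/-! The spectral hypotheses. -/

namespace Pool.Agent.Lib.MP_1ae3da_al.JM

open SLI CT CT.Z

section star

open Submodule Polynomial

variable {F X : Type} [Field F] [Group X]

theorem g5_span (a : MonoidAlgebra F X) : a ∈ span F (Set.range (gu F X)) := by
  have : gu F X = MonoidAlgebra.basis X F := funext fun y => (MonoidAlgebra.basis_apply F y).symm
  rw [this, Module.Basis.span_eq]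
  trivial

theorem g5_anti (st : MonoidAlgebra F X →ₗ[F] MonoidAlgebra F X)
    (hst : ∀ x, st (gu F X x) = gu F X x⁻¹) (a b : MonoidAlgebra F X) :
    st (a * b) = st b * st a := by
  induction g5_span a using span_induction with
  | mem a ha =>
    obtain ⟨x, rfl⟩ := ha
    induction g5_span b using span_induction with
    | mem b hb =>
      obtain ⟨y, rfl⟩ := hb
      rw [gu_mul, hst, hst, hst, gu_mul, mul_inv_rev]
    | zero => simp
    | add b c _ _ p q => rw [mul_add, map_add, map_add, p, q, add_mul]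
    | smul t b _ p => rw [mul_smul_comm, map_smul, map_smul, p, smul_mul_assoc]
  | zero => simp
  | add a c _ _ p q => rw [add_mul, map_add, map_add, p, q, mul_add]
  | smul t a _ p => rw [smul_mul_assoc, map_smul, map_smul, p, mul_smul_comm]

theorem g5_inv (st : MonoidAlgebra F X →ₗ[F] MonoidAlgebra F X)
    (hst : ∀ x, st (gu F X x) = gu F X x⁻¹) (a : MonoidAlgebra F X) : st (st a) = a := by
  induction g5_span a using span_induction with
  | mem a ha =>
    obtain ⟨x, rfl⟩ := ha
    rw [hst, hst, inv_inv]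
  | zero => simp
  | add a c _ _ p q => rw [map_add, map_add, p, q]
  | smul t a _ p => rw [map_smul, map_smul, p]

theorem g5_one (st : MonoidAlgebra F X →ₗ[F] MonoidAlgebra F X)
    (hst : ∀ x, st (gu F X x) = gu F X x⁻¹) : st 1 = 1 := by
  have := hst 1
  rwa [inv_one, gu_one] at this

theorem g5_ex (F X : Type) [Field F] [Group X] :
    ∃ st : MonoidAlgebra F X →ₗ[F] MonoidAlgebra F X, ∀ x, st (gu F X x) = gu F X x⁻¹ :=
  ⟨(MonoidAlgebra.basis X F).constr F fun x => gu F X x⁻¹, fun x => by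
    have : gu F X x = MonoidAlgebra.basis X F x := (MonoidAlgebra.basis_apply F x).symm
    rw [this, Module.Basis.constr_basis]⟩

variable [CharZero F]

theorem g5_gu (x : X) : gu F X x ∈ span ℚ (Set.range (gu F X)) := subset_span ⟨x, rfl⟩

theorem g5_1 : (1 : MonoidAlgebra F X) ∈ span ℚ (Set.range (gu F X)) := g5_gu 1

theorem g5_mul {a b : MonoidAlgebra F X} (ha : a ∈ span ℚ (Set.range (gu F X)))
    (hb : b ∈ span ℚ (Set.range (gu F X))) : a * b ∈ span ℚ (Set.range (gu F X)) := by
  induction ha using span_induction with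
  | mem a ha =>
    obtain ⟨x, rfl⟩ := ha
    induction hb using span_induction with
    | mem b hb =>
      obtain ⟨y, rfl⟩ := hb
      rw [gu_mul]
      exact g5_gu _
    | zero => simp
    | add b c _ _ p q => rw [mul_add]; exact add_mem p q
    | smul t b _ p => rw [mul_smul_comm]; exact smul_mem _ _ p
  | zero => simp
  | add a c _ _ p q => rw [add_mul]; exact add_mem p q
  | smul t a _ p => rw [smul_mul_assoc]; exact smul_mem _ _ p

theorem g5_nat (m : ℕ) {a : MonoidAlgebra F X} (ha : a ∈ span ℚ (Set.range (gu F X))) :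
    (m : F) • a ∈ span ℚ (Set.range (gu F X)) := by
  rw [Nat.cast_smul_eq_nsmul]
  exact nsmul_mem ha m

theorem g5_nin (m : ℕ) {a : MonoidAlgebra F X} (ha : a ∈ span ℚ (Set.range (gu F X))) :
    (m : F)⁻¹ • a ∈ span ℚ (Set.range (gu F X)) := by
  have : (m : F)⁻¹ = (((m : ℚ)⁻¹ : ℚ) : F) := by simp
  rw [this, Rat.cast_smul_eq_qsmul]
  exact smul_mem _ _ ha

theorem g5_st (st : MonoidAlgebra F X →ₗ[F] MonoidAlgebra F X)
    (hst : ∀ x, st (gu F X x) = gu F X x⁻¹) {a : MonoidAlgebra F X}
    (ha : a ∈ span ℚ (Set.range (gu F X))) : st a ∈ span ℚ (Set.range (gu F X)) := by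
  induction ha using span_induction with
  | mem a ha =>
    obtain ⟨x, rfl⟩ := ha
    rw [hst]
    exact g5_gu _
  | zero => simp
  | add a c _ _ p q => rw [map_add]; exact add_mem p q
  | smul t a _ p => rw [map_rat_smul]; exact smul_mem _ _ p

variable [Finite X]

theorem g5_pos (st : MonoidAlgebra F X →ₗ[F] MonoidAlgebra F X)
    (hst : ∀ x, st (gu F X x) = gu F X x⁻¹) {a : MonoidAlgebra F X}
    (ha : a ∈ span ℚ (Set.range (gu F X))) (h0 : a * st a = 0) : a = 0 := by
  classical
  have _ := Fintype.ofFinite X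
  obtain ⟨q, rfl⟩ := (mem_span_range_iff_exists_fun ℚ).1 ha
  have h1 := congrArg (zAvCo F (1 : X)) h0
  simp only [map_sum, map_rat_smul, hst, Finset.sum_mul, Finset.mul_sum, smul_mul_assoc,
    mul_smul_comm, gu_mul, zAv_co, mul_inv_eq_one, map_zero, smul_ite, smul_zero,
    Finset.smul_sum, Finset.sum_ite_eq', Finset.mem_univ, if_true] at h1
  have h2 : ((∑ x, q x * q x : ℚ) : F) = 0 := by
    rw [← h1, Rat.cast_sum]
    exact Finset.sum_congr rfl fun x _ => by rw [smul_smul, Rat.smul_one_eq_cast]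
  have h3 : ∑ x, q x * q x = 0 := by exact_mod_cast h2
  have h4 := (Finset.sum_eq_zero_iff_of_nonneg fun x _ => mul_self_nonneg (q x)).1 h3
  exact Finset.sum_eq_zero fun x hx => by rw [mul_self_eq_zero.1 (h4 x hx), zero_smul]

theorem g5_av (E : Subgroup X) : av F E ∈ span ℚ (Set.range (gu F X)) := by
  have _ := Fintype.ofFinite E
  rw [zAv_def]
  exact g5_nin _ (sum_mem fun x _ => g5_gu _)

theorem g5_jt (E : Subgroup X) (t : X) : jt F E t ∈ span ℚ (Set.range (gu F X)) :=
  add_mem (g5_mul (g5_gu t) (g5_av E)) (sub_mem g5_1 (g5_av E))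

theorem g5_tau (E : Subgroup X) (g : X) : tau F E g ∈ span ℚ (Set.range (gu F X)) :=
  g5_nat _ (add_mem (g5_mul (g5_mul (g5_av E) (g5_gu g)) (g5_av E)) (sub_mem g5_1 (g5_av E)))

omit [CharZero F] in
theorem g5_st_av (st : MonoidAlgebra F X →ₗ[F] MonoidAlgebra F X)
    (hst : ∀ x, st (gu F X x) = gu F X x⁻¹) (E : Subgroup X) : st (av F E) = av F E := by
  have _ := Fintype.ofFinite E
  rw [zAv_def, map_smul, map_sum, ← Equiv.sum_comp (Equiv.inv E) fun x : E => gu F X x]
  simp only [hst, Equiv.inv_apply, InvMemClass.coe_inv]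

theorem g5_st_jt (st : MonoidAlgebra F X →ₗ[F] MonoidAlgebra F X)
    (hst : ∀ x, st (gu F X x) = gu F X x⁻¹) {E : Subgroup X} {t : X}
    (ht : t ∈ Subgroup.normalizer (E : Set X)) : st (jt F E t) = jt F E t⁻¹ := by
  rw [jt, jt, map_add, map_sub, g5_anti st hst, g5_st_av st hst, hst, g5_one st hst,
    av_comm.2 (inv_mem ht)]

theorem g5_st_tau (st : MonoidAlgebra F X →ₗ[F] MonoidAlgebra F X)
    (hst : ∀ x, st (gu F X x) = gu F X x⁻¹) {E : Subgroup X} {g : X}
    (hg : g * g ∈ Subgroup.normalizer (E : Set X)) :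
    st (tau F E g) = tau F E g * jt F E (g * g)⁻¹ := by
  have h1 : st (an F E g) = an F E g⁻¹ := by
    rw [an, an, g5_anti st hst, g5_anti st hst, g5_st_av st hst, hst, mul_assoc]
  have h2 : an F E g * (gu F X (g * g)⁻¹ * av F E) = an F E g⁻¹ := by
    rw [← mul_assoc, ← an_right (inv_mem hg), (av_an _).2]
    congr 1
    group
  have h3 : an F E g * (1 - av F E) = 0 := by rw [mul_sub, mul_one, (av_an _).2, sub_self]
  have h4 : (1 - av F E) * (gu F X (g * g)⁻¹ * av F E) = 0 := by
    rw [av_comm.2 (inv_mem hg), ← mul_assoc, sub_mul, one_mul, av_idem, sub_self, zero_mul]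
  have h5 : (1 - av F E) * (1 - av F E) = 1 - av F E := by
    rw [mul_sub, mul_one, sub_mul, one_mul, av_idem, sub_self, sub_zero]
  rw [tau, jt, map_smul, map_add, map_sub, h1, g5_st_av st hst, g5_one st hst, smul_mul_assoc,
    add_mul, mul_add, mul_add, h2, h3, h4, h5, add_zero, zero_add]

end star

/-- the form `(a, b) ↦` coefficient of `1` in `a * b*` is positive definite on the rational
group algebra, so the minimal polynomial of `y * y*` is squarefree. -/
theorem sp_star {F X : Type} [Field F] [CharZero F] [IsAlgClosed F] [Group X] [Finite X]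
    (st : MonoidAlgebra F X →ₗ[F] MonoidAlgebra F X) (hst : ∀ x, st (gu F X x) = gu F X x⁻¹)
    {y : MonoidAlgebra F X} (hy : y ∈ Submodule.span ℚ (Set.range (gu F X))) :
    Sp F (y * st y) := by
  classical
  have hc : y * st y ∈ Submodule.span ℚ (Set.range (gu F X)) := g5_mul hy (g5_st st hst hy)
  have hs : st (y * st y) = y * st y := by rw [g5_anti st hst, g5_inv st hst]
  generalize y * st y = c at hc hs
  have hp : ∀ i : ℕ, c ^ i ∈ Submodule.span ℚ (Set.range (gu F X)) ∧ st (c ^ i) = c ^ i := by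
    intro i
    induction i with
    | zero => rw [pow_zero]; exact ⟨g5_1, g5_one st hst⟩
    | succ i ih =>
      exact ⟨by rw [pow_succ]; exact g5_mul ih.1 hc, by
        rw [pow_succ, g5_anti st hst, ih.2, hs, ← pow_succ', pow_succ]⟩
  have hred : ∀ f : Polynomial ℚ, Polynomial.aeval c (f * f) = 0 → Polynomial.aeval c f = 0 := by
    intro f hf
    have h1 : Polynomial.aeval c f ∈ Submodule.span ℚ (Set.range (gu F X)) := by
      rw [Polynomial.aeval_eq_sum_range]
      exact Submodule.sum_mem _ fun i _ => Submodule.smul_mem _ _ (hp i).1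
    have h2 : st (Polynomial.aeval c f) = Polynomial.aeval c f := by
      rw [Polynomial.aeval_eq_sum_range, map_sum]
      exact Finset.sum_congr rfl fun i _ => by rw [map_rat_smul, (hp i).2]
    exact g5_pos st hst h1 (by rw [h2, ← map_mul, hf])
  have hint : IsIntegral ℚ c :=
    IsIntegral.of_mem_of_fg
      ((Submodule.span ℚ (Set.range (gu F X))).toSubalgebra g5_1 fun _ _ => g5_mul)
      (Submodule.fg_span (Set.finite_range _)) c hc
  have hsq : Squarefree (minpoly ℚ c) := by
    rintro f ⟨g, hg⟩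
    have h0 : f * g ≠ 0 := fun e => minpoly.ne_zero hint (by rw [hg, mul_assoc, e, mul_zero])
    have h1 : Polynomial.aeval c (f * g) = 0 := hred _ (by
      rw [show f * g * (f * g) = minpoly ℚ c * g by rw [hg]; ring, map_mul, minpoly.aeval,
        zero_mul])
    have h2 := minpoly.dvd ℚ c h1
    rw [hg, mul_assoc] at h2
    exact isUnit_of_dvd_one ((mul_dvd_mul_iff_right h0).1 (by rwa [one_mul]))
  have hsep : ((minpoly ℚ c).map (algebraMap ℚ F)).Separable :=
    (PerfectField.separable_iff_squarefree.2 hsq).map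
  have hm : ((minpoly ℚ c).map (algebraMap ℚ F)).Monic := (minpoly.monic hint).map _
  refine ⟨((minpoly ℚ c).map (algebraMap ℚ F)).roots.toFinset, ?_⟩
  have e : Lagrange.nodal ((minpoly ℚ c).map (algebraMap ℚ F)).roots.toFinset id =
      (minpoly ℚ c).map (algebraMap ℚ F) := by
    rw [Lagrange.nodal, Finset.prod_eq_multiset_prod, Multiset.toFinset_val,
      (Polynomial.nodup_roots hsep).dedup]
    exact (Polynomial.Splits.eq_prod_roots_of_monic (IsAlgClosed.splits _) hm).symm
  rw [e, Polynomial.aeval_map_algebraMap, minpoly.aeval]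

theorem ex_u {p : ℕ} {F k : Type} [Field F] [Field k] {O R : Subring F} {ρ : F → k}
    {GG : Subgroup (RingAut F)} (hP : PM p O R ρ GG) (h2 : p ≠ 2) {q : ℕ} (hq : q ≡ 1 [MOD p]) :
    ∃ u : F, u ^ 2 = q ∧ ∀ σ ∈ GG, σ u = u := by
  obtain ⟨u, h1, h3⟩ := CT.A.sq_fix hP h2 (q := q) (by simpa using hq.symm.dvd)
  exact ⟨u, by rw [sq, h1], h3⟩

theorem pow_q0 {p r j : ℕ} (hp : p.Prime) (h : r ^ j ≡ 1 [MOD p]) :
    ∃ κ, r ^ j = (r ^ orderOf (r : ZMod p)) ^ κ := by
  have h1 : (r : ZMod p) ^ j = 1 := by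
    have := (ZMod.natCast_eq_natCast_iff _ _ _).2 h
    rwa [Nat.cast_pow, Nat.cast_one] at this
  obtain ⟨κ, hκ⟩ := orderOf_dvd_of_pow_eq_one h1
  exact ⟨κ, by rw [← pow_mul, ← hκ]⟩

variable {p r k : ℕ} {X : Type} [Group X] [Finite X] [hp : Fact p.Prime] [hr : Fact r.Prime]
  {U : Sylow r X} {N : Subgroup X} {n : ℕ → X} {F : Type} [Field F] [CharZero F] [IsAlgClosed F]

/-- by induction `X a` has rational coefficients and `st (X a) = X a * ei a`. -/
theorem TB.sp (h : TB p k U N n) {d : YD F (MonoidAlgebra F X)} (hd : Mt k U N n d) {a : ℕ}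
    (ha : a < k) : Sp F (d.Z a) := by
  obtain ⟨st, hst⟩ := g5_ex F X
  have key : ∀ a, a < k → d.X a ∈ Submodule.span ℚ (Set.range (gu F X)) ∧
      st (d.X a) = d.X a * d.ei a := by
    intro a
    induction a with
    | zero =>
      intro h0
      rw [YD.X, YD.ei, hd.x, hd.ηi]
      exact ⟨g5_tau _ _, g5_st_tau st hst (h.w.sq 0 h0).2⟩
    | succ a ih =>
      intro h1
      have h1' : a + 1 < d.k := by rwa [hd.k]
      obtain ⟨i1, i2⟩ := ih (Nat.lt_of_succ_lt h1)
      have hs := h.w.sq _ h1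
      have e1 : jt F (U : Subgroup X) (n (a + 1) * n (a + 1))⁻¹ = d.h a := by
        have e : d.h a * jt F (U : Subgroup X) (n (a + 1) * n (a + 1))⁻¹ = 1 := by
          rw [hd.h, ← jt_mul hs (inv_mem hs), mul_inv_cancel, jt_one]
        rw [← one_mul (jt F _ _), ← d.hh a h1', mul_assoc, e, mul_one]
      have e2 : st (d.T a) = d.T a * d.h a := by rw [← e1, hd.T, g5_st_tau st hst hs.2]
      have e3 : st (d.h a) = d.h a := by
        conv_lhs => rw [hd.h, g5_st_jt st hst hs.2, e1]
      have mT : d.T a ∈ Submodule.span ℚ (Set.range (gu F X)) := by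
        rw [hd.T]; exact g5_tau _ _
      have mh : d.h a ∈ Submodule.span ℚ (Set.range (gu F X)) := by
        rw [hd.h]; exact g5_jt _ _
      refine ⟨?_, ?_⟩
      · rw [YD.X, hd.Q]
        exact g5_nin _ (g5_mul (g5_mul (g5_mul mT i1) mT) mh)
      · have e4 : d.h a * (d.T a * d.h a) = d.T a := by
          rw [← mul_assoc, d.hT a h1', mul_assoc, d.hh a h1', mul_one]
        have e5 : d.T a * (d.h a * d.ei (a + 1)) = d.ei a * (d.T a * d.h a) := by
          rw [d.cm _ (d.mh a h1') _ (d.mei h1'), ← mul_assoc, d.T_ei1 h1', mul_assoc]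
        have e6 : st (d.T a * d.X a * d.T a * d.h a) =
            d.T a * d.X a * d.T a * d.h a * d.ei (a + 1) := by
          rw [g5_anti st hst, g5_anti st hst, g5_anti st hst, e2, e3, i2]
          calc d.h a * (d.T a * d.h a * (d.X a * d.ei a * (d.T a * d.h a)))
              = d.h a * (d.T a * d.h a) * (d.X a * (d.ei a * (d.T a * d.h a))) := by
                simp only [mul_assoc]
            _ = _ := by
                rw [e4, ← e5]
                simp only [mul_assoc]
        rw [YD.X, map_smul, smul_mul_assoc, e6]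
  have := sp_star st hst (key a ha).1
  rwa [(key a ha).2, ← mul_assoc] at this

end Pool.Agent.Lib.MP_1ae3da_al.JM
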