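import Pool.Agent.Lib.MP_1ae3da_al.J.G4

/-! The eigenvalues of the first Jucys-Murphy element. -/

namespace Pool.Agent.Lib.MP_1ae3da_al.JM

open SLI CT CT.Z Polynomial

section alg
variable {F A : Type} [Field F] [CharZero F] [Ring A] [Algebra F A] [Module.Finite F A]

/-- the trace of the left regular representation. -/
noncomputable def zTr (F A : Type) [Field F] [Ring A] [Algebra F A] : A →ₗ[F] F :=
  (LinearMap.trace F A).comp (Algebra.lmul F A).toLinearMap

theorem zb_idem {π : A} (h : π * π = π) (h0 : π ≠ 0) : ∃ d : ℕ, d ≠ 0 ∧ zTr F A π = d := by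
  have e : IsIdempotentElem (Algebra.lmul F A π) := by
    rw [IsIdempotentElem, ← map_mul, h]
  refine ⟨_, fun k => h0 ?_, (LinearMap.IsIdempotentElem.isProj_range _ e).trace⟩
  have k2 : Algebra.lmul F A π = 0 := LinearMap.IsIdempotentElem.eq_zero_of_trace_eq_zero e
    ((LinearMap.IsIdempotentElem.isProj_range _ e).trace.trans (Nat.cast_eq_zero.2 k))
  simpa using LinearMap.congr_fun k2 1

theorem zb_alg {π a w : A} {K c l : F} (hπ : π * π = π) (h1 : π * a = a) (h2 : a * π = a)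
    (hq : a * a = K • π + c • a) (ht : zTr F A a = 0) (w0 : w ≠ 0) (πw : π * w = w)
    (aw : a * w = l • w) (K0 : K ≠ 0) (hl : l * l = K + c * l) :
    ∃ d1 d2 : ℕ, d1 ≠ 0 ∧ l * d1 + (c - l) * d2 = 0 := by
  have π0 : π ≠ 0 := fun k => w0 (by rw [← πw, k, zero_mul])
  obtain ⟨d, d0, hd⟩ := zb_idem (F := F) hπ π0
  have sq : (a - (c - l) • π) * (a - (c - l) • π) = (l - (c - l)) • (a - (c - l) • π) := by
    simp only [mul_sub, sub_mul, smul_mul_assoc, mul_smul_comm, hπ, h1, h2, hq]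
    match_scalars
    · linear_combination -hl
    · ring
  by_cases e : l - (c - l) = 0
  · exfalso
    rw [e, zero_smul] at sq
    have n : IsNilpotent (Algebra.lmul F A (a - (c - l) • π)) :=
      ⟨2, by rw [← map_pow, pow_two, sq, map_zero]⟩
    have k : zTr F A (a - (c - l) • π) = 0 := (LinearMap.isNilpotent_trace_of_isNilpotent n).eq_zero
    rw [map_sub, map_smul, ht, hd, zero_sub, neg_eq_zero, smul_eq_mul] at k
    have k2 := (mul_eq_zero.1 k).resolve_right (Nat.cast_ne_zero.2 d0)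
    exact K0 (by linear_combination -hl - l * k2)
  let P : A := (l - (c - l))⁻¹ • (a - (c - l) • π)
  have P2 : P * P = P := by
    rw [smul_mul_assoc, mul_smul_comm, sq, inv_smul_smul₀ e]
  have Pw : P * w = w := by
    rw [smul_mul_assoc, sub_mul, smul_mul_assoc, aw, πw, ← sub_smul, inv_smul_smul₀ e]
  have Pπ : P * π = P := by rw [smul_mul_assoc, sub_mul, smul_mul_assoc, h2, hπ]
  have πP : π * P = P := by rw [mul_smul_comm, mul_sub, mul_smul_comm, h1, hπ]
  obtain ⟨d1, d10, h3⟩ := zb_idem (F := F) P2 fun k => w0 (by rw [← Pw, k, zero_mul])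
  have h4 : ∃ d2 : ℕ, zTr F A (π - P) = d2 := by
    by_cases k : π - P = 0
    · exact ⟨0, by rw [k, map_zero, Nat.cast_zero]⟩
    · obtain ⟨d2, -, k2⟩ := zb_idem (F := F) (π := π - P)
        (by rw [mul_sub, sub_mul, sub_mul, hπ, Pπ, πP, P2, sub_self, sub_zero]) k
      exact ⟨d2, k2⟩
  obtain ⟨d2, h4⟩ := h4
  refine ⟨d1, d2, d10, ?_⟩
  rw [← h3, ← h4, ← smul_eq_mul, ← smul_eq_mul, ← map_smul, ← map_smul, ← map_add, ← ht]
  congr 1
  simp only [P]
  match_scalars <;> field_simp <;> ring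

omit [Module.Finite F A] in
theorem zb_int {x : F} (h : IsIntegral ℤ x) {q : ℚ} (e : x = q) : ∃ m : ℤ, (m : ℚ) = q := by
  rw [e] at h
  exact IsIntegrallyClosed.isIntegral_iff.1
    ((isIntegral_algebraMap_iff (algebraMap ℚ F).injective).1 h)

omit [CharZero F] in
theorem zb_root {K c l : F} (hK : IsIntegral ℤ K) (hc : IsIntegral ℤ c) (hl : l * l = K + c * l) :
    IsIntegral ℤ l := by
  let K' : integralClosure ℤ F := ⟨K, hK⟩
  let c' : integralClosure ℤ F := ⟨c, hc⟩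
  refine isIntegral_trans (A := integralClosure ℤ F) l
    ⟨X ^ 2 - (C c' * X + C K'), monic_X_pow_sub degree_linear_lt, ?_⟩
  simp only [eval₂_sub, eval₂_add, eval₂_mul, eval₂_C, eval₂_X, eval₂_X_pow]
  change l ^ 2 - (c * l + K) = 0
  linear_combination hl

theorem zb_num {p r j : ℕ} (hp : p.Prime) (hr : r.Prime) (hQ : r ^ j ≡ 1 [MOD p])
    {z l ω ωi c : F} (hc : IsIntegral ℤ c) (hω : IsIntegral ℤ ω) (hωi : IsIntegral ℤ ωi)
    (ωω : ω * ωi = 1) (hl : l * l = (r ^ j : ℕ) * ω + p * c * l) (hz : l * l = z * ω) {d1 d2 : ℕ}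
    (d0 : d1 ≠ 0) (hd : l * d1 + (p * c - l) * d2 = 0) :
    ∃ i : ℕ, z = (r ^ i : ℕ) ∧ r ^ i ≡ 1 [MOD p] := by
  generalize hq : r ^ j = Q at hQ hl
  have Q0 : Q ≠ 0 := hq ▸ pow_ne_zero _ hr.ne_zero
  have Q1 : (Q : F) ≠ 0 := Nat.cast_ne_zero.2 Q0
  have d1' : (d1 : F) ≠ 0 := Nat.cast_ne_zero.2 d0
  have p0 : (p : F) ≠ 0 := Nat.cast_ne_zero.2 hp.ne_zero
  have iN : ∀ n : ℕ, IsIntegral ℤ (n : F) := fun n => isIntegral_natCast n
  have il := zb_root ((iN Q).mul hω) ((iN p).mul hc) hl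
  have il' := ((iN p).mul hc).sub il
  have e1 : z = l * l * ωi := by linear_combination -ωi * hz - z * ωω
  have e2 : z * d1 = Q * d2 := by
    linear_combination ωi * l * hd - d1 * ωi * hz + d2 * ωi * hl - (z * d1 - Q * d2) * ωω
  have e3 : z * ((p * c - l) * (p * c - l) * ωi) = Q * Q := by
    have : l * (p * c - l) = -(Q * ω) := by linear_combination -hl
    rw [e1]
    linear_combination (l * (p * c - l) - Q * ω) * ωi ^ 2 * this + Q * Q * (ω * ωi + 1) * ωω
  obtain ⟨m, hm⟩ := zb_int (x := z) (e1 ▸ (il.mul il).mul hωi) (q := Q * d2 / d1) (by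
    push_cast
    rw [eq_div_iff d1', e2])
  have zm : z = m := by
    have := congrArg (fun q : ℚ => (q : F)) hm
    push_cast at this
    rw [this, eq_div_iff d1', e2]
  have m0 : (m : F) ≠ 0 := fun k => mul_ne_zero Q1 Q1 (by rw [← e3, zm, k, zero_mul])
  obtain ⟨m', hm'⟩ := zb_int ((il'.mul il').mul hωi) (q := Q * Q / m) (by
    push_cast
    rw [eq_div_iff m0, ← e3, zm, mul_comm])
  obtain ⟨k, hk⟩ := zb_int ((hc.mul il).mul hωi) (q := (m - Q) / p) (by
    push_cast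
    rw [eq_div_iff p0, ← zm]
    linear_combination ωi * hz - ωi * hl + (z - Q) * ωω)
  have m1 : (m : ℚ) ≠ 0 := Int.cast_ne_zero.2 (Int.cast_ne_zero.1 m0)
  rw [eq_div_iff m1] at hm'
  rw [eq_div_iff (Nat.cast_ne_zero.2 hp.ne_zero)] at hk
  have pos : 0 ≤ m := by
    have : (0 : ℚ) ≤ m := hm ▸ by positivity
    exact_mod_cast this
  obtain ⟨n, rfl⟩ := Int.eq_ofNat_of_zero_le pos
  have dv : n ∣ r ^ (j + j) := by
    rw [pow_add, hq, ← Int.natCast_dvd_natCast]
    exact ⟨m', by exact_mod_cast (mul_comm _ _).trans hm' |>.symm⟩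
  obtain ⟨i, -, rfl⟩ := (Nat.dvd_prime_pow hr).1 dv
  refine ⟨i, by exact_mod_cast zm, Nat.ModEq.trans (Nat.modEq_iff_dvd.2 ⟨-k, ?_⟩) hQ⟩
  have : k * (p : ℤ) = (r ^ i : ℕ) - (Q : ℤ) := by exact_mod_cast hk
  linear_combination this

omit [CharZero F] in
theorem zb_orb {p : ℕ} [Fact p.Prime] {P Y : Type} [Group P] [Fintype Y] [MulAction P Y]
    (hP : IsPGroup p P) (hY : ∀ y : Y, ∃ s : P, s • y ≠ y) (f : Y → F)
    (hf : ∀ (s : P) y, f (s • y) = f y) (hi : ∀ y, IsIntegral ℤ (f y)) :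
    ∃ c, IsIntegral ℤ c ∧ ∑ y, f y = p * c := by
  classical
  rw [Finset.sum_comp (fun x : F => x) f]
  refine Finset.sum_induction _ (fun x : F => ∃ c : F, IsIntegral ℤ c ∧ x = p * c) ?_
    ⟨0, isIntegral_zero, (mul_zero _).symm⟩ fun b hb => ?_
  · rintro _ _ ⟨a, ha, rfl⟩ ⟨b, hb, rfl⟩
    exact ⟨a + b, ha.add hb, (mul_add _ _ _).symm⟩
  · obtain ⟨y, -, rfl⟩ := Finset.mem_image.1 hb
    let S : SubMulAction P Y := ⟨{x | f x = f y}, fun s x hx => (hf s x).trans hx⟩
    have hd : p ∣ Nat.card S := by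
      by_contra hn
      obtain ⟨x, hx⟩ := hP.nonempty_fixed_point_of_prime_not_dvd_card S hn
      obtain ⟨s, hs⟩ := hY x
      exact hs (congrArg Subtype.val (hx s))
    obtain ⟨m, hm⟩ := hd
    have e : (Finset.univ.filter fun x => f x = f y).card = p * m := by
      rw [← hm, ← Fintype.card_subtype, ← Nat.card_eq_fintype_card]
      rfl
    exact ⟨m * f y, (isIntegral_natCast m).mul (hi y), by
      rw [e, nsmul_eq_mul, Nat.cast_mul, mul_assoc]⟩

end alg

variable {p r k : ℕ} {X : Type} [Group X] [Finite X] [hp : Fact p.Prime] [hr : Fact r.Prime]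
  {U : Sylow r X} {N : Subgroup X} {n : ℕ → X} {F : Type} [Field F] [CharZero F] [IsAlgClosed F]

omit [CharZero F] [IsAlgClosed F] in
theorem zb_gu {x : X} (hx : x ≠ 1) : zTr F (MonoidAlgebra F X) (gu F X x) = 0 := by
  classical
  have := Fintype.ofFinite X
  rw [zTr, LinearMap.comp_apply, LinearMap.trace_eq_matrix_trace F (MonoidAlgebra.basis X F)]
  refine Finset.sum_eq_zero fun y _ => ?_
  rw [Matrix.diag_apply, LinearMap.toMatrix_apply, MonoidAlgebra.basis_apply]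
  change zAvCo F y (gu F X x * gu F X y) = 0
  rw [gu_mul, zAv_co, if_neg fun e => hx (mul_eq_right.1 e)]

omit [CharZero F] [IsAlgClosed F] in
theorem zb_an (h : BV p U N) {m : X} (hm : m ∈ N) (h1 : m ≠ 1) :
    zTr F (MonoidAlgebra F X) (an F U m) = 0 := by
  have := Fintype.ofFinite (U : Subgroup X)
  rw [zAv_an, map_smul, map_sum, Finset.sum_eq_zero fun v _ => ?_, smul_zero]
  rw [map_sum]
  exact Finset.sum_eq_zero fun u _ => zb_gu fun e => h1 (h.dc hm (one_mem _) u.2 v.2 e)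

omit [IsAlgClosed F] in
theorem zb_pow {t : X} (ht : t ∈ Tor U N) (m : ℕ) : jt F U t ^ m = jt F U (t ^ m) := by
  induction m with
  | zero => rw [pow_zero, pow_zero, jt_one]
  | succ m ih => rw [pow_succ, pow_succ, ih, jt_mul (pow_mem ht m) ht]

theorem zb_sp {t : X} (ht : t ∈ Tor U N) : Sp F (jt F (U : Subgroup X) t) := by
  have : NeZero ((Nat.card X : ℕ) : F) := ⟨Nat.cast_ne_zero.2 Nat.card_pos.ne'⟩
  have : NeZero (Nat.card X) := ⟨Nat.card_pos.ne'⟩
  obtain ⟨ζ, hζ⟩ := HasEnoughRootsOfUnity.exists_primitiveRoot F (Nat.card X)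
  refine ⟨nthRootsFinset (Nat.card X) 1, ?_⟩
  change aeval _ (∏ c ∈ nthRootsFinset (Nat.card X) (1 : F), (Polynomial.X - C c)) = 0
  rw [← X_pow_sub_one_eq_prod Nat.card_pos hζ, map_sub, map_pow, aeval_X, map_one, zb_pow ht,
    pow_card_eq_one', jt_one, sub_self]

omit hp in
theorem zb_joint (h : BV p U N) {a b v : MonoidAlgebra F X} {z : F}
    (ha : ∀ t ∈ Tor U N, jt F U t * a = a * jt F U t)
    (hb : ∀ t ∈ Tor U N, jt F U t * b = b * jt F U t) (hv : v ≠ 0) (av : a * v = v)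
    (bv : b * v = z • v) : ∃ w, w ≠ 0 ∧ (a * w = w ∧ b * w = z • w) ∧
      ∃ θ : X → F, ∀ t ∈ Tor U N, jt F U t * w = θ t • w := by
  classical
  have := Fintype.ofFinite X
  have key : ∀ L : Finset X, ∃ w, w ≠ 0 ∧ (a * w = w ∧ b * w = z • w) ∧
      ∃ θ : X → F, ∀ t ∈ L, t ∈ Tor U N → jt F U t * w = θ t • w := fun L => by
    induction L using Finset.induction_on with
    | empty => exact ⟨v, hv, ⟨av, bv⟩, 0, by simp⟩
    | insert s L _ ih =>
      obtain ⟨w, w0, Pw, θ, hθ⟩ := ih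
      by_cases hs : s ∈ Tor U N
      · obtain ⟨S, f, e, hf⟩ := (zb_sp (F := F) hs).dec w
        obtain ⟨c, hc, k⟩ := Finset.exists_ne_zero_of_sum_ne_zero (e ▸ w0)
        refine ⟨_, k, ⟨by rw [← mul_assoc, ← aev_comm (ha s hs), mul_assoc, Pw.1], by
          rw [← mul_assoc, ← aev_comm (hb s hs), mul_assoc, Pw.2, mul_smul_comm]⟩,
          Function.update θ s c, fun t ht ht' => ?_⟩
        by_cases ts : t = s
        · rw [ts, Function.update_self, ← mul_assoc, hf c hc, smul_mul_assoc]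
        · rw [Function.update_of_ne ts, ← mul_assoc, ← aev_comm (by
            rw [← jt_mul hs ht', ← jt_mul ht' hs, h.ab s hs t ht']), mul_assoc,
            hθ t ((Finset.mem_insert.1 ht).resolve_left ts) ht', mul_smul_comm]
      · exact ⟨w, w0, Pw, θ, fun t ht ht' =>
          hθ t ((Finset.mem_insert.1 ht).resolve_left fun e => hs (e ▸ ht')) ht'⟩
  obtain ⟨w, w0, Pw, θ, hθ⟩ := key Finset.univ
  exact ⟨w, w0, Pw, θ, fun t => hθ t (Finset.mem_univ t)⟩

theorem z0_pow (h : BV p U N) {g : X} (hg : g ∈ N) (h1 : g ∉ Tor U N) (h2 : g * g ∈ Tor U N)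
    (hat : Atom (U : Subgroup X) (Tor U N) g) {z : F} {v : MonoidAlgebra F X} (hv : v ≠ 0)
    (e : tau F U g * tau F U g * jt F U (g * g)⁻¹ * v = z • v) :
    ∃ j : ℕ, z = (r ^ j : ℕ) ∧ r ^ j ≡ 1 [MOD p] := by
  classical
  obtain ⟨j, hj⟩ := qn_pow (U := U) g
  have hm := hj ▸ qn_mod h hg h2 hat
  obtain ⟨Y, _, _, t, -, hT, hact, hD, -, hsq⟩ := tau_sq h hg h2 hat
  replace hsq := hsq F
  rw [hj] at hsq
  have ee : av F (U : Subgroup X) * av F U = av F U := av_idem
  have cτ : av F U * tau F U g = tau F U g * av F U := by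
    rw [tau, mul_smul_comm, smul_mul_assoc, mul_add, add_mul, (av_an g).1, (av_an g).2, mul_sub,
      sub_mul, mul_one, one_mul]
  have cj : ∀ s ∈ Tor U N, av F U * jt F U s = jt F U s * av F U := fun s hs => by
    rw [g4_jt (g4_N hs), mul_add, add_mul, (av_an s).1, (av_an s).2, mul_sub, sub_mul, mul_one,
      one_mul]
  have h2' := inv_mem h2
  have cZ : av F U * (tau F U g * tau F U g * jt F U (g * g)⁻¹) =
      tau F U g * tau F U g * jt F U (g * g)⁻¹ * av F U :=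
    (((Commute.mul_right cτ cτ).mul_right (cj _ h2'))).eq
  by_cases v0 : (1 - av F U) * v = 0
  swap
  · have k0 : av F U * ((1 - av F U) * v) = 0 := by
      rw [← mul_assoc, mul_sub, mul_one, ee, sub_self, zero_mul]
    have k1 : tau F U g * tau F U g * jt F U (g * g)⁻¹ * ((1 - av F U) * v) =
        z • ((1 - av F U) * v) := by
      rw [← mul_smul_comm, ← e, ← mul_assoc, ← mul_assoc (1 - _), mul_sub, sub_mul (1 : _), cZ,
        mul_one, one_mul]
    generalize (1 - av F (U : Subgroup X)) * v = x at v0 k0 k1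
    have k2 : tau F U g * x = ((r ^ j : ℕ) : F) • x := by
      rw [tau, hj, smul_mul_assoc, add_mul, ← (av_an g).2, mul_assoc, k0, sub_mul, k0]
      simp
    have k3 : jt F U (g * g)⁻¹ * x = x := by
      rw [jt, add_mul, mul_assoc, sub_mul, k0]
      simp
    rw [mul_assoc, k3, mul_assoc, k2, mul_smul_comm, k2, smul_smul] at k1
    refine ⟨j + j, ?_, by simpa [pow_add] using hm.mul hm⟩
    rw [pow_add, Nat.cast_mul]
    exact (smul_left_injective F v0 k1).symm
  rw [sub_mul, one_mul, sub_eq_zero] at v0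
  have cs : ∀ s ∈ Tor U N, jt F U s * (tau F U g * tau F U g * jt F U (g * g)⁻¹) =
      tau F U g * tau F U g * jt F U (g * g)⁻¹ * jt F U s := fun s hs => by
    have c1 : Commute (jt F U s) (jt F (U : Subgroup X) (g * g)⁻¹) :=
      (jt_mul hs h2').symm.trans ((congrArg _ (h.ab _ hs _ h2')).trans (jt_mul h2' hs))
    have c2 := tau_jt (F := F) h hg (g4_T h hg hs)
    rw [show g * (g * s * g⁻¹) * g⁻¹ = g * g * s * (g * g)⁻¹ by group, h.ab _ h2 _ hs,
      mul_inv_cancel_right] at c2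
    have c3 : Commute (jt F U s) (tau F U g * tau F (U : Subgroup X) g) := by
      refine Eq.symm ((mul_assoc _ _ _).trans ?_)
      rw [tau_jt h hg hs, ← mul_assoc (tau F _ g), c2, mul_assoc (jt F _ s)]
    exact (c3.mul_right c1).eq
  obtain ⟨w, w0, ⟨ew, Zw⟩, θ, hθ⟩ := zb_joint h (fun s hs => (cj s hs).symm) cs hv v0.symm e
  have θm : ∀ s ∈ Tor U N, ∀ s' ∈ Tor U N, θ (s * s') = θ s * θ s' := fun s hs s' hs' =>
    smul_left_injective F w0 (by
      simp only
      rw [← hθ _ (mul_mem hs hs'), jt_mul hs hs', mul_assoc, hθ s' hs', mul_smul_comm, hθ s hs,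
        smul_smul, mul_comm])
  have θ1 : θ 1 = 1 := smul_left_injective F w0 (by
    simp only
    rw [← hθ _ (one_mem _), jt_one, one_mul, one_smul])
  have θi : ∀ s ∈ Tor U N, θ s * θ s⁻¹ = 1 := fun s hs => by
    rw [← θm s hs _ (inv_mem hs), mul_inv_cancel, θ1]
  have θz : ∀ s ∈ Tor U N, IsIntegral ℤ (θ s) := fun s hs => by
    have k : ∀ m : ℕ, θ s ^ m = θ (s ^ m) := fun m => by
      induction m with
      | zero => rw [pow_zero, pow_zero, θ1]
      | succ m ih => rw [pow_succ, pow_succ, ih, θm _ (pow_mem hs m) _ hs]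
    exact IsIntegral.of_pow (Nat.card_pos (α := X)) (by
      rw [k, pow_card_eq_one', θ1]
      exact isIntegral_one)
  have cT : ∀ s ∈ Tor U N, g⁻¹ * s * g ∈ Tor U N := fun s hs => by
    have := g4_T h (inv_mem hg) hs
    rwa [inv_inv] at this
  have mv : ∀ x, (∀ s ∈ Tor U N, jt F U s * x = θ s • x) → ∀ s ∈ Tor U N,
      jt F U s * (tau F U g * x) = θ (g⁻¹ * s * g) • (tau F U g * x) := fun x hx s hs => by
    have k := tau_jt (F := F) h hg (cT s hs)
    rw [show g * (g⁻¹ * s * g) * g⁻¹ = s by group] at k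
    rw [← mul_assoc, ← k, mul_assoc, hx _ (cT s hs), mul_smul_comm]
  have hTg := fun y => mul_mem (hT y) h2
  have ττ : ∀ x, (∀ s ∈ Tor U N, jt F U s * x = θ s • x) → tau F U g * (tau F U g * x) =
      (((r ^ j : ℕ) : F) * θ (g * g)) • x +
        (∑ y, θ (g⁻¹ * (t y * (g * g)) * g)) • (tau F U g * x) := fun x hx => by
    rw [← mul_assoc, hsq, add_mul, smul_mul_assoc, hx _ h2, smul_smul, mul_assoc, Finset.sum_mul,
      Finset.sum_smul, Finset.sum_congr rfl fun y _ => mv x hx _ (hTg y)]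
  have act : ∀ (s : Tor U N) y, θ (g⁻¹ * (t (s • y) * (g * g)) * g) =
      θ s * θ (g⁻¹ * s * g)⁻¹ * θ (g⁻¹ * (t y * (g * g)) * g) := fun s y => by
    have i1 := inv_mem (cT s s.2)
    rw [mul_assoc (θ _), ← θm _ i1 _ (cT _ (hTg y)), h.ab _ i1 _ (cT _ (hTg y)),
      ← θm _ s.2 _ (mul_mem (cT _ (hTg y)) i1), hact, mul_assoc _ (s : X)⁻¹,
      h.ab _ (inv_mem s.2) _ h2]
    congr 1
    group
  have Zw' : tau F U g * (tau F U g * w) = (z * θ (g * g)) • w := by
    rw [mul_assoc, hθ _ h2', mul_smul_comm, mul_assoc] at Zw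
    rw [mul_comm z, ← smul_smul, ← Zw, smul_smul, θi _ h2, one_smul]
  have ω0 : θ (g * g) ≠ 0 := left_ne_zero_of_mul_eq_one (θi _ h2)
  have e1 := (ττ w hθ).symm.trans Zw'
  by_cases c0 : ∑ y, θ (g⁻¹ * (t y * (g * g)) * g) = 0
  · rw [c0, zero_smul, add_zero] at e1
    exact ⟨j, (mul_right_cancel₀ ω0 (smul_left_injective F w0 e1)).symm, hm⟩
  have fix : ∀ s ∈ Tor U N, θ (g⁻¹ * s * g) = θ s := fun s hs => by
    have k := Equiv.sum_comp (MulAction.toPerm (⟨s, hs⟩ : Tor U N))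
      fun y => θ (g⁻¹ * (t y * (g * g)) * g)
    simp only [MulAction.toPerm_apply, act] at k
    rw [← Finset.mul_sum, mul_eq_right₀ c0] at k
    linear_combination θ s * θi _ (cT s hs) - θ (g⁻¹ * s * g) * k
  obtain ⟨c, ic, hc⟩ := zb_orb (h.pg.pD.comap_subtype (K := Tor U N))
    (fun y => by
      obtain ⟨s, hs, hne⟩ := hD y
      exact ⟨⟨s, hs⟩, hne⟩)
    (fun y => θ (g⁻¹ * (t y * (g * g)) * g))
    (fun s y => (act s y).trans (by rw [← fix _ s.1.2, θi _ (cT _ s.1.2), one_mul]))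
    fun y => θz _ (cT _ (hTg y))
  rw [hc] at c0 ττ e1
  have aw : tau F U g * w = ((p * c)⁻¹ * (z * θ (g * g) - (r ^ j : ℕ) * θ (g * g))) • w := by
    rw [← smul_smul, sub_smul, ← e1, add_sub_cancel_left, inv_smul_smul₀ c0]
  generalize (p * c)⁻¹ * (z * θ (g * g) - (r ^ j : ℕ) * θ (g * g)) = l at aw
  have hz : l * l = z * θ (g * g) := smul_left_injective F w0 (by
    simp only
    rw [← Zw', aw, mul_smul_comm, aw, smul_smul])
  have hl : l * l = (r ^ j : ℕ) * θ (g * g) + p * c * l := smul_left_injective F w0 (by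
    simp only
    rw [hz, ← e1, aw, smul_smul, add_smul])
  have := Fintype.ofFinite (Tor U N)
  have n0 : (Fintype.card (Tor U N) : F) ≠ 0 := Nat.cast_ne_zero.2 Fintype.card_ne_zero
  let π : MonoidAlgebra F X :=
    (Fintype.card (Tor U N) : F)⁻¹ • ∑ s : Tor U N, θ (s : X)⁻¹ • an F U (s : X)
  have ja : ∀ s ∈ Tor U N, an F (U : Subgroup X) s = jt F U s * av F U := fun s hs => by
    rw [g4_jt (g4_N hs), add_mul, (av_an s).2, sub_mul, one_mul, ee, sub_self, add_zero]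
  have π1 : ∀ x, av F U * x = x → (∀ s ∈ Tor U N, jt F U s * x = θ s • x) → π * x = x :=
    fun x h3 h4 => by
      rw [smul_mul_assoc, Finset.sum_mul, Finset.sum_congr rfl (g := fun _ => x) fun s _ => by
        rw [smul_mul_assoc, ja _ s.2, mul_assoc, h3, h4 _ s.2, smul_smul, mul_comm, θi _ s.2,
          one_smul], Finset.sum_const, Finset.card_univ, ← Nat.cast_smul_eq_nsmul F,
        inv_smul_smul₀ n0]
  have π2 : av F U * π = π := by
    simp only [π, mul_smul_comm, Finset.mul_sum, (av_an _).1]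
  have π3 : ∀ s ∈ Tor U N, jt F U s * π = θ s • π := fun s hs => by
    rw [mul_smul_comm, smul_comm, Finset.mul_sum, Finset.smul_sum (r := θ s),
      ← Equiv.sum_comp (Equiv.mulLeft (⟨s, hs⟩ : Tor U N)) fun s' => θ s • _]
    congr 1
    refine Finset.sum_congr rfl fun s' _ => ?_
    change _ = θ s • θ (s * s')⁻¹ • an F U (s * s')
    rw [mul_smul_comm, ja _ s'.2, ← mul_assoc, ← jt_mul hs s'.2, ← ja _ (mul_mem hs s'.2),
      smul_smul, mul_inv_rev, θm _ (inv_mem s'.2) _ (inv_mem hs), mul_left_comm, θi s hs, mul_one]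
  have ππ := π1 π π2 π3
  have πa : π * (tau F U g * π) = tau F U g * π :=
    π1 _ (by rw [← mul_assoc, cτ, mul_assoc, π2]) fun s hs => by rw [mv π π3 s hs, fix s hs]
  have tr : zTr F _ (tau F U g * π) = 0 := by
    rw [mul_smul_comm, Finset.mul_sum, map_smul, map_sum, Finset.sum_eq_zero fun s _ => ?_,
      smul_zero]
    rw [mul_smul_comm, tau, smul_mul_assoc, add_mul, g4_r (g4_N s.2), sub_mul, one_mul,
      (av_an _).1, sub_self, add_zero, map_smul, map_smul, zb_an h (mul_mem hg s.2.1) fun k =>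
        h1 (eq_inv_of_mul_eq_one_left k ▸ inv_mem s.2), smul_zero, smul_zero]
  obtain ⟨d1, d2, d0, hd⟩ := zb_alg ππ πa (by rw [mul_assoc, ππ])
    (by rw [mul_assoc, πa, ττ π π3]) tr w0 (π1 w ew hθ) (by rw [mul_assoc, π1 w ew hθ, aw])
    (mul_ne_zero (Nat.cast_ne_zero.2 (pow_ne_zero _ hr.out.ne_zero)) ω0) hl
  exact zb_num hp.out hr.out hm ic (θz _ h2) (θz _ h2') (θi _ h2) hl hz d0 hd

end Pool.Agent.Lib.MP_1ae3da_al.JM
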