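import Pool.Agent.Lib.MP_1ae3da_al.J.K6b

/-! Generation and the result of the construction. -/

namespace Pool.Agent.Lib.MP_1ae3da_al.JM.YD

variable {F H : Type} [Field F] [CharZero F] [Ring H] [Algebra F H] {d : YD F H} {a : ℕ}

theorem Good.m0 (hg : d.Good) (B : Subring H) (K : Subfield F)
    (hK : ∀ c ∈ K, algebraMap F H c ∈ B) (hu : d.u ∈ K) (h : d.Z 0 ∈ B) :
    ∃ y ∈ B, d.s 0 = d.x * y :=
  ⟨_, hg.mem d.k0 d.k0 B K hK hu h h (fun s _ => (d.u ^ d.lg s)⁻¹)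
    (fun _ _ _ _ => inv_mem (zpow_mem hu _)), rfl⟩

omit [CharZero F] in
theorem sm_mem (B : Subring H) (K : Subfield F) (hK : ∀ c ∈ K, algebraMap F H c ∈ B) {c : F}
    (hc : c ∈ K) {y : H} (hy : y ∈ B) : c • y ∈ B := by
  rw [Algebra.smul_def]
  exact mul_mem (hK c hc) hy

omit [CharZero F] in
theorem K4_mem (B : Subring H) (K : Subfield F) (hK : ∀ c ∈ K, algebraMap F H c ∈ B) {b : ℕ}
    {ε : H} {f0 f1 f2 f3 : (ℕ → F) → F} (h1 : ε ∈ B) (h2 : d.ep a ε ∈ B) (h3 : d.N a b ε ∈ B)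
    (k0 : d.Fz f0 ∈ B) (k1 : d.Fz f1 ∈ B) (k2 : d.Fz f2 ∈ B) (k3 : d.Fz f3 ∈ B) :
    d.K4 a b ε f0 f1 f2 f3 ∈ B := by
  have t : (2 : F)⁻¹ ∈ K := inv_mem (ofNat_mem K 2)
  have o1 : 1 - ε ∈ B := sub_mem (one_mem _) h1
  have o2 : 1 - d.ep a ε ∈ B := sub_mem (one_mem _) h2
  exact add_mem (add_mem (add_mem (mul_mem (mul_mem o1 o2) k0)
    (mul_mem (add_mem (mul_mem h1 o2) (mul_mem o1 h2)) k1))
    (sm_mem B K hK t (mul_mem (add_mem (mul_mem h1 h2) (mul_mem h1 h3)) k2)))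
    (sm_mem B K hK t (mul_mem (sub_mem (mul_mem h1 h2) (mul_mem h1 h3)) k3))

omit [CharZero F] in
theorem Q_mem (K : Subfield F) (hu : d.u ∈ K) : d.Q ∈ K := pow_mem hu _

omit [CharZero F] in
theorem a1_mem (K : Subfield F) (hu : d.u ∈ K) {s t : F} (hs : s ∈ K) (ht : t ∈ K) :
    d.a1 s t ∈ K := by
  have q : d.Q - 1 ∈ K := sub_mem (Q_mem K hu) (one_mem _)
  unfold a1
  split_ifs
  · exact div_mem (neg_mem q) (ofNat_mem K 2)
  · exact div_mem (mul_mem q ht) (sub_mem hs ht)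

omit [CharZero F] in
theorem a2_mem (K : Subfield F) (hu : d.u ∈ K) {s t : F} (hs : s ∈ K) (ht : t ∈ K) :
    d.a2 s t ∈ K :=
  div_mem (sub_mem (Q_mem K hu) (one_mem _)) (sub_mem hs ht)

omit [CharZero F] in
theorem Gf_mem (K : Subfield F) (hu : d.u ∈ K) (n : ℤ) : d.Gf n ∈ K := by
  unfold Gf
  split_ifs
  · exact one_mem _
  · exact div_mem (mul_mem (add_mem (intCast_mem K n) (mul_mem (ofNat_mem K 2) (natCast_mem K _)))
      (sub_mem (zpow_mem hu _) (one_mem _)))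
      (mul_mem (intCast_mem K n) (sub_mem (mul_mem (Q_mem K hu) (zpow_mem hu _)) (one_mem _)))

omit [CharZero F] in
theorem Gm_mem (K : Subfield F) (hu : d.u ∈ K) (n : ℤ) : d.Gm n ∈ K :=
  div_mem (add_mem (zpow_mem hu _) (one_mem _))
    (add_mem (mul_mem (Q_mem K hu) (zpow_mem hu _)) (one_mem _))

theorem Good.A_mem (hg : d.Good) (B : Subring H) (K : Subfield F)
    (hK : ∀ c ∈ K, algebraMap F H c ∈ B) (hu : d.u ∈ K) (h : a + 1 < d.k)
    (h2 : d.e a ∈ B) (hR : d.R a (a + 1) (d.e a) ∈ B) (h4 : d.Z a ∈ B) (h5 : d.Z (a + 1) ∈ B) :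
    d.A a (a + 1) (d.e a) a (a + 1) ∈ B :=
  add_mem (mul_mem h2 (hg.mem (by omega) h B K hK hu h4 h5 d.a1 fun _ hs _ ht => a1_mem K hu hs ht))
    (mul_mem hR (hg.mem (by omega) h B K hK hu h4 h5 d.a2 fun _ hs _ ht => a2_mem K hu hs ht))

theorem Good.bi_mem (hg : d.Good) (B : Subring H) (K : Subfield F)
    (hK : ∀ c ∈ K, algebraMap F H c ∈ B) (hu : d.u ∈ K) (h : a + 1 < d.k)
    (h4 : d.Z a ∈ B) (h5 : d.Z (a + 1) ∈ B) : d.bi a (a + 1) ∈ B :=
  hg.mem (by omega) h B K hK hu h4 h5 (fun s t => (d.κ : F) / ((d.lg s - d.lg t : ℤ) : F))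
    fun _ _ _ _ => div_mem (natCast_mem K _) (intCast_mem K _)

theorem Good.m1 (hg : d.Good) (B : Subring H) (K : Subfield F)
    (hK : ∀ c ∈ K, algebraMap F H c ∈ B) (hu : d.u ∈ K) (h : a + 1 < d.k) (h1 : d.T a ∈ B)
    (h2 : d.e a ∈ B) (h3 : d.ep a (d.e a) ∈ B) (h4 : d.Z a ∈ B) (h5 : d.Z (a + 1) ∈ B) :
    d.s (a + 1) ∈ B := by
  have hR := R_mem h B K hK hu h1 h2 h4 h5
  have m := hg.mem (a := a) (b := a + 1) (by omega) h B K hK hu h4 h5
  have hN : d.N a (a + 1) (d.e a) ∈ B := by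
    rw [hg.N_R (pr1 h)]
    exact mul_mem hR (m (fun s t => (d.u ^ (d.lg s + d.lg t))⁻¹)
      fun _ _ _ _ => inv_mem (zpow_mem hu _))
  have hgm : d.g a (a + 1) (d.e a) a (a + 1) ∈ B :=
    K4_mem B K hK h2 h3 hN (m (fun _ _ => (d.u ^ d.κ)⁻¹) fun _ _ _ _ => inv_mem (pow_mem hu _))
      (m (fun s t => d.Gf (2 * (d.lg s - d.lg t))) fun _ _ _ _ => Gf_mem K hu _)
      (m (fun s t => d.Gf (d.lg s - d.lg t)) fun _ _ _ _ => Gf_mem K hu _)
      (m (fun s t => d.Gm (d.lg s - d.lg t)) fun _ _ _ _ => Gm_mem K hu _)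
  exact sub_mem (mul_mem (add_mem h1 (hg.A_mem B K hK hu h h2 hR h4 h5)) hgm)
    (mul_mem (add_mem h2 hN) (hg.bi_mem B K hK hu h h4 h5))

omit [CharZero F] in
theorem cen_iff {w y : H} : y ∈ Subring.centralizer ({w} : Set H) ↔ y * w = w * y := by
  rw [Subring.mem_centralizer_iff]
  exact ⟨fun h => (h w rfl).symm, fun h g hg => by rw [hg, h]⟩

omit [CharZero F] in
theorem cen_K (w : H) : ∀ c ∈ (⊤ : Subfield F), algebraMap F H c ∈
    Subring.centralizer ({w} : Set H) := fun c _ => cen_iff.2 (Algebra.commutes c w)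

theorem Good.cs (hg : d.Good) (h : a + 1 < d.k) {w : H} (h1 : d.T a * w = w * d.T a)
    (h2 : d.e a * w = w * d.e a) (h3 : d.ep a (d.e a) * w = w * d.ep a (d.e a))
    (h4 : d.Z a * w = w * d.Z a) (h5 : d.Z (a + 1) * w = w * d.Z (a + 1)) :
    d.s (a + 1) * w = w * d.s (a + 1) :=
  cen_iff.1 (hg.m1 _ ⊤ (cen_K w) trivial h (cen_iff.2 h1) (cen_iff.2 h2) (cen_iff.2 h3)
    (cen_iff.2 h4) (cen_iff.2 h5))

omit [CharZero F] in
theorem ep_cm (ha : a < d.k) {ε w : H} (hε : ε ∈ d.S) (h1 : w * d.X a = d.X a * w)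
    (h2 : w * ε = ε * w) : d.ep a ε * w = w * d.ep a ε := by
  refine (d.X_unit ha).mul_left_cancel ?_
  rw [← mul_assoc, X_ep1 ha hε, ← mul_assoc, ← h1, mul_assoc w, X_ep1 ha hε, ← mul_assoc, h2,
    mul_assoc, mul_assoc, h1]

theorem Good.s2 (hg : d.Good) {i j : ℕ} (h : i + 1 < j) (hj : j < d.k) :
    d.s i * d.s j = d.s j * d.s i := by
  obtain ⟨c, rfl⟩ : ∃ c, j = c + 1 := ⟨j - 1, by omega⟩
  have hc : c < d.k := by omega
  have ec := d.me c hj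
  have pc := ep_mem hc ec
  have kZ : ∀ b, b < d.k → b ≠ c → b ≠ c + 1 → d.s (c + 1) * d.Z b = d.Z b * d.s (c + 1) :=
    fun b hb n0 n1 => hg.cs hj (d.T_Z hj hb n0 n1) (d.Z_S hb ec).symm (d.Z_S hb pc).symm
      (d.ZZ hc hb) (d.ZZ hj hb)
  rcases i with _ | a
  · have n0 : 0 ≠ c := by omega
    have n1 : 0 ≠ c + 1 := by omega
    have kx : d.s (c + 1) * d.X 0 = d.X 0 * d.s (c + 1) :=
      hg.cs hj (d.T_X hj d.k0 n0 n1) (d.e_X hj d.k0 n0 n1) ((pr1 hj).ep_oth d.k0 n0 n1)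
        (d.Z_X hc d.k0) (d.Z_X hj d.k0)
    obtain ⟨y, hy, e⟩ := hg.m0 _ ⊤ (cen_K (d.s (c + 1))) trivial (cen_iff.2 (kZ 0 d.k0 n0 n1).symm)
    rw [e]
    exact cen_iff.1 (mul_mem (cen_iff.2 kx.symm) hy)
  · have ha : a + 1 < d.k := by omega
    have ha0 : a < d.k := by omega
    have hac : a + 1 < c := by omega
    have ea := d.me a ha
    have pa := ep_mem ha0 ea
    have tt := d.TT a c hac hj
    have t1 : d.T a * d.e c = d.e c * d.T a := d.cm_e hj tt (d.hT2 a c hac hj).symm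
    have t2 : d.T c * d.e a = d.e a * d.T c := d.cm_e ha tt.symm (d.hT1 a c hac hj).symm
    have kS : ∀ y ∈ d.S, d.T c * y = y * d.T c → y * d.s (c + 1) = d.s (c + 1) * y :=
      fun y hy k => (hg.s_S hj hy k).symm
    refine hg.cs ha (hg.cs hj tt.symm t1.symm ?_ ?_ ?_).symm (kS _ ea t2) (kS _ pa ?_)
      (kZ a ha0 (by omega) (by omega)).symm (kZ (a + 1) ha (by omega) (by omega)).symm
    · exact ep_cm hc ec (d.T_X ha hc (by omega) (by omega)) t1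
    · exact (d.T_Z ha hc (by omega) (by omega)).symm
    · exact (d.T_Z ha hj (by omega) (by omega)).symm
    · exact (ep_cm ha0 ea (d.T_X hj ha0 (by omega) (by omega)) t2).symm

omit [CharZero F] in
theorem B_K (B : Subalgebra F H) : ∀ c ∈ (⊤ : Subfield F), algebraMap F H c ∈ B.toSubring :=
  fun c _ => B.algebraMap_mem c

/-- a diagonal element whose values are determined by those of an element of `B`. -/
theorem Good.fac (hg : d.Good) (B : Subalgebra F H) {c y : H} {g g' : (ℕ → F) → F}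
    (hc : Dg d.FW c g) (hy : Dg d.FW y g') (hB : c ∈ B)
    (k : ∀ z v z' v', v ≠ 0 → d.FW z v → v' ≠ 0 → d.FW z' v' → g z = g z' → g' z = g' z') :
    y ∈ B := by
  classical
  refine hg.spc.mem (J := Unit) (c := fun _ => c) (g := fun _ => g) (fun _ => hc)
    (fun m => if h : ∃ z, (∃ v, v ≠ 0 ∧ d.FW z v) ∧ g z = m () then g' h.choose else 0)
    B.toSubring ⊤ (B_K B) (fun _ => hB) (fun _ _ _ _ => ⟨fun _ => trivial, trivial⟩)
    fun z v hv hz => ?_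
  have h : ∃ z', (∃ v, v ≠ 0 ∧ d.FW z' v) ∧ g z' = g z := ⟨z, ⟨v, hv, hz⟩, rfl⟩
  obtain ⟨⟨v', hv', hz'⟩, e⟩ := h.choose_spec
  simp only [dif_pos h]
  rw [hy z v hv hz, k _ _ _ _ hv' hz' hv hz e]

theorem u_neg (n : ℤ) : d.u ^ n + 1 ≠ 0 := fun h => by
  have e : d.u ^ n = -1 := eq_neg_of_add_eq_zero_left h
  have e2 : d.u ^ (n + n) = 1 := by rw [zpow_add₀ d.u0, e]; ring
  have e3 : n = 0 := by have := d.hu _ e2; omega
  rw [e3, zpow_zero] at h
  norm_num at h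

omit [CharZero F] in
theorem u_inj {n m : ℤ} (h : d.u ^ n = d.u ^ m) : n = m := by
  have : d.u ^ (n - m) = 1 := by rw [zpow_sub₀ d.u0, h, div_self (zpow_ne_zero _ d.u0)]
  have := d.hu _ this
  omega

omit [CharZero F] in
theorem Q_zpow (n : ℤ) : d.Q * d.u ^ n = d.u ^ (2 * (d.κ : ℤ) + n) := by
  rw [zpow_add₀ d.u0, Q, ← zpow_natCast]
  norm_cast

theorem Gm_ne (n : ℤ) : d.Gm n ≠ 0 :=
  div_ne_zero (u_neg n) (by rw [Q_zpow]; exact u_neg _)

theorem Gf_ne {n : ℤ} (h : n ≠ 0) : d.Gf n ≠ 0 := by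
  unfold Gf
  split_ifs with k
  · exact one_ne_zero
  · have k1 : 2 * (d.κ : ℤ) + n ≠ 0 := by omega
    refine div_ne_zero (mul_ne_zero ?_ fun e => h (d.hu _ (sub_eq_zero.1 e)))
      (mul_ne_zero (Int.cast_ne_zero.2 h) fun e => k1 (d.hu _ ?_))
    · have : ((2 * (d.κ : ℤ) + n : ℤ) : F) ≠ 0 := Int.cast_ne_zero.2 k1
      intro e
      apply this
      push_cast
      rw [← e, add_comm]
    · rw [← Q_zpow]
      exact sub_eq_zero.1 e

theorem Good.lg_inj (hg : d.Good) {z z' : ℕ → F} {v v' : H} {b : ℕ} (ha : a < d.k) (hb : b < d.k)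
    (hv : v ≠ 0) (hz : d.FW z v) (hv' : v' ≠ 0) (hz' : d.FW z' v')
    (e : d.lg (z a) = d.lg (z' b)) : z a = z' b := by
  rw [hg.spec hz hv ha, hg.spec hz' hv' hb, e]

theorem Good.k7_K4ap (hg : d.Good) {b : ℕ} {ε v : H} {z : ℕ → F} (hv : d.FW z v)
    (f0 f1 f2 f3 : (ℕ → F) → F) : d.K4 a b ε f0 f1 f2 f3 * v =
      f0 z • ((1 - ε) * (1 - d.ep a ε) * v) +
      f1 z • ((ε * (1 - d.ep a ε) + (1 - ε) * d.ep a ε) * v) +
      (2 : F)⁻¹ • f2 z • ((ε * d.ep a ε + ε * d.N a b ε) * v) +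
      (2 : F)⁻¹ • f3 z • ((ε * d.ep a ε - ε * d.N a b ε) * v) := by
  have k : ∀ (y : H) (f : (ℕ → F) → F), y * d.Fz f * v = f z • (y * v) := fun y f => by
    rw [mul_assoc, hg.ap hv, mul_smul_comm]
  rw [K4, add_mul, add_mul, add_mul, smul_mul_assoc, smul_mul_assoc, k, k, k, k]

/-- where the two weights agree, only two of the four kinds occur. -/
theorem Good.kind (hg : d.Good) {b : ℕ} {ε v : H} (h : d.Pr a b ε)
    (hv : (ε + d.N a b ε) * v = 0) :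
    (ε * (1 - d.ep a ε) + (1 - ε) * d.ep a ε) * v = 0 ∧
      (ε * d.ep a ε + ε * d.N a b ε) * v = 0 := by
  have ha : a < d.k := h.lt.trans h.bk
  have hp := ep_mem ha h.mem
  have c1 : ε * d.ep a ε = d.ep a ε * ε := d.cm _ h.mem _ hp
  have c2 : ε * d.ζ = d.ζ * ε := d.cm _ h.mem _ d.mζ
  have e1 : d.N a b ε * v = -(ε * v) := by
    rw [add_mul] at hv
    exact eq_neg_of_add_eq_zero_right hv
  have e2 : d.ep a ε * (ε * v) = ε * v := by
    have : d.ep a ε * (d.N a b ε * v) = d.N a b ε * v := by rw [← mul_assoc, hg.ep_N h]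
    rw [e1, mul_neg] at this
    exact neg_injective this
  have e3 : ε * (d.ep a ε * v) = ε * v := by rw [← mul_assoc, c1, mul_assoc, e2]
  have e4 : ε * (ε * v) = ε * v := by rw [← mul_assoc, h.idem]
  have e5 : d.ζ * (d.ep a ε * v) = ε * v := by
    rw [← mul_assoc, ← hg.NN h, mul_assoc, e1, mul_neg, ← mul_assoc, ← hg.e_N h, mul_assoc, e1,
      mul_neg, neg_neg, e4]
  have e6 : d.ep a ε * v = d.ζ * (ε * v) := by rw [← e5, ← mul_assoc, d.ζζ, one_mul]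
  have e7 : d.ep a ε * v = ε * v := by
    rw [← e3]
    conv_rhs => rw [e6, ← mul_assoc, c2, mul_assoc, e4]
    exact e6
  constructor
  · rw [add_mul, mul_assoc, mul_assoc, sub_mul, sub_mul, one_mul, one_mul, mul_sub, e7, e4, sub_self,
      add_zero]
  · rw [add_mul, mul_assoc, mul_assoc, e1, e7, mul_neg, add_neg_cancel]

theorem Good.g_inv (hg : d.Good) (h : a + 1 < d.k) :
    d.g a (a + 1) (d.e a) a (a + 1) * d.K4 a (a + 1) (d.e a) (fun _ => d.u ^ d.κ)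
      (fun z => (d.Gf (2 * d.β a (a + 1) z))⁻¹) (fun z => (d.Gf (d.β a (a + 1) z))⁻¹)
      (fun z => (d.Gm (d.β a (a + 1) z))⁻¹) = 1 := by
  rw [g, hg.K4_mul (pr1 h), ← hg.K4_one (pr1 h)]
  refine hg.spc.eq fun z v hv hz => ?_
  rw [hg.k7_K4ap hz, hg.k7_K4ap hz, inv_mul_cancel₀ (pow_ne_zero _ d.u0), mul_inv_cancel₀ (Gm_ne (d := d) (d.β a (a + 1) z))]
  by_cases k : d.β a (a + 1) z = 0
  · obtain ⟨k1, k2⟩ := hg.kind (pr1 h) (hg.ov2N h hz
      (hg.lg_inj (by omega) h hv hz hv hz (sub_eq_zero.1 k)))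
    simp only [k1, k2, smul_zero]
  · rw [mul_inv_cancel₀ (Gf_ne (d := d) k), mul_inv_cancel₀ (Gf_ne (by omega))]

theorem Good.c0 (hg : d.Good) : Dg d.FW (d.ηi * d.E * d.ν 0)
    fun z => d.u ^ d.lg (z 0) - d.u ^ (2 * (d.κ0 : ℤ) - d.lg (z 0)) := fun z v _ hz => by
  have k0 := d.k0
  have hw : d.FW z (d.ν 0 * v) := hz.cm fun b hb => hg.Z_ν hb k0
  have x1 : ∀ w, d.FW z w → d.x * w = d.u ^ d.lg (z 0) • (d.ν 0 * w) := fun w hw => by
    have : d.x = _ := hg.X_ν k0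
    rw [this, mul_assoc, hg.ap hw, mul_smul_comm]
  have nn : d.ν 0 * (d.ν 0 * v) = d.η * v := by rw [← mul_assoc, hg.ν_sq k0]; rfl
  have ie : ∀ w, d.ηi * (d.η * w) = w := fun w => by
    rw [← mul_assoc, d.cm _ d.mηi _ d.mη, d.ηη, one_mul]
  have q := congrArg (fun y => d.ηi * (y * v)) d.qx
  simp only [mul_assoc, add_mul, smul_mul_assoc, x1 v hz, mul_smul_comm, x1 _ hw, nn, mul_add,
    ie] at q
  have un : d.u ^ d.lg (z 0) ≠ 0 := zpow_ne_zero _ d.u0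
  have q2 : d.ηi * (d.E * (d.ν 0 * v)) = (d.u ^ d.lg (z 0))⁻¹ •
      (d.u ^ d.lg (z 0) • d.u ^ d.lg (z 0) • v - d.u ^ (2 * d.κ0) • v) := by
    rw [q, add_sub_cancel_left, smul_smul, inv_mul_cancel₀ un, one_smul]
  rw [mul_assoc, mul_assoc, q2, smul_smul, ← sub_smul, smul_smul]
  congr 1
  have : d.u ^ (2 * (d.κ0 : ℤ)) = d.u ^ (2 * d.κ0) := by rw [← zpow_natCast]; norm_cast
  beta_reduce
  rw [zpow_sub₀ d.u0, this]
  field_simp

theorem c0_inj {n m t : ℤ} (h : d.u ^ n - d.u ^ (t - n) = d.u ^ m - d.u ^ (t - m)) : n = m := by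
  have e : (d.u ^ n - d.u ^ m) * (d.u ^ (t - n - m) + 1) = 0 := by
    have h1 : d.u ^ n * d.u ^ (t - n - m) = d.u ^ (t - m) := by
      rw [← zpow_add₀ d.u0]; congr 1; ring
    have h2 : d.u ^ m * d.u ^ (t - n - m) = d.u ^ (t - n) := by
      rw [← zpow_add₀ d.u0]; congr 1; ring
    linear_combination h + h1 - h2
  exact u_inj (sub_eq_zero.1 ((mul_eq_zero.1 e).resolve_right (u_neg _)))

theorem Good.c1 (hg : d.Good) (h : a + 1 < d.k) :
    d.Fz (fun z => (d.lg (z (a + 1)) : F)) * d.s (a + 1) =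
      d.s (a + 1) * d.Fz (fun z => (d.lg (z a) : F)) +
        (d.κ : F) • (d.e a + d.N a (a + 1) (d.e a)) := by
  refine hg.spc.eq fun z v hv hz => ?_
  set P := d.e a + d.N a (a + 1) (d.e a) with hP
  have hPv : d.FW z (P * v) := hz.cm fun b hb => by
    rw [hP, mul_add, add_mul, d.Z_S hb (d.me a h), hg.Z_N (pr1 h) hb]
  have hσ := (hg.itσ h).fw hz
  have s1 : d.s (a + 1) * v = d.σ a * v - ((d.κ : F) / (d.β a (a + 1) z : F)) • (P * v) := by
    rw [s, sub_mul, mul_assoc, bi, hg.ap hz, mul_smul_comm]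
  rw [mul_assoc, add_mul, mul_assoc, hg.ap hz, mul_smul_comm, s1, mul_sub, mul_smul_comm,
    hg.ap hσ, hg.ap hPv, smul_mul_assoc, smul_sub, Function.comp_apply, Equiv.swap_apply_right,
    sub_add, smul_smul, smul_smul, ← sub_smul]
  congr 1
  by_cases k : d.β a (a + 1) z = 0
  · have : P * v = 0 := hg.ov2N h hz (hg.lg_inj (by omega) h hv hz hv hz (sub_eq_zero.1 k))
    rw [this, smul_zero, smul_zero]
  · congr 1
    have k1 : ((d.β a (a + 1) z : ℤ) : F) ≠ 0 := Int.cast_ne_zero.2 k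
    have k2 : ((d.β a (a + 1) z : ℤ) : F) = (d.lg (z a) : F) - (d.lg (z (a + 1)) : F) := by
      rw [β]; push_cast; rfl
    field_simp
    rw [k2]
    ring

/-- hint: `ν a ∈ B` by `s_ν0`; the content `c a = Fz (lg (z a))` satisfies
`c (a + 1) * s = s * c a + κ P`, and `c 0` is a function of `E * ei 0 * ν 0`, which acts by
`u ^ n - u ^ (2 κ0 - n)` (`Spc.mem`); then `Z`, `X`, the inverse of `g`, `φ`, `T`. -/
theorem Good.gen (hg : d.Good) (B : Subalgebra F H) (hS : d.S ≤ B)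
    (hs : ∀ i, i < d.k → d.s i ∈ B) : d.x ∈ B ∧ ∀ a, a + 1 < d.k → d.T a ∈ B := by
  have un : ∀ a, a + 1 < d.k → ∀ y : H, y = y * d.s (a + 1) * d.s (a + 1) * d.h a :=
    fun a h y => by rw [mul_assoc y, hg.s_sq h, mul_assoc, d.hh a h, mul_one]
  have hν : ∀ a, a < d.k → d.ν a ∈ B := fun a => by
    induction a with
    | zero => exact fun h => hs 0 h
    | succ a ih =>
      intro h
      rw [un a h (d.ν (a + 1)), ← hg.s_ν0 h]
      exact mul_mem (mul_mem (mul_mem (hs _ h) (ih (by omega))) (hs _ h)) (hS (d.mh a h))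
  have hN : ∀ a, a + 1 < d.k → d.N a (a + 1) (d.e a) ∈ B := fun a h =>
    mul_mem (mul_mem (mul_mem (hν _ h) (hS (d.me a h))) (hν a (by omega)))
      (hS (d.mei (by omega)))
  have hc : ∀ a, a < d.k → d.Fz (fun z => (d.lg (z a) : F)) ∈ B := fun a => by
    induction a with
    | zero =>
      exact fun h => hg.fac B hg.c0 (hg.dg _)
        (mul_mem (mul_mem (hS d.mηi) (hS d.mE)) (hν 0 h))
        fun z v z' v' _ _ _ _ e => congrArg _ (c0_inj e)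
    | succ a ih =>
      intro h
      rw [un a h (d.Fz _), hg.c1 h]
      exact mul_mem (mul_mem (add_mem (mul_mem (hs _ h) (ih (by omega)))
        (B.smul_mem (add_mem (hS (d.me a h)) (hN a h)) _)) (hs _ h)) (hS (d.mh a h))
  have hZ : ∀ a, a < d.k → d.Z a ∈ B := fun a h => by
    rw [← hg.Z h]
    exact hg.fac B (hg.dg _) (hg.dg _) (hc a h) fun z v z' v' hv hz hv' hz' e =>
      hg.lg_inj h h hv hz hv' hz' (Int.cast_injective e)
  have m : ∀ a b, a < d.k → b < d.k → ∀ f : F → F → F, d.Fz (fun z => f (z a) (z b)) ∈ B :=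
    fun a b ha hb f => hg.mem ha hb B.toSubring ⊤ (B_K B) trivial (hZ a ha) (hZ b hb) f
      fun _ _ _ _ => trivial
  have hX : ∀ a, a < d.k → d.X a ∈ B := fun a h => by
    rw [hg.X_ν h]
    exact mul_mem (hν a h) (m a a h h fun s _ => d.u ^ d.lg s)
  refine ⟨hX 0 d.k0, fun a h => ?_⟩
  have ha : a < d.k := by omega
  have he := hS (d.me a h)
  have hσ : d.σ a ∈ B := by
    have : d.σ a = d.s (a + 1) + (d.e a + d.N a (a + 1) (d.e a)) * d.bi a (a + 1) := by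
      rw [s, sub_add_cancel]
    rw [this]
    exact add_mem (hs _ h) (mul_mem (add_mem he (hN a h))
      (hg.bi_mem B.toSubring ⊤ (B_K B) trivial h (hZ a ha) (hZ _ h)))
  have hφ : d.φ a ∈ B := by
    rw [← mul_one (d.φ a), ← hg.g_inv h, ← mul_assoc]
    exact mul_mem hσ (K4_mem B.toSubring ⊤ (B_K B) he (hS (ep_mem ha (d.me a h))) (hN a h)
      (m a (a + 1) ha h fun _ _ => d.u ^ d.κ)
      (m a (a + 1) ha h fun s t => (d.Gf (2 * (d.lg s - d.lg t)))⁻¹)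
      (m a (a + 1) ha h fun s t => (d.Gf (d.lg s - d.lg t))⁻¹)
      (m a (a + 1) ha h fun s t => (d.Gm (d.lg s - d.lg t))⁻¹))
  have hR : d.R a (a + 1) (d.e a) ∈ B :=
    mul_mem (mul_mem (mul_mem (hX _ h) he) (hX a ha)) (hS (d.mei ha))
  have : d.T a = d.φ a - d.A a (a + 1) (d.e a) a (a + 1) := by rw [φ, add_sub_cancel_right]
  rw [this]
  exact sub_mem hφ (hg.A_mem B.toSubring ⊤ (B_K B) trivial h he hR (hZ a ha) (hZ _ h))

theorem Good.out (hg : d.Good) : d.Out d.s where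
  n0 := fun _ hy _ h => hg.ν_S (a := 0) h hy
  n1 := fun _ h _ hy _ k => hg.s_S h hy k
  q0 := hg.ν_sq d.k0
  q1 := fun _ h => hg.s_sq h
  br := ⟨fun _ _ h hj => hg.s2 h hj, fun i h hi => by
    obtain ⟨a, rfl⟩ : ∃ a, i = a + 1 := ⟨i - 1, by omega⟩
    exact hg.s3 hi, hg.s4⟩
  gen := hg.gen
  m0 := hg.m0
  m1 := fun B K hK hu _ h => hg.m1 B K hK hu h

end Pool.Agent.Lib.MP_1ae3da_al.JM.YD
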