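import Pool.Agent.Lib.MP_1ae3da_al.J.K1b

/-! The new generators lie in the algebra of the old ones and are natural. -/

namespace Pool.Agent.Lib.MP_1ae3da_al.JM.YD

variable {F H : Type} [Field F] [CharZero F] [Ring H] [Algebra F H] {d : YD F H} {a : ℕ}

omit [CharZero F] in
theorem k7_ep (h : a + 1 < d.k) :
    d.ep a (d.e a) ∈ d.S ∧ d.ep a (d.e a) * d.X a = d.X a * d.e a := by
  obtain ⟨y, hy, e, -⟩ := d.nX (a := a) (by omega) (d.me a h)
  have : d.ep a (d.e a) = y := by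
    rw [ep, e, mul_assoc, Ring.mul_inverse_cancel _ (d.X_unit (by omega)), mul_one]
  rw [this]
  exact ⟨hy, e.symm⟩

omit [CharZero F] in
theorem Out.cen {s : ℕ → H} (h : d.Out s) (B : Subalgebra F H) (hS : d.S ≤ B) (hx : d.x ∈ B)
    (hT : ∀ a, a + 1 < d.k → d.T a ∈ B) {i : ℕ} (hi : i < d.k) : s i ∈ B := by
  have hX : ∀ a, a < d.k → d.X a ∈ B := fun a ha => by
    induction a with
    | zero => exact hx
    | succ a ih =>
      exact B.smul_mem (mul_mem (mul_mem (mul_mem (hT a ha) (ih (by omega))) (hT a ha))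
        (hS (d.mh a ha))) _
  have hZ : ∀ a, a < d.k → d.Z a ∈ B := fun a ha =>
    mul_mem (mul_mem (hX a ha) (hX a ha)) (hS (d.mei ha))
  cases i with
  | zero =>
    obtain ⟨y, hy, e⟩ := h.m0 B.toSubring ⊤ (fun c _ => B.algebraMap_mem c) trivial (hZ 0 hi)
    exact e ▸ mul_mem hx hy
  | succ i =>
    exact h.m1 B.toSubring ⊤ (fun c _ => B.algebraMap_mem c) trivial i hi (hT i hi)
      (hS (d.me i hi)) (hS (k7_ep hi).1) (hZ i (by omega)) (hZ _ hi)

omit [CharZero F] in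
theorem k7_key (h : a + 1 < d.k) {c ci p q : H} (hc : c ∈ d.S) (hci : ci ∈ d.S)
    (cc : c * ci = 1) (hp : p ∈ d.S) (hq : q ∈ d.S) (pq : p * q = 1) :
    ∃ r ∈ d.S, ∃ t ∈ d.S, r * t = 1 ∧ c * d.T a * ci * p = r * d.T a ∧
      q * (c * d.T a * ci) = d.T a * t := by
  obtain ⟨y, hy, e1, -⟩ := d.nT a h _ (mul_mem hci hp)
  obtain ⟨z, hz, e2, e3⟩ := d.nT a h _ (mul_mem hq hc)
  have yz : y * z = 1 := (d.T_unit h).mul_right_cancel (by
    rw [mul_assoc, ← e2, ← mul_assoc, ← e1, mul_assoc, mul_assoc, ← mul_assoc p, pq, one_mul,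
      d.cm ci hci c hc, cc, mul_one, one_mul])
  refine ⟨c * y, mul_mem hc hy, z * ci, mul_mem hz hci, ?_, ?_, ?_⟩
  · rw [mul_assoc, ← mul_assoc y, yz, one_mul, cc]
  · rw [mul_assoc, mul_assoc, e1, mul_assoc]
  · rw [← mul_assoc, ← mul_assoc, ← e3, mul_assoc]

/-- the elements on which `γ` acts as the conjugation by `c`. -/
def k7B (γ : H ≃+* H) (c ci : H) (h1 : c * ci = 1) (h2 : ci * c = 1) : Subring H where
  carrier := {y | γ y = c * y * ci}
  one_mem' := by simp [h1]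
  zero_mem' := by simp
  mul_mem' := fun {x y} (hx : _ = _) (hy : _ = _) => by
    change _ = _
    rw [map_mul, hx, hy, mul_assoc, ← mul_assoc ci, ← mul_assoc ci, h2, one_mul]
    simp only [mul_assoc]
  add_mem' := fun {x y} (hx : _ = _) (hy : _ = _) => by
    change _ = _
    rw [map_add, hx, hy, mul_add, add_mul]
  neg_mem' := fun {x} (hx : _ = _) => by
    change _ = _
    rw [map_neg, hx, mul_neg, neg_mul]

omit [CharZero F] in
/-- hint: `γ (X a) = W * X a * V⁻¹`, `γ (X a * ei a) = V * (X a * ei a) * W⁻¹` with units `W`, `V`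
in `S`, so `γ` fixes `Z a` and `ep`; use `m0`, `m1` for the elements fixed by `γ`, respectively by
`y ↦ ci a * γ y * c a`. -/
theorem Out.nat {s : ℕ → H} (h : d.Out s) (γ : H ≃+* H) (σ : F ≃+* F)
    (hγ : ∀ (c : F) (y : H), γ (c • y) = σ c • γ y) (hu : σ d.u = d.u) {w wi : H} (hw : w ∈ d.S)
    (hwi : wi ∈ d.S) (ww : w * wi = 1) (hx : γ d.x = w * d.x)
    (hxs : γ (d.x * d.ηi) = d.x * d.ηi * wi) {c ci : ℕ → H}
    (hc : ∀ a, a + 1 < d.k → c a ∈ d.S ∧ ci a ∈ d.S ∧ c a * ci a = 1 ∧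
      γ (d.T a) = c a * d.T a * ci a ∧ γ (d.h a) = d.h a) :
    γ (s 0) = w * s 0 ∧ ∀ a, a + 1 < d.k → γ (s (a + 1)) = c a * s (a + 1) * ci a := by
  have hQ : σ d.Q = d.Q := by rw [Q, map_pow, hu]
  have main : ∀ a, a < d.k → ∃ W ∈ d.S, ∃ Wi ∈ d.S, ∃ V ∈ d.S, ∃ Vi ∈ d.S, W * Wi = 1 ∧
      V * Vi = 1 ∧ γ (d.X a) = W * d.X a * Vi ∧
      γ (d.X a * d.ei a) = V * (d.X a * d.ei a) * Wi := fun a ha => by
    induction a with
    | zero =>
      exact ⟨w, hw, wi, hwi, 1, one_mem _, 1, one_mem _, ww, mul_one _,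
        by rw [mul_one]; exact hx, by rw [one_mul]; exact hxs⟩
    | succ a ih =>
      obtain ⟨W, hW, Wi, hWi, V, hV, Vi, hVi, e1, e2, e3, e4⟩ := ih (by omega)
      obtain ⟨c1, c2, c3, c4, c5⟩ := hc a ha
      obtain ⟨r, hr, t, ht, rt, r1, r2⟩ := k7_key ha c1 c2 c3 hW hWi e1
      obtain ⟨r', hr', t', ht', rt', r1', r2'⟩ := k7_key ha c1 c2 c3 hV hVi e2
      have st : ∀ y p q m n : H, n ∈ d.S → γ y = p * y * q →
          c a * d.T a * ci a * p = m * d.T a → q * (c a * d.T a * ci a) = d.T a * n →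
          γ (d.Q⁻¹ • (d.T a * y * d.T a * d.h a)) =
            m * d.Q⁻¹ • (d.T a * y * d.T a * d.h a) * n := fun y p q m n hn k1 k2 k3 => by
        rw [hγ, map_inv₀, hQ, map_mul, map_mul, map_mul, c4, c5, k1, mul_smul_comm,
          smul_mul_assoc, ← mul_assoc _ _ q, ← mul_assoc _ p, k2, mul_assoc _ q, k3]
        simp only [mul_assoc]
        rw [d.cm n hn _ (d.mh a ha)]
      have e : d.X (a + 1) * d.ei (a + 1) =
          d.Q⁻¹ • (d.T a * (d.X a * d.ei a) * d.T a * d.h a) := by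
        rw [X, smul_mul_assoc, mul_assoc _ (d.h a), d.cm _ (d.mh a ha) _ (d.mei ha)]
        simp only [mul_assoc]
        rw [← mul_assoc (d.T a) (d.ei (a + 1)), d.T_ei1 ha, mul_assoc]
      refine ⟨r, hr, t, ht, r', hr', t', ht', rt, rt', st _ _ _ _ _ ht' e3 r1 r2', ?_⟩
      rw [e]
      exact st _ _ _ _ _ ht e4 r1' r2
  have hZ : ∀ a, a < d.k → γ (d.Z a) = d.Z a := fun a ha => by
    obtain ⟨W, hW, Wi, -, V, hV, Vi, hVi, e1, e2, e3, e4⟩ := main a ha
    have : d.Z a = d.X a * (d.X a * d.ei a) := mul_assoc _ _ _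
    calc γ (d.Z a) = W * (d.X a * ((Vi * V) * (d.X a * d.ei a))) * Wi := by
          rw [this, map_mul, e3, e4]
          simp only [mul_assoc]
      _ = d.Z a := by
          rw [d.cm Vi hVi V hV, e2, one_mul, ← this, ← d.Z_S ha hW, mul_assoc, e1, mul_one]
  let K : Subfield F := RingHom.eqLocusField (σ : F →+* F) (RingHom.id F)
  have hK : ∀ (p q : H) (h1 : p * q = 1) (h2 : q * p = 1), ∀ z ∈ K,
      algebraMap F H z ∈ k7B γ p q h1 h2 := fun p q h1 h2 z (hz : σ z = z) => by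
    change _ = _
    rw [Algebra.algebraMap_eq_smul_one, hγ, hz, map_one, mul_smul_comm, smul_mul_assoc, mul_one,
      h1]
  refine ⟨?_, fun a ha => ?_⟩
  · obtain ⟨y, hy, e⟩ := h.m0 (k7B γ 1 1 (mul_one 1) (mul_one 1)) K (hK _ _ _ _) hu
      (show _ = _ by rw [hZ 0 d.k0, one_mul, mul_one])
    have hy' : γ y = 1 * y * 1 := hy
    rw [e, map_mul, hx, hy', one_mul, mul_one, mul_assoc]
  · obtain ⟨c1, c2, c3, c4, c5⟩ := hc a ha
    have c6 : ci a * c a = 1 := (d.cm _ c2 _ c1).trans c3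
    have fx : ∀ y, γ y = y → y * c a = c a * y → y ∈ k7B γ (c a) (ci a) c3 c6 :=
      fun y k1 k2 => show _ = _ by rw [k1, ← k2, mul_assoc, c3, mul_one]
    have ge : γ (d.e a) = d.e a := by
      have q1 := congrArg γ (d.qT a ha)
      have q2 := congrArg (fun y => c a * y * ci a) (d.qT a ha)
      have q3 : c a * d.h a * ci a = d.h a := by
        rw [d.cm _ c1 _ (d.mh a ha), mul_assoc, c3, mul_one]
      change _ = γ (d.Q • _ + (d.Q - 1) • _) at q1
      change _ = _ * (d.Q • _ + (d.Q - 1) • _) * _ at q2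
      rw [map_add, hγ, hγ, map_sub, map_one, hQ, c5, map_mul, map_mul, c4,
        mul_assoc _ (ci a), ← mul_assoc (ci a), ← mul_assoc (ci a), c6, one_mul,
        ← mul_assoc, mul_assoc (c a)] at q1
      rw [mul_add, add_mul, mul_smul_comm, smul_mul_assoc, q3, mul_smul_comm, smul_mul_assoc,
        ← mul_assoc (c a) (d.e a), d.cm _ c1 _ (d.me a ha), q1] at q2
      have q4 := smul_right_injective H d.Q1 (add_left_cancel q2)
      refine ((d.T_unit ha).map γ).mul_right_cancel ?_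
      rw [c4, q4]
      simp only [mul_assoc]
    have gp : γ (d.ep a (d.e a)) = d.ep a (d.e a) := by
      obtain ⟨W, hW, -, -, -, -, Vi, hVi, -, -, e3, -⟩ := main a (by omega)
      obtain ⟨p1, p2⟩ := k7_ep ha
      refine ((d.X_unit (a := a) (by omega)).map γ).mul_right_cancel ?_
      rw [← map_mul, p2, map_mul, ge, e3, mul_assoc, d.cm Vi hVi _ (d.me a ha), ← mul_assoc,
        mul_assoc W, ← p2, ← mul_assoc W, d.cm W hW _ p1]
      simp only [mul_assoc]
    exact h.m1 (k7B γ _ _ c3 c6) K (hK _ _ _ _) hu a ha c4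
      (fx _ ge (d.cm _ (d.me a ha) _ c1)) (fx _ gp (d.cm _ (k7_ep ha).1 _ c1))
      (fx _ (hZ a (by omega)) (d.Z_S (by omega) c1)) (fx _ (hZ _ ha) (d.Z_S ha c1))

end Pool.Agent.Lib.MP_1ae3da_al.JM.YD
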