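import Pool.Agent.Lib.MP_1ae3da_al.J.G4b
import Pool.Agent.Lib.MP_1ae3da_al.J.G5
import Pool.Agent.Lib.MP_1ae3da_al.J.G5b
import Pool.Agent.Lib.MP_1ae3da_al.J.K7a
import Pool.Agent.Lib.MP_1ae3da_al.J.K7b

/-! The inductive condition for split Tits systems of type `B`. -/

namespace Pool.Agent.Lib.MP_1ae3da_al.JM

open SLI CT CT.Z Submodule

variable {p r k : ℕ} {X : Type} [Group X] [Finite X] [hp : Fact p.Prime] [hr : Fact r.Prime]
  {U : Sylow r X} {N : Subgroup X} {n : ℕ → X} {F : Type} [Field F] [CharZero F]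

omit [Finite X] hr in
theorem qn_left {t : X} (ht : t ∈ Tor U N) (g : X) :
    Qn (U : Subgroup X) (t * g) = Qn (U : Subgroup X) g := by
  unfold Qn
  congr 1
  ext x
  change t * g * x * (t * g)⁻¹ ∈ (U : Subgroup X) ↔ g * x * g⁻¹ ∈ (U : Subgroup X)
  rw [Subgroup.mem_normalizer_iff.1 ht.2 (g * x * g⁻¹)]
  exact iff_of_eq (congrArg (· ∈ (U : Subgroup X)) (by group))

omit [Finite X] hr in
theorem qn_map (δ : MulAut X) (hU : ∀ x, δ x ∈ U ↔ x ∈ U) (g : X) :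
    Qn (U : Subgroup X) (δ g) = Qn (U : Subgroup X) g := by
  have e : (U : Subgroup X).comap δ.toMonoidHom = U := Subgroup.ext hU
  have := Subgroup.relIndex_comap ((U : Subgroup X).comap (MulAut.conj (δ g)).toMonoidHom)
    δ.toMonoidHom (U : Subgroup X)
  have e2 : (U : Subgroup X).map δ.toMonoidHom = U := by
    conv_lhs => rw [← e]
    exact Subgroup.map_comap_eq_self_of_surjective δ.surjective _
  rw [e2] at this
  unfold Qn
  rw [← this]
  congr 1
  ext x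
  change δ g * δ x * (δ g)⁻¹ ∈ U ↔ g * x * g⁻¹ ∈ U
  rw [← map_inv, ← map_mul, ← map_mul, hU]

omit hr in
theorem jt_e {t : X} : jt F (U : Subgroup X) t * av F U = gu F X t * av F U := by
  rw [jt, add_mul, mul_assoc, sub_mul, av_idem, one_mul, sub_self, add_zero]

omit hr in
theorem tau_left {t : X} (ht : t ∈ Tor U N) (g : X) :
    tau F (U : Subgroup X) (t * g) = jt F U t * tau F U g := by
  rw [tau, tau, qn_left ht, mul_smul_comm, an_left ht.2, jt]
  congr 1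
  have h1 := (av_an (F := F) (U := (U : Subgroup X)) g).1
  have h2 := av_idem (F := F) (E := (U : Subgroup X))
  generalize an F (U : Subgroup X) g = a at h1
  generalize av F (U : Subgroup X) = e at h1 h2
  simp only [add_mul, mul_add, sub_mul, mul_sub, mul_assoc, h1, h2, one_mul, mul_one]
  abel

omit hr in
theorem tau_an (g m : X) :
    tau F (U : Subgroup X) g * an F U m = (Qn (U : Subgroup X) g : F) • (an F U g * an F U m) := by
  rw [tau, smul_mul_assoc, add_mul, sub_mul, one_mul, (av_an m).1, sub_self, add_zero]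

omit hr in
theorem e_jt {t : X} (ht : t ∈ Tor U N) :
    av F (U : Subgroup X) * jt F U t = jt F U t * av F U := by
  rw [jt_e, jt, mul_add, mul_sub, av_idem, mul_one, sub_self, add_zero, ← mul_assoc,
    ← av_comm.2 ht.2, mul_assoc, av_idem]

omit hr in
theorem e_tau (g : X) : av F (U : Subgroup X) * tau F U g = tau F U g * av F U := by
  rw [tau, mul_smul_comm, smul_mul_assoc, mul_add, add_mul, (av_an g).1, (av_an g).2, mul_sub,
    sub_mul, mul_one, one_mul]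

omit hr in
theorem nat_gen {σ : RingAut F} {γ : RingAut (MonoidAlgebra F X)} (hγ : SL F σ γ) {δ : MulAut X}
    (hδ : ∀ x, γ (gu F X x) = gu F X (δ x)) (hU : ∀ x, δ x ∈ U ↔ x ∈ U) :
    γ (av F U) = av F (U : Subgroup X) ∧ (∀ t, γ (jt F U t) = jt F (U : Subgroup X) (δ t)) ∧
      ∀ g, γ (tau F U g) = tau F (U : Subgroup X) (δ g) := by
  have e : (U : Subgroup X).comap δ.toMonoidHom = U := Subgroup.ext hU
  have e2 : (U : Subgroup X).map δ.toMonoidHom = U := by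
    conv_lhs => rw [← e]
    exact Subgroup.map_comap_eq_self_of_surjective δ.surjective _
  have h1 : γ (av F U) = av F (U : Subgroup X) := by rw [av_map hγ hδ, e2]
  refine ⟨h1, fun t => ?_, fun g => ?_⟩
  · rw [jt, jt, map_add, map_mul, map_sub, map_one, h1, hδ]
  · rw [tau, tau, hγ, map_natCast, qn_map δ hU, an, an, map_add, map_mul, map_mul, map_sub, map_one,
      h1, hδ]

theorem zpow_inj {q : ℕ} (hq : 1 < q) {u : F} (hu : u ^ 2 = q) (m : ℤ) (h : u ^ m = 1) :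
    m = 0 := by
  have h1 : (((q : ℚ) ^ m : ℚ) : F) = ((1 : ℚ) : F) := by
    rw [Rat.cast_zpow, Rat.cast_natCast, ← hu, ← zpow_natCast, ← zpow_mul, mul_comm, zpow_mul, h,
      one_zpow, Rat.cast_one]
  have h2 : (1 : ℚ) < q := by exact_mod_cast hq
  exact (zpow_eq_one_iff_right₀ (by linarith) h2.ne').1 (Rat.cast_injective h1)

theorem TB.good (h : TB p k U N n) (h2 : p ≠ 2) {κ : Type} [Field κ] {O R : Subring F}
    {ρ : F → κ} {GG : Subgroup (RingAut F)} (hP : PM p O R ρ GG) :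
    ∃ d : YD F (MonoidAlgebra F X), (∀ σ ∈ GG, σ d.u = d.u) ∧ Mt k U N n d ∧ d.Good := by
  have := hP.algF
  have k0 : 0 < k := by have := h.k3; omega
  have k1 : 1 < k := by have := h.k3; omega
  have hq : r ^ orderOf (r : ZMod p) ≡ 1 [MOD p] := by
    rw [← ZMod.natCast_eq_natCast_iff, Nat.cast_pow, pow_orderOf_eq_one, Nat.cast_one]
  obtain ⟨u, hu, hσ⟩ := ex_u hP h2 hq
  have key : ∀ j, r ^ j ≡ 1 [MOD p] → ∃ c, r ^ j = (r ^ orderOf (r : ZMod p)) ^ c ∧
      ((r ^ j : ℕ) : F) = u ^ (2 * c) := fun j hj => by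
    obtain ⟨c, hc⟩ := pow_q0 hp.out hj
    exact ⟨c, hc, by rw [hc, pow_mul, hu, Nat.cast_pow]⟩
  have hQ : ∀ i, i < k → ∃ c, Qn (U : Subgroup X) (n i) = (r ^ orderOf (r : ZMod p)) ^ c ∧
      (Qn (U : Subgroup X) (n i) : F) = u ^ (2 * c) := fun i hi => by
    obtain ⟨j, hj⟩ := qn_pow (U := U) (n i)
    have := qn_mod h.v (h.w.mem i hi) (h.w.sq i hi) (h.ts.atom h.v hi)
    rw [hj] at this ⊢
    exact key j this
  obtain ⟨c1, a1, b1⟩ := hQ 1 k1
  obtain ⟨c0, -, b0⟩ := hQ 0 k0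
  have g1 := qn_gt (h.w.mem 1 k1) (h.w.nt k1)
  rw [a1] at g1
  have g2 := (Nat.one_lt_pow_iff (by rintro rfl; simp at g1)).1 g1
  have u0 : u ≠ 0 := by
    rintro rfl
    rw [zero_pow two_ne_zero, eq_comm, Nat.cast_eq_zero] at hu
    omega
  obtain ⟨d, du, hd⟩ := h.ex_yd u c1 c0 u0 (zpow_inj g2 hu)
    (Nat.pos_of_ne_zero (by rintro rfl; simp at g1)) b1 b0
  refine ⟨d, du ▸ hσ, hd, fun a ha => h.sp hd (hd.k ▸ ha), fun z v hv e => ?_⟩
  change d.x * d.x * d.ηi * v = _ at e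
  rw [hd.x, hd.ηi] at e
  obtain ⟨j, hj, h3⟩ := z0_pow h.v (h.w.mem 0 k0) (h.w.nt k0) (h.w.sq 0 k0) (h.ts.atom h.v k0) hv e
  obtain ⟨c, -, hc⟩ := key j h3
  exact ⟨c, by rw [hj, hc, du, ← zpow_natCast]; push_cast; rfl⟩

theorem TB.cor (h : TB p k U N n) (h2 : p ≠ 2) {κ : Type} [Field κ] {O R : Subring F}
    {ρ : F → κ} {GG : Subgroup (RingAut F)} (hP : PM p O R ρ GG) :
    ∃ Θ, Cor (Ga GG h.v.D) N (av F U) Θ := by
  obtain ⟨d, du, hd, hg⟩ := h.good h2 hP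
  have ho := hg.out
  generalize d.s = s at ho
  have dk := hd.k
  have k0 : 0 < k := by have := h.k3; omega
  have hS : ∀ t ∈ Tor U N, jt F U t ∈ d.S := fun t ht => (hd.S _).2 (subset_span ⟨t, ht, rfl⟩)
  have sl : ∀ B : Subalgebra F (MonoidAlgebra F X), (∀ t ∈ Tor U N, jt F U t ∈ B) → d.S ≤ B :=
    fun B hB y hy => (span_le (p := Subalgebra.toSubmodule B)).2 (by
      rintro _ ⟨t, ht, rfl⟩
      exact hB t ht) ((hd.S y).1 hy)
  have inv : ∀ t ∈ Tor U N, jt F U t * jt F (U : Subgroup X) t⁻¹ = 1 := fun t ht => by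
    rw [← jt_mul ht (inv_mem ht), mul_inv_cancel, jt_one]
  obtain ⟨Θ, t1, t2⟩ := h.w.lift (jt F (U : Subgroup X)) jt_one (fun t ht t' ht' => jt_mul ht ht') s
    (fun i hi t ht => by
      rcases i with _ | a
      · exact ho.n0 _ (hS t ht) _ (hd.x ▸ tau_jt h.v (h.w.mem 0 hi) ht)
      · exact ho.n1 a (dk ▸ hi) _ (hS t ht) _ (hd.T a ▸ tau_jt h.v (h.w.mem _ hi) ht))
    (fun i hi => by
      rcases i with _ | a
      · exact hd.η ▸ ho.q0
      · exact hd.h a ▸ ho.q1 a (dk ▸ hi)) (dk ▸ ho.br)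
  have ind : ∀ P : N → Prop, (∀ t : N, (t : X) ∈ Tor U N → P t) →
      (∀ i (hi : i < k) (m : N), AA (U : Subgroup X) (n i) m → P m →
        P (⟨n i, h.w.mem i hi⟩ * m)) → ∀ m, P m := fun P p0 p1 m =>
    h.ts.red h.v (fun x => ∀ hx : x ∈ N, P ⟨x, hx⟩) (fun t ht _ => p0 _ ht)
      (fun i hi m hm ha hP _ => p1 i hi ⟨m, hm⟩ ha (hP hm)) m m.2 m.2
  have t3 : ∀ i (hi : i < k), Θ ⟨n i, h.w.mem i hi⟩ = s i := fun i hi => t2 i hi _ rfl
  have cm : ∀ m, av F (U : Subgroup X) * Θ m = Θ m * av F U := by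
    have c : ∀ y, y ∈ Subalgebra.centralizer F {av F (U : Subgroup X)} ↔
        av F (U : Subgroup X) * y = y * av F U := fun y => by
      simp [Subalgebra.mem_centralizer_iff]
    refine ind _ (fun t ht => by rw [t1 t ht]; exact e_jt ht) fun i hi m _ hm => ?_
    have := (c _).1 (ho.cen _ (sl _ fun t ht => (c _).2 (e_jt ht))
      ((c _).2 (hd.x ▸ e_tau _)) (fun a _ => (c _).2 (hd.T a ▸ e_tau _)) (dk ▸ hi))
    rw [map_mul, t3 i hi, ← mul_assoc, this, mul_assoc, hm, mul_assoc]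
  refine h.v.cor (fun m => Θ m * av F U) (fun x y => ?_) (fun t ht => ?_) (fun m hm => ?_) ?_
  · rw [map_mul, mul_assoc (Θ x) (av F _), ← mul_assoc (av F _), cm, mul_assoc (Θ y), av_idem,
      mul_assoc]
  · rw [t1 t ht, jt_e]
  · let B : Subalgebra F (MonoidAlgebra F X) := Algebra.adjoin F (Set.range Θ)
    have hB := ho.gen B (sl _ fun t ht => Algebra.subset_adjoin ⟨⟨t, ht.1⟩, t1 _ ht⟩)
      fun i hi => Algebra.subset_adjoin ⟨_, t3 i (dk ▸ hi)⟩
    have ml : ∀ y ∈ B, ∀ z ∈ span F (Set.range fun m => Θ m * av F (U : Subgroup X)),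
        y * z ∈ span F (Set.range fun m => Θ m * av F (U : Subgroup X)) := fun y hy => by
      induction hy using Algebra.adjoin_induction with
      | mem y hy =>
        obtain ⟨x, rfl⟩ := hy
        intro z hz
        refine (span_le (p := Submodule.comap (LinearMap.mulLeft F (Θ x))
          (span F (Set.range fun m => Θ m * av F (U : Subgroup X))))).2 ?_ hz
        rintro _ ⟨m, rfl⟩
        exact subset_span ⟨x * m, by simp only [map_mul, LinearMap.mulLeft_apply, mul_assoc]⟩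
      | algebraMap c => exact fun z hz => by rw [← Algebra.smul_def]; exact smul_mem _ _ hz
      | add a b _ _ ha hb => exact fun z hz => by rw [add_mul]; exact add_mem (ha z hz) (hb z hz)
      | mul a b _ _ ha hb => exact fun z hz => by rw [mul_assoc]; exact ha _ (hb z hz)
    refine ind (fun m => an F (U : Subgroup X) (m : X) ∈
      span F (Set.range fun m => Θ m * av F (U : Subgroup X)))
      (fun t ht => subset_span ⟨t, ?_⟩) (fun i hi m ha hm => ?_) ⟨m, hm⟩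
    · change Θ t * _ = _
      rw [t1 t ht, jt_e, an_nrm ht.2]
    have q : (Qn (U : Subgroup X) (n i) : F) ≠ 0 :=
      Nat.cast_ne_zero.2 (by have := qn_gt (h.w.mem i hi) (h.w.nt hi); omega)
    change an F _ (n i * m) ∈ _
    rw [← aa_an ha, ← smul_mem_iff _ q, ← tau_an]
    refine ml _ ?_ _ hm
    rcases i with _ | a
    · exact hd.x ▸ hB.1
    · exact hd.T a ▸ hB.2 a (dk ▸ hi)
  intro σ hσ γ hγ δ hδ hU hN
  obtain ⟨n1, n2, n3⟩ := nat_gen hγ hδ hU
  have hT : ∀ x, δ x ∈ Tor U N ↔ x ∈ Tor U N := fun x =>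
    and_congr (hN x) (zTh_nrm (D := (U : Subgroup X)) hU x)
  have rg : ∀ i, i < k → δ (n i) * (n i)⁻¹ ∈ Tor U N := fun i hi =>
    h.w.rigid h.k3 δ hT (fun i hi => h.ts.perm h.v δ hU hN hi) hi
  have ex : ∀ a, ∃ c, a + 1 < k → c ∈ Tor U N ∧ δ (n (a + 1)) = c * n (a + 1) * c⁻¹ := fun a => by
    by_cases ha : a + 1 < k
    · obtain ⟨c, hc⟩ := conj_of h.v δ hU hN (h.w.mem _ ha) (h.w.nt ha)
        (h.one _ (Nat.succ_pos a) ha) (rg _ ha)
      exact ⟨c, fun _ => hc⟩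
    · exact ⟨1, fun k => absurd k ha⟩
  choose c hc using ex
  obtain ⟨w, hw, e0⟩ : ∃ w ∈ Tor U N, δ (n 0) = w * n 0 := ⟨_, rg 0 k0, by group⟩
  have cj : ∀ g ∈ N, ∀ t ∈ Tor U N, g * t * g⁻¹ ∈ Tor U N := fun g hg t ht =>
    (Subgroup.mem_normalizer_iff.1 (h.v.nrm hg) t).1 ht
  obtain ⟨m0, m1⟩ := ho.nat γ σ hγ (du σ hσ) (hS w hw) (hS _ (inv_mem hw)) (inv w hw)
    (by rw [hd.x, n3, e0, tau_left hw])
    (by
      have a0 := h.w.mem 0 k0
      have a1 := inv_mem (h.w.sq 0 k0)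
      have a2 := (hT _).2 a1
      rw [hd.x, hd.ηi, map_mul, n3, n2, e0, tau_left hw, mul_assoc, mul_assoc,
        ← jt_mul a1 (inv_mem hw), tau_jt h.v a0 a2, tau_jt h.v a0 (mul_mem a1 (inv_mem hw)),
        ← mul_assoc, ← jt_mul hw (cj _ a0 _ a2), map_inv, map_mul, e0]
      congr 2
      have := h.v.ab _ hw _ (cj _ a0 _ (mul_mem a1 (inv_mem hw)))
      calc w * (n 0 * (w * n 0 * (w * n 0))⁻¹ * (n 0)⁻¹)
          = w * (w⁻¹ * ((n 0)⁻¹ * w⁻¹ * n 0) * (n 0 * n 0)⁻¹) := by group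
        _ = (n 0)⁻¹ * w⁻¹ * n 0 * (n 0 * n 0)⁻¹ := by group
        _ = (n 0 * n 0)⁻¹ * (n 0 * w⁻¹ * (n 0)⁻¹) := by group
        _ = _ := by group)
    (c := fun a => jt F U (c a)) (ci := fun a => jt F U (c a)⁻¹) fun a ha => by
      obtain ⟨c1, c2⟩ := hc a (dk ▸ ha)
      have a0 := h.w.mem _ (dk ▸ ha)
      have a1 := h.w.sq _ (dk ▸ ha)
      refine ⟨hS _ c1, hS _ (inv_mem c1), inv _ c1, ?_, ?_⟩
      · rw [hd.T, n3, c2, mul_assoc (jt F _ _), tau_jt h.v a0 (inv_mem c1),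
          ← tau_left (cj _ a0 _ (inv_mem c1)), ← tau_left c1]
        congr 1
        group
      · rw [hd.h, n2, map_mul, c2]
        congr 1
        calc _ = c a * (n (a + 1) * n (a + 1)) * (c a)⁻¹ := by group
          _ = _ := by rw [h.v.ab _ c1 _ a1, mul_inv_cancel_right]
  have main : ∀ x y : N, (y : X) = δ x → γ (Θ x) = Θ y := by
    refine ind (fun x => ∀ y : N, (y : X) = δ x → γ (Θ x) = Θ y) (fun t ht y e => ?_)
      fun i hi m _ hm y e => ?_
    · rw [t1 t ht, n2, t1 y (e ▸ (hT _).2 ht), e]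
    have e1 : y = ⟨δ (n i), (hN _).2 (h.w.mem i hi)⟩ * ⟨δ m, (hN _).2 m.2⟩ :=
      Subtype.ext (e.trans (map_mul δ _ _))
    rw [e1, map_mul, map_mul, map_mul, hm ⟨δ m, (hN _).2 m.2⟩ rfl, t3 i hi]
    congr 1
    rcases i with _ | a
    · rw [m0, ← t3 0 hi, ← t1 ⟨w, hw.1⟩ hw, ← map_mul]
      exact congrArg Θ (Subtype.ext e0.symm)
    · obtain ⟨c1, c2⟩ := hc a hi
      rw [m1 a (dk ▸ hi), ← t3 _ hi, ← t1 ⟨c a, c1.1⟩ c1, ← t1 ⟨(c a)⁻¹, (inv_mem c1).1⟩ (inv_mem c1),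
        ← map_mul, ← map_mul]
      exact congrArg Θ (Subtype.ext c2.symm)
  intro x y e
  change γ (Θ x * _) = Θ y * _
  rw [map_mul, main x y e, n1]

theorem TB.ind (h : TB p k U N n) (h2 : p ≠ 2) : (∃ R : Sylow p X, (R : Subgroup X) ≤ N) ∧
    ∀ R : Sylow p X, (R : Subgroup X) ≤ N → NSV.IndN p X R N := by
  have k0 : 0 < k := by have := h.k3; omega
  refine h.v.ind (fun e => h.w.nt k0 (Subgroup.mem_inf.2 ⟨h.w.mem 0 k0, ?_⟩))
    fun F κ _ _ O R ρ GG hP => ?_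
  · change n 0 ∈ Subgroup.normalizer ((U : Subgroup X) : Set X)
    rw [e]
    exact Subgroup.mem_normalizer_iff.2 fun x => by simp
  · have := hP.charF
    exact h.cor h2 hP

end Pool.Agent.Lib.MP_1ae3da_al.JM
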