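import Pool.Agent.Lib.MP_1ae3da_al.J.Wl

/-! The walls of the centraliser of the reversal. -/

namespace Pool.Agent.Lib.MP_1ae3da_al.SLI

variable {m a : ℕ} {w σ : Equiv.Perm (Fin m)}

/-- the blocks: `a`, `a + 1` are joined, and so are their mirror images. -/
def bw (m a : ℕ) (x : Fin m) : ℕ :=
  if (x : ℕ) = m - 1 - a then (if m - 2 - a = a + 1 then a else m - 2 - a)
  else if (x : ℕ) = a + 1 then a else x

/-- the values of the reflection in the wall `a`. -/
def wv (m a x : ℕ) : ℕ :=
  if 2 * a + 3 < m then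
    (if x = a then a + 1 else if x = a + 1 then a else if x = m - 1 - a then m - 2 - a
      else if x = m - 2 - a then m - 1 - a else x)
  else if x = a then m - 1 - a else if x = m - 1 - a then a else x

lemma wv_side {x y : Fin m} (hx : (x : ℕ) = a) (hy : (y : ℕ) = a + 1) (h : 2 * a + 3 < m)
    (z : Fin m) : ((Equiv.swap x y * Equiv.swap x.rev y.rev) z : ℕ) = wv m a z := by
  have := z.2
  simp only [Equiv.Perm.mul_apply, Equiv.swap_apply_def, wv, Fin.ext_iff, Fin.val_rev,
    apply_ite Fin.val, if_pos h]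
  split_ifs <;> omega

lemma wv_mid {x : Fin m} (hx : (x : ℕ) = a) (h : ¬ 2 * a + 3 < m) (z : Fin m) :
    (Equiv.swap x x.rev z : ℕ) = wv m a z := by
  have := z.2
  simp only [Equiv.swap_apply_def, wv, Fin.ext_iff, Fin.val_rev, apply_ite Fin.val, if_neg h]
  split_ifs <;> omega

lemma wm_rev (hσ : σ ∈ Subgroup.centralizer {(Fin.revPerm : Equiv.Perm (Fin m))}) {x y : Fin m}
    (h : (x : ℕ) + y + 1 = m) : (σ x : ℕ) + σ y + 1 = m := by
  have e : y = x.rev := Fin.ext (by rw [Fin.val_rev]; omega)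
  have h1 : σ x.rev = (σ x).rev := Equiv.congr_fun (Subgroup.mem_centralizer_singleton_iff.mp hσ) x
  have := (σ x).2
  rw [e, h1, Fin.val_rev]
  omega

lemma wv_cen (ha : 2 * a + 1 < m) (hw : ∀ x, (w x : ℕ) = wv m a x) :
    w ∈ Subgroup.centralizer {(Fin.revPerm : Equiv.Perm (Fin m))} := by
  rw [Subgroup.mem_centralizer_singleton_iff]
  ext x
  have := x.2
  simp only [Equiv.Perm.mul_apply, Fin.revPerm_apply, Fin.val_rev, hw, wv]
  split_ifs <;> omega

lemma bw_pair (ha : 2 * a + 1 < m) {i j : Fin m} (hij : i < j) (e : bw m a i = bw m a j) :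
    ((i : ℕ) = a ∧ (j : ℕ) = a + 1) ∨ ((i : ℕ) = m - 2 - a ∧ (j : ℕ) = m - 1 - a) ∨
      (m = 2 * a + 3 ∧ (i : ℕ) = a ∧ (j : ℕ) = a + 2) := by
  have := j.2
  rw [Fin.lt_def] at hij
  simp only [bw] at e
  split_ifs at e <;> omega

theorem wall_wv (ha : 2 * a + 1 < m) (hw : ∀ x, (w x : ℕ) = wv m a x) :
    Wall (bw m a) w (Subgroup.centralizer {(Fin.revPerm : Equiv.Perm (Fin m))}) := by
  refine ⟨fun i j hij => ?_, fun i => ?_, fun i j hij e => ?_, fun σ hσ => ?_⟩
  · have := j.2
    rw [Fin.le_def] at hij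
    simp only [bw]
    split_ifs <;> omega
  · have := i.2
    simp only [bw, hw, wv]
    split_ifs <;> omega
  · have := bw_pair ha hij e
    rw [Fin.lt_def, hw, hw]
    simp only [wv]
    split_ifs <;> omega
  · let x : Fin m := ⟨a, by omega⟩
    let y : Fin m := ⟨a + 1, by omega⟩
    let x' : Fin m := ⟨m - 1 - a, by omega⟩
    let y' : Fin m := ⟨m - 2 - a, by omega⟩
    have h1 := wm_rev hσ (x := x) (y := x') (by simp only [x, x']; omega)
    have h2 := wm_rev hσ (x := y) (y := y') (by simp only [y, y']; omega)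
    have h3 : m = 2 * a + 3 → y' = y := fun e => Fin.ext (by simp only [y, y']; omega)
    have key : ∀ i j, i < j → bw m a i = bw m a j →
        (i = x ∧ j = y) ∨ (i = y' ∧ j = x') ∨ (y' = y ∧ i = x ∧ j = x') := fun i j hij e => by
      rcases bw_pair ha hij e with c | c | c
      · exact Or.inl ⟨Fin.ext c.1, Fin.ext c.2⟩
      · exact Or.inr (Or.inl ⟨Fin.ext c.1, Fin.ext c.2⟩)
      · exact Or.inr (Or.inr ⟨h3 c.1, Fin.ext c.2.1, Fin.ext (by simp only [x']; omega)⟩)
    have hne : (σ x : ℕ) ≠ σ y := fun e => by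
      have := congrArg Fin.val (σ.injective (Fin.ext e))
      simp only [x, y] at this
      omega
    rcases lt_or_gt_of_ne hne with c | c
    · refine Or.inl fun i j hij e => ?_
      rcases key i j hij e with ⟨rfl, rfl⟩ | ⟨rfl, rfl⟩ | ⟨e', rfl, rfl⟩ <;> rw [Fin.lt_def]
      · exact c
      · omega
      · rw [e'] at h2
        omega
    · refine Or.inr fun i j hij e => ?_
      rcases key i j hij e with ⟨rfl, rfl⟩ | ⟨rfl, rfl⟩ | ⟨e', rfl, rfl⟩ <;> rw [Fin.lt_def]
      · exact c
      · omega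
      · rw [e'] at h2
        omega

theorem bw_cov (h : ∀ a, a < m / 2 → Inc (bw m a) σ) : σ = 1 := by
  have h1 : ∀ i j : Fin m, (j : ℕ) = i + 1 → σ i < σ j := fun i j e => by
    have := j.2
    by_cases c : (i : ℕ) < m / 2
    · refine h i c i j (by rw [Fin.lt_def]; omega) ?_
      simp only [bw]
      split_ifs <;> omega
    · refine h (m - 2 - i) (by omega) i j (by rw [Fin.lt_def]; omega) ?_
      simp only [bw]
      split_ifs <;> omega
  have h2 : ∀ (d : ℕ) (i j : Fin m), (j : ℕ) = i + d + 1 → σ i < σ j := fun d => by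
    induction d with
    | zero => exact h1
    | succ d ih =>
      intro i j e
      have := j.2
      exact (ih i ⟨i + d + 1, by omega⟩ rfl).trans (h1 _ j (by simp only; omega))
  exact Inc.one (b := fun _ => 0) monotone_const
    (fun i j hij _ => h2 (j - i - 1) i j (by rw [Fin.lt_def] at hij; omega)) fun _ => rfl

/-- the numbering of type `B`: the wall `0` is the middle one. -/
theorem bw_cov' {k : ℕ} (hk : m / 2 = k) (h : ∀ i, i < k → Inc (bw m (k - 1 - i)) σ) : σ = 1 :=
  bw_cov fun a ha => by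
    have := h (k - 1 - a) (by omega)
    rwa [show k - 1 - (k - 1 - a) = a by omega] at this

end Pool.Agent.Lib.MP_1ae3da_al.SLI
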