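import Pool.Agent.Lib.MP_1ae3da_al.Z.Cl4
import Pool.Agent.Lib.MP_1ae3da_al.J.Gd

/-! The Bruhat data of a closed subgroup whose permutations commute with the reversal. -/

namespace Pool.Agent.Lib.MP_1ae3da_al.JM

open Matrix SLI CT CT.Z

variable {F : Type} [Field F] {m : ℕ}

/-- a subgroup closed under the Bruhat decomposition that contains the long coroots at `z`. -/
structure Cz (H : Subgroup (SLm m F)) (z : Fˣ) : Prop where
  cl : ∀ x ∈ H, ∃ u ∈ US m F, ∃ n ∈ MonS m F, ∃ v ∈ US m F, u ∈ H ∧ n ∈ H ∧ v ∈ H ∧ x = u * n * v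
  reg : ∀ n ∈ H, ∀ σ, IsMon n.1 σ → (∀ u ∈ US m F, u ∈ H → n⁻¹ * u * n ∈ US m F) → σ = 1
  rev : ∀ n ∈ H, ∀ σ, IsMon n.1 σ → ∀ i : Fin m, σ i.rev = (σ i).rev
  el : ∀ (i : Fin m) (hi : i ≠ i.rev), el hi z ∈ H

lemma bv_mon {a b : Fin m} (h : a ≠ b) (z : Fˣ) : IsMon (el h z).1 1 := fun i j hij => by
  rw [el_val]
  exact diagonal_apply_ne _ (Ne.symm hij)

lemma bv_dg {a b : Fin m} (h : a ≠ b) (z : Fˣ) (i : Fin m) : (el h z).1 i i =
    ((if i = a then z else if i = b then z⁻¹ else 1 : Fˣ) : F) := by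
  rw [el_val, diagonal_apply_eq]

lemma bv_pow {a b : Fin m} (h : a ≠ b) {z : Fˣ} {s : ℕ} (hz : z ^ s = 1) : el h z ^ s = 1 := by
  obtain ⟨h1, h2⟩ := dg_pow (bv_mon h z) s
  apply Subtype.ext
  ext i j
  show (el h z ^ s).1 i j = (1 : Matrix (Fin m) (Fin m) F) i j
  by_cases e : i = j
  · subst e
    rw [h2, bv_dg, one_apply_eq, ← Units.val_pow_eq_pow_val]
    split_ifs <;> simp [hz]
  · rw [h1 i j (Ne.symm e), one_apply_ne e]

lemma bv_odd {p : ℕ} (hp : p.Prime) (h2 : p ≠ 2) {z : Fˣ} (z1 : z ≠ 1) (zp : z ^ p = 1) {s : ℕ}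
    (hs : z ^ (2 * s) = 1) : p ∣ s := by
  have : Fact p.Prime := ⟨hp⟩
  have h := orderOf_dvd_of_pow_eq_one hs
  rw [orderOf_eq_prime zp z1] at h
  exact ((hp.dvd_mul.mp h).resolve_left fun e =>
    h2 ((Nat.prime_dvd_prime_iff_eq hp Nat.prime_two).mp e))

/-- the diagonal of a commutator that commutes with `n`. -/
lemma bv_comm {d n : SLm m F} {σ : Equiv.Perm (Fin m)} (hd : IsMon d.1 1) (hn : IsMon n.1 σ)
    (h : Commute (d * n * d⁻¹ * n⁻¹) n) (j : Fin m) :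
    d.1 j j * d.1 (σ (σ j)) (σ (σ j)) = d.1 (σ j) (σ j) * d.1 (σ j) (σ j) := by
  obtain ⟨c, hc⟩ : ∃ c, c = d * n * d⁻¹ * n⁻¹ := ⟨_, rfl⟩
  have mc : IsMon c.1 1 := by
    have := mon_mul (mon_mul (mon_mul hd hn) (mon_inv hd)) (mon_inv hn)
    rw [mul_one, inv_one, one_mul, inv_mul_cancel] at this
    rw [hc]
    exact this
  rw [← hc] at h
  have e1 : c.1 * n.1 = n.1 * c.1 := congrArg Subtype.val h.eq
  have e2 : c.1 * (n.1 * d.1) = d.1 * n.1 :=
    congrArg Subtype.val (show c * (n * d) = d * n by rw [hc]; group)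
  have k1 : ∀ i, c.1 i i = c.1 (σ i) (σ i) := fun i => by
    have := congrFun (congrFun e1 i) (σ i)
    rw [mon_l mc, mon_l hn, mul_comm] at this
    exact mul_left_cancel₀ (mon_ne hn i) this
  have k2 : ∀ i, c.1 i i * d.1 (σ i) (σ i) = d.1 i i := fun i => by
    have := congrFun (congrFun e2 i) (σ i)
    rw [mon_l mc, mon_l hd, mon_l hn] at this
    apply mul_right_cancel₀ (mon_ne hn i)
    simp only [Equiv.Perm.coe_one, id] at this
    linear_combination this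
  have a1 := k2 j
  have a2 := k2 (σ j)
  rw [← k1 j] at a2
  linear_combination d.1 (σ j) (σ j) * a2 - d.1 (σ (σ j)) (σ (σ j)) * a1

namespace Cz
variable {p r : ℕ} {H : Subgroup (SLm m F)} {z : Fˣ} (h : Cz H z)
include h

lemma clo : Clo 1 1 H (Subgroup.centralizer {Fin.revPerm}) :=
  ⟨h.cl, h.reg, fun _ _ _ => ⟨1, one_mem _, mon_one, fun s _ => by simp⟩, fun n hn σ hσ => by
    rw [Subgroup.mem_centralizer_singleton_iff]
    ext1 i
    exact h.rev n hn σ hσ i, by simp⟩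

lemma tor (hp : p.Prime) (h2 : p ≠ 2) (z1 : z ≠ 1) (zp : z ^ p = 1) (i j : Fin m) (hij : i ≠ j) :
    ∃ t ∈ H, IsMon t.1 1 ∧ ∀ s : ℕ, t.1 i i ^ s = t.1 j j ^ s → p ∣ s := by
  wlog hi : i ≠ i.rev generalizing i j
  · obtain ⟨t, h1, h2, h3⟩ := this j i hij.symm fun e => hij (mid_eq (not_not.mp hi) e)
    exact ⟨t, h1, h2, fun s e => h3 s e.symm⟩
  refine ⟨_, h.el i hi, bv_mon hi z, fun s e => bv_odd hp h2 z1 zp ?_⟩
  rw [bv_dg, bv_dg, if_pos rfl, if_neg hij.symm, ← Units.val_pow_eq_pow_val,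
    ← Units.val_pow_eq_pow_val, Units.val_inj] at e
  rw [two_mul, pow_add]
  split_ifs at e
  · nth_rewrite 1 [e]
    rw [inv_pow, inv_mul_cancel]
  · rw [e, one_pow, one_mul]

lemma quad (hp : p.Prime) (h2 : p ≠ 2) (z1 : z ≠ 1) (zp : z ^ p = 1) {n : SLm m F} (hn : n ∈ H)
    {σ : Equiv.Perm (Fin m)} (hσ : IsMon n.1 σ)
    (hc : ∀ (i : Fin m) (hi : i ≠ i.rev), Commute (SLI.el hi z * n * (SLI.el hi z)⁻¹ * n⁻¹) n) :
    σ = 1 := by
  have hr := h.rev n hn σ hσ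
  ext1 j
  by_contra hj
  replace hj : σ j ≠ j := hj
  have hi : σ j ≠ (σ j).rev := fun e => hj (mid_eq e (σ.injective (e.trans (hr j).symm)))
  have e := bv_comm (bv_mon hi z) hσ (hc _ hi) j
  rw [bv_dg, bv_dg, bv_dg, if_neg hj.symm, if_neg (σ.injective.ne hj), if_pos rfl,
    ← Units.val_mul, ← Units.val_mul, Units.val_inj] at e
  have p2 : ¬ p ∣ 2 := fun c => h2 ((Nat.prime_dvd_prime_iff_eq hp Nat.prime_two).mp c)
  by_cases c : j = (σ j).rev
  · have c' : σ (σ j) = (σ j).rev := by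
      rw [← c]
      nth_rewrite 1 [show σ j = j.rev from Fin.rev_eq_iff.mp c.symm]
      rw [hr, ← c]
    rw [if_pos c, if_pos c'] at e
    refine p2 (bv_odd hp h2 z1 zp ?_)
    rw [show z ^ (2 * 2) = (z * z) * (z * z) by simp [pow_succ, mul_assoc]]
    nth_rewrite 1 [← e]
    group
  · have c' : σ (σ j) ≠ (σ j).rev := fun c' => c (by
      have := σ.injective (c'.trans (hr j).symm)
      rw [this, Fin.rev_rev])
    rw [if_neg c, if_neg c', one_mul] at e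
    exact hp.not_dvd_one (bv_odd hp h2 z1 zp (by rw [mul_one, pow_two, ← e]))

variable [Finite F]

lemma syl [Fact r.Prime] [CharP F r] :
    ∃ U : Sylow r H, (U : Subgroup H) = (US m F).subgroupOf H := h.clo.syl

variable {U : Sylow r H} (hU : (U : Subgroup H) = (US m F).subgroupOf H)
include hU

lemma tor_iff {t : H} : t ∈ Tor U ((MonS m F).subgroupOf H) ↔ IsMon t.1.1 1 := h.clo.tor_iff hU

omit h [Finite F] in
lemma mem_U {u : H} : u ∈ U ↔ u.1 ∈ US m F := by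
  show u ∈ (U : Subgroup H) ↔ _
  rw [hU]
  rfl

lemma nrm : (MonS m F).subgroupOf H ≤
    Subgroup.normalizer (Tor U ((MonS m F).subgroupOf H) : Set H) := by
  rintro n ⟨σ, hn⟩
  refine Subgroup.mem_normalizer_fintype fun t ht => (h.tor_iff hU).mpr ?_
  have := mon_mul (mon_mul hn ((h.tor_iff hU).mp ht)) (mon_inv hn)
  rwa [one_mul, inv_mul_cancel] at this

/-- two monomial elements with the same permutation differ by the torus. -/
lemma tor_div {a b : H} {σ : Equiv.Perm (Fin m)} (ha : IsMon a.1.1 σ) (hb : IsMon b.1.1 σ) :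
    a * b⁻¹ ∈ Tor U ((MonS m F).subgroupOf H) := by
  refine (h.tor_iff hU).mpr ?_
  have := mon_mul ha (mon_inv hb)
  rwa [inv_mul_cancel] at this

lemma idx : (Tor U ((MonS m F).subgroupOf H)).relIndex ((MonS m F).subgroupOf H) =
    Nat.card (weyH H).range := by
  rw [Subgroup.relIndex, h.clo.tor_ker hU, Subgroup.index_ker]

/-- the index of the torus if all permutations that commute with the reversal occur. -/
lemma card (hs : ∀ σ : Equiv.Perm (Fin m), (∀ i, σ i.rev = (σ i).rev) → ∃ n ∈ H, IsMon n.1 σ) :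
    (Tor U ((MonS m F).subgroupOf H)).relIndex ((MonS m F).subgroupOf H) =
      2 ^ (m / 2) * (m / 2).factorial := by
  rw [h.idx hU, ← card_cen, le_antisymm h.clo.range_le fun σ hσ => ?_]
  obtain ⟨n, hn, h1⟩ := hs σ⁻¹ (cen_rev ⟨σ, hσ⟩⁻¹)
  exact ⟨⟨⟨n, hn⟩, _, h1⟩, by rw [weyH_eq h1, inv_inv]⟩

lemma orb (hp : p.Prime) (h2 : p ≠ 2) (z1 : z ≠ 1) (zp : z ^ p = 1) {u : H} (hu : u ∈ U)
    (h1 : u ≠ 1) : p ∣ (Subgroup.centralizer {u}).relIndex (Tor U ((MonS m F).subgroupOf H)) := by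
  have hT := fun {t} => h.tor_iff hU (t := t)
  obtain ⟨i, j, hij, h0⟩ := ex_off ((mem_U hU).mp hu) fun e => h1 (Subtype.ext e)
  obtain ⟨t, ht, ht1, ht2⟩ := h.tor hp h2 z1 zp i j hij
  have : ((Subgroup.centralizer {u}).subgroupOf (Tor U ((MonS m F).subgroupOf H))).Normal :=
    ⟨fun a ha g => by
      have : g * a * g⁻¹ = a := by
        rw [mul_inv_eq_iff_eq_mul]
        exact Subtype.ext (Subtype.ext (mon_one_comm (hT.mp g.2) (hT.mp a.2)))
      rwa [this]⟩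
  have h2 := Subgroup.pow_index_mem
    ((Subgroup.centralizer {u}).subgroupOf (Tor U ((MonS m F).subgroupOf H)))
    ⟨⟨t, ht⟩, hT.mpr ht1⟩
  set s := (Subgroup.centralizer {u}).relIndex (Tor U ((MonS m F).subgroupOf H)) with hs
  have h3 : (⟨t, ht⟩ : H) ^ s * u = u * ⟨t, ht⟩ ^ s :=
    Subgroup.mem_centralizer_singleton_iff.mp h2
  have h4 : (t ^ s).1 * u.1.1 = u.1.1 * (t ^ s).1 := congrArg (fun x : H => x.1.1) h3
  have h5 : (t ^ s).1 i i * u.1.1 i j = u.1.1 i j * (t ^ s).1 j j :=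
    (mon_l (dg_pow ht1 s).1 _ i j).symm.trans
      ((congrFun (congrFun h4 i) j).trans (mon_r (dg_pow ht1 s).1 _ i j))
  rw [(dg_pow ht1 s).2, (dg_pow ht1 s).2, mul_comm] at h5
  exact ht2 s (mul_left_cancel₀ h0 h5)

theorem bv (hp : p.Prime) (h2 : p ≠ 2) (hpr : p ≠ r) (z1 : z ≠ 1) (zp : z ^ p = 1) :
    BV p U ((MonS m F).subgroupOf H) := by
  have hT := fun {t} => h.tor_iff hU (t := t)
  refine ⟨hpr, fun x hx y hy => Subtype.ext (mon_one_comm (hT.mp hx) (hT.mp hy)), h.nrm hU,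
    fun x => ?_, fun u hu h1 => h.orb hU hp h2 z1 zp hu h1, ?_⟩
  · obtain ⟨u, hu, n, hn, v, hv, e⟩ := h.clo.bru x
    exact ⟨u, (mem_U hU).mpr hu, n, hn, v, (mem_U hU).mpr hv, e⟩
  · rintro n ⟨σ, hσ⟩ hc
    have := h.quad hp h2 z1 zp n.2 hσ fun i hi =>
      (hc ⟨_, h.el i hi⟩ (hT.mpr (bv_mon hi z))
        ⟨1, Subtype.ext (by rw [pow_one]; exact bv_pow hi zp)⟩).map H.subtype
    exact hT.mpr (this ▸ hσ)

end Cz

lemma bv_iso (φ : F →+* F) (ε : Fin m → F) {z : Fˣ} (hz : φ z = z) (i : Fin m) (hi : i ≠ i.rev) :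
    el hi z ∈ Iso φ (JJ ε) := by
  refine dg_iso φ (el_val hi z) fun a => ?_
  by_cases h1 : a = i
  · subst h1
    simp [hi.symm, hz]
  · by_cases h2 : a = i.rev
    · subst h2
      simp [hi.symm, hz]
    · have h3 : a.rev ≠ i := fun e => h2 (by rw [← e, Fin.rev_rev])
      simp [h1, h2, h3]

/-- the symplectic and unitary groups. -/
theorem frm_cz [Finite F] {φ : F →+* F} {η d : F} (h : Frm φ η d) (m : ℕ) {z : Fˣ}
    (hz : φ z = z) : Cz (h.G m) z :=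
  ⟨iso_cl φ h.ep_ne, fun _ hn _ hσ => h.reg hn hσ, fun _ hn _ hσ => iso_rev φ h.ep_ne hn hσ,
    bv_iso φ _ hz⟩

/-- an element of order `p` that is fixed by the power `q`. -/
lemma ex_z [Fintype F] {p q : ℕ} [hp : Fact p.Prime] (h2 : p ≠ 2) (hq : q ∣ Fintype.card F - 1)
    (hpq : p ∣ q) : ∃ z : Fˣ, z ≠ 1 ∧ z ^ p = 1 ∧ z ^ q = 1 := by
  obtain ⟨z, h1, h3⟩ := ex_root (F := F) (p := p) (q := p) h2 (hpq.trans hq)
  refine ⟨z, fun e => ?_, h1, ?_⟩
  · have := h3 1 (by rw [e, one_pow])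
    rw [padicValNat.self hp.out.one_lt, pow_one] at this
    exact hp.out.not_dvd_one this
  · obtain ⟨c, rfl⟩ := hpq
    rw [pow_mul, h1, one_pow]

end Pool.Agent.Lib.MP_1ae3da_al.JM
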