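import Pool.Agent.Lib.MP_1ae3da_al.J.Gd

/-! The Weyl group of type `B`: the coset count and homomorphisms out of `N`. -/

namespace Pool.Agent.Lib.MP_1ae3da_al.JM

section words
variable {G : Type} [Monoid G] {K : ℕ} {s : ℕ → G}

/-- `s j * ... * s (j + m - 1)`. -/
def wup (s : ℕ → G) : ℕ → ℕ → G
  | _, 0 => 1
  | j, m + 1 => s j * wup s (j + 1) m

/-- `s (j - 1) * ... * s 0`. -/
def wdn (s : ℕ → G) : ℕ → G
  | 0 => 1
  | j + 1 => s j * wdn s j

theorem wup_far (hb : Br K s) {i : ℕ} (m : ℕ) :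
    ∀ j, i + 1 < j → j + m ≤ K → s i * wup s j m = wup s j m * s i := by
  induction m with
  | zero => intro j _ _; simp [wup]
  | succ m ih =>
    intro j h1 h2
    rw [wup, ← mul_assoc, hb.1 i j h1 (by omega), mul_assoc, ih (j + 1) (by omega) (by omega),
      mul_assoc]

theorem wup_in (hb : Br K s) {i : ℕ} (m : ℕ) : ∀ j, 0 < j → j ≤ i → i + 1 < j + m → j + m ≤ K →
    s (i + 1) * wup s j m = wup s j m * s i := by
  induction m with
  | zero => intro j _ _ _ _; omega
  | succ m ih =>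
    intro j h0 h1 h2 h3
    rcases Nat.lt_or_ge j i with l | l
    · rw [wup, ← mul_assoc, ← hb.1 j (i + 1) (by omega) (by omega), mul_assoc,
        ih (j + 1) (by omega) (by omega) (by omega) (by omega), mul_assoc]
    · obtain rfl : i = j := by omega
      obtain ⟨m, rfl⟩ : ∃ m', m = m' + 1 := ⟨m - 1, by omega⟩
      rw [wup, wup, mul_assoc, mul_assoc, ← wup_far hb m (i + 1 + 1) (by omega) (by omega)]
      simp only [← mul_assoc]
      rw [hb.2.1 i h0 (by omega)]

theorem wdn_far (hb : Br K s) {i : ℕ} (hi : i < K) (j : ℕ) (h : j < i) :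
    s i * wdn s j = wdn s j * s i := by
  induction j with
  | zero => simp [wdn]
  | succ j ih =>
    rw [wdn, ← mul_assoc, ← hb.1 j i h hi, mul_assoc, ih (by omega), mul_assoc]

theorem wdn_in (hb : Br K s) {i : ℕ} (hi : 0 < i) (j : ℕ) (h : i + 1 < j) (hj : j ≤ K) :
    s i * wdn s j = wdn s j * s (i + 1) := by
  induction j with
  | zero => omega
  | succ j ih =>
    rcases Nat.lt_or_ge (i + 1) j with l | l
    · rw [wdn, ← mul_assoc, hb.1 i j l (by omega), mul_assoc, ih l (by omega), mul_assoc]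
    · obtain rfl : j = i + 1 := by omega
      rw [wdn, wdn, mul_assoc, mul_assoc, ← wdn_far hb (by omega) i (by omega)]
      simp only [← mul_assoc]
      rw [hb.2.1 i hi (by omega)]

theorem wdn_zero (hb : Br K s) (j : ℕ) (h : 1 < j) (hj : j ≤ K) :
    s 0 * wdn s j * s 1 = wdn s j * s 1 * s 0 := by
  induction j with
  | zero => omega
  | succ j ih =>
    rcases Nat.lt_or_ge 1 j with l | l
    · rw [wdn, ← mul_assoc, hb.1 0 j l (by omega), mul_assoc (s j), mul_assoc (s j),
        ih l (by omega)]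
      simp only [mul_assoc]
    · obtain rfl : j = 1 := by omega
      simp only [wdn, mul_one, ← mul_assoc]
      exact hb.2.2 (by omega)

/-- the coset representatives. -/
def rep (s : ℕ → G) (k : ℕ) : Bool → ℕ → G
  | false, a => wup s (a + 1) (k - a)
  | true, a => wdn s (a + 1) * wup s 1 k

theorem rep_step {k : ℕ} (hs : ∀ i, i < k + 1 → s i * s i = 1) (hb : Br (k + 1) s) {i a : ℕ}
    (hi : i ≤ k) (ha : a ≤ k) (b : Bool) : (∃ b', ∃ a' ≤ k, s i * rep s k b a = rep s k b' a') ∨
      ∃ i' < k, s i * rep s k b a = rep s k b a * s i' := by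
  rcases Nat.lt_trichotomy i a with l | rfl | l
  · refine Or.inr ⟨i, by omega, ?_⟩
    cases b with
    | false => exact wup_far hb _ _ (by omega) (by omega)
    | true =>
      rw [rep]
      rcases Nat.eq_zero_or_pos i with rfl | h0
      · obtain ⟨m, rfl⟩ : ∃ m, k = m + 1 := ⟨k - 1, by omega⟩
        rw [wup, mul_assoc, mul_assoc, ← wup_far hb m (1 + 1) (by omega) (by omega)]
        simp only [← mul_assoc]
        rw [wdn_zero hb _ (by omega) (by omega)]
      · rw [← mul_assoc, wdn_in hb h0 _ (by omega) (by omega), mul_assoc,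
          wup_in hb k 1 (by omega) h0 (by omega) (by omega), mul_assoc]
  · left
    cases b with
    | false =>
      cases i with
      | zero => exact ⟨true, 0, ha, by simp [rep, wdn]⟩
      | succ i =>
        refine ⟨false, i, by omega, ?_⟩
        rw [rep, rep, show k - i = k - (i + 1) + 1 by omega, wup]
    | true =>
      rw [rep, wdn, ← mul_assoc, ← mul_assoc, hs i (by omega), one_mul]
      cases i with
      | zero => exact ⟨false, 0, ha, by simp [rep, wdn]⟩
      | succ i => exact ⟨true, i, by omega, rfl⟩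
  · obtain ⟨i, rfl⟩ : ∃ i', i = i' + 1 := ⟨i - 1, by omega⟩
    rcases Nat.lt_or_ge a i with l' | l'
    · refine Or.inr ⟨i, by omega, ?_⟩
      cases b with
      | false => exact wup_in hb _ _ (by omega) (by omega) (by omega) (by omega)
      | true =>
        rw [rep, ← mul_assoc, wdn_far hb (by omega) _ (by omega), mul_assoc,
          wup_in hb k 1 (by omega) (by omega) (by omega) (by omega), mul_assoc]
    · obtain rfl : a = i := by omega
      refine Or.inl ⟨b, a + 1, hi, ?_⟩
      cases b with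
      | false =>
        rw [rep, rep, show k - a = k - (a + 1) + 1 by omega, wup, ← mul_assoc, hs _ (by omega),
          one_mul]
      | true => exact (mul_assoc _ _ _).symm

end words

variable {k : ℕ} {X : Type} [Group X] {N T : Subgroup X} {n : ℕ → X}

theorem card_le {G : Type} [Group G] (k : ℕ) (s : ℕ → G) (hs : ∀ i, i < k → s i * s i = 1)
    (hb : Br k s) : Finite (Subgroup.closure (s '' Set.Iio k)) ∧
      Nat.card (Subgroup.closure (s '' Set.Iio k)) ≤ 2 ^ k * k.factorial := by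
  induction k with
  | zero =>
    have e : Subgroup.closure (s '' Set.Iio 0) = ⊥ := by simp
    rw [e]
    exact ⟨inferInstance, by simp⟩
  | succ k ih =>
    obtain ⟨h1, h2⟩ := ih (fun i hi => hs i (by omega))
      ⟨fun i j a b => hb.1 i j a (by omega), fun i a b => hb.2.1 i a (by omega),
        fun a => hb.2.2 (by omega)⟩
    let f : (Bool × Fin (k + 1)) × Subgroup.closure (s '' Set.Iio k) → G :=
      fun x => rep s k x.1.1 x.1.2 * x.2
    have step : ∀ i, i < k + 1 → ∀ y ∈ Set.range f, s i * y ∈ Set.range f := by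
      rintro i hi _ ⟨⟨⟨b, a⟩, y⟩, rfl⟩
      rcases rep_step hs hb (Nat.lt_succ_iff.1 hi) (Nat.lt_succ_iff.1 a.2) b with
        ⟨b', a', ha', e⟩ | ⟨i', hi', e⟩
      · exact ⟨⟨⟨b', a', Nat.lt_succ_iff.2 ha'⟩, y⟩, by simp only [f, ← mul_assoc, e]⟩
      · exact ⟨⟨⟨b, a⟩, ⟨s i', Subgroup.subset_closure ⟨i', hi', rfl⟩⟩ * y⟩, by
          simp only [f, ← mul_assoc, e, Subgroup.coe_mul]⟩
    have sub : (Subgroup.closure (s '' Set.Iio (k + 1)) : Set G) ⊆ Set.range f := by
      intro x hx
      induction hx using Subgroup.closure_induction_left with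
      | one => exact ⟨⟨⟨false, Fin.last k⟩, 1⟩, by simp [f, rep, wup]⟩
      | mul_left x hx y _ hy =>
        obtain ⟨i, hi, rfl⟩ := hx
        exact step i hi y hy
      | inv_mul_cancel x hx y _ hy =>
        obtain ⟨i, hi, rfl⟩ := hx
        rw [inv_eq_of_mul_eq_one_right (hs i hi)]
        exact step i hi y hy
    have fin : (Set.range f).Finite := Set.finite_range f
    refine ⟨fin.subset sub, (Nat.card_mono fin sub).trans ((Finite.card_range_le f).trans ?_)⟩
    rw [Nat.card_prod, Nat.card_prod, Nat.card_eq_fintype_card, Nat.card_eq_fintype_card,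
      Fintype.card_bool, Fintype.card_fin, Nat.factorial_succ, pow_succ]
    calc 2 * (k + 1) * _ ≤ 2 * (k + 1) * (2 ^ k * k.factorial) := Nat.mul_le_mul_left _ h2
      _ = _ := by ring

theorem WB.lift [Finite X] (h : WB k N T n) {G : Type} [Monoid G] (j : X → G) (j1 : j 1 = 1)
    (hj : ∀ t ∈ T, ∀ t' ∈ T, j (t * t') = j t * j t') (s : ℕ → G)
    (hs : ∀ i, i < k → ∀ t ∈ T, s i * j t = j (n i * t * (n i)⁻¹) * s i)
    (h2 : ∀ i, i < k → s i * s i = j (n i * n i)) (hb : Br k s) :
    ∃ Θ : N →* G, (∀ t : N, (t : X) ∈ T → Θ t = j t) ∧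
      ∀ i, i < k → ∀ x : N, (x : X) = n i → Θ x = s i := by
  classical
  let j0 : T →* G := ⟨⟨fun t => j t, j1⟩, fun a b => hj a a.2 b b.2⟩
  let J : T →* X × Gˣ := T.subtype.prod j0.toHomUnits
  have hu : ∀ i, i < k → IsUnit (s i) := fun i hi => by
    rw [← isUnit_pow_iff two_ne_zero, pow_two, h2 i hi]
    exact (j0.toHomUnits ⟨_, h.sq i hi⟩).isUnit
  let M := Subgroup.normalizer (J.range : Set (X × Gˣ))
  have : Finite J.range := Finite.of_surjective _ J.rangeRestrict_surjective
  have hm : ∀ i (hi : i < k), ((n i, (hu i hi).unit) : X × Gˣ) ∈ M := fun i hi => by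
    refine Subgroup.mem_normalizer_fintype ?_
    rintro _ ⟨t, rfl⟩
    refine ⟨⟨_, (Subgroup.mem_normalizer_iff.1 (h.nrm (h.mem i hi)) t).1 t.2⟩, ?_⟩
    rw [eq_mul_inv_iff_mul_eq]
    refine Prod.ext (by simp [J]) (Units.ext ?_)
    exact (hs i hi t t.2).symm
  let σ : ℕ → M := fun i => if hi : i < k then ⟨_, hm i hi⟩ else 1
  have e1 : ∀ i, i < k → (σ i).1.1 = n i := fun i hi => by simp only [σ, dif_pos hi]
  have e2 : ∀ i, i < k → ((σ i).1.2 : G) = s i := fun i hi => by
    simp only [σ, dif_pos hi, IsUnit.unit_spec]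
  have ext : ∀ x y : M, x.1.1 = y.1.1 → (x.1.2 : G) = y.1.2 → x = y := fun x y a b =>
    Subtype.ext (Prod.ext a (Units.ext b))
  let D := J.range.subgroupOf M
  have hD : D.Normal := Subgroup.normal_in_normalizer
  let q := QuotientGroup.mk' D
  have bσ : Br k σ := by
    refine ⟨fun a b h1 h3 => ext _ _ ?_ ?_, fun a h1 h3 => ext _ _ ?_ ?_, fun h1 => ext _ _ ?_ ?_⟩
    all_goals
      simp (disch := omega) only [Subgroup.coe_mul, Prod.fst_mul, Prod.snd_mul, Units.val_mul,
        e1, e2]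
    exacts [h.br.1 a b h1 h3, hb.1 a b h1 h3, h.br.2.1 a h1 h3, hb.2.1 a h1 h3, h.br.2.2 h1,
      hb.2.2 h1]
  obtain ⟨c1, c2⟩ := card_le k (fun i => q (σ i))
    (fun i hi => by
      rw [← map_mul]
      refine (QuotientGroup.eq_one_iff _).2 ⟨⟨_, h.sq i hi⟩, Prod.ext ?_ (Units.ext ?_)⟩
      · change n i * n i = (σ i).1.1 * (σ i).1.1
        rw [e1 i hi]
      · change j (n i * n i) = (σ i).1.2 * (σ i).1.2
        rw [e2 i hi, h2 i hi])
    ⟨fun a b h1 h3 => by simp only [← map_mul, bσ.1 a b h1 h3],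
      fun a h1 h3 => by simp only [← map_mul, bσ.2.1 a h1 h3],
      fun h1 => by simp only [← map_mul, bσ.2.2 h1]⟩
  let C := Subgroup.closure ((fun i => q (σ i)) '' Set.Iio k)
  let Γ := C.comap q
  let π : Γ →* X := (MonoidHom.fst X Gˣ).comp (M.subtype.comp Γ.subtype)
  have mT : ∀ t : T, ∃ γ : Γ, γ.1.1 = J t := fun t => by
    let y : M := ⟨J t, Subgroup.le_normalizer (⟨t, rfl⟩ : J t ∈ J.range)⟩
    have e : q y = 1 := (QuotientGroup.eq_one_iff (N := D) y).2 ⟨t, rfl⟩
    exact ⟨⟨y, Subgroup.mem_comap.2 (e ▸ one_mem _)⟩, rfl⟩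
  have mσ : ∀ i, i < k → σ i ∈ Γ := fun i hi => Subgroup.subset_closure ⟨i, hi, rfl⟩
  have le : N ≤ π.range := h.gen.trans ((Subgroup.closure_le _).2 (by
    rintro x (hx | ⟨i, hi, rfl⟩)
    · obtain ⟨γ, e⟩ := mT ⟨x, hx⟩
      exact ⟨γ, congrArg Prod.fst e⟩
    · exact ⟨⟨_, mσ i hi⟩, e1 i hi⟩))
  have cD : Nat.card D ≤ Nat.card T := by
    rw [Nat.card_congr (Subgroup.subgroupOfEquivOfLe Subgroup.le_normalizer).toEquiv]
    exact Nat.card_le_card_of_surjective _ J.rangeRestrict_surjective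
  have fD : Finite D := Finite.of_equiv _
    (Subgroup.subgroupOfEquivOfLe (H := J.range) Subgroup.le_normalizer).toEquiv.symm
  have cΓ : Nat.card Γ = Nat.card D * Nat.card C :=
    QuotientGroup.card_preimage_mk D (C : Set (M ⧸ D))
  have fΓ : Finite Γ := Nat.finite_of_card_ne_zero (by
    rw [cΓ]
    exact mul_ne_zero Nat.card_pos.ne' Nat.card_pos.ne')
  have cN : Nat.card T * (2 ^ k * k.factorial) = Nat.card N := by
    rw [← h.card, ← Nat.card_congr (Subgroup.subgroupOfEquivOfLe h.le).toEquiv]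
    exact Subgroup.card_mul_index _
  have inj : Function.Injective π := by
    have b := π.rangeRestrict_surjective.bijective_of_nat_card_le (by
      rw [cΓ]
      exact (Nat.mul_le_mul cD c2).trans (cN.le.trans (Subgroup.card_le_of_le le)))
    exact fun x y e => b.1 (Subtype.ext e)
  let Θ : N →* G := (Units.coeHom G).comp ((MonoidHom.snd X Gˣ).comp (M.subtype.comp
    (Γ.subtype.comp ((MonoidHom.ofInjective inj).symm.toMonoidHom.comp (Subgroup.inclusion le)))))
  have key : ∀ (x : N) (γ : Γ), γ.1.1.1 = x → Θ x = γ.1.1.2 := fun x γ e => by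
    have : (MonoidHom.ofInjective inj).symm (Subgroup.inclusion le x) = γ :=
      (MulEquiv.symm_apply_eq _).2 (Subtype.ext e.symm)
    exact congrArg (fun y : Γ => (y.1.1.2 : G)) this
  refine ⟨Θ, fun t ht => ?_, fun i hi x hx => ?_⟩
  · obtain ⟨γ, e⟩ := mT ⟨t, ht⟩
    rw [key t γ (congrArg Prod.fst e), e]
    rfl
  · rw [key x ⟨_, mσ i hi⟩ ((e1 i hi).trans hx.symm), e2 i hi]

end Pool.Agent.Lib.MP_1ae3da_al.JM
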