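import Pool.Agent.Lib.MP_1ae3da_al.J.Dd
import Pool.Agent.Lib.MP_1ae3da_al.J.G3

/-! The Weyl group of type `D`. -/

namespace Pool.Agent.Lib.MP_1ae3da_al.JM

variable {k : ℕ} {X : Type} [Group X] [Finite X] {N T : Subgroup X} {n : ℕ → X} {g : MulAut X}

open SemidirectProduct

/-- the action of the group of order two -/
def d1A (g : MulAut X) (gg : ∀ x, g (g x) = x) : ℤˣ →* MulAut X where
  toFun e := if e = 1 then 1 else g
  map_one' := if_pos rfl
  map_mul' a b := by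
    have e : g * g = 1 := MulEquiv.ext gg
    rcases Int.units_eq_one_or a with rfl | rfl <;> rcases Int.units_eq_one_or b with rfl | rfl <;>
      simp [e]

omit [Finite X] in
theorem d1A_neg (gg : ∀ x, g (g x) = x) : d1A g gg (-1) = g :=
  if_neg (t := 1) (show ¬ (-1 : ℤˣ) = 1 by decide)

omit [Finite X] in
theorem d1A_mem {gg : ∀ x, g (g x) = x} (h : ∀ x, g x ∈ N ↔ x ∈ N) (e : ℤˣ) {x : X} (hx : x ∈ N) :
    d1A g gg e x ∈ N := by
  rcases Int.units_eq_one_or e with rfl | rfl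
  · rwa [map_one]
  · rw [d1A_neg]
    exact (h x).2 hx

/-- the extended normaliser -/
def d1N (gg : ∀ x, g (g x) = x) (h : ∀ x, g x ∈ N ↔ x ∈ N) : Subgroup (X ⋊[d1A g gg] ℤˣ) where
  carrier := {y | y.left ∈ N}
  one_mem' := N.one_mem
  mul_mem' := fun {a _} ha hb => N.mul_mem ha (d1A_mem h a.right hb)
  inv_mem' := fun {a} ha => d1A_mem h a.right⁻¹ (N.inv_mem ha)

/-- the generators -/
def d1n (gg : ∀ x, g (g x) = x) (n : ℕ → X) (i : ℕ) : X ⋊[d1A g gg] ℤˣ :=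
  if i = 0 then inr (-1) else inl (n i)

omit [Finite X] in
theorem d1n_pos (gg : ∀ x, g (g x) = x) {i : ℕ} (hi : 0 < i) : d1n gg n i = inl (n i) :=
  if_neg hi.ne'

omit [Finite X] in
theorem d1_sw (gg : ∀ x, g (g x) = x) (x : X) :
    d1n gg n 0 * inl x = inl (g x) * d1n gg n 0 := by
  ext <;> simp [d1n, d1A_neg]

omit [Finite X] in
theorem d1_sq (gg : ∀ x, g (g x) = x) : d1n gg n 0 * d1n gg n 0 = 1 := by
  ext <;> simp [d1n]

theorem WD.wb (h : WD k N T n g) :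
    WB k (d1N h.gg h.gN) (T.map inl) (d1n h.gg n) := by
  have k2 := h.k2
  have : Finite (X ⋊[d1A g h.gg] ℤˣ) := Finite.of_equiv _ equivProd.symm
  refine ⟨?_, fun y hy => ?_, fun i hi => ?_, fun i hi => ?_, ⟨fun i j a b => ?_, fun i a b => ?_,
    fun _ => ?_⟩, fun y hy => ?_, ?_⟩
  · rintro _ ⟨t, ht, rfl⟩
    exact h.le ht
  · refine Subgroup.mem_normalizer_fintype ?_
    rintro _ ⟨t, ht, rfl⟩
    refine ⟨_, (Subgroup.mem_normalizer_iff.1 (h.nrm hy) _).1
      (d1A_mem (gg := h.gg) h.gT y.right ht), ?_⟩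
    rw [eq_mul_inv_iff_mul_eq]
    ext <;> simp
  · rcases Nat.eq_zero_or_pos i with rfl | h0
    · exact N.one_mem
    · rw [d1n_pos _ h0]
      exact h.mem i hi
  · rcases Nat.eq_zero_or_pos i with rfl | h0
    · rw [d1_sq]
      exact one_mem _
    · rw [d1n_pos _ h0, ← map_mul]
      exact ⟨_, h.sq i hi, rfl⟩
  · rw [d1n_pos _ (show 0 < j by omega)]
    rcases Nat.eq_zero_or_pos i with rfl | h0
    · rw [d1_sw, h.g2 j (by omega) b]
    · rw [d1n_pos _ h0, ← map_mul, ← map_mul, h.c1 i j h0 a b]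
  · rw [d1n_pos _ a, d1n_pos _ (Nat.succ_pos i)]
    simp only [← map_mul, h.b3 i a b]
  · rw [d1n_pos _ Nat.one_pos, mul_assoc (inl (n 1)), d1_sw, mul_assoc (inl (g (n 1))), d1_sq,
      mul_one, mul_assoc, mul_assoc, d1_sq, mul_one, ← map_mul, ← map_mul, h.g1, h.c0]
  · have m0 : ∀ i, i < k → d1n h.gg n i ∈
        Subgroup.closure (((T.map inl : Subgroup (X ⋊[d1A g h.gg] ℤˣ)) : Set _) ∪
          d1n h.gg n '' Set.Iio k) :=
      fun i hi => Subgroup.subset_closure (Or.inr ⟨i, hi, rfl⟩)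
    rw [← inl_left_mul_inr_right y]
    refine mul_mem (Subgroup.mem_comap.1 (h.gen.trans ((Subgroup.closure_le _).2 ?_) hy)) ?_
    · rintro x (hx | ⟨i, hi, rfl⟩)
      · exact Subgroup.subset_closure (Or.inl ⟨x, hx, rfl⟩)
      · refine Subgroup.mem_comap.2 ?_
        rcases Nat.eq_zero_or_pos i with rfl | h0
        · rw [← h.g1, ← mul_inv_eq_iff_eq_mul.2 (d1_sw (n := n) h.gg (n 1)),
            ← d1n_pos h.gg Nat.one_pos]
          exact mul_mem (mul_mem (m0 0 hi) (m0 1 (by omega))) (inv_mem (m0 0 hi))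
        · rw [← d1n_pos h.gg h0]
          exact m0 i hi
    · rcases Int.units_eq_one_or y.right with e | e <;> rw [e]
      · rw [map_one]
        exact one_mem _
      · exact m0 0 (by omega)
  · have e1 : N.map inl = (rightHom (φ := d1A g h.gg)).ker ⊓ d1N h.gg h.gN := by
      ext y
      refine ⟨?_, fun ⟨a, b⟩ => ⟨y.left, b, ?_⟩⟩
      · rintro ⟨x, hx, rfl⟩
        exact ⟨rfl, hx⟩
      · exact SemidirectProduct.ext rfl (Eq.symm a)
    have e2 : (d1N h.gg h.gN).map rightHom = ⊤ :=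
      eq_top_iff.2 fun e _ => ⟨inr e, N.one_mem, rfl⟩
    rw [← Subgroup.relIndex_mul_relIndex (T.map inl) (N.map inl) _ (Subgroup.map_mono h.le)
      (e1.le.trans inf_le_right), Subgroup.relIndex_map_map_of_injective _ _ inl_injective, h.card,
      e1, Subgroup.inf_relIndex_right, Subgroup.relIndex_ker, e2, Subgroup.card_top,
      Nat.card_eq_fintype_card, Fintype.card_units_int]
    obtain ⟨m, rfl⟩ : ∃ m, k = m + 1 := ⟨k - 1, by omega⟩
    rw [Nat.add_sub_cancel]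
    ring

theorem WD.lift (h : WD k N T n g) {G : Type} [Monoid G] (j : X → G) (j1 : j 1 = 1)
    (hj : ∀ t ∈ T, ∀ t' ∈ T, j (t * t') = j t * j t') (s : ℕ → G)
    (hs0 : ∀ t ∈ T, s 0 * j t = j (g t) * s 0) (h0 : s 0 * s 0 = 1)
    (hs : ∀ i, 0 < i → i < k → ∀ t ∈ T, s i * j t = j (n i * t * (n i)⁻¹) * s i)
    (h2 : ∀ i, 0 < i → i < k → s i * s i = j (n i * n i)) (hb : Br k s) :
    ∃ Θ : N →* G, (∀ t : N, (t : X) ∈ T → Θ t = j t) ∧
      (∀ i, 0 < i → i < k → ∀ x : N, (x : X) = n i → Θ x = s i) ∧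
      ∀ x y : N, (y : X) = g x → s 0 * Θ x = Θ y * s 0 := by
  have k2 := h.k2
  have : Finite (X ⋊[d1A g h.gg] ℤˣ) := Finite.of_equiv _ equivProd.symm
  obtain ⟨Θ, h3, h4⟩ := h.wb.lift (fun y => j y.left) j1 (by
    rintro _ ⟨t, ht, rfl⟩ _ ⟨t', ht', rfl⟩
    rw [← map_mul]
    exact hj t ht t' ht') s (by
    rintro i hi _ ⟨t, ht, rfl⟩
    rcases Nat.eq_zero_or_pos i with rfl | h5
    · rw [d1_sw, mul_inv_cancel_right]
      exact hs0 t ht
    · rw [d1n_pos _ h5, ← map_inv, ← map_mul, ← map_mul]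
      exact hs i h5 hi t ht) (by
    intro i hi
    rcases Nat.eq_zero_or_pos i with rfl | h5
    · rw [d1_sq, h0]
      exact j1.symm
    · rw [d1n_pos _ h5, ← map_mul]
      exact h2 i h5 hi) hb
  let ι : N →* d1N h.gg h.gN := (inl.comp N.subtype).codRestrict _ fun x => x.2
  refine ⟨Θ.comp ι, fun t ht => h3 (ι t) ⟨t, ht, rfl⟩, fun i h5 hi x hx => h4 i hi (ι x) ?_,
    fun x y e => ?_⟩
  · rw [d1n_pos _ h5, ← hx]
    rfl
  · rw [← h4 0 (by omega) ⟨_, h.wb.mem 0 (by omega)⟩ rfl, MonoidHom.comp_apply,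
      MonoidHom.comp_apply, ← map_mul, ← map_mul]
    refine congrArg Θ (Subtype.ext ?_)
    change d1n h.gg n 0 * inl (x : X) = inl (y : X) * d1n h.gg n 0
    rw [e, d1_sw]

end Pool.Agent.Lib.MP_1ae3da_al.JM
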