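import Pool.Agent.Lib.MP_1ae3da_al.J.D1

/-! The Weyl group of type `D`: signed permutations and the symmetry of the diagram. -/

namespace Pool.Agent.Lib.MP_1ae3da_al.JM

/-- the generators of the group of signed permutations. -/
def dbS (i : ℕ) : Function.End ℤ := fun x =>
  if i = 0 then (if x = 1 then -1 else if x = -1 then 1 else x)
  else if x = i then i + 1 else if x = i + 1 then i else if x = -i then -i - 1
  else if x = -i - 1 then -i else x

theorem dbS_zero (x : ℤ) : (x = 1 ∧ dbS 0 x = -1) ∨ (x = -1 ∧ dbS 0 x = 1) ∨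
    (x ≠ 1 ∧ x ≠ -1 ∧ dbS 0 x = x) := by
  unfold dbS
  rw [if_pos rfl]
  split_ifs <;> omega

theorem dbS_pos {i : ℕ} (hi : 0 < i) (x : ℤ) : (x = i ∧ dbS i x = i + 1) ∨
    (x = i + 1 ∧ dbS i x = i) ∨ (x = -i ∧ dbS i x = -i - 1) ∨ (x = -i - 1 ∧ dbS i x = -i) ∨
    (x ≠ i ∧ x ≠ i + 1 ∧ x ≠ -i ∧ x ≠ -i - 1 ∧ dbS i x = x) := by
  unfold dbS
  rw [if_neg hi.ne']
  split_ifs <;> omega

theorem dbS_sq (i : ℕ) : dbS i * dbS i = 1 := by
  funext x
  change dbS i (dbS i x) = x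
  rcases Nat.eq_zero_or_pos i with rfl | hi
  · have a := dbS_zero x
    have b := dbS_zero (dbS 0 x)
    omega
  · have a := dbS_pos hi x
    have b := dbS_pos hi (dbS i x)
    omega

theorem dbS_br (k : ℕ) : Br k dbS := by
  refine ⟨fun i j h _ => ?_, fun i hi _ => ?_, fun _ => ?_⟩
  · funext x
    change dbS i (dbS j x) = dbS j (dbS i x)
    have hj : 0 < j := by omega
    have a := dbS_pos hj x
    have b := dbS_pos hj (dbS i x)
    rcases Nat.eq_zero_or_pos i with rfl | hi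
    · have c := dbS_zero x
      have d := dbS_zero (dbS j x)
      omega
    · have c := dbS_pos hi x
      have d := dbS_pos hi (dbS j x)
      omega
  · funext x
    change dbS i (dbS (i + 1) (dbS i x)) = dbS (i + 1) (dbS i (dbS (i + 1) x))
    have hj : 0 < i + 1 := by omega
    have a := dbS_pos hi x
    have b := dbS_pos hj (dbS i x)
    have c := dbS_pos hi (dbS (i + 1) (dbS i x))
    have a' := dbS_pos hj x
    have b' := dbS_pos hi (dbS (i + 1) x)
    have c' := dbS_pos hj (dbS i (dbS (i + 1) x))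
    omega
  · funext x
    change dbS 0 (dbS 1 (dbS 0 (dbS 1 x))) = dbS 1 (dbS 0 (dbS 1 (dbS 0 x)))
    have a := dbS_pos one_pos x
    have b := dbS_zero (dbS 1 x)
    have c := dbS_pos one_pos (dbS 0 (dbS 1 x))
    have d := dbS_zero (dbS 1 (dbS 0 (dbS 1 x)))
    have a' := dbS_zero x
    have b' := dbS_pos one_pos (dbS 0 x)
    have c' := dbS_zero (dbS 1 (dbS 0 x))
    have d' := dbS_pos one_pos (dbS 0 (dbS 1 (dbS 0 x)))
    omega

/-- the images of the nodes of type `D`. -/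
def dbR (i : ℕ) : Function.End ℤ := if i = 0 then dbS 0 * dbS 1 * dbS 0 else dbS i

theorem dbR_zero : dbR 0 1 = -2 := by decide

theorem dbR_pos {i : ℕ} (hi : 0 < i) : dbR i = dbS i := if_neg hi.ne'

theorem dbR_ne (i : ℕ) : dbR i ≠ 1 := by
  intro e
  rcases Nat.eq_zero_or_pos i with rfl | hi
  · have a : dbR 0 1 = 1 := congrFun e 1
    rw [dbR_zero] at a
    omega
  · rw [dbR_pos hi] at e
    have a : dbS i i = i := congrFun e i
    have b := dbS_pos hi i
    omega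

theorem dbR_inj {i j : ℕ} (e : dbR i = dbR j) : i = j := by
  have z : ∀ {l : ℕ}, 0 < l → dbR 0 ≠ dbR l := fun {l} hl e => by
    have a : dbR 0 1 = dbR l 1 := congrFun e 1
    rw [dbR_zero, dbR_pos hl] at a
    have b := dbS_pos hl 1
    omega
  rcases Nat.eq_zero_or_pos i with rfl | hi <;> rcases Nat.eq_zero_or_pos j with rfl | hj
  · rfl
  · exact absurd e (z hj)
  · exact absurd e.symm (z hi)
  · rw [dbR_pos hi, dbR_pos hj] at e
    have a : dbS i i = dbS j i := congrFun e i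
    have b := dbS_pos hi i
    have c := dbS_pos hj i
    omega

/-- the edges of the diagram of type `D`. -/
def dbA (i j : ℕ) : Prop :=
  (i = 0 ∧ j = 2) ∨ (j = 0 ∧ i = 2) ∨ (0 < i ∧ j = i + 1) ∨ (0 < j ∧ i = j + 1)

variable {k : ℕ} {X : Type} [Group X] [Finite X] {N T : Subgroup X} {n : ℕ → X} {g : MulAut X}

theorem WD.db_ex (h : WD k N T n g) : ∃ Θ : N →* Function.End ℤ,
    (∀ t : N, (t : X) ∈ T → Θ t = 1) ∧ ∀ i (hi : i < k), Θ ⟨n i, h.mem i hi⟩ = dbR i := by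
  obtain ⟨Θ, h1, h2, h3⟩ := h.lift (fun _ => (1 : Function.End ℤ)) rfl
    (fun _ _ _ _ => (mul_one _).symm) dbS (fun _ _ => by rw [mul_one, one_mul]) (dbS_sq 0)
    (fun _ _ _ _ _ => by rw [mul_one, one_mul]) (fun i _ _ => dbS_sq i) (dbS_br k)
  refine ⟨Θ, h1, fun i hi => ?_⟩
  rcases Nat.eq_zero_or_pos i with rfl | h0
  · have k2 := h.k2
    have e := h3 ⟨n 1, h.mem 1 (by omega)⟩ ⟨n 0, h.mem 0 hi⟩ h.g1.symm
    rw [h2 1 one_pos (by omega) _ rfl] at e
    rw [dbR, if_pos rfl, e, mul_assoc, dbS_sq, mul_one]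
  · rw [dbR_pos h0]
    exact h2 i h0 hi _ rfl

omit [Finite X] in
theorem db_eq {Θ : N →* Function.End ℤ} (h1 : ∀ t : N, (t : X) ∈ T → Θ t = 1) {x y : N}
    (e : (x : X)⁻¹ * y ∈ T) : Θ x = Θ y := by
  have a := h1 (x⁻¹ * y) e
  calc Θ x = Θ x * Θ (x⁻¹ * y) := by rw [a, mul_one]
    _ = Θ y := by rw [← map_mul, mul_inv_cancel_left]

omit [Finite X] in
theorem db_eq' {Θ : N →* Function.End ℤ} (h1 : ∀ t : N, (t : X) ∈ T → Θ t = 1) {x y : N}
    (e : (x : X) * (y : X)⁻¹ ∈ T) : Θ x = Θ y := by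
  have a := h1 (x * y⁻¹) e
  calc Θ x = Θ (x * y⁻¹) * Θ y := by rw [← map_mul, inv_mul_cancel_right]
    _ = Θ y := by rw [a, one_mul]

theorem WD.nt (h : WD k N T n g) {i : ℕ} (hi : i < k) : n i ∉ T := by
  obtain ⟨Θ, h1, h2⟩ := h.db_ex
  exact fun e => dbR_ne i ((h2 i hi).symm.trans (h1 _ e))

theorem WD.ne1 (h : WD k N T n g) {i j : ℕ} (hi : i < k) (hj : j < k) (hne : i ≠ j) :
    (n i)⁻¹ * n j ∉ T := by
  obtain ⟨Θ, h1, h2⟩ := h.db_ex
  intro e
  have a := db_eq h1 (x := ⟨n i, h.mem i hi⟩) (y := ⟨n j, h.mem j hj⟩) e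
  rw [h2 i hi, h2 j hj] at a
  exact hne (dbR_inj a)

theorem WD.ne2 (h : WD k N T n g) {i : ℕ} (h0 : 0 < i) (hi : i + 1 < k) :
    (n i * n (i + 1))⁻¹ * (n (i + 1) * n i) ∉ T := by
  obtain ⟨Θ, h1, h2⟩ := h.db_ex
  intro e
  have hi' : i < k := by omega
  have hj : 0 < i + 1 := by omega
  have a := db_eq h1 (x := ⟨n i, h.mem i hi'⟩ * ⟨n (i + 1), h.mem _ hi⟩)
    (y := ⟨n (i + 1), h.mem _ hi⟩ * ⟨n i, h.mem i hi'⟩) e
  rw [map_mul, map_mul, h2 i hi', h2 _ hi, dbR_pos h0, dbR_pos hj] at a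
  have b : dbS i (dbS (i + 1) i) = dbS (i + 1) (dbS i i) := congrFun a i
  have c1 := dbS_pos h0 i
  have c2 := dbS_pos hj i
  have c3 := dbS_pos h0 (dbS (i + 1) i)
  have c4 := dbS_pos hj (dbS i i)
  omega

omit [Finite X] in
theorem WD.db_g0 (h : WD k N T n g) : g (n 0) = n 1 := by rw [← h.g1, h.gg]

omit [Finite X] in
theorem WD.db_br (h : WD k N T n g) {i j : ℕ} (hi : i < k) (hj : j < k) (a : dbA i j) :
    n i * n j * n i = n j * n i * n j := by
  have z : 2 < k → n 0 * n 2 * n 0 = n 2 * n 0 * n 2 := fun h2 => by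
    have e := congrArg g (h.b3 1 one_pos h2)
    simpa only [map_mul, h.g1, h.g2 2 le_rfl h2, h.g2 (1 + 1) le_rfl h2] using e
  rcases a with ⟨rfl, rfl⟩ | ⟨rfl, rfl⟩ | ⟨a, rfl⟩ | ⟨a, rfl⟩
  exacts [z hj, (z hi).symm, h.b3 i a hj, (h.b3 j a hi).symm]

omit [Finite X] in
theorem WD.db_cm (h : WD k N T n g) {i j : ℕ} (hij : i < j) (hj : j < k) (a : ¬ dbA i j) :
    n i * n j = n j * n i := by
  unfold dbA at a
  rcases Nat.eq_zero_or_pos i with rfl | hi
  · rcases Nat.lt_or_ge 1 j with l | l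
    · have e := congrArg g (h.c1 1 j one_pos (by omega) hj)
      simpa only [map_mul, h.g1, h.g2 j l hj] using e
    · obtain rfl : j = 1 := by omega
      exact h.c0
  · exact h.c1 i j hi (by omega) hj

theorem WD.db_adj (h : WD k N T n g) {i j : ℕ} (hi : i < k) (hj : j < k) (hne : i ≠ j)
    (e : dbR i * dbR j * dbR i = dbR j * dbR i * dbR j) : dbA i j := by
  obtain ⟨Θ, h1, h2⟩ := h.db_ex
  by_contra a
  have c : n i * n j = n j * n i := by
    rcases Nat.lt_or_ge i j with l | l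
    · exact h.db_cm l hj a
    · exact (h.db_cm (by omega) hi (by unfold dbA at a ⊢; omega)).symm
  have c' : dbR i * dbR j = dbR j * dbR i := by
    rw [← h2 i hi, ← h2 j hj, ← map_mul, ← map_mul]
    exact congrArg Θ (Subtype.ext c)
  have s : ∀ l (hl : l < k), dbR l * dbR l = 1 := fun l hl => by
    rw [← h2 l hl, ← map_mul]
    exact h1 _ (h.sq l hl)
  rw [c', mul_assoc, s i hi, mul_one, ← c', mul_assoc, s j hj, mul_one] at e
  exact hne (dbR_inj e).symm

/-- the diagram of type `D k`, `k ≥ 5`, has one symmetry. -/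
theorem WD.rigid (h : WD k N T n g) (hk : 5 ≤ k) (δ : MulAut X)
    (hT : ∀ x, δ x ∈ T ↔ x ∈ T) (h1 : ∀ i, i < k → ∃ j, j < k ∧ δ (n i) * (n j)⁻¹ ∈ T) :
    (∀ i, i < k → δ (n i) * (n i)⁻¹ ∈ T) ∨ ∀ i, i < k → δ (g (n i)) * (n i)⁻¹ ∈ T := by
  obtain ⟨Θ, t1, t2⟩ := h.db_ex
  choose! π p1 p2 using h1
  have mem : ∀ i, i < k → δ (n i) ∈ N := fun i hi => by
    have := N.mul_mem (h.le (p2 i hi)) (h.mem _ (p1 i hi))
    rwa [inv_mul_cancel_right] at this
  have val : ∀ i (hi : i < k), Θ ⟨δ (n i), mem i hi⟩ = dbR (π i) := fun i hi =>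
    (db_eq' t1 (x := ⟨δ (n i), mem i hi⟩) (y := ⟨n (π i), h.mem _ (p1 i hi)⟩) (p2 i hi)).trans
      (t2 _ (p1 i hi))
  have inj : ∀ i j, i < k → j < k → i ≠ j → π i ≠ π j := fun i j hi hj hne e => by
    have a := T.mul_mem (p2 i hi) (T.inv_mem (p2 j hj))
    rw [e, mul_inv_rev, inv_inv, mul_assoc, inv_mul_cancel_left, ← map_inv, ← map_mul, hT] at a
    have b := db_eq' t1 (x := ⟨n i, h.mem i hi⟩) (y := ⟨n j, h.mem j hj⟩) a
    rw [t2 i hi, t2 j hj] at b
    exact hne (dbR_inj b)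
  have adj : ∀ i j, i < k → j < k → dbA i j → dbA (π i) (π j) := fun i j hi hj a => by
    refine h.db_adj (p1 i hi) (p1 j hj) (inj i j hi hj (by unfold dbA at a; omega)) ?_
    rw [← val i hi, ← val j hj]
    simp only [← map_mul]
    refine congrArg Θ (Subtype.ext ?_)
    have e := congrArg δ (h.db_br hi hj a)
    simpa only [map_mul, Subgroup.coe_mul] using e
  have a02 := adj 0 2 (by omega) (by omega) (by unfold dbA; omega)
  have a12 := adj 1 2 (by omega) (by omega) (by unfold dbA; omega)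
  have a32 := adj 3 2 (by omega) (by omega) (by unfold dbA; omega)
  have a34 := adj 3 4 (by omega) (by omega) (by unfold dbA; omega)
  have n01 := inj 0 1 (by omega) (by omega) (by omega)
  have n03 := inj 0 3 (by omega) (by omega) (by omega)
  have n13 := inj 1 3 (by omega) (by omega) (by omega)
  have n24 := inj 2 4 (by omega) (by omega) (by omega)
  unfold dbA at a02 a12 a32 a34
  have e2 : π 2 = 2 := by omega
  have e3 : π 3 = 3 := by omega
  have up : ∀ i, 2 ≤ i → i + 1 < k → π i = i ∧ π (i + 1) = i + 1 := by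
    intro i hi
    induction i, hi using Nat.le_induction with
    | base => exact fun _ => ⟨e2, e3⟩
    | succ i hi ih =>
      intro hl
      obtain ⟨b1, b2⟩ := ih (by omega)
      have c := adj (i + 1) (i + 1 + 1) (by omega) hl (by unfold dbA; omega)
      have d := inj i (i + 1 + 1) (by omega) hl (by omega)
      unfold dbA at c
      exact ⟨b2, by omega⟩
  have fx : ∀ i, 2 ≤ i → i < k → δ (n i) * (n i)⁻¹ ∈ T := fun i h2 hi => by
    have e : π i = i := by
      rcases Nat.eq_or_lt_of_le h2 with rfl | l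
      · exact e2
      · obtain ⟨i, rfl⟩ : ∃ i', i = i' + 1 := ⟨i - 1, by omega⟩
        exact (up i (by omega) hi).2
    have := p2 i hi
    rwa [e] at this
  have q0 := p2 0 (by omega)
  have q1 := p2 1 (by omega)
  have c : (π 0 = 0 ∧ π 1 = 1) ∨ (π 0 = 1 ∧ π 1 = 0) := by omega
  rcases c with ⟨c0, c1⟩ | ⟨c0, c1⟩ <;> rw [c0] at q0 <;> rw [c1] at q1
  · refine Or.inl fun i hi => ?_
    rcases i with _ | _ | i
    exacts [q0, q1, fx _ (by omega) hi]
  · refine Or.inr fun i hi => ?_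
    rcases i with _ | _ | i
    · rw [h.db_g0]; exact q1
    · rw [show 0 + 1 = 1 from rfl, h.g1]; exact q0
    · rw [h.g2 _ (by omega) hi]; exact fx _ (by omega) hi

end Pool.Agent.Lib.MP_1ae3da_al.JM
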