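import Pool.Agent.Lib.MP_1ae3da_al.J.D1b
import Pool.Agent.Lib.MP_1ae3da_al.J.D3a

/-! The datum in type `D`. -/

namespace Pool.Agent.Lib.MP_1ae3da_al.JM

open SLI CT CT.Z

variable {p r k : ℕ} {X : Type} [Group X] [Finite X] [hp : Fact p.Prime] [hr : Fact r.Prime]
  {U : Sylow r X} {N : Subgroup X} {n : ℕ → X} {g : MulAut X} {F : Type} [Field F] [CharZero F]

theorem TD.ts (h : TD p k U N n g) : TS k U N n :=
  ⟨h.w.mem, h.w.sq, fun _ hi => h.w.nt hi, h.w.gen, h.tits⟩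

theorem TD.aa1 (h : TD p k U N n g) {i j : ℕ} (hi : i < k) (hj : j < k) (hne : i ≠ j) :
    AA (U : Subgroup X) (n i) (n j) := by
  have := h.ts.aa_step h.v hi hj (one_mem N) (aa_T (N := N) (one_mem _))
    (by rw [mul_one, one_mul]; exact h.w.ne1 hi hj hne)
  rwa [one_mul] at this

theorem TD.aa2 (h : TD p k U N n g) {i : ℕ} (h1 : 0 < i) (hi : i + 1 < k) :
    AA (U : Subgroup X) (n i) (n (i + 1) * n i) ∧
      AA (U : Subgroup X) (n (i + 1)) (n i * n (i + 1)) := by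
  have h0 : i < k := by omega
  refine ⟨h.ts.aa_step h.v h0 h0 (h.w.mem _ hi) (h.aa1 h0 hi (by omega)) (h.w.ne2 h1 hi),
    h.ts.aa_step h.v hi hi (h.w.mem _ h0) (h.aa1 hi h0 (by omega)) fun e => h.w.ne2 h1 hi ?_⟩
  simpa only [mul_inv_rev, inv_inv] using inv_mem e

theorem TD.qn_step (h : TD p k U N n g) {i : ℕ} (h0 : 0 < i) (hi : i + 1 < k) :
    Qn (U : Subgroup X) (n i) = Qn (U : Subgroup X) (n (i + 1)) :=
  have hi' : i < k := by omega
  d3_step h.v (h.w.mem _ hi') (h.w.mem _ hi) (h.w.sq _ hi') (h.w.sq _ hi) (h.ts.atom h.v hi')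
    (h.ts.atom h.v hi) (h.w.nt hi) (h.w.b3 i h0 hi) (h.aa1 hi' hi (by omega))
    (h.aa1 hi hi' (by omega)) (h.aa2 h0 hi).1 (h.aa2 h0 hi).2

/-- the parameters of all nodes agree. -/
theorem TD.qn_eq (h : TD p k U N n g) {i : ℕ} (hi : i < k) :
    Qn (U : Subgroup X) (n i) = Qn (U : Subgroup X) (n 1) := by
  induction i with
  | zero => rw [← h.w.g1, d3_qm g h.gU]
  | succ i ih =>
    rcases Nat.eq_zero_or_pos i with rfl | h1
    · rfl
    · rw [← h.qn_step h1 hi, ih (by omega)]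

/-- the datum attached to the group and the graph automorphism. -/
theorem TD.ex_yd (h : TD p k U N n g) {γ : RingAut (MonoidAlgebra F X)} (hγ : SL F 1 γ)
    (hg : ∀ x, γ (gu F X x) = gu F X (g x)) (u : F) (κ : ℕ) (u0 : u ≠ 0)
    (hu : ∀ m : ℤ, u ^ m = 1 → m = 0) (hκ : 0 < κ)
    (hQ : (Qn (U : Subgroup X) (n 1) : F) = u ^ (2 * κ)) :
    ∃ d : YD F (Module.End F (MonoidAlgebra F X)), d.u = u ∧ Md k U N n γ d := by
  have k5 := h.k5
  have k0 : 0 < k := by omega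
  have k1 : 1 < k := by omega
  have m := h.w.mem
  have s := h.w.sq
  have s2 := fun i (hi : i < k) => d3_s2 h.v (m i hi) (s i hi) (h.w.nt hi) (h.one i hi)
  obtain ⟨-, gj, gt⟩ := d3_nat hγ hg h.gU
  have g0 : g (n 0) = n 1 := by rw [← h.w.g1, h.w.gg]
  have gl : ∀ (c : F) z, γ (c • z) = c • γ z := hγ
  have γγ : ∀ z, γ (γ z) = z := fun z => gu_ext 1 ⊤ (γ.toAddMonoidHom.comp γ.toAddMonoidHom)
    (AddMonoidHom.id _) (fun c a => (congrArg γ (gl c a)).trans (gl c _)) (fun _ _ => rfl)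
    (fun x _ => (congrArg γ (hg x)).trans ((hg _).trans (congrArg _ (h.w.gg x)))) z
    (by rw [gu_span]; trivial)
  obtain ⟨x, hx⟩ : ∃ x : Module.End F (MonoidAlgebra F X), ∀ z, x z = γ z :=
    ⟨{ toFun := γ, map_add' := map_add γ, map_smul' := gl }, fun _ => rfl⟩
  have xL : ∀ z, x * Lm z = Lm (γ z) * x := fun z => LinearMap.ext fun y => by
    change x (z * y) = γ z * x y
    rw [hx, hx, map_mul]
  have xx : x * x = 1 := LinearMap.ext fun y => by
    change x (x y) = y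
    rw [hx, hx, γγ]
  have gS : ∀ y ∈ g4S U N F, γ y ∈ g4S U N F :=
    g4S_ind (fun t ht => gj t ▸ g4S_jt ((h.w.gT t).2 ht)) (by simp)
      (fun a b p q => map_add γ a b ▸ add_mem p q) fun c a p => gl c a ▸ Subalgebra.smul_mem _ p c
  have mS : ∀ {y}, y ∈ g4S U N F → Lm y ∈ (g4S U N F).map Lm := fun hy => ⟨_, hy, rfl⟩
  have L2 : ∀ {a b c d : MonoidAlgebra F X}, a * b = c * d → Lm a * Lm b = Lm c * Lm d :=
    fun e => by rw [← map_mul, e, map_mul]
  have L1 : ∀ {a b c : MonoidAlgebra F X}, a * b = c → Lm a * Lm b = Lm c :=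
    fun e => by rw [← map_mul, e]
  have hz : n 1 * n 1 * (n 0 * n 0)⁻¹ ∈ Tor U N := mul_mem (s 1 k1) (inv_mem (s 0 k0))
  have i0 : (n 0 * n 0)⁻¹ = n 0 * n 0 := inv_eq_of_mul_eq_one_right (s2 0 k0).1
  have i1 : (n 1 * n 1)⁻¹ = n 1 * n 1 := inv_eq_of_mul_eq_one_right (s2 1 k1).1
  have c01 := h.v.ab _ (s 0 k0) _ (s 1 k1)
  have g1 := h.w.c1
  refine ⟨{
    k := k, κ := κ, κ0 := 0, u := u, S := (g4S U N F).map Lm, x := x
    η := 1, ηi := 1, ζ := Lm (jt F U (n 1 * n 1 * (n 0 * n 0)⁻¹)), E := 0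
    T := fun a => Lm (tau F U (n (a + 1))), e := fun a => Lm (g4e U N F (n (a + 1)))
    h := fun a => Lm (jt F U (n (a + 1) * n (a + 1)))
    k0 := k0, hκ := hκ, u0 := u0, hu := hu
    cm := by
      rintro _ ⟨y, hy, rfl⟩ _ ⟨z, hz, rfl⟩
      exact L2 (g4S_cm h.v y hy z hz)
    mη := one_mem _, mηi := one_mem _, mζ := mS (g4S_jt hz), mE := zero_mem _
    me := fun a ha => mS (g4e_mem h.v (m _ ha)), mh := fun a ha => mS (g4S_jt (s _ ha))
    ηη := mul_one _
    nx := by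
      rintro _ ⟨y, hy, rfl⟩
      exact ⟨_, mS (gS y hy), xL y, (xL _).trans (by rw [γγ]; rfl)⟩
    nT := by
      rintro a ha _ ⟨y, hy, rfl⟩
      obtain ⟨y', h1, h2, h3⟩ := g4S_nt h.v (m _ ha) (s _ ha) y hy
      exact ⟨_, mS h1, L2 h2, L2 h3⟩
    qx := by rw [xx, pow_zero, one_smul, zero_mul, add_zero]
    qT := fun a ha => by
      rw [← map_mul, d3_qT h.v (m _ ha) (s _ ha) (h.w.nt ha) (h.ts.atom h.v ha) (h.one _ ha),
        h.qn_eq ha, hQ, map_add, map_smul, map_smul, map_mul]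
    ee := fun a ha => L1 (g4e_mul fun c hc => by
      rw [g4S_cm h.v _ (g4S_jt (g4b_ph h.v (m _ ha) hc)) _ (g4e_mem h.v (m _ ha)),
        g4e_abs h.v (m _ ha) hc])
    eh := fun a ha => L1 (by
      obtain ⟨-, c, hc, ec⟩ := s2 _ ha
      rw [ec, g4e_abs h.v (m _ ha) hc])
    hh := fun a ha => by
      rw [← map_mul, ← jt_mul (s _ ha) (s _ ha), (s2 _ ha).1, jt_one, map_one]
    eT := fun a ha => L2 (g4e_T h.v (m _ ha) (s _ ha))
    hT := fun a ha => L2 (g4b_tc (s _ ha) rfl)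
    ab := by
      rintro a ha _ ⟨y, hy, rfl⟩
      refine (congrArg _ (map_mul Lm _ _).symm).trans
        ((L2 ?_).trans (congrArg _ (map_mul Lm _ _)))
      refine g4S_ind (P := fun y => g4e U N F (n (a + 1)) * (tau F U (n (a + 1)) * y) =
        g4e U N F (n (a + 1)) * (y * tau F U (n (a + 1)))) (fun t ht => ?_) (by simp)
        (fun y z p q => by rw [mul_add, add_mul, mul_add, mul_add, p, q])
        (fun c y p => by rw [mul_smul_comm, smul_mul_assoc, mul_smul_comm, mul_smul_comm, p]) y hy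
      have hc := g4b_cj h.v (m _ ha) ht
      rw [← g4b_sw hc ht (by group), ← inv_mul_cancel_right (n (a + 1) * t * (n (a + 1))⁻¹) t,
        jt_mul (g4b_ph h.v (m _ ha) ht) ht, ← mul_assoc, ← mul_assoc, g4e_abs h.v (m _ ha) ht,
        mul_assoc]
    TT := fun a c h1 h2 => L2 (d3_cm (h.aa1 (by omega) h2 (by omega))
      (h.aa1 h2 (by omega) (by omega)) (g1 (a + 1) (c + 1) a.succ_pos (by omega) h2))
    T3 := fun a ha => by
      simp only [← map_mul]
      exact congrArg _ (d3_br (h.aa1 (by omega) ha (by omega)) (h.aa1 ha (by omega) (by omega))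
        (h.aa2 a.succ_pos ha).1 (h.aa2 a.succ_pos ha).2 (h.w.b3 _ a.succ_pos ha)
        (h.qn_step a.succ_pos ha))
    xT := fun c h1 h2 => by rw [xL, gt, h.w.g2 _ (by omega) h2]
    x4 := fun _ => by
      rw [zero_add, mul_assoc (Lm _) x, xL, gt, h.w.g1, mul_assoc _ x x, xx, mul_one,
        mul_assoc, mul_assoc _ x x, xx, mul_one]
      exact L2 (d3_cm (h.aa1 k0 k1 (by omega)) (h.aa1 k1 k0 (by omega)) h.w.c0)
    hT1 := fun a c h1 h2 => L2 (g4b_tc (s _ (by omega))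
      (g1 (a + 1) (c + 1) a.succ_pos (by omega) h2))
    hT2 := fun a c h1 h2 => L2 (g4b_tc (s _ h2) (g1 (a + 1) (c + 1) a.succ_pos (by omega) h2).symm)
    h3 := fun a ha => ?h3
    xh := fun c h1 h2 => by rw [xL, gj, map_mul g, h.w.g2 _ (by omega) h2]
    hx := fun _ => by
      rw [zero_add, xL, gj, map_mul g, h.w.g1, ← mul_assoc, ← map_mul, ← jt_mul hz (s 0 k0),
        inv_mul_cancel_right]
    ηx := by rw [one_mul, mul_one]
    ηT := fun c _ _ => by rw [one_mul, mul_one]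
    η4 := fun _ => by rw [one_mul, mul_one]
    ζζ := by
      rw [← map_mul, ← jt_mul hz hz, i0, mul_assoc (n 1 * n 1), ← mul_assoc (n 0 * n 0), c01,
        mul_assoc (n 1 * n 1), (s2 0 k0).1, mul_one, (s2 1 k1).1, jt_one, map_one]
    ζx := by
      rw [xL, gj, map_mul g, map_inv, map_mul g, map_mul g, h.w.g1, g0, i0, i1, c01]
    ζT := fun a ha => L2 (g4b_sw hz hz (h.cen _ ha).eq) }, rfl,
    ⟨rfl, fun _ => ⟨fun ⟨z, h1, h2⟩ => ⟨z, h1, h2.symm⟩, fun ⟨z, h1, h2⟩ => ⟨z, h1, h2.symm⟩⟩, hx,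
      fun _ => rfl, rfl, rfl, fun _ => rfl, hQ.symm⟩⟩
  case h3 =>
    simp only [← map_mul]
    refine congrArg _ ?_
    have ha1 : a + 1 < k := by omega
    have hc := g4b_cj h.v (m (a + 1 + 1) ha) (s _ ha1)
    have e := h.w.b3 (a + 1) a.succ_pos ha
    rw [mul_assoc, ← g4b_sw hc (s _ ha1) (by group), ← mul_assoc,
      ← g4b_sw (s (a + 1 + 1) ha) hc ?_, mul_assoc]
    generalize n (a + 1 + 1) = y at *
    generalize n (a + 1) = x at *
    have : x * y * x * x = y * y * x * y := by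
      rw [e, mul_assoc y x, mul_assoc y, e]
      simp only [mul_assoc]
    rw [← mul_inv_cancel_right (y * y * x) y, ← this]
    simp only [mul_assoc]

end Pool.Agent.Lib.MP_1ae3da_al.JM
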