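import Pool.Agent.Lib.MP_1ae3da_al.J.D3
import Pool.Agent.Lib.MP_1ae3da_al.J.G6

/-! Spectrum and naturality in type `D`. -/

namespace Pool.Agent.Lib.MP_1ae3da_al.JM

open SLI CT CT.Z

variable {p r k : ℕ} {X : Type} [Group X] [Finite X] [hp : Fact p.Prime] [hr : Fact r.Prime]
  {U : Sylow r X} {N : Subgroup X} {n : ℕ → X} {g : MulAut X} {F : Type} [Field F] [CharZero F]
  {γ : RingAut (MonoidAlgebra F X)} {d : YD F (Module.End F (MonoidAlgebra F X))}

omit [Finite X] hr [CharZero F] in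
theorem d4_x (hd : Md k U N n γ d) (z : MonoidAlgebra F X) : d.x * Lm z = Lm (γ z) * d.x := by
  refine LinearMap.ext fun w => ?_
  change d.x (z * w) = γ z * d.x w
  rw [hd.x, hd.x, map_mul]

omit [Finite X] hr [CharZero F] in
theorem d4_ext {φ ψ : MonoidAlgebra F X → MonoidAlgebra F X} (a1 : ∀ a b, φ (a + b) = φ a + φ b)
    (a2 : ∀ a b, ψ (a + b) = ψ a + ψ b) (s1 : ∀ (c : F) a, φ (c • a) = c • φ a)
    (s2 : ∀ (c : F) a, ψ (c • a) = c • ψ a) (h : ∀ x, φ (gu F X x) = ψ (gu F X x))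
    (z : MonoidAlgebra F X) : φ z = ψ z := by
  induction g5_span z using Submodule.span_induction with
  | mem a ha =>
    obtain ⟨x, rfl⟩ := ha
    exact h x
  | zero => rw [← zero_smul F (0 : MonoidAlgebra F X), s1, s2, zero_smul, zero_smul]
  | add a b _ _ p q => rw [a1, a2, p, q]
  | smul c a _ p => rw [s1, s2, p]

omit [Finite X] hp hr [CharZero F] in
theorem d4_gg (h : TD p k U N n g) (hγ : SL F 1 γ) (hg : ∀ x, γ (gu F X x) = gu F X (g x))
    (z : MonoidAlgebra F X) : γ (γ z) = z :=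
  d4_ext (φ := fun z => γ (γ z)) (ψ := id) (fun a b => by simp only [map_add]) (fun _ _ => rfl)
    (fun c a => by rw [hγ, hγ]; rfl) (fun _ _ => rfl) (fun x => by rw [hg, hg, h.w.gg]; rfl) z

omit [Finite X] hp hr [CharZero F] in
theorem d4_xx (h : TD p k U N n g) (hγ : SL F 1 γ) (hg : ∀ x, γ (gu F X x) = gu F X (g x))
    (hd : Md k U N n γ d) : d.x * d.x = 1 :=
  LinearMap.ext fun w => by
    change d.x (d.x w) = w
    rw [hd.x, hd.x, d4_gg h hγ hg]

omit [Finite X] hp hr [CharZero F] in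
theorem d4_Z0 (h : TD p k U N n g) (hγ : SL F 1 γ) (hg : ∀ x, γ (gu F X x) = gu F X (g x))
    (hd : Md k U N n γ d) : d.Z 0 = 1 := by
  change d.x * d.x * d.ηi = 1
  rw [d4_xx h hγ hg hd, hd.ηi, mul_one]

omit [Finite X] hr [CharZero F] in
theorem d4_st (hγ : SL F 1 γ) (hg : ∀ x, γ (gu F X x) = gu F X (g x))
    (st : MonoidAlgebra F X →ₗ[F] MonoidAlgebra F X) (hst : ∀ x, st (gu F X x) = gu F X x⁻¹)
    (z : MonoidAlgebra F X) : st (γ z) = γ (st z) :=
  d4_ext (φ := fun z => st (γ z)) (ψ := fun z => γ (st z)) (fun a b => by simp only [map_add])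
    (fun a b => by simp only [map_add]) (fun c a => by rw [hγ, map_smul]; rfl)
    (fun c a => by rw [map_smul, hγ]; rfl) (fun x => by rw [hg, hst, hst, hg, map_inv]) z

omit hp in
/-- the part of `X a` in the group algebra. -/
theorem d4_M (h : TD p k U N n g) (hγ : SL F 1 γ) (hg : ∀ x, γ (gu F X x) = gu F X (g x))
    (hd : Md k U N n γ d) (st : MonoidAlgebra F X →ₗ[F] MonoidAlgebra F X)
    (hst : ∀ x, st (gu F X x) = gu F X x⁻¹) {a : ℕ} (ha : a < k) :
    ∃ M ε, M ∈ Submodule.span ℚ (Set.range (gu F X)) ∧ d.X a = Lm M * d.x ∧ d.ei a = Lm ε ∧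
      st M = γ M * ε ∧ av F (U : Subgroup X) * M = M * av F U := by
  induction a with
  | zero =>
    refine ⟨1, 1, g5_1, by rw [map_one, one_mul]; rfl, by rw [map_one]; exact hd.ηi, ?_, ?_⟩
    · rw [g5_one st hst, map_one, mul_one]
    · rw [mul_one, one_mul]
  | succ a ih =>
    have h1 : a + 1 < d.k := by rwa [hd.k]
    obtain ⟨M, ε, i1, i2, i3, i4, i5⟩ := ih (Nat.lt_of_succ_lt ha)
    obtain ⟨ε', -, j3⟩ := (hd.S _).1 (d.mei h1)
    have hs := h.w.sq _ ha
    obtain ⟨-, n2, n3⟩ := nat_gen hγ hg h.gU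
    have inj : Function.Injective (Lm : MonoidAlgebra F X → _) := Algebra.lmul_injective
    have hT := hd.T a
    have hh := hd.h a
    have m1 : γ (tau F U (n (a + 1)) * jt F U (n (a + 1) * n (a + 1))) ∈
        Submodule.span ℚ (Set.range (gu F X)) := by
      rw [map_mul, n3, n2]
      exact g5_mul (g5_tau _ _) (g5_jt _ _)
    have m2 : av F (U : Subgroup X) * γ (tau F U (n (a + 1)) * jt F U (n (a + 1) * n (a + 1))) =
        γ (tau F U (n (a + 1)) * jt F U (n (a + 1) * n (a + 1))) * av F U := by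
      rw [map_mul, n3, n2, ← mul_assoc, e_tau, mul_assoc, e_jt ((h.w.gT _).2 hs), mul_assoc]
    have m3 := g5_tau (F := F) (U : Subgroup X) (n (a + 1))
    have m4 := e_tau (F := F) (U := U) (n (a + 1))
    have e0 : jt F (U : Subgroup X) (n (a + 1) * n (a + 1)) *
        jt F (U : Subgroup X) (n (a + 1) * n (a + 1))⁻¹ = 1 := by
      rw [← jt_mul hs (inv_mem hs), mul_inv_cancel, jt_one]
    have e2 := g5_st_tau st hst (F := F) hs.2
    have e3 := g5_st_jt st hst (F := F) hs.2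
    generalize tau F (U : Subgroup X) (n (a + 1)) = τ at *
    generalize jt F (U : Subgroup X) (n (a + 1) * n (a + 1))⁻¹ = η' at *
    generalize jt F (U : Subgroup X) (n (a + 1) * n (a + 1)) = η at *
    have f1 : η * η = 1 := inj (by rw [map_mul, map_one, ← hh, d.hh a h1])
    have e1 : η' = η := by rw [← one_mul η', ← f1, mul_assoc, e0, mul_one]
    subst e1
    have f2 : η' * τ = τ * η' := inj (by rw [map_mul, map_mul, ← hh, ← hT, d.hT a h1])
    have f3 : τ * (η' * ε') = ε * (τ * η') := inj (by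
      rw [map_mul, map_mul, map_mul, map_mul, ← hh, ← hT, ← j3, ← i3,
        d.cm _ (d.mh a h1) _ (d.mei h1), ← mul_assoc, d.T_ei1 h1, mul_assoc])
    refine ⟨d.Q⁻¹ • (τ * M * γ (τ * η')), ε', ?_, ?_, j3, ?_, ?_⟩
    · rw [hd.Q]
      exact g5_nin _ (g5_mul (g5_mul m3 i1) m1)
    · rw [YD.X, map_smul, smul_mul_assoc, map_mul Lm, map_mul Lm, mul_assoc _ _ d.x, ← d4_x hd,
        map_mul Lm, i2, hT, hh]
      simp only [mul_assoc]
    · rw [map_smul, hγ, smul_mul_assoc, g5_anti st hst, g5_anti st hst, d4_st hγ hg st hst,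
        g5_anti st hst, e2, e3, i4, ← mul_assoc η', f2, mul_assoc τ, f1, mul_one, map_mul γ,
        map_mul γ, d4_gg h hγ hg, mul_assoc (γ M), ← f3]
      simp only [mul_assoc]
      rfl
    · rw [mul_smul_comm, smul_mul_assoc, ← mul_assoc, ← mul_assoc, m4, mul_assoc τ, i5,
        mul_assoc, mul_assoc, m2]
      simp only [mul_assoc]

omit [Finite X] hp hr [CharZero F] in
theorem d4_Z (h : TD p k U N n g) (hγ : SL F 1 γ) (hg : ∀ x, γ (gu F X x) = gu F X (g x))
    (hd : Md k U N n γ d) {a : ℕ} {M : MonoidAlgebra F X} (e : d.X a = Lm M * d.x) :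
    d.Z a = Lm M * Lm (γ M) * d.ei a := by
  rw [YD.Z, e, mul_assoc (Lm M), ← mul_assoc d.x, d4_x hd, mul_assoc (Lm (γ M)) d.x,
    d4_xx h hγ hg hd, mul_one]

/-- hint: `X a = Lm (M a) * x` with `M 0 = 1`, `M (a + 1) = Q⁻¹ • τ * M a * γ (τ * h)`, rational;
`ei a = Lm (ε a)`, `st (M a) = γ (M a) * ε a`, so `Z a = Lm (M a * st (M a))`; `sp_star`.
`Z 0 = 1`. -/
theorem TD.good [IsAlgClosed F] (h : TD p k U N n g) (hγ : SL F 1 γ)
    (hg : ∀ x, γ (gu F X x) = gu F X (g x)) (hd : Md k U N n γ d) : d.Good := by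
  refine ⟨fun a ha => ?_, fun z v hv e => ⟨0, ?_⟩⟩
  · obtain ⟨st, hst⟩ := g5_ex F X
    obtain ⟨M, ε, i1, i2, i3, i4, -⟩ := d4_M h hγ hg hd st hst (hd.k ▸ ha)
    obtain ⟨S, hS⟩ := sp_star st hst i1
    refine ⟨S, ?_⟩
    rw [d4_Z h hγ hg hd i2, i3, ← map_mul, ← map_mul, mul_assoc, ← i4,
      Polynomial.aeval_algHom_apply, hS, map_zero]
  · rw [d4_Z0 h hγ hg hd, one_mul] at e
    have : (1 - z) • v = 0 :=
      (sub_smul 1 z v).trans (by rw [one_smul, ← e, sub_self])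
    rw [mul_zero, zpow_zero]
    exact (sub_eq_zero.1 ((smul_eq_zero.1 this).resolve_right hv)).symm

/-- hint: `m0` with the scalars. -/
theorem TD.s0 (h : TD p k U N n g) (hγ : SL F 1 γ) (hg : ∀ x, γ (gu F X x) = gu F X (g x))
    (hd : Md k U N n γ d) {s : ℕ → Module.End F (MonoidAlgebra F X)} (ho : d.Out s) :
    ∃ c : F, c ≠ 0 ∧ s 0 = c • d.x := by
  obtain ⟨y, hy, e⟩ := ho.m0 (⊥ : Subalgebra F _).toSubring ⊤
    (fun c _ => Subalgebra.algebraMap_mem _ c) trivial (by rw [d4_Z0 h hγ hg hd]; exact one_mem _)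
  obtain ⟨c, rfl⟩ := Algebra.mem_bot.1 hy
  rw [← Algebra.commutes, ← Algebra.smul_def] at e
  refine ⟨c, fun k => ?_, e⟩
  have := LinearMap.congr_fun ho.q0 1
  rw [e, k, zero_smul, zero_mul, hd.η] at this
  exact zero_ne_one (α := MonoidAlgebra F X) this

/-- hint: `m1` with the subring of the `Lm y`, `y` commuting with `av U`. -/
theorem TD.rng (h : TD p k U N n g) (hγ : SL F 1 γ) (hg : ∀ x, γ (gu F X x) = gu F X (g x))
    (hd : Md k U N n γ d) {s : ℕ → Module.End F (MonoidAlgebra F X)} (ho : d.Out s) {i : ℕ}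
    (h0 : 0 < i) (hi : i < k) :
    ∃ y, s i = Lm y ∧ av F (U : Subgroup X) * y = y * av F U := by
  obtain ⟨a, rfl⟩ : ∃ a, i = a + 1 := ⟨i - 1, by omega⟩
  have h1 : a + 1 < d.k := by rwa [hd.k]
  let B := (Subring.centralizer {av F (U : Subgroup X)}).map (Lm (F := F) (X := X)).toRingHom
  have hB : ∀ y, av F (U : Subgroup X) * y = y * av F U → Lm y ∈ B := fun y hy =>
    ⟨y, Subring.mem_centralizer_iff.2 fun w hw => by rw [hw, hy], rfl⟩
  have hS : ∀ y ∈ d.S, y ∈ B := fun y hy => by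
    obtain ⟨z, hz, rfl⟩ := (hd.S y).1 hy
    refine hB z ?_
    clear hy
    induction hz using Submodule.span_induction with
    | mem z hz =>
      obtain ⟨t, ht, rfl⟩ := hz
      exact e_jt ht
    | zero => rw [mul_zero, zero_mul]
    | add a b _ _ p q => rw [mul_add, add_mul, p, q]
    | smul c a _ p => rw [mul_smul_comm, smul_mul_assoc, p]
  have hZ : ∀ b, b < k → d.Z b ∈ B := fun b hb => by
    obtain ⟨st, hst⟩ := g5_ex F X
    obtain ⟨M, ε, -, i2, -, -, i5⟩ := d4_M h hγ hg hd st hst hb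
    have := congrArg γ i5
    rw [map_mul, map_mul, (nat_gen hγ hg h.gU).1] at this
    rw [d4_Z h hγ hg hd i2]
    exact mul_mem (mul_mem (hB _ i5) (hB _ this)) (hS _ (d.mei (hd.k ▸ hb)))
  obtain ⟨y, hy, e⟩ := ho.m1 B ⊤
    (fun c _ => by
      rw [← (Lm (F := F) (X := X)).commutes]
      exact hB _ (Algebra.commutes c _).symm) trivial a h1
    (by rw [hd.T]; exact hB _ (e_tau _)) (hS _ (d.me a h1))
    (hS _ (YD.ep_mem (by omega) (d.me a h1))) (hZ a (by omega)) (hZ _ hi)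
  exact ⟨y, e.symm, Subring.mem_centralizer_iff.1 hy _ rfl⟩

end Pool.Agent.Lib.MP_1ae3da_al.JM
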