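import Pool.Agent.Lib.MP_1ae3da_al.J.D3
import Pool.Agent.Lib.MP_1ae3da_al.J.G6

/-! Spectrum and naturality in type `D`. -/

namespace Pool.Agent.Lib.MP_1ae3da_al.JM

open SLI CT CT.Z

variable {p r k : ℕ} {X : Type} [Group X] [Finite X] [hp : Fact p.Prime] [hr : Fact r.Prime]
  {U : Sylow r X} {N : Subgroup X} {n : ℕ → X} {g : MulAut X} {F : Type} [Field F] [CharZero F]
  {γ : RingAut (MonoidAlgebra F X)} {d : YD F (Module.End F (MonoidAlgebra F X))}

section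
variable {δ : MulAut X} {σ : RingAut F} {γ' : RingAut (MonoidAlgebra F X)}

/-- `A` and `B` move the torus in opposite ways and `γ'` changes them by inverse elements. -/
def D4P (U : Sylow r X) (N : Subgroup X) (γ' : RingAut (MonoidAlgebra F X))
    (A B : MonoidAlgebra F X) : Prop :=
  (∀ t ∈ Tor U N, ∃ t' ∈ Tor U N, A * jt F U t = jt F U t' * A ∧ jt F U t * B = B * jt F U t') ∧
    ∃ W ∈ Tor U N, γ' A = jt F U W * A ∧ γ' B = B * jt F U W⁻¹

theorem d4b_inv {t : X} (ht : t ∈ Tor U N) : jt F U t * jt F (U : Subgroup X) t⁻¹ = 1 := by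
  rw [← jt_mul ht (inv_mem ht), mul_inv_cancel, jt_one]

theorem d4b_inv' {t : X} (ht : t ∈ Tor U N) : jt F U t⁻¹ * jt F (U : Subgroup X) t = 1 := by
  rw [← jt_mul (inv_mem ht) ht, inv_mul_cancel, jt_one]

theorem d4b_cm (h : BV p U N) {s t : X} (hs : s ∈ Tor U N) (ht : t ∈ Tor U N) :
    jt F U s * jt F (U : Subgroup X) t = jt F U t * jt F U s := by
  rw [← jt_mul hs ht, ← jt_mul ht hs, h.ab s hs t ht]

theorem D4P.one : D4P U N γ' 1 1 :=
  ⟨fun t ht => ⟨t, ht, by simp, by simp⟩, 1, one_mem _, by simp [jt_one], by simp [jt_one]⟩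

theorem D4P.mul {A B A' B' : MonoidAlgebra F X} (h : D4P U N γ' A B) (h' : D4P U N γ' A' B') :
    D4P U N γ' (A * A') (B' * B) := by
  obtain ⟨s, W, hW, a, b⟩ := h
  obtain ⟨s', W', hW', a', b'⟩ := h'
  refine ⟨fun t ht => ?_, ?_⟩
  · obtain ⟨t', ht', c, e⟩ := s' t ht
    obtain ⟨t'', ht'', c', e'⟩ := s t' ht'
    exact ⟨t'', ht'', by rw [mul_assoc, c, ← mul_assoc, c', mul_assoc],
      by rw [← mul_assoc, e, mul_assoc, e', mul_assoc]⟩
  · obtain ⟨V, hV, c, e⟩ := s W' hW'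
    have e' : jt F U W'⁻¹ * B = B * jt F U V⁻¹ := by
      rw [← mul_one (_ * B), ← d4b_inv hV, mul_assoc, ← mul_assoc B, ← e, mul_assoc, ← mul_assoc,
        d4b_inv' hW', one_mul]
    refine ⟨W * V, mul_mem hW hV, ?_, ?_⟩
    · rw [map_mul, a, a', jt_mul hW hV, mul_assoc, ← mul_assoc A, c]
      simp only [mul_assoc]
    · rw [map_mul, b, b', mul_inv_rev, jt_mul (inv_mem hV) (inv_mem hW), mul_assoc,
        ← mul_assoc (jt F _ W'⁻¹), e']
      simp only [mul_assoc]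

theorem D4P.smul {A B : MonoidAlgebra F X} (h : D4P U N γ' A B) (hγ' : SL F σ γ') {q : F}
    (hq : σ q = q) : D4P U N γ' (q • A) (q • B) := by
  obtain ⟨s, W, hW, a, b⟩ := h
  refine ⟨fun t ht => ?_, W, hW, by rw [hγ', hq, a, mul_smul_comm],
    by rw [hγ', hq, b, smul_mul_assoc]⟩
  obtain ⟨t', ht', c, e⟩ := s t ht
  exact ⟨t', ht', by rw [smul_mul_assoc, c, mul_smul_comm],
    by rw [mul_smul_comm, e, smul_mul_assoc]⟩

theorem d4b_sw (h : BV p U N) {m t : X} (hm : m ∈ N) (h2 : m * m ∈ Tor U N) (ht : t ∈ Tor U N) :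
    jt F U t * tau F U m = tau F U m * jt F U (m * t * m⁻¹) := by
  rw [tau_jt h hm (g4_T h hm ht)]
  congr 2
  calc t = m * m * t * (m * m)⁻¹ := by rw [h.ab _ h2 _ ht, mul_inv_cancel_right]
    _ = _ := by group

theorem d4b_tau (h : BV p U N) (hγ' : SL F σ γ') (hδ : ∀ x, γ' (gu F X x) = gu F X (δ x))
    (hU : ∀ x, δ x ∈ U ↔ x ∈ U) {m c : X} (hm : m ∈ N) (h2 : m * m ∈ Tor U N) (hc : c ∈ Tor U N)
    (e : δ m = c * m * c⁻¹) : γ' (tau F U m) = jt F U c * tau F U m * jt F U c⁻¹ ∧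
      γ' (jt F U (m * m)) = jt F U (m * m) := by
  obtain ⟨-, n2, n3⟩ := nat_gen hγ' hδ hU
  refine ⟨?_, ?_⟩
  · rw [n3, e, mul_assoc (jt F _ _), tau_jt h hm (inv_mem hc), ← tau_left (g4_T h hm (inv_mem hc)),
      ← tau_left hc]
    congr 1
    group
  · rw [n2, map_mul, e]
    congr 1
    calc _ = c * (m * m) * c⁻¹ := by group
      _ = _ := by rw [h.ab _ hc _ h2, mul_inv_cancel_right]

theorem d4b_gen (h : BV p U N) (hγ' : SL F σ γ') (hδ : ∀ x, γ' (gu F X x) = gu F X (δ x))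
    (hU : ∀ x, δ x ∈ U ↔ x ∈ U) {m c : X} (hm : m ∈ N) (h2 : m * m ∈ Tor U N) (hc : c ∈ Tor U N)
    (e : δ m = c * m * c⁻¹) : D4P U N γ' (tau F U m) (tau F U m * jt F U (m * m)) ∧
      D4P U N γ' (tau F U m * jt F U (m * m)) (tau F U m) := by
  obtain ⟨a, b⟩ := d4b_tau h hγ' hδ hU hm h2 hc e
  have c1 := g4_T h hm (inv_mem hc)
  have hW := mul_mem hc c1
  have a1 : γ' (tau F U m) = jt F U (c * (m * c⁻¹ * m⁻¹)) * tau F U m := by
    rw [a, mul_assoc, tau_jt h hm (inv_mem hc), jt_mul hc c1, mul_assoc (jt F _ c)]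
  have a2 : γ' (tau F U m) = tau F U m * jt F U (c * (m * c⁻¹ * m⁻¹))⁻¹ := by
    rw [a, d4b_sw h hm h2 hc, mul_assoc, ← jt_mul (g4_T h hm hc) (inv_mem hc)]
    congr 2
    group
  refine ⟨⟨fun t ht => ⟨_, g4_T h hm ht, tau_jt h hm ht, ?_⟩, _, hW, a1, ?_⟩,
    ⟨fun t ht => ⟨_, g4_T h hm ht, ?_, d4b_sw h hm h2 ht⟩, _, hW, ?_, a2⟩⟩
  · rw [← mul_assoc, d4b_sw h hm h2 ht, mul_assoc, d4b_cm h (g4_T h hm ht) h2,
      mul_assoc (tau F _ m)]
  · rw [map_mul, a2, b, mul_assoc, d4b_cm h (inv_mem hW) h2, mul_assoc (tau F _ m)]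
  · rw [mul_assoc, d4b_cm h h2 ht, ← mul_assoc, tau_jt h hm ht, mul_assoc]
  · rw [map_mul, a1, b, mul_assoc]

theorem d4b_idem (h : BV p U N) (hγ' : SL F σ γ') (hδ : ∀ x, γ' (gu F X x) = gu F X (δ x))
    (hU : ∀ x, δ x ∈ U ↔ x ∈ U) {m c : X} (hm : m ∈ N) (h2 : m * m ∈ Tor U N) (hc : c ∈ Tor U N)
    (e : δ m = c * m * c⁻¹) {q : F} (hq : σ q = q) (q1 : q - 1 ≠ 0) {ε : MonoidAlgebra F X}
    (hε : ε * jt F U c = jt F U c * ε)
    (can : ∀ a b : MonoidAlgebra F X, a * tau F U m = b * tau F U m → a = b)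
    (sq : tau F U m * tau F U m = q • jt F U (m * m) + (q - 1) • (ε * tau F U m)) : γ' ε = ε := by
  obtain ⟨a, b⟩ := d4b_tau h hγ' hδ hU hm h2 hc e
  have i := d4b_inv (F := F) hc
  have i' := d4b_inv' (F := F) hc
  have s := congrArg γ' sq
  rw [map_mul, map_add, hγ', hγ', map_sub, map_one, hq, map_mul, a, b] at s
  have s1 : jt F U c * tau F U m * jt F U c⁻¹ * (jt F U c * tau F U m * jt F U c⁻¹) =
      jt F U c * (tau F U m * tau F U m) * jt F U c⁻¹ := by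
    simp only [mul_assoc]
    rw [← mul_assoc (jt F _ c⁻¹), i', one_mul]
  rw [s1, sq, mul_add, add_mul, mul_smul_comm, smul_mul_assoc, d4b_cm h hc h2, mul_assoc, i,
    mul_one, add_right_inj, mul_smul_comm, smul_mul_assoc] at s
  have s2 := congrArg (· * jt F U c) (smul_right_injective _ q1 s)
  simp only [mul_assoc, i', mul_one] at s2
  rw [← mul_assoc, ← hε, ← mul_assoc] at s2
  have s3 := congrArg (· * jt F U c⁻¹) (can _ _ s2)
  simp only [mul_assoc, i, mul_one] at s3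
  exact s3.symm

end

omit [Finite X] hp hr [CharZero F] in
theorem d4b_gg (hγ : SL F 1 γ) (hg : ∀ x, γ (gu F X x) = gu F X (g x)) (gg : ∀ x, g (g x) = x)
    (z : MonoidAlgebra F X) : γ (γ z) = z := by
  induction z using MonoidAlgebra.induction_on with
  | of x => exact (congrArg γ (hg x)).trans ((hg _).trans (congrArg (gu F X) (gg x)))
  | add a b ha hb => rw [map_add, map_add, ha, hb]
  | smul c a ha => rw [hγ, hγ, ha]; rfl

omit [Finite X] hp hr [CharZero F] in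
theorem d4b_inj {a b : MonoidAlgebra F X} (h : Lm a = Lm b) : a = b := by
  simpa using LinearMap.congr_fun h 1

/-- hint: `m1` with the subring of the `Lm y`, `jt c⁻¹ * γ' y * jt c = y`. By induction
`γ' (M a) = jt W * M a` with `W` in the torus, and `γ'` commutes with `st` up to `σ`, so `γ'` fixes
`M a * st (M a)`; the idempotents `e a` and `γ (e a)` are determined by the quadratic relations
of the nodes; `nat_gen` (G6). -/
theorem TD.nat (h : TD p k U N n g) (hγ : SL F 1 γ) (hg : ∀ x, γ (gu F X x) = gu F X (g x))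
    (hd : Md k U N n γ d) {s : ℕ → Module.End F (MonoidAlgebra F X)} (ho : d.Out s)
    {σ : RingAut F} (hσ : σ d.u = d.u) {γ' : RingAut (MonoidAlgebra F X)} (hγ' : SL F σ γ')
    {δ : MulAut X} (hδ : ∀ x, γ' (gu F X x) = gu F X (δ x)) (hU : ∀ x, δ x ∈ U ↔ x ∈ U)
    (hN : ∀ x, δ x ∈ N ↔ x ∈ N) (h1 : ∀ i, i < k → ∃ c ∈ Tor U N, δ (n i) = c * n i * c⁻¹)
    {i : ℕ} (h0 : 0 < i) (hi : i < k) {c : X} (hc : c ∈ Tor U N) (e : δ (n i) = c * n i * c⁻¹)
    {y : MonoidAlgebra F X} (hy : s i = Lm y) : γ' y = jt F U c * y * jt F U c⁻¹ := by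
  obtain ⟨a, rfl⟩ := Nat.exists_eq_succ_of_ne_zero h0.ne'
  have dk := hd.k
  obtain ⟨-, g2, g3⟩ := nat_gen hγ hg h.gU
  have hS : ∀ t ∈ Tor U N, Lm (jt F U t) ∈ d.S := fun t ht =>
    (hd.S _).2 ⟨_, Submodule.subset_span ⟨t, ht, rfl⟩, rfl⟩
  have cS : ∀ z, Lm z ∈ d.S → ∀ t ∈ Tor U N, z * jt F U t = jt F U t * z := fun z hz t ht =>
    d4b_inj (by rw [map_mul, map_mul]; exact d.cm _ hz _ (hS t ht))
  have xL : ∀ z, d.x * Lm z = Lm (γ z) * d.x := fun z => LinearMap.ext fun w => by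
    simp [hd.x]
  have xx : d.x * d.x = 1 := LinearMap.ext fun w => by
    simpa [hd.x] using d4b_gg hγ hg h.w.gg w
  have hQ : σ d.Q = d.Q := by rw [hd.Q, map_natCast]
  have gn : ∀ j, 0 < j → j < k → ∃ l, l < k ∧ g (n j) = n l := fun j j0 hj => by
    by_cases j1 : j = 1
    · exact ⟨0, by omega, j1 ▸ h.w.g1⟩
    · exact ⟨j, hj, h.w.g2 j (by omega) hj⟩
  have hM : ∀ b, b < k → ∃ M, d.X b = Lm M * d.x ∧ d.ei b = 1 ∧ D4P U N γ' M (γ M) := by
    intro b
    induction b with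
    | zero => exact fun _ => ⟨1, by rw [map_one, one_mul]; rfl, hd.ηi, by
        rw [map_one]; exact D4P.one⟩
    | succ b ih =>
      intro hb
      obtain ⟨M, m1, m2, m3⟩ := ih (by omega)
      obtain ⟨l, hl, gl⟩ := gn _ b.succ_pos hb
      obtain ⟨c1, t1, e1⟩ := h1 _ hb
      obtain ⟨c2, t2, e2⟩ := h1 _ hl
      have gl' : g (n l) = n (b + 1) := by rw [← gl, h.w.gg]
      refine ⟨d.Q⁻¹ • (tau F U (n (b + 1)) * M * (tau F U (n l) * jt F U (n l * n l))), ?_, ?_, ?_⟩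
      · change d.Q⁻¹ • (d.T b * d.X b * d.T b * d.h b) = _
        rw [m1, hd.T, hd.h, map_smul, smul_mul_assoc, mul_assoc, mul_assoc, mul_assoc, ← map_mul,
          xL, map_mul γ, g2, g3, map_mul g, gl]
        simp only [map_mul, mul_assoc]
      · change d.T b * d.ei b * d.Ti b = 1
        rw [m2, mul_one, d.T_Ti (dk ▸ hb)]
      · have q : γ (tau F U (n (b + 1)) * M * (tau F U (n l) * jt F U (n l * n l))) =
            tau F U (n l) * (γ M * (tau F U (n (b + 1)) * jt F U (n (b + 1) * n (b + 1)))) := by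
          rw [map_mul, map_mul, map_mul, g2, g3, g3, map_mul g, gl, gl', mul_assoc]
        rw [hγ, q]
        exact ((((d4b_gen h.v hγ' hδ hU (h.w.mem _ hb) (h.w.sq _ hb) t1 e1).1).mul m3).mul
          (d4b_gen h.v hγ' hδ hU (h.w.mem _ hl) (h.w.sq _ hl) t2 e2).2).smul hγ'
          (by rw [map_inv₀, hQ])
  have i1 := d4b_inv (F := F) hc
  have i2 := d4b_inv' (F := F) hc
  let φ : MonoidAlgebra F X →+* MonoidAlgebra F X :=
    { toFun := fun z => jt F U c⁻¹ * γ' z * jt F U c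
      map_one' := by rw [map_one, mul_one, i2]
      map_mul' := fun z w => by
        simp only [map_mul, mul_assoc]
        rw [← mul_assoc (jt F _ c), i1, one_mul]
      map_zero' := by simp
      map_add' := fun z w => by rw [map_add, mul_add, add_mul] }
  let B := (φ.eqLocus (RingHom.id _)).map (Lm : MonoidAlgebra F X →ₐ[F] _).toRingHom
  have mB : ∀ z, γ' z = z → z * jt F U c = jt F U c * z → Lm z ∈ B := fun z k1 k2 =>
    ⟨z, by change jt F U c⁻¹ * γ' z * jt F U c = z; rw [k1, mul_assoc, k2, ← mul_assoc, i2,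
      one_mul], rfl⟩
  have zB : ∀ b, b < k → d.Z b ∈ B := fun b hb => by
    obtain ⟨M, m1, m2, -, W, hW, w1, w2⟩ := hM b hb
    have z : d.Z b = Lm (M * γ M) := by
      rw [YD.Z, m1, m2, mul_one, mul_assoc, ← mul_assoc d.x, xL, mul_assoc, xx, mul_one, map_mul]
    have cz : ∀ t ∈ Tor U N, M * γ M * jt F U t = jt F U t * (M * γ M) := fun t ht =>
      d4b_inj (by rw [map_mul _ _ (jt F _ t), map_mul _ (jt F _ t), ← z]
                  exact d.Z_S (dk ▸ hb) (hS t ht))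
    rw [z]
    refine mB _ ?_ (cz c hc)
    rw [map_mul, w1, w2, mul_assoc, ← mul_assoc M, ← mul_assoc, ← cz W hW, mul_assoc, d4b_inv hW,
      mul_one]
  have ha : a + 1 < d.k := dk ▸ hi
  have ha' : a < d.k := by omega
  obtain ⟨ε, -, hε⟩ := (hd.S _).1 (d.me a ha)
  obtain ⟨ε', -, hε'⟩ := (hd.S _).1 (YD.ep_mem ha' (d.me a ha))
  have cε := cS ε (hε ▸ d.me a ha)
  have cε' := cS ε' (hε' ▸ YD.ep_mem ha' (d.me a ha))
  have can : ∀ z w : MonoidAlgebra F X, z * tau F U (n (a + 1)) = w * tau F U (n (a + 1)) →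
      z = w := fun z w k => d4b_inj ((d.T_unit ha).mul_right_cancel (by
    rw [hd.T, ← map_mul, ← map_mul, k]))
  have sq : tau F U (n (a + 1)) * tau F U (n (a + 1)) = d.Q • jt F U (n (a + 1) * n (a + 1)) +
      (d.Q - 1) • (ε * tau F U (n (a + 1))) := d4b_inj (by
    rw [map_add, map_smul, map_smul, map_mul, map_mul, ← hd.T, ← hd.h, ← hε]
    exact d.qT a ha)
  have f1 := d4b_idem h.v hγ' hδ hU (h.w.mem _ hi) (h.w.sq _ hi) hc e hQ d.Q1 (cε c hc) can sq
  obtain ⟨l, hl, gl⟩ := gn _ a.succ_pos hi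
  obtain ⟨c2, t2, e2⟩ := h1 _ hl
  have f2 : γ' (γ ε) = γ ε := by
    refine d4b_idem h.v hγ' hδ hU (h.w.mem _ hl) (h.w.sq _ hl) t2 e2 hQ d.Q1 ?_ (fun z w k => ?_) ?_
    · have := congrArg γ (cε (g c2) ((h.w.gT _).2 t2))
      rwa [map_mul, map_mul, g2, h.w.gg] at this
    · have := congrArg γ k
      rw [map_mul, map_mul, g3, ← gl, h.w.gg] at this
      exact γ.injective (can _ _ this)
    · have := congrArg γ sq
      rwa [map_mul, map_add, hγ, hγ, map_mul, g2, g3, map_mul g, gl] at this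
  have f3 : γ' ε' = ε' := by
    obtain ⟨M, m1, -, -, W, hW, w1, -⟩ := hM a (dk ▸ ha')
    have cn : ∀ z w : MonoidAlgebra F X, z * M = w * M → z = w := fun z w k =>
      d4b_inj ((d.X_unit ha').mul_right_cancel (by
        rw [m1, ← mul_assoc, ← mul_assoc, ← map_mul, ← map_mul, k]))
    have k1 : M * γ ε = ε' * M := by
      have := YD.X_ep0 (ε := d.e a) ha'
      rw [hε', hε, m1, mul_assoc, xL, ← mul_assoc, ← mul_assoc, ← map_mul, ← map_mul] at this
      simpa [hd.x] using LinearMap.congr_fun this 1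
    have k2 := congrArg γ' k1
    rw [map_mul, map_mul, f2, w1, mul_assoc, k1, ← mul_assoc, ← mul_assoc, ← cε' W hW] at k2
    have k3 := congrArg (· * jt F U W⁻¹) (cn _ _ k2)
    simp only [mul_assoc, d4b_inv hW, mul_one] at k3
    exact k3.symm
  obtain ⟨z, hz, e3⟩ := ho.m1 B (RingHom.eqLocusField (σ : F →+* F) (RingHom.id F))
    (fun x hx => by
      rw [← (Lm : MonoidAlgebra F X →ₐ[F] _).commutes]
      refine mB _ ?_ (Algebra.commutes _ _)
      rw [Algebra.algebraMap_eq_smul_one, hγ', map_one]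
      exact congrArg (· • (1 : MonoidAlgebra F X)) hx) hσ a ha
    ⟨tau F U (n (a + 1)), by
      change jt F U c⁻¹ * γ' _ * jt F U c = _
      rw [(d4b_tau h.v hγ' hδ hU (h.w.mem _ hi) (h.w.sq _ hi) hc e).1]
      simp only [mul_assoc, i2, mul_one]
      rw [← mul_assoc, i2, one_mul]
      rfl, (hd.T a).symm⟩
    (hε ▸ mB _ f1 (cε c hc)) (hε' ▸ mB _ f3 (cε' c hc)) (zB a (dk ▸ ha')) (zB _ hi)
  obtain rfl : z = y := d4b_inj (e3.trans hy)
  have k4 : jt F U c⁻¹ * γ' z * jt F U c = z := hz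
  conv_rhs => rw [← k4]
  simp only [mul_assoc, i1, mul_one]
  rw [← mul_assoc, i1, one_mul]

end Pool.Agent.Lib.MP_1ae3da_al.JM
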