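import Pool.Agent.Lib.MP_1ae3da_al.J.D4
import Pool.Agent.Lib.MP_1ae3da_al.J.D4b

/-! The inductive condition for split Tits systems of type `D`. -/

namespace Pool.Agent.Lib.MP_1ae3da_al.JM

open SLI CT CT.Z Submodule

variable {p r k : ℕ} {X : Type} [Group X] [Finite X] [hp : Fact p.Prime] [hr : Fact r.Prime]
  {U : Sylow r X} {N : Subgroup X} {n : ℕ → X} {g : MulAut X} {F : Type} [Field F] [CharZero F]

theorem TD.dat (h : TD p k U N n g) (h2 : p ≠ 2) {κ : Type} [Field κ] {O R : Subring F}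
    {ρ : F → κ} {GG : Subgroup (RingAut F)} (hP : PM p O R ρ GG)
    {γ : RingAut (MonoidAlgebra F X)} (hγ : SL F 1 γ) (hg : ∀ x, γ (gu F X x) = gu F X (g x)) :
    ∃ d : YD F (Module.End F (MonoidAlgebra F X)), (∀ σ ∈ GG, σ d.u = d.u) ∧ Md k U N n γ d := by
  have k1 : 1 < k := by have := h.k5; omega
  have hq := qn_mod h.v (h.w.mem 1 k1) (h.w.sq 1 k1) (h.ts.atom h.v k1)
  obtain ⟨u, hu, hσ⟩ := ex_u hP h2 hq
  have g1 := qn_gt (h.w.mem 1 k1) (h.w.nt k1)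
  have u0 : u ≠ 0 := by
    rintro rfl
    rw [zero_pow two_ne_zero, eq_comm, Nat.cast_eq_zero] at hu
    omega
  obtain ⟨d, du, hd⟩ := h.ex_yd hγ hg u 1 u0 (zpow_inj g1 hu) one_pos hu.symm
  exact ⟨d, du ▸ hσ, hd⟩

theorem TD.cor (h : TD p k U N n g) (h2 : p ≠ 2) {κ : Type} [Field κ] {O R : Subring F}
    {ρ : F → κ} {GG : Subgroup (RingAut F)} (hP : PM p O R ρ GG) :
    ∃ Θ, Cor (Ga GG h.v.D) N (av F U) Θ := by
  have := hP.algF
  obtain ⟨γ0, hγ0, hg⟩ := ga_aut (F := F) 1 g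
  obtain ⟨d, du, hd⟩ := h.dat h2 hP hγ0 hg
  have ho := (h.good hγ0 hg hd).out
  generalize d.s = s at ho
  have dk := hd.k
  have k1 : 1 < k := by have := h.k5; omega
  obtain ⟨a1, a2, a3⟩ := nat_gen hγ0 hg h.gU
  obtain ⟨c0, c0n, s0⟩ := h.s0 hγ0 hg hd ho
  have hS : ∀ t ∈ Tor U N, Lm (jt F U t) ∈ d.S := fun t ht =>
    (hd.S _).2 ⟨_, subset_span ⟨t, ht, rfl⟩, rfl⟩
  have xL : ∀ z, d.x * Lm z = Lm (γ0 z) * d.x := fun z => LinearMap.ext fun a => by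
    change d.x (z * a) = γ0 z * d.x a
    rw [hd.x, hd.x, map_mul]
  obtain ⟨Θ, t1, t2, t0⟩ := h.w.lift (fun t => Lm (jt F (U : Subgroup X) t))
    (by rw [jt_one, map_one]) (fun t ht t' ht' => by rw [jt_mul ht ht', map_mul]) s
    (fun t ht => ho.n0 _ (hS t ht) _ (by rw [xL, a2])) (hd.η ▸ ho.q0)
    (fun i h0 hi t ht => by
      obtain ⟨a, rfl⟩ : ∃ a, i = a + 1 := ⟨i - 1, by omega⟩
      exact ho.n1 a (dk ▸ hi) _ (hS t ht) _ (by
        rw [hd.T, ← map_mul, ← map_mul, tau_jt h.v (h.w.mem _ hi) ht]))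
    (fun i h0 hi => by
      obtain ⟨a, rfl⟩ : ∃ a, i = a + 1 := ⟨i - 1, by omega⟩
      exact hd.h a ▸ ho.q1 a (dk ▸ hi)) (dk ▸ ho.br)
  have ind : ∀ P : N → Prop, (∀ t : N, (t : X) ∈ Tor U N → P t) →
      (∀ i (hi : i < k) (m : N), AA (U : Subgroup X) (n i) m → P m →
        P (⟨n i, h.w.mem i hi⟩ * m)) → ∀ m, P m := fun P p0 p1 m =>
    h.ts.red h.v (fun x => ∀ hx : x ∈ N, P ⟨x, hx⟩) (fun t ht _ => p0 _ ht)
      (fun i hi m hm ha hP _ => p1 i hi ⟨m, hm⟩ ha (hP hm)) m m.2 m.2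
  have tg : ∀ x y : N, (y : X) = g x → Θ y 1 = γ0 (Θ x 1) := fun x y e => by
    have := congrArg (fun f : Module.End F (MonoidAlgebra F X) => f 1) (t0 x y e)
    simp only [s0, Module.End.mul_apply, LinearMap.smul_apply, map_smul, hd.x, map_one] at this
    exact (smul_right_injective _ c0n this).symm
  have gen : ∀ i (hi : i < k), Θ ⟨n i, h.w.mem i hi⟩ = Lm (Θ ⟨n i, h.w.mem i hi⟩ 1) ∧
      av F (U : Subgroup X) * Θ ⟨n i, h.w.mem i hi⟩ 1 = Θ ⟨n i, h.w.mem i hi⟩ 1 * av F U := by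
    have key : ∀ i (hi : i < k), 0 < i → Θ ⟨n i, h.w.mem i hi⟩ = Lm (Θ ⟨n i, h.w.mem i hi⟩ 1) ∧
        av F (U : Subgroup X) * Θ ⟨n i, h.w.mem i hi⟩ 1 = Θ ⟨n i, h.w.mem i hi⟩ 1 * av F U :=
      fun i hi h0 => by
        obtain ⟨y, e1, e2⟩ := h.rng hγ0 hg hd ho h0 hi
        have e3 : Lm y 1 = y := mul_one y
        rw [t2 i h0 hi _ rfl, e1, e3]
        exact ⟨rfl, e2⟩
    intro i hi
    rcases Nat.eq_zero_or_pos i with rfl | h0
    · obtain ⟨e1, e2⟩ := key 1 k1 one_pos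
      have e3 := t0 ⟨_, h.w.mem 1 k1⟩ ⟨_, h.w.mem 0 hi⟩ h.w.g1.symm
      rw [tg ⟨_, h.w.mem 1 k1⟩ ⟨_, h.w.mem 0 hi⟩ h.w.g1.symm]
      refine ⟨?_, by rw [← a1, ← map_mul, ← map_mul, e2]⟩
      rw [e1, s0, smul_mul_assoc, xL, ← smul_mul_assoc, smul_mul_assoc, ← mul_smul_comm, ← s0] at e3
      have q := ho.q0
      rw [hd.η] at q
      rw [← mul_one (Θ _), ← q, ← mul_assoc, ← e3, mul_assoc, q, mul_one]
    · exact key i hi h0
  have L1 : ∀ y : MonoidAlgebra F X, Lm y 1 = y := mul_one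
  have all : ∀ m, Θ m = Lm (Θ m 1) ∧ av F (U : Subgroup X) * Θ m 1 = Θ m 1 * av F U := by
    refine ind _ (fun t ht => ?_) fun i hi m _ hm => ?_
    · rw [t1 t ht, L1]
      exact ⟨rfl, e_jt ht⟩
    · obtain ⟨e1, e2⟩ := gen i hi
      rw [map_mul, e1, hm.1, ← map_mul, L1]
      exact ⟨rfl, by rw [← mul_assoc, e2, mul_assoc, hm.2, mul_assoc]⟩
  obtain ⟨θ, hθ⟩ : ∃ θ : N → MonoidAlgebra F X, ∀ m, Θ m 1 = θ m := ⟨_, fun _ => rfl⟩
  simp only [hθ] at all tg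
  have mul : ∀ x y, θ (x * y) = θ x * θ y := fun x y => by
    rw [← hθ, map_mul, (all x).1, (all y).1, ← map_mul, L1]
  have θt : ∀ t : N, (t : X) ∈ Tor U N → θ t = jt F (U : Subgroup X) (t : X) := fun t ht => by
    rw [← hθ, t1 t ht, L1]
  refine h.v.cor (fun m => θ m * av F U) (fun x y => ?_) (fun t ht => ?_) (fun m hm => ?_) ?_
  · rw [mul, mul_assoc (θ x) (av F _), ← mul_assoc (av F _), (all y).2, mul_assoc (θ y), av_idem,
      mul_assoc]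
  · rw [θt t ht, jt_e]
  · have ml : ∀ (φ : N → MonoidAlgebra F X), (∀ x m, θ x * φ m = φ (x * m)) →
        ∀ y ∈ span F (Set.range θ), ∀ z ∈ span F (Set.range φ), y * z ∈ span F (Set.range φ) :=
      fun φ hφ y hy z hz => by
        have := mul_mem_mul hy hz
        rw [span_mul_span] at this
        refine span_le.2 ?_ this
        rintro _ ⟨_, ⟨x, rfl⟩, _, ⟨m, rfl⟩, rfl⟩
        exact subset_span ⟨x * m, (hφ x m).symm⟩
    let B : Subalgebra F (Module.End F (MonoidAlgebra F X)) :=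
      { carrier := {y | ∀ z ∈ span F (Set.range θ), y z ∈ span F (Set.range θ)}
        mul_mem' := fun ha hb z hz => ha _ (hb z hz)
        add_mem' := fun ha hb z hz => add_mem (ha z hz) (hb z hz)
        algebraMap_mem' := fun c z hz => smul_mem _ c hz }
    have lb : ∀ y ∈ span F (Set.range θ), Lm y ∈ B := fun y hy z hz =>
      ml θ (fun x m => (mul x m).symm) y hy z hz
    have gb : ∀ z ∈ span F (Set.range θ), γ0 z ∈ span F (Set.range θ) := fun z hz => by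
      rw [← hd.x]
      refine (span_le (p := Submodule.comap d.x (span F (Set.range θ)))).2 ?_ hz
      rintro _ ⟨m, rfl⟩
      exact subset_span ⟨⟨g m, (h.w.gN _).2 m.2⟩, (tg m _ rfl).trans (hd.x _).symm⟩
    have hB := (ho.gen B (fun y hy => by
      obtain ⟨z, hz, rfl⟩ := (hd.S y).1 hy
      refine lb z (span_mono ?_ hz)
      rintro _ ⟨t, ht, rfl⟩
      exact ⟨⟨t, ht.1⟩, θt _ ht⟩) fun i hi => by
        rcases Nat.eq_zero_or_pos i with rfl | h0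
        · rw [s0]
          exact B.smul_mem (fun z hz => hd.x z ▸ gb z hz) _
        · rw [← t2 i h0 (dk ▸ hi) ⟨_, h.w.mem i (dk ▸ hi)⟩ rfl, (all _).1]
          exact lb _ (subset_span ⟨_, rfl⟩)).2
    have o : (1 : MonoidAlgebra F X) ∈ span F (Set.range θ) :=
      subset_span ⟨1, by rw [θt 1 (one_mem _)]; exact jt_one⟩
    have hτ : ∀ i, 0 < i → i < k → tau F U (n i) ∈ span F (Set.range θ) := fun i h0 hi => by
      obtain ⟨a, rfl⟩ : ∃ a, i = a + 1 := ⟨i - 1, by omega⟩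
      have := hB a (dk ▸ hi) 1 o
      rwa [hd.T, L1] at this
    refine ind (fun m => an F (U : Subgroup X) (m : X) ∈
      span F (Set.range fun m => θ m * av F (U : Subgroup X)))
      (fun t ht => subset_span ⟨t, ?_⟩) (fun i hi m ha hm => ?_) ⟨m, hm⟩
    · change θ t * _ = _
      rw [θt t ht, jt_e, an_nrm ht.2]
    have q : (Qn (U : Subgroup X) (n i) : F) ≠ 0 :=
      Nat.cast_ne_zero.2 (by have := qn_gt (h.w.mem i hi) (h.w.nt hi); omega)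
    change an F _ (n i * m) ∈ _
    rw [← aa_an ha, ← smul_mem_iff _ q, ← tau_an]
    refine ml _ (fun x m => by rw [mul, mul_assoc]) _ ?_ _ hm
    rcases Nat.eq_zero_or_pos i with rfl | h0
    · rw [← h.w.g1, ← a3]
      exact gb _ (hτ 1 one_pos k1)
    · exact hτ i h0 hi
  have tor : ∀ δ : MulAut X, (∀ x, δ x ∈ U ↔ x ∈ U) → (∀ x, δ x ∈ N ↔ x ∈ N) →
      ∀ x, δ x ∈ Tor U N ↔ x ∈ Tor U N := fun δ hU hN x =>
    and_congr (hN x) (zTh_nrm (D := (U : Subgroup X)) hU x)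
  have pos : ∀ σ ∈ GG, ∀ γ : RingAut (MonoidAlgebra F X), SL F σ γ → ∀ δ : MulAut X,
      (∀ x, γ (gu F X x) = gu F X (δ x)) → (∀ x, δ x ∈ U ↔ x ∈ U) → (∀ x, δ x ∈ N ↔ x ∈ N) →
      (∀ i, i < k → δ (n i) * (n i)⁻¹ ∈ Tor U N) → ∀ i (hi : i < k), 0 < i →
      ∀ y : N, (y : X) = δ (n i) → γ (θ ⟨n i, h.w.mem i hi⟩) = θ y :=
    fun σ hσ γ hγ δ hδ hU hN rg i hi h0 y e => by
      have ex : ∀ i, i < k → ∃ c ∈ Tor U N, δ (n i) = c * n i * c⁻¹ := fun i hi =>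
        conj_of h.v δ hU hN (h.w.mem _ hi) (h.w.nt hi) (h.one _ hi) (rg _ hi)
      obtain ⟨c, c1, c2⟩ := ex i hi
      rw [h.nat hγ0 hg hd ho (du σ hσ) hγ hδ hU hN ex h0 hi c1 c2
        ((t2 i h0 hi ⟨_, h.w.mem i hi⟩ rfl).symm.trans (all _).1), ← θt ⟨c, c1.1⟩ c1,
        ← θt ⟨c⁻¹, (inv_mem c1).1⟩ (inv_mem c1), ← mul, ← mul]
      exact congrArg θ (Subtype.ext (e.trans c2).symm)
  have γγ : ∀ z, γ0 (γ0 z) = z := fun z =>
    gu_ext (F := F) 1 ⊤ (γ0.toAddMonoidHom.comp γ0.toAddMonoidHom) (AddMonoidHom.id _)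
      (fun c a => by
        change γ0 (γ0 (c • a)) = _ • γ0 (γ0 a)
        rw [hγ0, hγ0]
        rfl) (fun _ _ => rfl) (fun x _ => by
        change γ0 (γ0 _) = gu F X x
        rw [hg, hg, h.w.gg]) z (by rw [gu_span]; trivial)
  have one : ∀ σ ∈ GG, ∀ γ : RingAut (MonoidAlgebra F X), SL F σ γ → ∀ δ : MulAut X,
      (∀ x, γ (gu F X x) = gu F X (δ x)) → (∀ x, δ x ∈ U ↔ x ∈ U) → (∀ x, δ x ∈ N ↔ x ∈ N) →
      (∀ i, i < k → δ (n i) * (n i)⁻¹ ∈ Tor U N) →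
      ∀ x y : N, (y : X) = δ x → γ (θ x) = θ y := fun σ hσ γ hγ δ hδ hU hN rg => by
    refine ind (fun x => ∀ y : N, (y : X) = δ x → γ (θ x) = θ y) (fun t ht y e => ?_)
      fun i hi m _ hm y e => ?_
    · rw [θt t ht, (nat_gen hγ hδ hU).2.1, θt y (e ▸ (tor δ hU hN _).2 ht), e]
    have e1 : y = ⟨δ (n i), (hN _).2 (h.w.mem i hi)⟩ * ⟨δ m, (hN _).2 m.2⟩ :=
      Subtype.ext (e.trans (map_mul δ _ _))
    rw [e1, mul, mul, map_mul, hm ⟨δ m, (hN _).2 m.2⟩ rfl]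
    congr 1
    rcases Nat.eq_zero_or_pos i with rfl | h0
    swap
    · exact pos σ hσ γ hγ δ hδ hU hN rg i hi h0 _ rfl
    have gn : ∀ i, i < k → ∃ j, j < k ∧ g (n i) = n j := fun i hi => by
      rcases i with _ | _ | i
      · exact ⟨1, k1, by rw [← h.w.g1, h.w.gg]⟩
      · exact ⟨0, by omega, h.w.g1⟩
      · exact ⟨_, hi, h.w.g2 _ (by omega) hi⟩
    have := pos σ hσ (γ0 * γ * γ0) (fun c a => by
        change γ0 (γ (γ0 (c • a))) = _ • γ0 (γ (γ0 a))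
        rw [hγ0, hγ, hγ0]
        rfl) (g * δ * g) (fun x => by
        change γ0 (γ (γ0 _)) = gu F X (g (δ (g x)))
        rw [hg, hδ, hg]) (fun x => (h.gU _).trans ((hU _).trans (h.gU x)))
      (fun x => (h.w.gN _).trans ((hN _).trans (h.w.gN x))) (fun i hi => by
        obtain ⟨j, hj, e⟩ := gn i hi
        change g (δ (g (n i))) * (n i)⁻¹ ∈ _
        rw [← h.w.gT, map_mul, map_inv, h.w.gg, e]
        exact rg j hj) 1 k1 one_pos ⟨g (δ (n 0)), (h.w.gN _).2 ((hN _).2 (h.w.mem 0 hi))⟩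
      (by change g (δ (n 0)) = g (δ (g (n 1))); rw [h.w.g1])
    change γ0 (γ (γ0 _)) = _ at this
    rw [← tg _ ⟨n 0, h.w.mem 0 hi⟩ h.w.g1.symm,
      tg ⟨δ (n 0), (hN _).2 (h.w.mem 0 hi)⟩
        ⟨g (δ (n 0)), (h.w.gN _).2 ((hN _).2 (h.w.mem 0 hi))⟩ rfl] at this
    exact γ0.injective this
  intro σ hσ γ hγ δ hδ hU hN x y e
  rw [map_mul, (nat_gen hγ hδ hU).1]
  congr 1
  rcases h.w.rigid h.k5 δ (tor δ hU hN) fun i hi => h.ts.perm h.v δ hU hN hi with rg | rg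
  · exact one σ hσ γ hγ δ hδ hU hN rg x y e
  have := one σ hσ (γ * γ0) (fun c a => by
      change γ (γ0 (c • a)) = _ • γ (γ0 a)
      rw [hγ0, hγ]
      rfl) (δ * g) (fun x => by
      change γ (γ0 _) = gu F X (δ (g x))
      rw [hg, hδ]) (fun x => (hU _).trans (h.gU x)) (fun x => (hN _).trans (h.w.gN x)) rg
    ⟨g x, (h.w.gN _).2 x.2⟩ y (by change (y : X) = δ (g (g x)); rw [h.w.gg, e])
  change γ (γ0 _) = _ at this
  rwa [tg x _ rfl, γγ] at this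

theorem TD.ind (h : TD p k U N n g) (h2 : p ≠ 2) : (∃ R : Sylow p X, (R : Subgroup X) ≤ N) ∧
    ∀ R : Sylow p X, (R : Subgroup X) ≤ N → NSV.IndN p X R N := by
  have k0 : 0 < k := by have := h.k5; omega
  refine h.v.ind (fun e => h.w.nt k0 (Subgroup.mem_inf.2 ⟨h.w.mem 0 k0, ?_⟩))
    fun F κ _ _ O R ρ GG hP => ?_
  · change n 0 ∈ Subgroup.normalizer ((U : Subgroup X) : Set X)
    rw [e]
    exact Subgroup.mem_normalizer_iff.2 fun x => by simp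
  · have := hP.charF
    exact h.cor h2 hP

end Pool.Agent.Lib.MP_1ae3da_al.JM
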