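import Pool.Agent.Lib.MP_1ae3da_al.J.Gd

/-! Split Tits systems of type `D`: definitions. -/

namespace Pool.Agent.Lib.MP_1ae3da_al.JM

open SLI CT CT.Z

variable {p r : ℕ} {X : Type} [Group X]

/-- `N / T` is the Weyl group of type `D k`; the nodes `0` and `1` are joined to `2` and are
exchanged by the automorphism `g`. -/
structure WD (k : ℕ) (N T : Subgroup X) (n : ℕ → X) (g : MulAut X) : Prop where
  le : T ≤ N
  nrm : N ≤ Subgroup.normalizer (T : Set X)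
  k2 : 2 ≤ k
  gg : ∀ x, g (g x) = x
  gT : ∀ x, g x ∈ T ↔ x ∈ T
  gN : ∀ x, g x ∈ N ↔ x ∈ N
  g1 : g (n 1) = n 0
  g2 : ∀ i, 2 ≤ i → i < k → g (n i) = n i
  mem : ∀ i, i < k → n i ∈ N
  sq : ∀ i, i < k → n i * n i ∈ T
  c0 : n 0 * n 1 = n 1 * n 0
  c1 : ∀ i j, 0 < i → i + 1 < j → j < k → n i * n j = n j * n i
  b3 : ∀ i, 0 < i → i + 1 < k → n i * n (i + 1) * n i = n (i + 1) * n i * n (i + 1)
  gen : N ≤ Subgroup.closure ((T : Set X) ∪ n '' Set.Iio k)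
  card : T.relIndex N = 2 ^ (k - 1) * k.factorial

/-- all the hypotheses in type `D`. -/
structure TD (p k : ℕ) (U : Sylow r X) (N : Subgroup X) (n : ℕ → X) (g : MulAut X) : Prop where
  v : BV p U N
  w : WD k N (Tor U N) n g
  k5 : 5 ≤ k
  gU : ∀ x, g x ∈ U ↔ x ∈ U
  tits : ∀ i, i < k → ∀ m ∈ N, ∀ u ∈ U, ∃ v ∈ U, ∃ t ∈ Tor U N, ∃ w ∈ U,
    n i * u * m = v * (t * (n i * m)) * w ∨ n i * u * m = v * (t * m) * w
  one : ∀ i, i < k → ∀ u ∈ U, n i * u * (n i)⁻¹ ∈ U ∨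
    ∃ s ∈ Tor U N, ∃ v ∈ U, ∃ w ∈ U, n i * u * (n i)⁻¹ = v * (s * n i * s⁻¹) * w
  cen : ∀ i, i < k → Commute (n 1 * n 1 * (n 0 * n 0)⁻¹) (n i)

variable {F : Type} [Field F]

/-- left multiplication. -/
noncomputable abbrev Lm : MonoidAlgebra F X →ₐ[F] Module.End F (MonoidAlgebra F X) :=
  Algebra.lmul F (MonoidAlgebra F X)

/-- `d` is the datum attached to the group and the graph automorphism `γ`. -/
structure Md (k : ℕ) (U : Sylow r X) (N : Subgroup X) (n : ℕ → X)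
    (γ : RingAut (MonoidAlgebra F X)) (d : YD F (Module.End F (MonoidAlgebra F X))) : Prop where
  k : d.k = k
  S : ∀ y, y ∈ d.S ↔ ∃ z ∈ Submodule.span F (jt F U '' (Tor U N : Set X)), y = Lm z
  x : ∀ z, d.x z = γ z
  T : ∀ a, d.T a = Lm (tau F U (n (a + 1)))
  η : d.η = 1
  ηi : d.ηi = 1
  h : ∀ a, d.h a = Lm (jt F U (n (a + 1) * n (a + 1)))
  Q : d.Q = Qn U (n 1)

end Pool.Agent.Lib.MP_1ae3da_al.JM
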