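import Mathlib

/-! Functions of commuting split semisimple elements of an algebra. -/

namespace Pool.Agent.Lib.MP_1ae3da_al.JM

open Polynomial

variable {F H : Type} [Field F] [Ring H] [Algebra F H]

lemma aev {c v : H} {a : F} (h : c * v = a • v) (p : F[X]) : aeval c p * v = p.eval a • v := by
  induction p using Polynomial.induction_on' with
  | add p q hp hq => rw [map_add, add_mul, hp, hq, eval_add, add_smul]
  | monomial n b =>
    have k : ∀ n : ℕ, c ^ n * v = a ^ n • v := fun n => by
      induction n with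
      | zero => simp
      | succ n ih => rw [pow_succ, mul_assoc, h, mul_smul_comm, ih, smul_smul, pow_succ']
    rw [aeval_monomial, eval_monomial, mul_assoc, k, ← Algebra.smul_def, smul_smul]

/-- `c` is killed by a split polynomial without multiple roots. -/
def Sp (F : Type) {H : Type} [Field F] [Ring H] [Algebra F H] (c : H) : Prop :=
  ∃ S : Finset F, aeval c (Lagrange.nodal S id) = 0

lemma root_mem {c v : H} {a : F} {S : Finset F} (hS : aeval c (Lagrange.nodal S id) = 0)
    (h : c * v = a • v) (hv : v ≠ 0) : a ∈ S := by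
  have := aev h (Lagrange.nodal S id)
  rw [hS, zero_mul] at this
  by_contra k
  exact Lagrange.eval_nodal_not_at_node (s := S) (v := id) (x := a)
    (fun i hi e => k (e ▸ hi)) ((smul_eq_zero.1 this.symm).resolve_right hv)

lemma aev_comm {c x : H} (h : c * x = x * c) (p : F[X]) : aeval c p * x = x * aeval c p := by
  induction p using Polynomial.induction_on' with
  | add p q hp hq => rw [map_add, add_mul, mul_add, hp, hq]
  | monomial n b =>
    rw [aeval_monomial, ← Algebra.smul_def, smul_mul_assoc, mul_smul_comm,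
      (Commute.pow_left h n).eq]

lemma Sp.dec {c : H} (h : Sp F c) (v : H) : ∃ (S : Finset F) (p : F → F[X]),
    v = ∑ s ∈ S, aeval c (p s) * v ∧ ∀ s ∈ S, c * aeval c (p s) = s • aeval c (p s) := by
  classical
  obtain ⟨S, hS⟩ := h
  rcases S.eq_empty_or_nonempty with rfl | hne
  · rw [Lagrange.nodal_empty, map_one] at hS
    exact ⟨∅, fun _ => 0, by rw [← one_mul v, hS, zero_mul, Finset.sum_empty], by simp⟩
  refine ⟨S, Lagrange.basis S id, ?_, fun s hs => ?_⟩
  · rw [← Finset.sum_mul, ← map_sum, Lagrange.sum_basis (Set.injOn_id _) hne, map_one, one_mul]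
  · have e : (X - C s) * Lagrange.basis S id s =
        C (Lagrange.nodalWeight S id s) * Lagrange.nodal S id := by
      rw [Lagrange.basis_eq_prod_sub_inv_mul_nodal_div hs, ← Lagrange.nodal_erase_eq_nodal_div hs,
        Lagrange.nodal_eq_mul_nodal_erase hs, mul_left_comm]
      rfl
    have := congrArg (aeval c) e
    rwa [map_mul, map_mul, hS, mul_zero, map_sub, aeval_X, aeval_C, sub_mul, sub_eq_zero,
      ← Algebra.smul_def] at this

lemma ext_fam {J : Type} [Fintype J] {c : J → H} (hc : ∀ i j, c i * c j = c j * c i)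
    (hs : ∀ j, Sp F (c j)) {y : H}
    (h : ∀ (l : J → F) (v : H), (∀ j, c j * v = l j • v) → y * v = 0) : y = 0 := by
  classical
  have key : ∀ T : Finset J, (∀ (l : J → F) (v : H), (∀ j ∈ T, c j * v = l j • v) → y * v = 0) →
      y = 0 := fun T => by
    induction T using Finset.induction_on with
    | empty => exact fun k => by simpa using k 0 1 (by simp)
    | insert j T hj ih =>
      refine fun k => ih fun l v hv => ?_
      obtain ⟨S, p, e, hp⟩ := (hs j).dec v
      rw [e, Finset.mul_sum]
      refine Finset.sum_eq_zero fun s hs' => k (Function.update l j s) _ fun i hi => ?_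
      rcases Finset.mem_insert.1 hi with rfl | hi
      · rw [Function.update_self, ← mul_assoc, hp s hs', smul_mul_assoc]
      · rw [Function.update_of_ne (fun e : i = j => hj (e ▸ hi)), ← mul_assoc,
          ← aev_comm (hc j i), mul_assoc, hv i hi, mul_smul_comm]
  exact key Finset.univ fun l v hv => h l v fun j => hv j (Finset.mem_univ j)

/-- a family of weight spaces that span. -/
structure Spc {W : Type} (FW : W → H → Prop) : Prop where
  fin : {l | ∃ v, v ≠ 0 ∧ FW l v}.Finite
  ext : ∀ y : H, (∀ l v, v ≠ 0 → FW l v → y * v = 0) → y = 0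

/-- `y` acts on the weight `l` by the scalar `g l`. -/
def Dg {W : Type} (FW : W → H → Prop) (y : H) (g : W → F) : Prop :=
  ∀ l v, v ≠ 0 → FW l v → y * v = g l • v

variable {W : Type} {FW : W → H → Prop}

lemma Dg.ap {y : H} {g : W → F} (h : Dg FW y g) {l : W} {v : H} (hv : FW l v) :
    y * v = g l • v := by
  by_cases k : v = 0
  · rw [k, mul_zero, smul_zero]
  · exact h l v k hv

lemma Spc.eq (h : Spc FW) {x y : H} (k : ∀ l v, v ≠ 0 → FW l v → x * v = y * v) : x = y :=
  sub_eq_zero.1 (h.ext _ fun l v hv hl => by rw [sub_mul, k l v hv hl, sub_self])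

lemma Spc.comm (h : Spc FW) {x y : H} {f g : W → F} (hx : Dg FW x f) (hy : Dg FW y g) :
    x * y = y * x :=
  h.eq fun l v _ hl => by
    rw [mul_assoc, mul_assoc, hy.ap hl, hx.ap hl, mul_smul_comm, mul_smul_comm, hy.ap hl, hx.ap hl,
      smul_comm]

lemma Spc.fn (h : Spc FW) {J : Type} [Fintype J] {c : J → H} {g : J → W → F}
    (hc : ∀ j, Dg FW (c j) (g j)) (f : (J → F) → F) (B : Subring H) (K : Subfield F)
    (hK : ∀ x ∈ K, algebraMap F H x ∈ B) (hB : ∀ j, c j ∈ B)
    (hg : ∀ l v, v ≠ 0 → FW l v → (∀ j, g j l ∈ K) ∧ f (fun j => g j l) ∈ K) :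
    ∃ y ∈ B, Dg FW y fun l => f fun j => g j l := by
  classical
  let S : J → Finset F := fun j => h.fin.toFinset.image (g j)
  let M : Finset (J → F) := h.fin.toFinset.image fun l j => g j l
  let E : (J → F) → H := fun m =>
    (Finset.univ.toList.map fun j => aeval (c j) (Lagrange.basis (S j) id (m j))).prod
  have hS : ∀ j, ∀ s ∈ S j, s ∈ K := fun j s hs => by
    obtain ⟨l, hl, rfl⟩ := Finset.mem_image.1 hs
    obtain ⟨v, hv, hl⟩ := h.fin.mem_toFinset.1 hl
    exact (hg l v hv hl).1 j
  have hM : ∀ m ∈ M, ∀ j, m j ∈ S j := fun m hm j => by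
    obtain ⟨l, hl, rfl⟩ := Finset.mem_image.1 hm
    exact Finset.mem_image.2 ⟨l, hl, rfl⟩
  refine ⟨∑ m ∈ M, f m • E m, sum_mem fun m hm => ?_, fun l v hv hl => ?_⟩
  · rw [Algebra.smul_def]
    refine mul_mem (hK _ ?_) (list_prod_mem fun x hx => ?_)
    · obtain ⟨l, hl, rfl⟩ := Finset.mem_image.1 hm
      obtain ⟨v, hv, hl⟩ := h.fin.mem_toFinset.1 hl
      exact (hg l v hv hl).2
    · obtain ⟨j, -, rfl⟩ := List.mem_map.1 hx
      refine Finset.prod_induction _ (fun p => aeval (c j) p ∈ B)
        (fun a b ha hb => by rw [map_mul]; exact mul_mem ha hb) (by rw [map_one]; exact one_mem _)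
        fun s hs => ?_
      have := hS j s (Finset.mem_of_mem_erase hs)
      rw [Lagrange.basisDivisor, map_mul, map_sub, aeval_C, aeval_C, aeval_X]
      exact mul_mem (hK _ (inv_mem (sub_mem (hS j _ (hM m hm j)) this))) (sub_mem (hB j) (hK _ this))
  · have h0 : (fun j => g j l) ∈ M :=
      Finset.mem_image.2 ⟨l, h.fin.mem_toFinset.2 ⟨v, hv, hl⟩, rfl⟩
    have k : ∀ (m : J → F) (L : List J),
        (L.map fun j => aeval (c j) (Lagrange.basis (S j) id (m j))).prod * v =
          (L.map fun j => (Lagrange.basis (S j) id (m j)).eval (g j l)).prod • v := fun m L => by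
      induction L with
      | nil => simp
      | cons j L ih =>
        rw [List.map_cons, List.map_cons, List.prod_cons, List.prod_cons, mul_assoc, ih,
          mul_smul_comm, aev ((hc j).ap hl), smul_smul, mul_comm]
    rw [Finset.sum_mul, Finset.sum_eq_single_of_mem _ h0 fun m hm hne => ?_]
    · rw [smul_mul_assoc, k, Finset.prod_map_toList, Finset.prod_eq_one fun j _ => ?_, one_smul]
      exact Lagrange.eval_basis_self (v := id) (Set.injOn_id _) (hM _ h0 j)
    · obtain ⟨j, hj⟩ := Function.ne_iff.1 hne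
      rw [smul_mul_assoc, k, Finset.prod_map_toList,
        Finset.prod_eq_zero (Finset.mem_univ j) ?_, zero_smul, smul_zero]
      exact Lagrange.eval_basis_of_ne (v := id) hj (hM _ h0 j)

lemma Spc.mem (h : Spc FW) {J : Type} [Fintype J] {c : J → H} {g : J → W → F}
    (hc : ∀ j, Dg FW (c j) (g j)) (f : (J → F) → F) (B : Subring H) (K : Subfield F)
    (hK : ∀ x ∈ K, algebraMap F H x ∈ B) (hB : ∀ j, c j ∈ B)
    (hg : ∀ l v, v ≠ 0 → FW l v → (∀ j, g j l ∈ K) ∧ f (fun j => g j l) ∈ K) {y : H}
    (hy : Dg FW y fun l => f fun j => g j l) : y ∈ B := by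
  obtain ⟨y', h1, h2⟩ := h.fn hc f B K hK hB hg
  rwa [h.eq fun l v _ hl => (hy.ap hl).trans (h2.ap hl).symm]

lemma Spc.ss (h : Spc FW) {c w : H} {g : W → F} (hc : Dg FW c g) (z : F)
    (k : c * (c * w - z • w) = z • (c * w - z • w)) : c * w = z • w := by
  obtain ⟨y, -, hy⟩ := h.fn (J := Unit) (c := fun _ => c) (g := fun _ => g) (fun _ => hc)
    (fun m => (m () - z)⁻¹) ⊤ ⊤ (fun _ _ => trivial) (fun _ => trivial)
    fun _ _ _ _ => ⟨fun _ => trivial, trivial⟩
  have e : y * ((c - algebraMap F H z) * (c - algebraMap F H z)) = c - algebraMap F H z :=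
    h.eq fun l v _ hl => by
      have k1 : (c - algebraMap F H z) * v = (g l - z) • v := by
        rw [sub_mul, hc.ap hl, ← Algebra.smul_def, sub_smul]
      rw [mul_assoc, mul_assoc, k1, mul_smul_comm, k1, mul_smul_comm, mul_smul_comm, hy.ap hl,
        smul_smul, smul_smul]
      congr 1
      by_cases k2 : g l - z = 0
      · simp [k2]
      · field_simp
  have k3 : ∀ x, (c - algebraMap F H z) * x = c * x - z • x := fun x => by
    rw [sub_mul, ← Algebra.smul_def]
  rw [← sub_eq_zero, ← k3, ← e, mul_assoc, mul_assoc, k3 w, k3, k, sub_self, mul_zero]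

end Pool.Agent.Lib.MP_1ae3da_al.JM
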