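import Pool.Agent.Lib.MP_1ae3da_al.J.Gd

/-! The `p`-part of the torus, and the passage from a natural isomorphism to the condition. -/

namespace Pool.Agent.Lib.MP_1ae3da_al.JM

open SLI CT CT.Z
open scoped Pointwise

section cor
open Submodule
variable {F X : Type} [Field F] [CharZero F] [Group X] [Finite X] {U D N : Subgroup X} {p c : ℕ}
  {GG : Subgroup (RingAut F)}

theorem g1_cor (h : Pg p c U D) (hN : Subgroup.normalizer (D : Set X) = N)
    (Θ : N → MonoidAlgebra F X) (h1 : ∀ x y, Θ (x * y) = Θ x * Θ y)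
    (h3' : ∀ t : N, (t : X) ∈ Subgroup.normalizer (U : Set X) → Θ t = gu F X t * av F U)
    (h3 : ∀ m ∈ N, an F U m ∈ span F (Set.range Θ))
    (h4 : ∀ σ ∈ GG, ∀ γ : RingAut (MonoidAlgebra F X), SL F σ γ → ∀ δ : MulAut X,
      (∀ x, γ (gu F X x) = gu F X (δ x)) → (∀ x, δ x ∈ U ↔ x ∈ U) → (∀ x, δ x ∈ N ↔ x ∈ N) →
      ∀ x y : N, (y : X) = δ x → γ (Θ x) = Θ y) :
    ∃ Θ', Cor (Ga GG D) N (av F U) Θ' := by
  classical
  subst hN
  have := Fintype.ofFinite (Subgroup.normalizer (D : Set X))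
  have hC : span F (Set.range fun n : Subgroup.normalizer (D : Set X) => an F U n) ≤
      span F (Set.range Θ) := by
    rw [span_le]
    rintro _ ⟨n, rfl⟩
    exact h3 _ n.2
  have hS : ∀ z, av F U * z * av F U ∈ span F (Set.range Θ) := fun z => hC (an_span h z)
  have hI : LinearIndependent F Θ := by
    have := Module.Finite.span_of_finite F (Set.finite_range Θ)
    rw [linearIndependent_iff_card_le_finrank_span,
      linearIndependent_iff_card_eq_finrank_span.1 (an_ind (F := F) h)]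
    exact finrank_mono hC
  obtain ⟨T, hT⟩ := am_lin (gs_ind (F := F) (Subgroup.normalizer (D : Set X))) Θ
  have hT' : ∀ x (hx : x ∈ Subgroup.normalizer (D : Set X)), T (gu F X x) = Θ ⟨x, hx⟩ :=
    fun x hx => hT ⟨x, hx⟩
  have hsp : span F (Hm F (gu F X) (Subgroup.normalizer (D : Set X))) =
      span F (Set.range (gs F (Subgroup.normalizer (D : Set X)))) := by
    rw [gs_hm, span_Hm_top]
  refine ⟨T, av_idem, ?_, ?_, ?_, ?_, ?_, ?_⟩
  · rw [← gu_one, hT' 1 (one_mem _), h3' _ (one_mem _)]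
    exact (congrArg (· * av F U) gu_one).trans (one_mul _)
  · intro a ha b hb
    rw [hsp] at ha hb
    have k : ∀ x, T (gs F (Subgroup.normalizer (D : Set X)) x * b) = Θ x * T b := fun x =>
      LinearMap.eqOn_span' (f := T ∘ₗ LinearMap.mulLeft F (gs F _ x))
        (g := LinearMap.mulLeft F (Θ x) ∘ₗ T) (by
          rintro _ ⟨y, rfl⟩
          change T (gs F _ x * gs F _ y) = Θ x * T (gs F _ y)
          rw [gs_mul, hT, hT, h1]) hb
    exact LinearMap.eqOn_span' (f := T ∘ₗ LinearMap.mulRight F b)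
      (g := LinearMap.mulRight F (T b) ∘ₗ T) (by
        rintro _ ⟨x, rfl⟩
        change T (gs F _ x * b) = T (gs F _ x) * T b
        rw [k, hT]) ha
  · intro a ha h0
    rw [hsp, mem_span_range_iff_exists_fun] at ha
    obtain ⟨f, rfl⟩ := ha
    simp only [map_sum, map_smul, hT] at h0
    exact Finset.sum_eq_zero fun i _ => by
      rw [Fintype.linearIndependent_iff.1 hI f h0 i, zero_smul]
  · intro z
    obtain ⟨f, hf⟩ := (mem_span_range_iff_exists_fun F).1 (hS z)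
    refine ⟨∑ i, f i • gs F _ i, ?_, ?_⟩
    · rw [hsp]
      exact sum_mem fun i _ => smul_mem _ _ (subset_span ⟨i, rfl⟩)
    · simp only [map_sum, map_smul, hT, hf]
  · intro t ht e
    rw [hT' t ht]
    exact h3' _ (av_comm.1 e)
  · rintro γ ⟨⟨σ, hσ, hγ⟩, δ, hδ, hD⟩
    obtain ⟨n, hn, hU⟩ := h.cnj δ hD
    have ed : ∀ x, (MulAut.conj n⁻¹ * δ) x = n⁻¹ * δ x * n := fun x => by simp
    obtain ⟨γ', hγ', hδ'⟩ := ga_aut (F := F) σ (MulAut.conj n⁻¹ * δ)
    have hD' : ∀ x, (MulAut.conj n⁻¹ * δ) x ∈ D ↔ x ∈ D := fun x => by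
      rw [← hD x]
      exact ((Subgroup.mem_normalizer_iff.1 (inv_mem hn)) (δ x)).symm
    have hU' : ∀ x, (MulAut.conj n⁻¹ * δ) x ∈ U ↔ x ∈ U := fun x => by rw [ed, hU]
    have k1 : γ' (av F U) = av F U := by
      rw [av_map hγ' hδ']
      congr 1
      ext x
      refine ⟨?_, fun hx => ⟨(MulAut.conj n⁻¹ * δ).symm x, (hU' _).1 ?_, ?_⟩⟩
      · rintro ⟨y, hy, rfl⟩
        exact (hU' y).2 hy
      · rwa [MulEquiv.apply_symm_apply]
      · exact MulEquiv.apply_symm_apply _ _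
    have k4 : ∀ a, γ a * gu F X n = gu F X n * γ' a := fun a =>
      gu_ext σ ⊤ ((AddMonoidHom.mulRight (gu F X n)).comp γ.toAddMonoidHom)
        ((AddMonoidHom.mulLeft (gu F X n)).comp γ'.toAddMonoidHom)
        (fun c a => by
          change γ (c • a) * _ = σ c • (γ a * _)
          rw [hγ, smul_mul_assoc])
        (fun c a => by
          change _ * γ' (c • a) = σ c • (_ * γ' a)
          rw [hγ', mul_smul_comm])
        (fun x _ => by
          change γ (gu F X x) * _ = _ * γ' (gu F X x)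
          rw [hδ, hδ', gu_mul, gu_mul, ed]
          congr 1
          group) a (by rw [gu_span]; trivial)
    have k5 := h4 σ hσ γ' hγ' _ hδ' hU' (zTh_nrm hD')
    refine ⟨n, hn, by rw [k4, k1], fun a ha => ?_⟩
    rw [k4, mul_assoc, k4, ← mul_assoc, gu_mul, inv_mul_cancel, gu_one, one_mul]
    congr 1
    exact gu_ext σ _ (γ'.toAddMonoidHom.comp T.toAddMonoidHom)
      (T.toAddMonoidHom.comp γ'.toAddMonoidHom)
      (fun c a => by
        change γ' (T (c • a)) = σ c • γ' (T a)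
        rw [map_smul, hγ'])
      (fun c a => by
        change T (γ' (c • a)) = σ c • T (γ' a)
        rw [hγ', map_smul])
      (fun x hx => by
        change γ' (T (gu F X x)) = T (γ' (gu F X x))
        rw [hT' x hx, hδ', hT' _ ((zTh_nrm hD' x).2 hx)]
        exact k5 _ _ rfl) a ha

theorem g1_lk [IsAlgClosed F] (h : Pg p c U D) {Θ : MonoidAlgebra F X →ₗ[F] MonoidAlgebra F X}
    (hC : Cor (Ga GG D) (Subgroup.normalizer (D : Set X)) (av F U) Θ) :
    LK F (Ga GG D) (Hm F (gu F X) ⊤) (Hm F (gu F X) (Subgroup.normalizer (D : Set X)))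
      (IrrP F p (Hm F (gu F X) ⊤))
      (IrrP F p (Hm F (gu F X) (Subgroup.normalizer (D : Set X)))) := by
  obtain ⟨i1, i2⟩ := ir_p h hC
  choose! Ω o1 o2 o3 using i1
  refine ⟨Ω, ⟨⟨o1, fun a ha b hb k => by_contra fun hn => o2 a ha ?_, fun f' hf' => ?_⟩,
    fun γ hγ x hx => ?_⟩, fun f hf => ⟨_, hC.link hf.1 (o1 f hf).1 (o3 f hf)⟩⟩
  · rw [← ha.1.2.1, mul_assoc, ← o3 a ha, k, o3 b hb, ← mul_assoc, Irr_orth ha.1 hb.1 hn, zero_mul]
  · obtain ⟨f, hf, k⟩ := i2 f' hf'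
    exact ⟨f, hf, zIr_ext hC (o1 f hf).1.1.1 hf'.1.1.1 ((o3 f hf).trans k.symm)⟩
  obtain ⟨⟨s1, s2⟩, s3⟩ := Ga_le hγ
  have hx' := (irrP_stb s1 s2).2 hx
  refine ⟨hx', zIr_ext hC (o1 _ hx').1.1.1 ((span_stb s1 s3).2 (o1 x hx).1.1.1) ?_⟩
  rw [o3 _ hx', hC.eqv hx.1.1 (o1 x hx).1.1 (o3 x hx) hγ]

end cor

namespace BV

section
variable {p r : ℕ} {X : Type} [Group X] {U : Sylow r X} {N : Subgroup X} (h : BV p U N)

lemma D_le : h.D ≤ Tor U N := fun _ hx => hx.1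

lemma D_p : IsPGroup p h.D := fun x => by
  obtain ⟨k, hk⟩ := x.2.2
  exact ⟨k, Subtype.ext hk⟩

include h in
lemma T_conj {n t : X} (hn : n ∈ N) : n * t * n⁻¹ ∈ Tor U N ↔ t ∈ Tor U N :=
  (Subgroup.mem_normalizer_iff.mp (h.nrm hn) t).symm

include h in
lemma T_smul' {n t : X} (hn : n ∈ N) (ht : t ∈ Tor U N) : t • n • U = n • U := by
  have := BW.T_smul ((h.T_conj (inv_mem hn)).mpr ht)
  rw [inv_inv, mul_smul, mul_smul, inv_smul_eq_iff] at this
  exact this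

lemma N_le : N ≤ Subgroup.normalizer (h.D : Set X) := by
  have key : ∀ n ∈ N, ∀ t ∈ h.D, n * t * n⁻¹ ∈ h.D := fun n hn t ⟨ht, k, hk⟩ =>
    ⟨(h.T_conj hn).mpr ht, k, by rw [conj_pow, hk, mul_one, mul_inv_cancel]⟩
  intro n hn
  rw [Subgroup.mem_normalizer_iff]
  refine fun t => ⟨key n hn t, fun ht => ?_⟩
  have := key _ (inv_mem hn) _ ht
  rwa [show n⁻¹ * (n * t * n⁻¹) * n⁻¹⁻¹ = t by group] at this

lemma sub_le (Q : Sylow p N) : h.D.subgroupOf N ≤ Q := by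
  have : (h.D.subgroupOf N).Normal := Subgroup.normal_subgroupOf_of_le_normalizer h.N_le
  exact IsPGroup.le_sylow_of_normal (N := h.D.subgroupOf N) h.D_p.comap_subtype Q

lemma le_syl {R : Sylow p X} (hR : (R : Subgroup X) ≤ N) : h.D ≤ R := fun x hx =>
  h.sub_le (R.subtype hR) (x := ⟨x, (h.D_le hx).1⟩) hx

variable [hp : Fact p.Prime] [Finite X]

lemma not_dvd : ¬ p ∣ h.D.relIndex (Tor U N) := by
  let Q : Sylow p (Tor U N) := default
  have : (Q : Subgroup (Tor U N)) ≤ h.D.subgroupOf (Tor U N) := fun x hx => by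
    obtain ⟨k, hk⟩ := Q.isPGroup' ⟨x, hx⟩
    exact ⟨x.2, k, congrArg (fun y => y.1.1) hk⟩
  exact fun hd => Q.not_dvd_index (hd.trans (Subgroup.index_dvd_of_le this))

lemma dvd_idx {u : X} (hu : u ∈ U) (h1 : u ≠ 1) :
    p ∣ (Subgroup.centralizer {u}).relIndex h.D := by
  have h3 := Subgroup.relIndex_mul_relIndex (Subgroup.centralizer {u} ⊓ h.D) h.D (Tor U N)
    inf_le_right h.D_le
  rw [Subgroup.inf_relIndex_right] at h3
  have h4 := (h.orb u hu h1).trans (Subgroup.relIndex_dvd_of_le_left (Tor U N)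
    (inf_le_left : Subgroup.centralizer {u} ⊓ h.D ≤ _))
  rw [← h3] at h4
  exact ((Nat.Prime.coprime_iff_not_dvd hp.out).mpr h.not_dvd).dvd_of_dvd_mul_right h4

lemma fixD {u : X} (hu : u ∈ U) (hc : ∀ e ∈ h.D, e * u = u * e) : u = 1 := by
  by_contra h1
  have := h.dvd_idx hu h1
  rw [Subgroup.relIndex_eq_one.2 fun e he =>
    Subgroup.mem_centralizer_singleton_iff.mpr (hc e he)] at this
  exact hp.out.one_lt.ne' (Nat.dvd_one.1 this)

omit hp [Finite X] in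
lemma stab_le {S : Subgroup X} (h1 : h.D ≤ S) (h2 : S ≤ N) (γ : MulAut X)
    (hγ : ∀ x, γ x ∈ S ↔ x ∈ S) {d : X} (hd : d ∈ h.D) : γ d ∈ h.D := by
  obtain ⟨k, hk⟩ := hd.2
  refine ⟨h.quad _ (h2 ((hγ d).2 (h1 hd))) fun e he hc => ?_, k, by rw [← map_pow, hk, map_one]⟩
  obtain ⟨e, rfl⟩ := γ.surjective e
  have k1 := (Subgroup.mem_normalizer_iff.1 (h.N_le (h2 ((hγ e).1 (h1 ⟨he, hc⟩)))) d).1 hd
  have k2 : Commute (e * d * e⁻¹ * d⁻¹) d :=
    h.ab _ (h.D_le (mul_mem k1 (inv_mem hd))) _ (h.D_le hd)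
  simpa only [map_mul, map_inv] using k2.map γ

variable [hr : Fact r.Prime]

lemma ex_n {E : Subgroup X} (hE : E ≤ h.D) (hc : ∀ u ∈ U, (∀ e ∈ E, e * u = u * e) → u = 1)
    {W : Sylow r X} (hW : ∀ e ∈ E, e • W = W) : ∃ n ∈ N, n • U = W := by
  obtain ⟨g, rfl⟩ := MulAction.exists_smul_eq X U W
  obtain ⟨u, hu, n, hn, v, hv, rfl⟩ := h.bru g
  refine ⟨n, hn, bn_fix h.ne U _ _ (h.D_p.to_le hE) (fun e he => BW.T_smul (h.D_le (hE he)))
    (fun e he => h.T_smul' hn (h.D_le (hE he))) hW hc hu ?_⟩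
  rw [mul_smul, mul_smul, Sylow.smul_eq_iff_mem_normalizer.mpr (Subgroup.le_normalizer hv)]

lemma eq_one {w : X} (hw : w ∈ U) (hn : w ∈ Subgroup.normalizer (h.D : Set X)) : w = 1 := by
  refine h.fixD hw fun d hd => ?_
  have h1 : w * d * w⁻¹ * d⁻¹ ∈ h.D :=
    mul_mem ((Subgroup.mem_normalizer_iff.mp hn d).mp hd) (inv_mem hd)
  have h2 : w * d * w⁻¹ * d⁻¹ ∈ (U : Subgroup X) := by
    rw [mul_assoc w, mul_assoc w]
    exact mul_mem hw ((Subgroup.mem_normalizer_iff.mp (h.D_le hd).2 _).mp (inv_mem hw))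
  have h3 := Subgroup.disjoint_def.mp
    (IsPGroup.disjoint_of_ne p r h.ne _ _ h.D_p U.isPGroup') h1 h2
  rw [mul_inv_eq_one, mul_inv_eq_iff_eq_mul] at h3
  exact h3.symm

end

variable {p r : ℕ} {X : Type} [Group X] [Finite X] [hp : Fact p.Prime] [hr : Fact r.Prime]
  {U : Sylow r X} {N : Subgroup X}

variable (h : BV p U N)

theorem norm_eq : Subgroup.normalizer (h.D : Set X) = N := by
  refine le_antisymm (fun x hx => ?_) h.N_le
  obtain ⟨n, hn, e⟩ := h.ex_n (W := x • U) le_rfl (fun u => h.fixD) fun d hd => by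
    have := BW.T_smul (h.D_le ((Subgroup.mem_normalizer_iff''.mp hx d).mp hd))
    rwa [mul_smul, mul_smul, inv_smul_eq_iff] at this
  obtain ⟨u, hu, n', hn', v, hv, e'⟩ := h.bru (n⁻¹ * x)
  have h1 : n' • U = U := by
    have h2 : (u * n' * v) • U = U := by rw [← e', mul_smul, ← e, inv_smul_smul]
    rw [mul_smul, mul_smul, Sylow.smul_eq_iff_mem_normalizer.mpr (Subgroup.le_normalizer hv),
      ← eq_inv_smul_iff] at h2
    rw [h2, Sylow.smul_eq_iff_mem_normalizer.mpr (Subgroup.le_normalizer (inv_mem hu))]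
  have h3 : n'⁻¹ * u * n' * v ∈ U := mul_mem ((Subgroup.mem_normalizer_iff''.mp
    (Sylow.smul_eq_iff_mem_normalizer.mp h1) u).mp hu) hv
  have h4 : n'⁻¹ * u * n' * v = n'⁻¹ * (n⁻¹ * x) := by rw [e']; group
  have h5 := h.eq_one h3 (h4 ▸ mul_mem (inv_mem (h.N_le hn')) (mul_mem (inv_mem (h.N_le hn)) hx))
  rw [h4, inv_mul_eq_one, eq_inv_mul_iff_mul_eq] at h5
  exact h5 ▸ mul_mem hn hn'

theorem stab {S : Subgroup X} (hS : IsPGroup p S) (h1 : h.D ≤ S) (h2 : S ≤ N) (γ : MulAut X)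
    (hγ : ∀ x, γ x ∈ S ↔ x ∈ S) (d : X) : γ d ∈ h.D ↔ d ∈ h.D :=
  ⟨fun hd => by
    simpa using h.stab_le h1 h2 γ⁻¹ (fun x => by rw [← hγ, MulAut.apply_inv_self]) hd,
    h.stab_le h1 h2 γ hγ⟩

theorem pg : Pg p 1 (U : Subgroup X) h.D := by
  refine ⟨hp.out, Nat.one_pos, fun k => ?_, h.D_p, fun x hx y hy => h.ab x hx.1 y hy.1,
    h.D_le.trans inf_le_right, by rw [h.norm_eq]; exact h.bru,
    fun u hu h1 => by rw [pow_one]; exact h.dvd_idx hu h1, fun δ _ => ?_⟩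
  · obtain ⟨j, hj⟩ := U.isPGroup'.exists_card_eq
    rw [hj] at k
    exact h.ne ((Nat.prime_dvd_prime_iff_eq hp.out hr.out).1 (hp.out.dvd_of_dvd_pow k))
  · obtain ⟨g, hg⟩ := MulAction.exists_smul_eq X U
      (U.mapSurjective (f := δ.toMonoidHom) δ.surjective)
    have e : (U : Subgroup X).map (MulAut.conj g).toMonoidHom = (U : Subgroup X).map δ.toMonoidHom :=
      congrArg Sylow.toSubgroup hg
    refine ⟨g, fun x => ⟨fun h => ?_, fun h => ?_⟩⟩
    · obtain ⟨y, hy, e1⟩ := e.le ⟨_, h, rfl⟩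
      have e2 : δ y = g * (g⁻¹ * δ x * g) * g⁻¹ := e1
      rwa [← δ.injective (e2.trans (by group) : δ y = δ x)]
    · obtain ⟨y, hy, e1⟩ := e.ge ⟨_, h, rfl⟩
      have e2 : g * y * g⁻¹ = δ x := e1
      rwa [← e2, show g⁻¹ * (g * y * g⁻¹) * g = y by group]

include h in
theorem dc {n n' u v : X} (hn : n ∈ N) (hn' : n' ∈ N) (hu : u ∈ U) (hv : v ∈ U)
    (e : u * n * v = n') : n = n' :=
  h.pg.dc (h.N_le hn) (h.N_le hn') hu hv e

include h in
/-- an element of `U T` that is conjugate to an element of `U` lies in `U`. -/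
theorem mem_U {v t g u : X} (hv : v ∈ U) (ht : t ∈ Tor U N) (hu : u ∈ U)
    (e : g * u * g⁻¹ = v * t) : t = 1 := by
  have k := (U.isPGroup'.map (MulAut.conj g).toMonoidHom).inf_normalizer_sylow U
  have k1 : v * t ∈ (U : Subgroup X) :=
    (k.le ⟨⟨u, hu, e⟩, mul_mem (Subgroup.le_normalizer hv) ht.2⟩).2
  exact h.eq_one ((mul_mem_cancel_left hv).1 k1) (h.N_le ht.1)

theorem cor {F : Type} [Field F] [CharZero F] {GG : Subgroup (RingAut F)}
    (Θ : N → MonoidAlgebra F X) (h1 : ∀ x y, Θ (x * y) = Θ x * Θ y)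
    (h2 : ∀ t : N, (t : X) ∈ Tor U N → Θ t = gu F X t * av F U)
    (h3 : ∀ m ∈ N, an F U m ∈ Submodule.span F (Set.range Θ))
    (h4 : ∀ σ ∈ GG, ∀ γ : RingAut (MonoidAlgebra F X), SL F σ γ → ∀ δ : MulAut X,
      (∀ x, γ (gu F X x) = gu F X (δ x)) → (∀ x, δ x ∈ U ↔ x ∈ U) → (∀ x, δ x ∈ N ↔ x ∈ N) →
      ∀ x y : N, (y : X) = δ x → γ (Θ x) = Θ y) :
    ∃ Θ', Cor (Ga GG h.D) N (av F U) Θ' :=
  g1_cor h.pg h.norm_eq Θ h1 (fun t ht => h2 t ⟨t.2, ht⟩) h3 h4

include h in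
lemma ne_top (hU : (U : Subgroup X) ≠ ⊥) : N ≠ ⊤ := fun e => hU <| by
  rw [eq_bot_iff]
  exact fun u hu => h.eq_one hu (h.N_le (e ▸ Subgroup.mem_top u))

include h in
lemma ex_syl : ∃ R : Sylow p X, (R : Subgroup X) ≤ N := by
  let Q : Sylow p N := default
  let S : Subgroup X := (Q : Subgroup N).map N.subtype
  have hS : IsPGroup p S := Q.isPGroup'.map _
  have h2 : S ≤ N := Subgroup.map_subtype_le _
  have h1 : h.D ≤ S := fun x hx => ⟨⟨x, (h.D_le hx).1⟩, h.sub_le Q hx, rfl⟩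
  have h3 : Subgroup.normalizer (S : Set X) ≤ N := fun x hx => by
    rw [← h.norm_eq, Subgroup.mem_normalizer_iff]
    exact fun d => (h.stab hS h1 h2 (MulAut.conj x)
      (fun y => (Subgroup.mem_normalizer_iff.mp hx y).symm) d).symm
  have hc : Nat.card S = p ^ (Nat.card N).factorization p := by
    rw [Subgroup.card_map_of_injective N.subtype_injective, Q.card_eq_multiplicity]
  refine ⟨hS.toSylow fun hd => ?_, h2⟩
  have h4 : p ^ ((Nat.card N).factorization p + 1) ∣ Nat.card X := by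
    rw [← S.card_mul_index, hc, pow_succ]
    exact Nat.mul_dvd_mul_left _ hd
  exact Nat.pow_succ_factorization_not_dvd Nat.card_pos.ne' hp.out
    ((Sylow.prime_pow_dvd_card_normalizer h4 hc).trans (Subgroup.card_dvd_of_le h3))

theorem ind (hU : (U : Subgroup X) ≠ ⊥)
    (hC : ∀ (F k : Type) [Field F] [Field k] (O R : Subring F) (ρ : F → k)
      (GG : Subgroup (RingAut F)), PM p O R ρ GG → ∃ Θ, Cor (Ga GG h.D) N (av F U) Θ) :
    (∃ R : Sylow p X, (R : Subgroup X) ≤ N) ∧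
      ∀ R : Sylow p X, (R : Subgroup X) ≤ N → NSV.IndN p X R N := by
  refine ⟨h.ex_syl, fun R hR => ?_⟩
  obtain ⟨F, k, _, _, O, R', r', GG, j, hP, h1, h2⟩ := exists_sys' p hp.out
  have := hP.charF
  have := hP.algF
  obtain ⟨Θ, hΘ⟩ := hC F k O R' r' GG hP
  have := ind_of_lk hp.out j h1 h2 (h.le_syl hR) (h.stab R.isPGroup' (h.le_syl hR) hR)
    (by rw [h.norm_eq]; exact h.ne_top hU) (g1_lk h.pg (Θ := Θ) (by rw [h.norm_eq]; exact hΘ))
  rwa [h.norm_eq] at this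

end BV

end Pool.Agent.Lib.MP_1ae3da_al.JM
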