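import Pool.Agent.Lib.MP_1ae3da_al.J.G1

/-! From the Tits axiom to products of double cosets of `U`. -/

namespace Pool.Agent.Lib.MP_1ae3da_al.JM

open SLI CT CT.Z

variable {p r k : ℕ} {X : Type} [Group X] [Finite X] [hp : Fact p.Prime] [hr : Fact r.Prime]
  {U : Sylow r X} {N : Subgroup X} {n : ℕ → X}

/-- `x` lies in the double coset `U m U`. -/
def DC (U : Subgroup X) (x m : X) : Prop := ∃ v ∈ U, ∃ w ∈ U, x = v * m * w

section dc
omit [Finite X] hp hr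

theorem T_cj {t u : X} (ht : t ∈ Tor U N) (hu : u ∈ U) : t * u * t⁻¹ ∈ (U : Subgroup X) :=
  (Subgroup.mem_normalizer_iff.mp ht.2 u).mp hu

theorem T_cj' {t u : X} (ht : t ∈ Tor U N) (hu : u ∈ U) : t⁻¹ * u * t ∈ (U : Subgroup X) := by
  simpa using T_cj (inv_mem ht) hu

theorem DC.left {V : Subgroup X} {x m u : X} (h : DC V x m) (hu : u ∈ V) : DC V (u * x) m := by
  obtain ⟨v, hv, w, hw, rfl⟩ := h
  exact ⟨u * v, mul_mem hu hv, w, hw, by group⟩

theorem DC.right {V : Subgroup X} {x m u : X} (h : DC V x m) (hu : u ∈ V) : DC V (x * u) m := by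
  obtain ⟨v, hv, w, hw, rfl⟩ := h
  exact ⟨v, hv, w * u, mul_mem hw hu, by group⟩

theorem DC.inv {V : Subgroup X} {x m : X} (h : DC V x m) : DC V x⁻¹ m⁻¹ := by
  obtain ⟨v, hv, w, hw, rfl⟩ := h
  exact ⟨w⁻¹, inv_mem hw, v⁻¹, inv_mem hv, by group⟩

theorem DC.tl {x m t : X} (h : DC (U : Subgroup X) x m) (ht : t ∈ Tor U N) :
    DC (U : Subgroup X) (t * x) (t * m) := by
  obtain ⟨v, hv, w, hw, rfl⟩ := h
  exact ⟨_, T_cj ht hv, w, hw, by group⟩

theorem DC.tr {x m t : X} (h : DC (U : Subgroup X) x m) (ht : t ∈ Tor U N) :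
    DC (U : Subgroup X) (x * t) (m * t) := by
  obtain ⟨v, hv, w, hw, rfl⟩ := h
  exact ⟨v, hv, _, T_cj' ht hw, by group⟩

theorem BV.cj' (h : BV p U N) {m t : X} (hm : m ∈ N) (ht : t ∈ Tor U N) :
    m⁻¹ * t * m ∈ Tor U N := by
  simpa using (h.T_conj (inv_mem hm)).mpr ht

theorem aa_mulT {g m t : X} (h : AA (U : Subgroup X) g m) (ht : t ∈ Tor U N) :
    AA (U : Subgroup X) g (m * t) := fun u hu => by
  have := DC.tr (h u hu) ht
  rwa [mul_assoc (g * u), mul_assoc g m] at this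

theorem map_T (δ : MulAut X) (hU : ∀ x, δ x ∈ U ↔ x ∈ U) (hN : ∀ x, δ x ∈ N ↔ x ∈ N) (t : X) :
    δ t ∈ Tor U N ↔ t ∈ Tor U N := by
  refine and_congr (hN t) ?_
  show δ t ∈ Subgroup.normalizer ((U : Subgroup X) : Set X) ↔
    t ∈ Subgroup.normalizer ((U : Subgroup X) : Set X)
  rw [Subgroup.mem_normalizer_iff, Subgroup.mem_normalizer_iff]
  refine ⟨fun h x => ?_, fun h x => ?_⟩
  · have := h (δ x)
    rw [← map_inv, ← map_mul, ← map_mul] at this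
    exact (hU x).symm.trans (this.trans (hU _))
  · obtain ⟨y, rfl⟩ := δ.surjective x
    rw [← map_inv, ← map_mul, ← map_mul]
    exact (hU y).trans ((h y).trans (hU _).symm)

end dc

omit hp hr in
theorem ex_out {g : X} (hg : g ∈ N) (h1 : g ∉ Tor U N) :
    ∃ u ∈ U, g * u * g⁻¹ ∉ (U : Subgroup X) := by
  by_contra hc
  refine h1 ⟨hg, Subgroup.mem_normalizer_fintype fun u hu => ?_⟩
  by_contra h
  exact hc ⟨u, hu, h⟩

theorem BV.uq (h : BV p U N) {x m m' : X} (hm : m ∈ N) (hm' : m' ∈ N)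
    (h1 : DC (U : Subgroup X) x m) (h2 : DC (U : Subgroup X) x m') : m = m' := by
  obtain ⟨v, hv, w, hw, rfl⟩ := h1
  obtain ⟨v', hv', w', hw', e⟩ := h2
  refine h.dc hm hm' (u := v'⁻¹ * v) (v := w * w'⁻¹) (mul_mem (inv_mem hv') hv)
    (mul_mem hw (inv_mem hw')) ?_
  calc _ = v'⁻¹ * (v * m * w) * w'⁻¹ := by group
    _ = m' := by rw [e]; group

theorem aa_an {F : Type} [Field F] [CharZero F] {V : Subgroup X} {g m : X} (h : AA V g m) :
    an F V g * an F V m = an F V (g * m) := by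
  have _ := Fintype.ofFinite V
  have e : ∀ u : V, an F V (g * u * m) = an F V (g * m) := fun u => by
    obtain ⟨v, hv, w, hw, e⟩ := h u u.2
    rw [e, an_dc hv hw]
  have h0 : (Nat.card V : F) ≠ 0 := Nat.cast_ne_zero.2 Nat.card_pos.ne'
  rw [an_mul, finsum_eq_sum_of_fintype]
  simp only [e]
  rw [Finset.sum_const, Finset.card_univ, ← Nat.card_eq_fintype_card, ← Nat.cast_smul_eq_nsmul F,
    smul_smul, inv_mul_cancel₀ h0, one_smul]

theorem aa_T {g t : X} (ht : t ∈ Tor U N) : AA (U : Subgroup X) g t := fun u hu =>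
  ⟨1, one_mem _, _, T_cj' ht hu, by group⟩

theorem TS.atom (h : BV p U N) (t : TS k U N n) {i : ℕ} (hi : i < k) :
    Atom (U : Subgroup X) (Tor U N) (n i) := fun u hu => by
  obtain ⟨v, hv, s, hs, w, hw, e | e⟩ := t.tits i hi _ (inv_mem (t.mem i hi)) u hu
  · left
    have e1 : n i * u * (n i)⁻¹ = v * (s * w * s⁻¹) * s := by rw [e]; group
    have e2 := h.mem_U (mul_mem hv (T_cj hs hw)) hs hu e1
    rw [e1, e2, mul_one]
    exact mul_mem hv (by rw [one_mul, inv_one, mul_one]; exact hw)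
  · exact Or.inr ⟨s * (n i * n i)⁻¹, mul_mem hs (inv_mem (t.sq i hi)), v, hv, w, hw,
      by rw [e]; group⟩

theorem TS.split (h : BV p U N) (t : TS k U N n) {i : ℕ} (hi : i < k) {m : X} (hm : m ∈ N)
    (h1 : ∀ u ∈ U, ∃ v ∈ U, ∃ s ∈ Tor U N, ∃ w ∈ U, n i * u * m = v * (s * (n i * m)) * w)
    {u v s w : X} (hu : u ∈ U) (hv : v ∈ U) (hs : s ∈ Tor U N) (hw : w ∈ U)
    (e : n i * u * m = v * (s * (n i * m)) * w) :
    (n i)⁻¹ * (s⁻¹ * v⁻¹ * s) * n i ∈ (U : Subgroup X) := by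
  have hn := t.mem i hi
  have hq := t.sq i hi
  rcases t.atom h hi _ (T_cj' hs (inv_mem hv)) with k1 | ⟨t1, ht1, v1, hv1, w1, hw1, k1⟩
  · have := T_cj' hq k1
    rwa [show (n i * n i)⁻¹ * (n i * (s⁻¹ * v⁻¹ * s) * (n i)⁻¹) * (n i * n i) =
      (n i)⁻¹ * (s⁻¹ * v⁻¹ * s) * n i by group] at this
  · exfalso
    have hs' : n i * n i * ((n i)⁻¹ * s⁻¹ * n i) ∈ Tor U N := mul_mem hq (h.cj' hn (inv_mem hs))
    set z := n i * n i * ((n i)⁻¹ * s⁻¹ * n i) with hz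
    have hz' : n i * z * (n i)⁻¹ ∈ Tor U N := (h.T_conj hn).mpr hs'
    obtain ⟨v2, hv2, s2, hs2, w2, hw2, e2⟩ :=
      h1 (z⁻¹ * w1 * z * u) (mul_mem (T_cj' hs' hw1) hu)
    have d1 : DC (U : Subgroup X) (n i * (z⁻¹ * w1 * z * u) * m) (s2 * (n i * m)) :=
      ⟨v2, hv2, w2, hw2, e2⟩
    have d2 := (((d1.tl hz').tl ht1).left hv1).tl (inv_mem hq)
    have e3 : (n i * n i)⁻¹ * (v1 * (t1 * (n i * z * (n i)⁻¹ *
        (n i * (z⁻¹ * w1 * z * u) * m)))) = m * w := by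
      calc _ = (n i * n i)⁻¹ * (v1 * (t1 * n i) * w1) * z * u * m := by group
        _ = (v * s * n i)⁻¹ * (n i * u * m) := by rw [← k1, hz]; group
        _ = m * w := by rw [e]; group
    rw [e3] at d2
    have hT : (n i * n i)⁻¹ * (t1 * (n i * z * (n i)⁻¹ * s2)) ∈ Tor U N :=
      mul_mem (inv_mem hq) (mul_mem ht1 (mul_mem hz' hs2))
    have e4 := h.uq hm (mul_mem (inv_mem hq.1) (mul_mem ht1.1 (mul_mem hz'.1
      (mul_mem hs2.1 (mul_mem hn hm))))) ⟨1, one_mem _, w, hw, by rw [one_mul]⟩ d2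
    refine t.nt i hi ?_
    have e5 : n i = ((n i * n i)⁻¹ * (t1 * (n i * z * (n i)⁻¹ * s2)))⁻¹ := by
      refine eq_inv_of_mul_eq_one_right (mul_right_cancel (b := m) ?_)
      rw [one_mul]
      conv_rhs => rw [e4]
      simp only [mul_assoc]
    rw [e5]; exact inv_mem hT

theorem TS.aa_of (h : BV p U N) (t : TS k U N n) {i : ℕ} (hi : i < k) {m : X} (hm : m ∈ N)
    (h1 : ∀ u ∈ U, ∃ v ∈ U, ∃ s ∈ Tor U N, ∃ w ∈ U, n i * u * m = v * (s * (n i * m)) * w) :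
    AA (U : Subgroup X) (n i) m := fun u hu => by
  obtain ⟨v, hv, s, hs, w, hw, e⟩ := h1 u hu
  have k1 := t.split h hi hm h1 hu hv hs hw e
  have hs' : (n i)⁻¹ * s⁻¹ * n i ∈ Tor U N := h.cj' (t.mem i hi) (inv_mem hs)
  have e1 : m * w * m⁻¹ = ((n i)⁻¹ * (s⁻¹ * v⁻¹ * s) * n i) *
      (((n i)⁻¹ * s⁻¹ * n i) * u * ((n i)⁻¹ * s⁻¹ * n i)⁻¹) * ((n i)⁻¹ * s⁻¹ * n i) := by
    calc m * w * m⁻¹ = (v * s * n i)⁻¹ * (v * (s * (n i * m)) * w) * m⁻¹ := by group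
      _ = _ := by rw [← e]; group
  have e2 := h.mem_U (mul_mem k1 (T_cj hs' hu)) hs' hw e1
  have e3 : s = 1 := by
    have : s = n i * ((n i)⁻¹ * s⁻¹ * n i)⁻¹ * (n i)⁻¹ := by group
    rw [this, e2]; group
  exact ⟨v, hv, w, hw, by rw [e, e3, one_mul]⟩

omit [Finite X] hp hr in
theorem TS.tits_r (h : BV p U N) (t : TS k U N n) {j : ℕ} (hj : j < k) {m u : X} (hm : m ∈ N)
    (hu : u ∈ U) : ∃ z ∈ Tor U N, DC (U : Subgroup X) (m * u * n j) (m * n j * z) ∨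
      DC (U : Subgroup X) (m * u * n j) (m * z) := by
  have hq := t.sq j hj
  obtain ⟨v, hv, s, hs, w, hw, e | e⟩ := t.tits j hj _ (inv_mem hm) u⁻¹ (inv_mem hu)
  · refine ⟨(n j * n j)⁻¹ * s⁻¹ * (n j * n j), h.cj' hq.1 (inv_mem hs), Or.inl ?_⟩
    have := (DC.inv ⟨v, hv, w, hw, e⟩).tr hq
    convert this using 1 <;> group
  · refine ⟨s⁻¹ * (n j * n j), mul_mem (inv_mem hs) hq, Or.inr ?_⟩
    have := (DC.inv ⟨v, hv, w, hw, e⟩).tr hq
    convert this using 1 <;> group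

theorem TS.aa_step (h : BV p U N) (t : TS k U N n) {i j : ℕ} (hi : i < k) (hj : j < k) {m : X}
    (hm : m ∈ N) (h1 : AA (U : Subgroup X) (n i) m)
    (h2 : (n i * m)⁻¹ * (m * n j) ∉ Tor U N) : AA (U : Subgroup X) (n i) (m * n j) := by
  have hn := t.mem i hi
  have hn' := t.mem j hj
  refine t.aa_of h hi (mul_mem hm hn') fun u hu => ?_
  obtain ⟨v, hv, s, hs, w, hw, e | e⟩ := t.tits i hi _ (mul_mem hm hn') u hu
  · exact ⟨v, hv, s, hs, w, hw, e⟩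
  exfalso
  obtain ⟨v1, hv1, w1, hw1, e1⟩ := h1 u hu
  have d0 : DC (U : Subgroup X) (v1 * (n i * m * w1 * n j)) (s * (m * n j)) :=
    ⟨v, hv, w, hw, by rw [← e, ← mul_assoc (n i * u), e1]; group⟩
  have hN := mul_mem hs.1 (mul_mem hm hn')
  obtain ⟨z, hz, d | d⟩ := t.tits_r h hj (mul_mem hn hm) hw1
  · have e2 := h.uq hN (mul_mem (mul_mem (mul_mem hn hm) hn') hz.1) d0 (d.left hv1)
    refine t.nt i hi ?_
    have e3 : n i = s * (m * n j * z⁻¹ * (m * n j)⁻¹) := by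
      calc n i = n i * m * n j * z * (z⁻¹ * (m * n j)⁻¹) := by group
        _ = _ := by rw [← e2]; group
    rw [e3]
    exact mul_mem hs ((h.T_conj (mul_mem hm hn')).mpr (inv_mem hz))
  · have e2 := h.uq hN (mul_mem (mul_mem hn hm) hz.1) d0 (d.left hv1)
    refine h2 ?_
    have e3 : (n i * m)⁻¹ * (m * n j) = (n i * m)⁻¹ * s⁻¹ * (n i * m) * z := by
      calc _ = (n i * m)⁻¹ * s⁻¹ * (s * (m * n j)) := by group
        _ = _ := by rw [e2]; group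
    rw [e3]
    exact mul_mem (h.cj' (mul_mem hn hm) (inv_mem hs)) hz

omit [Finite X] hp hr in
theorem TS.word_mem (t : TS k U N n) (L : List ℕ) (hL : ∀ i ∈ L, i < k) : (L.map n).prod ∈ N :=
  list_prod_mem fun x hx => by
    obtain ⟨i, hi, rfl⟩ := List.mem_map.1 hx
    exact t.mem i (hL i hi)

omit [Finite X] hp hr in
theorem TS.word_rev (h : BV p U N) (t : TS k U N n) (L : List ℕ) (hL : ∀ i ∈ L, i < k) :
    (L.map n).prod * (L.reverse.map n).prod ∈ Tor U N := by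
  induction L with
  | nil => simp
  | cons i L ih =>
    have hi := hL i List.mem_cons_self
    have := mul_mem ((h.T_conj (t.mem i hi)).mpr (ih fun j hj => hL j (List.mem_cons_of_mem _ hj)))
      (t.sq i hi)
    simp only [List.reverse_cons, List.map_append, List.prod_append, List.map_cons, List.prod_cons,
      List.map_nil, List.prod_nil, mul_one]
    convert this using 1
    group

omit [Finite X] hp hr in
theorem TS.ex_word (h : BV p U N) (t : TS k U N n) {m : X} (hm : m ∈ N) :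
    m ∈ N ∧ ∃ L : List ℕ, (∀ i ∈ L, i < k) ∧ (L.map n).prod⁻¹ * m ∈ Tor U N := by
  refine Subgroup.closure_induction (p := fun m _ => m ∈ N ∧ ∃ L : List ℕ, (∀ i ∈ L, i < k) ∧
    (L.map n).prod⁻¹ * m ∈ Tor U N) ?_ ?_ ?_ ?_ (t.gen hm)
  · rintro x (hx | ⟨i, hi, rfl⟩)
    · exact ⟨hx.1, [], by simp, by simpa using hx⟩
    · exact ⟨t.mem i hi, [i], by simpa using hi, by simp⟩
  · exact ⟨one_mem _, [], by simp, by simp⟩
  · rintro x y - - ⟨hx, L, hL, e⟩ ⟨hy, L', hL', e'⟩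
    refine ⟨mul_mem hx hy, L ++ L', fun i hi => (List.mem_append.1 hi).elim (hL i) (hL' i), ?_⟩
    have := mul_mem (h.cj' (t.word_mem L' hL') e) e'
    rw [List.map_append, List.prod_append]
    convert this using 1
    group
  · rintro x - ⟨hx, L, hL, e⟩
    have hR : ∀ i ∈ L.reverse, i < k := fun i hi => hL i (List.mem_reverse.1 hi)
    refine ⟨inv_mem hx, L.reverse, hR, ?_⟩
    have := mul_mem (h.cj' (t.word_mem _ hR) (inv_mem e)) (inv_mem (t.word_rev h L hL))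
    convert this using 1
    group

theorem TS.aa_word (h : BV p U N) (t : TS k U N n) {i : ℕ} (hi : i < k) (L : List ℕ)
    (hL : ∀ j ∈ L, j < k) (hs : ¬∃ L' : List ℕ, L'.length ≤ L.length ∧ (∀ j ∈ L', j < k) ∧
      (L'.map n).prod⁻¹ * (n i * (L.map n).prod) ∈ Tor U N) :
    AA (U : Subgroup X) (n i) (L.map n).prod := by
  induction L using List.reverseRecOn with
  | nil => exact aa_T (N := N) (one_mem _)
  | append_singleton L j ih =>
    have hj : j < k := hL j (by simp)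
    have hL0 : ∀ a ∈ L, a < k := fun a ha => hL a (by simp [ha])
    have ha := t.word_mem L hL0
    have e0 : ∀ M : List ℕ, ((M ++ [j]).map n).prod = (M.map n).prod * n j := fun M => by simp
    rw [e0] at hs ⊢
    refine t.aa_step h hi hj ha (ih hL0 ?_) fun e => hs ⟨L, by simp, hL0, ?_⟩
    · rintro ⟨L', a1, a2, a3⟩
      refine hs ⟨L' ++ [j], by simpa using a1, fun a ha => ?_, ?_⟩
      · rcases List.mem_append.1 ha with ha | ha
        · exact a2 a ha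
        · rwa [List.mem_singleton.1 ha]
      · have := h.cj' (t.mem j hj) a3
        rw [e0]
        convert this using 1
        group
    · have := mul_mem (h.cj' ha (t.sq i hi)) e
      convert this using 1
      group

theorem TS.red (h : BV p U N) (t : TS k U N n) (P : X → Prop) (h0 : ∀ s ∈ Tor U N, P s)
    (h1 : ∀ i, i < k → ∀ m ∈ N, AA (U : Subgroup X) (n i) m → P m → P (n i * m)) :
    ∀ m ∈ N, P m := by
  have key : ∀ l : ℕ, ∀ L : List ℕ, L.length = l → (∀ i ∈ L, i < k) → ∀ m ∈ N,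
      (L.map n).prod⁻¹ * m ∈ Tor U N → P m := by
    intro l
    induction l using Nat.strong_induction_on with
    | _ l ih =>
      intro L hl hL m hm e
      cases L with
      | nil => exact h0 m (by simpa using e)
      | cons i L =>
        have hi := hL i List.mem_cons_self
        have hL1 : ∀ j ∈ L, j < k := fun j hj => hL j (List.mem_cons_of_mem _ hj)
        rw [List.map_cons, List.prod_cons] at e
        rw [List.length_cons] at hl
        by_cases hs : ∃ L' : List ℕ, L'.length ≤ L.length ∧ (∀ j ∈ L', j < k) ∧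
            (L'.map n).prod⁻¹ * (n i * (L.map n).prod) ∈ Tor U N
        · obtain ⟨L', a1, a2, a3⟩ := hs
          refine ih L'.length (by omega) L' rfl a2 m hm ?_
          have := mul_mem a3 e
          rwa [mul_assoc, mul_inv_cancel_left] at this
        · have a1 := aa_mulT (t.aa_word h hi L hL1 hs) e
          have e1 : (L.map n).prod * ((n i * (L.map n).prod)⁻¹ * m) = (n i)⁻¹ * m := by group
          rw [e1] at a1
          have hm' := mul_mem (inv_mem (t.mem i hi)) hm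
          have a2 := h1 i hi _ hm' a1 (ih L.length (by omega) L rfl hL1 _ hm'
            (by rwa [mul_inv_rev, mul_assoc] at e))
          rwa [mul_inv_cancel_left] at a2
  intro m hm
  obtain ⟨-, L, hL, e⟩ := t.ex_word h hm
  exact key _ L rfl hL m hm e

theorem TS.of_atom (h : BV p U N) (t : TS k U N n) {g : X} (hg : g ∈ N) (h1 : g ∉ Tor U N)
    (h2 : Atom (U : Subgroup X) (Tor U N) g) : ∃ i, i < k ∧ g * (n i)⁻¹ ∈ Tor U N := by
  have key := t.red h (fun m => m ∈ Tor U N ∨ ∃ i, i < k ∧ ∃ m' ∈ N,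
    AA (U : Subgroup X) (n i) m' ∧ m = n i * m') (fun s hs => Or.inl hs)
    (fun i hi m hm a _ => Or.inr ⟨i, hi, m, hm, a, rfl⟩) g hg
  obtain ⟨i, hi, m, hm, a, rfl⟩ := key.resolve_left h1
  have hn := t.mem i hi
  obtain ⟨u, hu, hu'⟩ := ex_out hn (t.nt i hi)
  obtain ⟨v, hv, w, hw, e⟩ := a u hu
  have k1 := t.split h hi hm (fun u hu => by
    obtain ⟨v, hv, w, hw, e⟩ := a u hu
    exact ⟨v, hv, 1, one_mem _, w, hw, by rw [e, one_mul]⟩) hu hv (one_mem _) hw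
    (by rw [e, one_mul])
  have e1 : m * w * m⁻¹ = (n i)⁻¹ * (1⁻¹ * v⁻¹ * 1) * n i * u := by
    calc _ = (v * n i)⁻¹ * (v * (n i * m) * w) * m⁻¹ := by group
      _ = _ := by rw [← e]; group
  have hb : m * w * m⁻¹ ∈ (U : Subgroup X) := e1 ▸ mul_mem k1 hu
  have e2 : n i * (m * w * m⁻¹) * (n i)⁻¹ = v⁻¹ * (n i * u * (n i)⁻¹) := by rw [e1]; group
  have k2 : n i * (m * w * m⁻¹) * (n i)⁻¹ ∉ (U : Subgroup X) := fun hc =>
    hu' ((mul_mem_cancel_left (inv_mem hv)).1 (e2 ▸ hc))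
  have e3 : n i * m * w * (n i * m)⁻¹ = n i * (m * w * m⁻¹) * (n i)⁻¹ := by group
  obtain ⟨t1, ht1, d1⟩ := (t.atom h hi _ hb).resolve_left k2
  obtain ⟨t2, ht2, d2⟩ := (h2 w hw).resolve_left (e3 ▸ k2)
  rw [e3] at d2
  have e4 := h.uq (mul_mem ht1.1 hn) (mul_mem ht2.1 hg) d1 d2
  refine ⟨i, hi, ?_⟩
  have e5 : n i * m * (n i)⁻¹ = t2⁻¹ * t1 := by
    calc _ = t2⁻¹ * (t2 * (n i * m)) * (n i)⁻¹ := by group
      _ = _ := by rw [← e4]; group
  rw [e5]; exact mul_mem (inv_mem ht2) ht1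

theorem TS.perm (h : BV p U N) (t : TS k U N n) (δ : MulAut X) (hU : ∀ x, δ x ∈ U ↔ x ∈ U)
    (hN : ∀ x, δ x ∈ N ↔ x ∈ N) {i : ℕ} (hi : i < k) :
    ∃ j, j < k ∧ δ (n i) * (n j)⁻¹ ∈ Tor U N := by
  refine t.of_atom h ((hN _).2 (t.mem i hi)) (fun e => t.nt i hi ((map_T δ hU hN _).1 e))
    fun u hu => ?_
  obtain ⟨y, rfl⟩ := δ.surjective u
  rw [← map_inv, ← map_mul, ← map_mul]
  rcases t.atom h hi y ((hU y).1 hu) with k1 | ⟨s, hs, v, hv, w, hw, e⟩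
  · exact Or.inl ((hU _).2 k1)
  · exact Or.inr ⟨δ s, (map_T δ hU hN _).2 hs, δ v, (hU _).2 hv, δ w, (hU _).2 hw,
      by rw [e]; simp only [map_mul]⟩

theorem conj_of (h : BV p U N) (δ : MulAut X) (hU : ∀ x, δ x ∈ U ↔ x ∈ U)
    (hN : ∀ x, δ x ∈ N ↔ x ∈ N) {g : X} (hg : g ∈ N) (h1 : g ∉ Tor U N)
    (h2 : ∀ u ∈ U, g * u * g⁻¹ ∈ U ∨
      ∃ s ∈ Tor U N, ∃ v ∈ U, ∃ w ∈ U, g * u * g⁻¹ = v * (s * g * s⁻¹) * w)
    (h3 : δ g * g⁻¹ ∈ Tor U N) : ∃ c ∈ Tor U N, δ g = c * g * c⁻¹ := by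
  obtain ⟨u, hu, hu'⟩ := ex_out hg h1
  obtain ⟨s, hs, v, hv, w, hw, e⟩ := (h2 u hu).resolve_left hu'
  have e0 : δ (g * u * g⁻¹) = δ g * g⁻¹ * (g * δ u * g⁻¹) * (δ g * g⁻¹)⁻¹ := by
    simp only [map_mul, map_inv]; group
  have k1 : g * δ u * g⁻¹ ∉ (U : Subgroup X) := fun hc => hu' ((hU _).1 (e0 ▸ T_cj h3 hc))
  obtain ⟨s', hs', d⟩ := (h2 _ ((hU u).2 hu)).resolve_left k1
  have d1 := (DC.tl d h3).tr (inv_mem h3)
  have hδ := (map_T δ hU hN s).2 hs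
  have d2 : DC (U : Subgroup X) (δ (g * u * g⁻¹)) (δ s * δ g * (δ s)⁻¹) :=
    ⟨δ v, (hU _).2 hv, δ w, (hU _).2 hw, by rw [e]; simp only [map_mul, map_inv]⟩
  rw [e0] at d2
  have e1 := h.uq (mul_mem (mul_mem hδ.1 ((hN g).2 hg)) (inv_mem hδ.1))
    (mul_mem (mul_mem h3.1 (mul_mem (mul_mem hs'.1 hg) (inv_mem hs'.1))) (inv_mem h3.1)) d2 d1
  refine ⟨(δ s)⁻¹ * (δ g * g⁻¹) * s', mul_mem (mul_mem (inv_mem hδ) h3) hs', ?_⟩
  generalize δ g * g⁻¹ = z at e1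
  calc δ g = (δ s)⁻¹ * (δ s * δ g * (δ s)⁻¹) * δ s := by group
    _ = _ := by rw [e1]; group

theorem inv_conj (h : BV p U N) {g : X} (hg : g ∈ N) (h1 : g ∉ Tor U N)
    (h2 : ∀ u ∈ U, g * u * g⁻¹ ∈ U ∨
      ∃ s ∈ Tor U N, ∃ v ∈ U, ∃ w ∈ U, g * u * g⁻¹ = v * (s * g * s⁻¹) * w) :
    ∃ c ∈ Tor U N, g⁻¹ = c * g * c⁻¹ := by
  obtain ⟨u, hu, hu'⟩ := ex_out hg h1
  obtain ⟨s, hs, d⟩ := (h2 u hu).resolve_left hu'
  have e0 : g * u⁻¹ * g⁻¹ = (g * u * g⁻¹)⁻¹ := by group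
  obtain ⟨s', hs', d'⟩ := (h2 _ (inv_mem hu)).resolve_left fun hc =>
    hu' (inv_mem_iff.1 (e0 ▸ hc))
  rw [e0] at d'
  have e1 := h.uq (inv_mem (mul_mem (mul_mem hs.1 hg) (inv_mem hs.1)))
    (mul_mem (mul_mem hs'.1 hg) (inv_mem hs'.1)) (DC.inv d) d'
  refine ⟨s⁻¹ * s', mul_mem (inv_mem hs) hs', ?_⟩
  calc g⁻¹ = s⁻¹ * (s * g * s⁻¹)⁻¹ * s := by group
    _ = _ := by rw [e1]; group

end Pool.Agent.Lib.MP_1ae3da_al.JM
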