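import Pool.Agent.Lib.MP_1ae3da_al.J.G3

/-! The Weyl group of type `B`: signed permutations and the rigidity of the diagram. -/

namespace Pool.Agent.Lib.MP_1ae3da_al.JM

/-- the generators of the group of signed permutations. -/
def gbS (i : ℕ) : Function.End ℤ := fun x =>
  if i = 0 then (if x = 1 then -1 else if x = -1 then 1 else x)
  else if x = i then i + 1 else if x = i + 1 then i else if x = -i then -i - 1
  else if x = -i - 1 then -i else x

theorem gbS_zero (x : ℤ) : (x = 1 ∧ gbS 0 x = -1) ∨ (x = -1 ∧ gbS 0 x = 1) ∨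
    (x ≠ 1 ∧ x ≠ -1 ∧ gbS 0 x = x) := by
  unfold gbS
  rw [if_pos rfl]
  split_ifs <;> omega

theorem gbS_pos {i : ℕ} (hi : 0 < i) (x : ℤ) : (x = i ∧ gbS i x = i + 1) ∨
    (x = i + 1 ∧ gbS i x = i) ∨ (x = -i ∧ gbS i x = -i - 1) ∨ (x = -i - 1 ∧ gbS i x = -i) ∨
    (x ≠ i ∧ x ≠ i + 1 ∧ x ≠ -i ∧ x ≠ -i - 1 ∧ gbS i x = x) := by
  unfold gbS
  rw [if_neg hi.ne']
  split_ifs <;> omega

theorem gbS_sq (i : ℕ) : gbS i * gbS i = 1 := by
  funext x
  change gbS i (gbS i x) = x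
  rcases Nat.eq_zero_or_pos i with rfl | hi
  · have a := gbS_zero x
    have b := gbS_zero (gbS 0 x)
    omega
  · have a := gbS_pos hi x
    have b := gbS_pos hi (gbS i x)
    omega

theorem gbS_br (k : ℕ) : Br k gbS := by
  refine ⟨fun i j h _ => ?_, fun i hi _ => ?_, fun _ => ?_⟩
  · funext x
    change gbS i (gbS j x) = gbS j (gbS i x)
    have hj : 0 < j := by omega
    have a := gbS_pos hj x
    have b := gbS_pos hj (gbS i x)
    rcases Nat.eq_zero_or_pos i with rfl | hi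
    · have c := gbS_zero x
      have d := gbS_zero (gbS j x)
      omega
    · have c := gbS_pos hi x
      have d := gbS_pos hi (gbS j x)
      omega
  · funext x
    change gbS i (gbS (i + 1) (gbS i x)) = gbS (i + 1) (gbS i (gbS (i + 1) x))
    have hj : 0 < i + 1 := by omega
    have a := gbS_pos hi x
    have b := gbS_pos hj (gbS i x)
    have c := gbS_pos hi (gbS (i + 1) (gbS i x))
    have a' := gbS_pos hj x
    have b' := gbS_pos hi (gbS (i + 1) x)
    have c' := gbS_pos hj (gbS i (gbS (i + 1) x))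
    omega
  · funext x
    change gbS 0 (gbS 1 (gbS 0 (gbS 1 x))) = gbS 1 (gbS 0 (gbS 1 (gbS 0 x)))
    have a := gbS_pos one_pos x
    have b := gbS_zero (gbS 1 x)
    have c := gbS_pos one_pos (gbS 0 (gbS 1 x))
    have d := gbS_zero (gbS 1 (gbS 0 (gbS 1 x)))
    have a' := gbS_zero x
    have b' := gbS_pos one_pos (gbS 0 x)
    have c' := gbS_zero (gbS 1 (gbS 0 x))
    have d' := gbS_pos one_pos (gbS 0 (gbS 1 (gbS 0 x)))
    omega

theorem gbS_inj {i j : ℕ} (e : gbS i = gbS j) : i = j := by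
  have z : ∀ {l : ℕ}, 0 < l → gbS 0 ≠ gbS l := fun {l} hl e => by
    have a : gbS 0 1 = gbS l 1 := congrFun e 1
    have b := gbS_pos hl 1
    have c := gbS_zero 1
    omega
  rcases Nat.eq_zero_or_pos i with rfl | hi <;> rcases Nat.eq_zero_or_pos j with rfl | hj
  · rfl
  · exact absurd e (z hj)
  · exact absurd e.symm (z hi)
  · have a : gbS i i = gbS j i := congrFun e i
    have b := gbS_pos hi i
    have c := gbS_pos hj i
    omega

theorem gbS_nc (i : ℕ) : gbS i * gbS (i + 1) ≠ gbS (i + 1) * gbS i := by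
  intro a
  have hj : 0 < i + 1 := by omega
  rcases Nat.eq_zero_or_pos i with rfl | h0
  · exact absurd (congrFun a 1) (by decide)
  · have b : gbS i (gbS (i + 1) i) = gbS (i + 1) (gbS i i) := congrFun a i
    have c1 := gbS_pos h0 i
    have c2 := gbS_pos hj i
    have c3 := gbS_pos h0 (gbS (i + 1) i)
    have c4 := gbS_pos hj (gbS i i)
    omega

theorem gbS_n3 : gbS 0 * gbS 1 * gbS 0 ≠ gbS 1 * gbS 0 * gbS 1 := fun a =>
  absurd (congrFun a 1) (by decide)

/-- distinct generators with a braid relation of length three are neighbours away from `0`. -/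
theorem gbS_adj {i j : ℕ} (hne : i ≠ j) (e : gbS i * gbS j * gbS i = gbS j * gbS i * gbS j) :
    (0 < i ∧ j = i + 1) ∨ (0 < j ∧ i = j + 1) := by
  by_contra a
  have far : gbS i * gbS j = gbS j * gbS i → False := fun c => by
    rw [c, mul_assoc, gbS_sq, mul_one, ← c, mul_assoc, gbS_sq, mul_one] at e
    exact hne (gbS_inj e).symm
  rcases Nat.lt_or_ge (i + 1) j with l | l
  · exact far ((gbS_br (j + 1)).1 i j l (by omega))
  rcases Nat.lt_or_ge (j + 1) i with l' | l'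
  · exact far ((gbS_br (i + 1)).1 j i l' (by omega)).symm
  have c : (i = 0 ∧ j = 1) ∨ (i = 1 ∧ j = 0) := by omega
  rcases c with ⟨rfl, rfl⟩ | ⟨rfl, rfl⟩
  exacts [gbS_n3 e, gbS_n3 e.symm]

variable {k : ℕ} {X : Type} [Group X] {N T : Subgroup X} {n : ℕ → X}

theorem gb_eq {Θ : N →* Function.End ℤ} (h1 : ∀ t : N, (t : X) ∈ T → Θ t = 1) {x y : N}
    (e : (x : X)⁻¹ * y ∈ T) : Θ x = Θ y := by
  have a := h1 (x⁻¹ * y) e
  calc Θ x = Θ x * Θ (x⁻¹ * y) := by rw [a, mul_one]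
    _ = Θ y := by rw [← map_mul, mul_inv_cancel_left]

theorem gb_eq' {Θ : N →* Function.End ℤ} (h1 : ∀ t : N, (t : X) ∈ T → Θ t = 1) {x y : N}
    (e : (x : X) * (y : X)⁻¹ ∈ T) : Θ x = Θ y := by
  have a := h1 (x * y⁻¹) e
  calc Θ x = Θ (x * y⁻¹) * Θ y := by rw [← map_mul, inv_mul_cancel_right]
    _ = Θ y := by rw [a, one_mul]

theorem WB.gb_ex [Finite X] (h : WB k N T n) : ∃ Θ : N →* Function.End ℤ,
    (∀ t : N, (t : X) ∈ T → Θ t = 1) ∧ ∀ i (hi : i < k), Θ ⟨n i, h.mem i hi⟩ = gbS i := by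
  obtain ⟨Θ, h1, h2⟩ := h.lift (fun _ => (1 : Function.End ℤ)) rfl
    (fun _ _ _ _ => (mul_one _).symm) gbS
    (fun _ _ _ _ => by rw [mul_one, one_mul]) (fun i _ => gbS_sq i) (gbS_br k)
  exact ⟨Θ, h1, fun i hi => h2 i hi _ rfl⟩

theorem WB.nt [Finite X] (h : WB k N T n) {i : ℕ} (hi : i < k) : n i ∉ T := by
  obtain ⟨Θ, h1, h2⟩ := h.gb_ex
  intro e
  have a : gbS i = 1 := (h2 i hi).symm.trans (h1 _ e)
  rcases Nat.eq_zero_or_pos i with rfl | h0
  · exact absurd (congrFun a 1) (by decide)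
  · have b : gbS i i = i := congrFun a i
    have c := gbS_pos h0 i
    omega

theorem WB.ne1 [Finite X] (h : WB k N T n) {i j : ℕ} (hi : i < k) (hj : j < k) (hne : i ≠ j) :
    (n i)⁻¹ * n j ∉ T := by
  obtain ⟨Θ, h1, h2⟩ := h.gb_ex
  intro e
  have a := gb_eq h1 (x := ⟨n i, h.mem i hi⟩) (y := ⟨n j, h.mem j hj⟩) e
  rw [h2 i hi, h2 j hj] at a
  exact hne (gbS_inj a)

theorem WB.ne2 [Finite X] (h : WB k N T n) {i : ℕ} (hi : i + 1 < k) :
    (n i * n (i + 1))⁻¹ * (n (i + 1) * n i) ∉ T := by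
  obtain ⟨Θ, h1, h2⟩ := h.gb_ex
  intro e
  have hi' : i < k := by omega
  have a := gb_eq h1 (x := ⟨n i, h.mem i hi'⟩ * ⟨n (i + 1), h.mem _ hi⟩)
    (y := ⟨n (i + 1), h.mem _ hi⟩ * ⟨n i, h.mem i hi'⟩) e
  rw [map_mul, map_mul, h2 i hi', h2 _ hi] at a
  exact gbS_nc i a

theorem WB.ne3 [Finite X] (h : WB k N T n) (hk : 1 < k) :
    (n 0 * (n 1 * n 0))⁻¹ * (n 1 * n 0 * n 1) ∉ T := by
  obtain ⟨Θ, h1, h2⟩ := h.gb_ex
  intro e
  have h0 : 0 < k := by omega
  have a := gb_eq h1 (x := ⟨n 0, h.mem 0 h0⟩ * (⟨n 1, h.mem 1 hk⟩ * ⟨n 0, h.mem 0 h0⟩))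
    (y := ⟨n 1, h.mem 1 hk⟩ * ⟨n 0, h.mem 0 h0⟩ * ⟨n 1, h.mem 1 hk⟩) e
  simp only [map_mul, h2 0 h0, h2 1 hk] at a
  exact gbS_n3 a

/-- the diagram of type `B k`, `k ≥ 3`, has no symmetry. -/
theorem WB.rigid [Finite X] (h : WB k N T n) (hk : 3 ≤ k) (δ : MulAut X)
    (hT : ∀ x, δ x ∈ T ↔ x ∈ T) (h1 : ∀ i, i < k → ∃ j, j < k ∧ δ (n i) * (n j)⁻¹ ∈ T)
    {i : ℕ} (hi : i < k) : δ (n i) * (n i)⁻¹ ∈ T := by
  obtain ⟨Θ, t1, t2⟩ := h.gb_ex
  choose! π p1 p2 using h1
  have mem : ∀ i, i < k → δ (n i) ∈ N := fun i hi => by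
    have := N.mul_mem (h.le (p2 i hi)) (h.mem _ (p1 i hi))
    rwa [inv_mul_cancel_right] at this
  have val : ∀ i (hi : i < k), Θ ⟨δ (n i), mem i hi⟩ = gbS (π i) := fun i hi =>
    (gb_eq' t1 (x := ⟨δ (n i), mem i hi⟩) (y := ⟨n (π i), h.mem _ (p1 i hi)⟩) (p2 i hi)).trans
      (t2 _ (p1 i hi))
  have inj : ∀ i j, i < k → j < k → i ≠ j → π i ≠ π j := fun i j hi hj hne e => by
    have a := T.mul_mem (p2 i hi) (T.inv_mem (p2 j hj))
    rw [e, mul_inv_rev, inv_inv, mul_assoc, inv_mul_cancel_left, ← map_inv, ← map_mul, hT] at a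
    have b := gb_eq' t1 (x := ⟨n i, h.mem i hi⟩) (y := ⟨n j, h.mem j hj⟩) a
    rw [t2 i hi, t2 j hj] at b
    exact hne (gbS_inj b)
  have adj : ∀ i, 0 < i → i + 1 < k →
      (0 < π i ∧ π (i + 1) = π i + 1) ∨ (0 < π (i + 1) ∧ π i = π (i + 1) + 1) := fun i h0 hj => by
    have hi : i < k := by omega
    refine gbS_adj (inj i (i + 1) hi hj (by omega)) ?_
    rw [← val i hi, ← val _ hj]
    simp only [← map_mul]
    refine congrArg Θ (Subtype.ext ?_)
    have e := congrArg δ (h.br.2.1 i h0 hj)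
    simpa only [map_mul, Subgroup.coe_mul] using e
  have pos : ∀ i, 0 < i → i < k → 0 < π i := fun i h0 hi => by
    rcases Nat.lt_or_ge (i + 1) k with l | l
    · have := adj i h0 l
      omega
    · obtain ⟨i, rfl⟩ : ∃ i', i = i' + 1 := ⟨i - 1, by omega⟩
      have := adj i (by omega) hi
      omega
  have e0 : π 0 = 0 := by
    obtain ⟨⟨j, hj⟩, e⟩ := (Finite.injective_iff_surjective (f := fun j : Fin k =>
      (⟨π j, p1 j j.2⟩ : Fin k))).1 (fun a b e => Fin.ext (by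
        by_contra c
        exact inj a b a.2 b.2 c (congrArg Fin.val e))) ⟨0, by omega⟩
    have e' : π j = 0 := congrArg Fin.val e
    rcases Nat.eq_zero_or_pos j with rfl | l
    · exact e'
    · have := pos j l hj
      omega
  have e1 : π 1 = 1 := by
    obtain ⟨⟨j, hj⟩, e⟩ := (Finite.injective_iff_surjective (f := fun j : Fin k =>
      (⟨π j, p1 j j.2⟩ : Fin k))).1 (fun a b e => Fin.ext (by
        by_contra c
        exact inj a b a.2 b.2 c (congrArg Fin.val e))) ⟨1, by omega⟩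
    have e' : π j = 1 := congrArg Fin.val e
    by_contra c
    have j1 : 1 < j := by
      rcases j with _ | _ | j
      · omega
      · exact absurd e' c
      · omega
    have cm := congrArg δ (h.br.1 0 j j1 hj)
    have z : gbS (π 0) * gbS (π j) = gbS (π j) * gbS (π 0) := by
      rw [← val 0 (by omega), ← val j hj]
      simp only [← map_mul]
      refine congrArg Θ (Subtype.ext ?_)
      simpa only [map_mul, Subgroup.coe_mul] using cm
    rw [e0, e'] at z
    exact gbS_nc 0 z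
  have up : ∀ i, i + 1 < k → π i = i ∧ π (i + 1) = i + 1 := by
    intro i
    induction i with
    | zero => exact fun _ => ⟨e0, e1⟩
    | succ i ih =>
      intro hl
      obtain ⟨b1, b2⟩ := ih (by omega)
      have c := adj (i + 1) (by omega) hl
      have d := inj i (i + 1 + 1) (by omega) hl (by omega)
      exact ⟨b2, by omega⟩
  have e : π i = i := by
    rcases i with _ | i
    exacts [e0, (up i hi).2]
  have := p2 i hi
  rwa [e] at this

end Pool.Agent.Lib.MP_1ae3da_al.JM
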