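import Pool.Agent.Lib.MP_1ae3da_al.J.G2
import Pool.Agent.Lib.MP_1ae3da_al.J.G3b

/-! The quadratic relation and the datum attached to the group. -/

namespace Pool.Agent.Lib.MP_1ae3da_al.JM

open SLI CT CT.Z

theorem g4_cp {A : Type} [Ring A] {e a b : A} (he : e * e = e) (ha : a * e = a) (hb : e * b = b) :
    (a + (1 - e)) * (b + (1 - e)) = a * b + (1 - e) := by
  simp only [add_mul, mul_add, mul_sub, sub_mul, mul_one, one_mul, he, ha, hb, sub_self, add_zero]
  abel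

theorem g4_sum {G M : Type} [Group G] [Fintype G] (H : Subgroup G) [Fintype (G ⧸ H)]
    [AddCommMonoid M] (ψ : G ⧸ H → M) : ∑ u : G, ψ (u : G ⧸ H) = Nat.card H • ∑ z, ψ z := by
  have _ := Fintype.ofFinite H
  rw [Fintype.sum_equiv (Subgroup.groupEquivQuotientProdSubgroup (s := H))
    (fun u : G => ψ (u : G ⧸ H)) (fun x => ψ x.1) fun _ => rfl, Fintype.sum_prod_type,
    Finset.smul_sum]
  simp only [Finset.sum_const, Finset.card_univ, Nat.card_eq_fintype_card]

variable {p r k : ℕ} {X : Type} [Group X] [Finite X] [hp : Fact p.Prime] [hr : Fact r.Prime]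
  {U : Sylow r X} {N : Subgroup X} {n : ℕ → X} {F : Type} [Field F] [CharZero F]

theorem g4_l {V : Subgroup X} {s : X} (hs : s ∈ Subgroup.normalizer (V : Set X)) (x : X) :
    an F V s * an F V x = an F V (s * x) := by
  rw [an_nrm hs, mul_assoc, (av_an x).1, an_left hs]

theorem g4_r {V : Subgroup X} {s : X} (hs : s ∈ Subgroup.normalizer (V : Set X)) (x : X) :
    an F V x * an F V s = an F V (x * s) := by
  rw [an_nrm hs, av_comm.2 hs, ← mul_assoc, (av_an x).2, an_right hs]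

theorem g4_jt {V : Subgroup X} {s : X} (hs : s ∈ Subgroup.normalizer (V : Set X)) :
    jt F V s = an F V s + (1 - av F V) := by
  rw [jt, an_nrm hs]

theorem g4_mul {V : Subgroup X} (x y : X) :
    (an F V x + (1 - av F V)) * (an F V y + (1 - av F V)) =
      an F V x * an F V y + (1 - av F V) := g4_cp av_idem (av_an x).2 (av_an y).1

omit [Finite X] hr in
theorem g4_N {s : X} (hs : s ∈ Tor U N) :
    s ∈ Subgroup.normalizer ((U : Subgroup X) : Set X) := hs.2

theorem jt_mul {s t : X} (hs : s ∈ Tor U N) (ht : t ∈ Tor U N) :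
    jt F U (s * t) = jt F U s * jt F U t := by
  rw [g4_jt (g4_N hs), g4_jt (g4_N ht), g4_jt (g4_N (mul_mem hs ht)), g4_mul, g4_l (g4_N hs)]

theorem jt_one : jt F (U : Subgroup X) 1 = 1 := by
  rw [jt, gu_one, one_mul, add_sub_cancel]

omit [Finite X] hp hr in
theorem g4_T (h : BV p U N) {g t : X} (hg : g ∈ N) (ht : t ∈ Tor U N) :
    g * t * g⁻¹ ∈ Tor U N := (Subgroup.mem_normalizer_iff.1 (h.nrm hg) t).1 ht

theorem tau_jt (h : BV p U N) {g t : X} (hg : g ∈ N) (ht : t ∈ Tor U N) :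
    tau F U g * jt F U t = jt F U (g * t * g⁻¹) * tau F U g := by
  have h1 := g4_T h hg ht
  rw [g4_jt (g4_N ht), g4_jt (g4_N h1), tau, smul_mul_assoc, mul_smul_comm, g4_mul, g4_mul,
    g4_l (g4_N h1), g4_r (g4_N ht), inv_mul_cancel_right]

omit [Finite X] hr in
theorem g4_U {s u : X} (hs : s ∈ Tor U N) (hu : u ∈ U) : s * u * s⁻¹ ∈ U :=
  (Subgroup.mem_normalizer_iff.1 hs.2 u).1 hu

/-- `t` is the torus part of `g u g⁻¹`. -/
def G4R (U : Sylow r X) (N : Subgroup X) (g u t : X) : Prop :=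
  t ∈ Tor U N ∧ ∃ v ∈ U, ∃ w ∈ U, g * u * g⁻¹ = v * (t * g) * w

theorem G4R.uniq (h : BV p U N) {g u t t' : X} (hg : g ∈ N) (h1 : G4R U N g u t)
    (h2 : G4R U N g u t') : t = t' := by
  obtain ⟨ht, v, hv, w, hw, e⟩ := h1
  obtain ⟨ht', v', hv', w', hw', e'⟩ := h2
  refine mul_right_cancel (b := g) (h.dc (mul_mem ht.1 hg) (mul_mem ht'.1 hg)
    (mul_mem (inv_mem hv') hv) (mul_mem hw (inv_mem hw')) ?_)
  rw [show v'⁻¹ * v * (t * g) * (w * w'⁻¹) = v'⁻¹ * (v * (t * g) * w) * w'⁻¹ by group, ← e, e']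
  group

omit [Finite X] hr in
theorem G4R.mul {g u t x : X} (h1 : G4R U N g u t) (hx : g * x * g⁻¹ ∈ U) :
    G4R U N g (u * x) t := by
  obtain ⟨ht, v, hv, w, hw, e⟩ := h1
  refine ⟨ht, v, hv, _, mul_mem hw hx, ?_⟩
  rw [← mul_assoc _ w, ← e]
  group

omit [Finite X] hp hr in
theorem G4R.cj (h : BV p U N) {g u t s : X} (hg : g ∈ N) (h2 : g * g ∈ Tor U N)
    (h1 : G4R U N g u t) (hs : s ∈ Tor U N) :
    G4R U N g (s * u * s⁻¹) (g * s * g⁻¹ * t * s⁻¹) := by
  obtain ⟨ht, v, hv, w, hw, e⟩ := h1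
  have hs' := g4_T h hg hs
  refine ⟨mul_mem (mul_mem hs' ht) (inv_mem hs), _, g4_U hs' hv, _, g4_U hs' hw, ?_⟩
  have c : s⁻¹ * g * (g * s * g⁻¹) = g := by
    rw [show s⁻¹ * g * (g * s * g⁻¹) = s⁻¹ * (g * g * s) * g⁻¹ by group, h.ab _ h2 _ hs]
    group
  calc g * (s * u * s⁻¹) * g⁻¹ = g * s * g⁻¹ * (g * u * g⁻¹) * (g * s * g⁻¹)⁻¹ := by group
    _ = g * s * g⁻¹ * (v * (t * (s⁻¹ * g * (g * s * g⁻¹))) * w) * (g * s * g⁻¹)⁻¹ := by rw [e, c]
    _ = _ := by group

/-- hint: `Y` is the set of the cosets `V u ≠ V` of `V = U ⊓ g⁻¹ U g` in `U` (or of their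
inverses), with the torus acting by conjugation; `Pg.cos` for the last but two clause. -/
theorem tau_sq (h : BV p U N) {g : X} (hg : g ∈ N) (h2 : g * g ∈ Tor U N)
    (hat : Atom (U : Subgroup X) (Tor U N) g) :
    ∃ (Y : Type) (_ : Fintype Y) (_ : MulAction (Tor U N) Y) (t : Y → X),
      Fintype.card Y + 1 = Qn U g ∧ (∀ y, t y ∈ Tor U N) ∧
      (∀ (s : Tor U N) y, t (s • y) = g * s * g⁻¹ * t y * (s : X)⁻¹) ∧
      (∀ y : Y, ∃ s : Tor U N, (s : X) ∈ h.D ∧ s • y ≠ y) ∧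
      (∀ y, ∃ u ∈ U, g * u * g⁻¹ ∉ U ∧ ∃ v ∈ U, ∃ w ∈ U, g * u * g⁻¹ = v * (t y * g) * w) ∧
      ∀ (F : Type) [Field F] [CharZero F], tau F U g * tau F U g =
        (Qn U g : F) • jt F U (g * g) + (∑ y, jt F U (t y * (g * g))) * tau F U g := by
  classical
  let W : Subgroup X := (U : Subgroup X).comap (MulAut.conj g).toMonoidHom
  have hW : ∀ x, x ∈ W ↔ g * x * g⁻¹ ∈ U := fun _ => Iff.rfl
  let H : Subgroup (U : Subgroup X) := W.subgroupOf U
  have hH : ∀ x : (U : Subgroup X), x ∈ H ↔ g * x * g⁻¹ ∈ U := fun _ => Iff.rfl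
  have cW : ∀ s ∈ Tor U N, ∀ x, g * x * g⁻¹ ∈ U → g * (s * x * s⁻¹) * g⁻¹ ∈ U := fun s hs x hx => by
    have := g4_U (g4_T h hg hs) hx
    rwa [show g * s * g⁻¹ * (g * x * g⁻¹) * (g * s * g⁻¹)⁻¹ = g * (s * x * s⁻¹) * g⁻¹ by group] at this
  let _ : MulAction (Tor U N) (U : Subgroup X) :=
    { smul := fun s u => ⟨s * u * (s : X)⁻¹, g4_U s.2 u.2⟩
      one_smul := fun x => Subtype.ext
        (show ((1 : Tor U N) : X) * x * ((1 : Tor U N) : X)⁻¹ = x by simp)
      mul_smul := fun a b x => Subtype.ext (show ((a * b : Tor U N) : X) * x *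
        ((a * b : Tor U N) : X)⁻¹ = a * (b * x * (b : X)⁻¹) * (a : X)⁻¹ by push_cast; group) }
  have sm : ∀ (s : Tor U N) (u : (U : Subgroup X)),
      ((s • u : (U : Subgroup X)) : X) = s * u * (s : X)⁻¹ := fun _ _ => rfl
  have _ : MulAction.QuotientAction (Tor U N) H := ⟨fun b a a' ha => by
    rw [hH] at ha ⊢
    have := cW b b.2 _ ha
    push_cast at this ⊢
    rw [sm, sm]
    rwa [show (b : X) * ((a : X)⁻¹ * a') * (b : X)⁻¹ =
      ((b : X) * a * (b : X)⁻¹)⁻¹ * ((b : X) * a' * (b : X)⁻¹) by group] at this⟩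
  have s1 : ∀ s : Tor U N, s • (((1 : (U : Subgroup X))) : (U : Subgroup X) ⧸ H) =
      ((1 : (U : Subgroup X)) : (U : Subgroup X) ⧸ H) := fun s => by
    rw [MulAction.Quotient.smul_coe]
    exact congrArg _ (Subtype.ext (by rw [sm]; simp))
  let Y : Type := {z : (U : Subgroup X) ⧸ H // z ≠ ((1 : (U : Subgroup X)) : (U : Subgroup X) ⧸ H)}
  let _ : MulAction (Tor U N) Y :=
    { smul := fun s y => ⟨s • y.1, fun e => y.2 (smul_left_cancel s (e.trans (s1 s).symm))⟩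
      one_smul := fun y => Subtype.ext (one_smul _ y.1)
      mul_smul := fun a b y => Subtype.ext (mul_smul a b y.1) }
  have smY : ∀ (s : Tor U N) (y : Y), (s • y : Y).1 = s • y.1 := fun _ _ => rfl
  have nm : ∀ (y : Y) (u : (U : Subgroup X)), (u : (U : Subgroup X) ⧸ H) = y.1 →
      g * u * g⁻¹ ∉ U := fun y u e hu => y.2 (by
    rw [← e, eq_comm, QuotientGroup.eq, inv_one, one_mul, hH]
    exact hu)
  have ex : ∀ y : Y, ∃ t, ∀ u : (U : Subgroup X), (u : (U : Subgroup X) ⧸ H) = y.1 →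
      G4R U N g u t := fun y => by
    obtain ⟨u, hu⟩ := QuotientGroup.mk_surjective y.1
    obtain ⟨t, ht, hv⟩ := (hat u u.2).resolve_left (nm y u hu)
    refine ⟨t, fun u' hu' => ?_⟩
    have := G4R.mul (⟨ht, hv⟩ : G4R U N g u t) ((hH _).1 (QuotientGroup.eq.1 (hu.trans hu'.symm)))
    push_cast at this
    rwa [mul_inv_cancel_left] at this
  choose t ht using ex
  let _ : Fintype ((U : Subgroup X) ⧸ H) := Fintype.ofFinite _
  have hQ : Qn (U : Subgroup X) g = Fintype.card ((U : Subgroup X) ⧸ H) :=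
    Nat.card_eq_fintype_card
  have hY : Fintype.card Y + 1 = Qn (U : Subgroup X) g := by
    rw [hQ, ← Fintype.card_option]
    exact Fintype.card_congr (Equiv.optionSubtypeNe _)
  have tT : ∀ y, t y ∈ Tor U N := fun y => (ht y _ (QuotientGroup.out_eq' y.1)).1
  refine ⟨Y, inferInstance, inferInstance, t, hY, tT, fun s y => ?_, fun y => ?_, fun y => ?_,
    fun F _ _ => ?_⟩
  · obtain ⟨u, hu⟩ := QuotientGroup.mk_surjective y.1
    refine G4R.uniq h hg (ht (s • y) (s • u) ?_) ((ht y u hu).cj h hg h2 s.2)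
    rw [smY, ← hu, MulAction.Quotient.smul_coe]
  · by_contra hc
    push Not at hc
    obtain ⟨u, hu⟩ := QuotientGroup.mk_surjective y.1
    refine nm y u hu (h.pg.cos (V := (U : Subgroup X) ⊓ W) inf_le_left
      (fun d hd => Subgroup.mem_normalizer_fintype fun x hx =>
        ⟨g4_U hd.1 hx.1, cW d hd.1 x hx.2⟩) u.2 fun d hd => ?_).2
    have e := congrArg Subtype.val (hc ⟨d, hd.1⟩ hd)
    rw [smY, ← hu, MulAction.Quotient.smul_coe, eq_comm, QuotientGroup.eq] at e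
    exact Subgroup.mem_inf.2 ⟨(U : Subgroup X).mul_mem (inv_mem u.2) (g4_U hd.1 u.2), e⟩
  · obtain ⟨u, hu⟩ := QuotientGroup.mk_surjective y.1
    exact ⟨u, u.2, nm y u hu, (ht y u hu).2⟩
  · have _ := Fintype.ofFinite (U : Subgroup X)
    have k0 : ∀ x : X, g * x * g⁻¹ ∈ U → ∀ a : X, an F U (a * x * g) = an F U (a * g) := by
      intro x hx a
      have := an_dc (F := F) (U := (U : Subgroup X)) (one_mem _) (g4_U (inv_mem h2) hx) (a * g)
      rwa [show 1 * (a * g) * ((g * g)⁻¹ * (g * x * g⁻¹) * (g * g)⁻¹⁻¹) = a * x * g by group] at this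
    let ψ : (U : Subgroup X) ⧸ H → MonoidAlgebra F X := fun z => an F U (g * z.out * g)
    have k1 : ∀ u : (U : Subgroup X), an F U (g * u * g) = ψ (u : (U : Subgroup X) ⧸ H) := by
      intro u
      obtain ⟨x, hx⟩ := QuotientGroup.mk_out_eq_mul H u
      change _ = an F U (g * (Quotient.out (u : (U : Subgroup X) ⧸ H) : (U : Subgroup X)) * g)
      rw [hx, Subgroup.coe_mul, ← mul_assoc, k0 _ ((hH _).1 x.2)]
    have k2 : ∀ y : Y, ψ y.1 = an F U (t y * (g * g) * g) := by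
      intro y
      obtain ⟨-, v, hv, w, hw, e⟩ := ht y _ (QuotientGroup.out_eq' y.1)
      have := an_dc (F := F) (U := (U : Subgroup X)) hv (g4_U (inv_mem h2) hw) (t y * (g * g) * g)
      rw [← this]
      change an F U (g * ((Quotient.out y.1 : (U : Subgroup X)) : X) * g) = _
      generalize ((Quotient.out y.1 : (U : Subgroup X)) : X) = a at e
      rw [show g * a * g = g * a * g⁻¹ * (g * g) by group, e]
      congr 1
      simp only [mul_inv_rev, inv_inv, mul_assoc, mul_inv_cancel_left]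
    have k3 : (Qn (U : Subgroup X) g : F) • (an F U g * an F U g) =
        an F U (g * g) + ∑ y : Y, an F U (t y * (g * g) * g) := by
      have c : (Nat.card (U : Subgroup X) : F) = Qn (U : Subgroup X) g * Nat.card H := by
        exact_mod_cast (Subgroup.index_mul_card H).symm
      have c1 : (Nat.card (U : Subgroup X) : F) ≠ 0 := zAv_card
      rw [an_mul, finsum_eq_sum_of_fintype, Finset.sum_congr rfl fun u _ => k1 u, g4_sum,
        ← Nat.cast_smul_eq_nsmul F, smul_smul, smul_smul,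
        show (Qn (U : Subgroup X) g : F) * (Nat.card (U : Subgroup X) : F)⁻¹ * Nat.card H = 1 by
          rw [mul_right_comm, ← c, mul_inv_cancel₀ c1], one_smul,
        Fintype.sum_eq_add_sum_subtype_ne ψ ((1 : (U : Subgroup X)) : (U : Subgroup X) ⧸ H),
        ← k1, Subgroup.coe_one, mul_one, Finset.sum_congr rfl fun y _ => k2 y]
    have k4 : ∀ y : Y, jt F U (t y * (g * g)) * (an F U g + (1 - av F U)) =
        an F U (t y * (g * g) * g) + (1 - av F U) := fun y => by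
      have := g4_N (mul_mem (tT y) h2)
      rw [g4_jt this, g4_mul, g4_l this]
    have k5 : (Qn (U : Subgroup X) g : F) = Fintype.card Y + 1 := by exact_mod_cast hY.symm
    rw [tau, smul_mul_assoc, mul_smul_comm, mul_smul_comm, g4_mul, ← smul_add, Finset.sum_mul,
      Finset.sum_congr rfl fun y _ => k4 y, smul_add, k3, g4_jt (g4_N h2),
      Finset.sum_add_distrib, Finset.sum_const, Finset.card_univ, ← Nat.cast_smul_eq_nsmul F]
    congr 1
    rw [k5, add_smul, one_smul]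
    abel

theorem qn_pow (g : X) : ∃ j, Qn (U : Subgroup X) g = r ^ j := by
  obtain ⟨k, hk⟩ := U.isPGroup'.exists_card_eq
  obtain ⟨j, -, hj⟩ := (Nat.dvd_prime_pow hr.out).1
    (hk ▸ Subgroup.relIndex_dvd_card ((U : Subgroup X).comap (MulAut.conj g).toMonoidHom) U)
  exact ⟨j, hj⟩

theorem qn_mod (h : BV p U N) {g : X} (hg : g ∈ N) (h2 : g * g ∈ Tor U N)
    (hat : Atom (U : Subgroup X) (Tor U N) g) : Qn (U : Subgroup X) g ≡ 1 [MOD p] := by
  obtain ⟨Y, _, _, t, hY, -, -, hD, -⟩ := tau_sq h hg h2 hat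
  have hd : p ∣ Nat.card Y := by
    by_contra hn
    obtain ⟨y, hy⟩ := (h.pg.pD.comap_subtype (K := Tor U N)).nonempty_fixed_point_of_prime_not_dvd_card
      Y hn
    obtain ⟨s, hs, hne⟩ := hD y
    exact hne (hy ⟨s, hs⟩)
  rw [← hY, ← Nat.card_eq_fintype_card]
  simpa using ((Nat.modEq_zero_iff_dvd).2 hd).add_right 1

theorem qn_gt {g : X} (hg : g ∈ N) (h1 : g ∉ Tor U N) : 1 < Qn (U : Subgroup X) g := by
  refine Nat.one_lt_iff_ne_zero_and_ne_one.2 ⟨Subgroup.index_ne_zero_of_finite, fun e => h1 ⟨hg, ?_⟩⟩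
  exact Subgroup.mem_normalizer_fintype fun x hx => Subgroup.relIndex_eq_one.1 e hx

theorem TB.ts (h : TB p k U N n) : TS k U N n :=
  ⟨h.w.mem, h.w.sq, fun _ hi => h.w.nt hi, h.w.gen, h.tits⟩

end Pool.Agent.Lib.MP_1ae3da_al.JM
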