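import Pool.Agent.Lib.MP_1ae3da_al.J.G4

/-! The braid relations in the corner and the datum attached to the group. -/

namespace Pool.Agent.Lib.MP_1ae3da_al.JM

open SLI CT CT.Z

variable {p r k : ℕ} {X : Type} [Group X] [Finite X] [hp : Fact p.Prime] [hr : Fact r.Prime]
  {U : Sylow r X} {N : Subgroup X} {n : ℕ → X} {F : Type} [Field F] [CharZero F]

theorem TB.g4b_aa1 (h : TB p k U N n) {i j : ℕ} (hi : i < k) (hj : j < k) (hne : i ≠ j) :
    AA (U : Subgroup X) (n i) (n j) := by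
  have := h.ts.aa_step h.v hi hj (one_mem N) (aa_T (N := N) (one_mem _))
    (by rw [mul_one, one_mul]; exact h.w.ne1 hi hj hne)
  rwa [one_mul] at this

theorem TB.g4b_aa2 (h : TB p k U N n) {i : ℕ} (hi : i + 1 < k) :
    AA (U : Subgroup X) (n i) (n (i + 1) * n i) ∧
      AA (U : Subgroup X) (n (i + 1)) (n i * n (i + 1)) := by
  have h0 : i < k := by omega
  refine ⟨h.ts.aa_step h.v h0 h0 (h.w.mem _ hi) (h.g4b_aa1 h0 hi (by omega)) (h.w.ne2 hi),
    h.ts.aa_step h.v hi hi (h.w.mem _ h0) (h.g4b_aa1 hi h0 (by omega)) fun e => h.w.ne2 hi ?_⟩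
  simpa only [mul_inv_rev, inv_inv] using inv_mem e

/-- the `an` of the `n i` satisfy the braid relations. -/
theorem TB.br_an (h : TB p k U N n) : Br k fun i => an F (U : Subgroup X) (n i) := by
  refine ⟨fun i j h1 h2 => ?_, fun i h0 h1 => ?_, fun h1 => ?_⟩
  · have hi : i < k := by omega
    simp only []
    rw [aa_an (h.g4b_aa1 hi h2 (by omega)), aa_an (h.g4b_aa1 h2 hi (by omega)), h.w.br.1 i j h1 h2]
  · have hi : i < k := by omega
    simp only []
    rw [mul_assoc, mul_assoc, aa_an (h.g4b_aa1 hi h1 (by omega)),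
      aa_an (h.g4b_aa1 h1 hi (by omega)), aa_an (h.g4b_aa2 h1).1, aa_an (h.g4b_aa2 h1).2,
      ← mul_assoc, ← mul_assoc, h.w.br.2.1 i h0 h1]
  · have h0 : 0 < k := by omega
    have a1 : AA (U : Subgroup X) (n 0) (n 1 * n 0) := (h.g4b_aa2 (i := 0) h1).1
    have a2 : AA (U : Subgroup X) (n 1) (n 0 * n 1) := (h.g4b_aa2 (i := 0) h1).2
    have b1 : AA (U : Subgroup X) (n 0) (n 1 * n 0 * n 1) :=
      h.ts.aa_step h.v h0 h1 (mul_mem (h.w.mem _ h1) (h.w.mem _ h0)) a1 (h.w.ne3 h1)
    have b2 : AA (U : Subgroup X) (n 1) (n 0 * n 1 * n 0) :=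
      h.ts.aa_step h.v h1 h0 (mul_mem (h.w.mem _ h0) (h.w.mem _ h1)) a2 fun e => h.w.ne3 h1 (by
        simpa only [mul_inv_rev, inv_inv, mul_assoc] using inv_mem e)
    have e := h.w.br.2.2 h1
    simp only [mul_assoc] at b1 b2 e ⊢
    rw [aa_an (h.g4b_aa1 h0 h1 (by omega)), aa_an (h.g4b_aa1 h1 h0 (by omega)), aa_an a1,
      aa_an a2, aa_an b1, aa_an b2, e]

variable (F) in
/-- the normalised generator. -/
noncomputable def g4bn (V : Subgroup X) (g : X) : MonoidAlgebra F X := an F V g + (1 - av F V)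

theorem g4b_mul {V : Subgroup X} {a b : MonoidAlgebra F X} (ha : a * av F V = a)
    (hb : av F V * b = b) : (a + (1 - av F V)) * (b + (1 - av F V)) = a * b + (1 - av F V) := by
  simp only [add_mul, mul_add, mul_sub, sub_mul, mul_one, one_mul, ha, hb, av_idem]
  abel

theorem g4b_br (h : TB p k U N n) : Br k fun i => g4bn F (U : Subgroup X) (n i) := by
  have l : ∀ x : X, an F (U : Subgroup X) x * av F U = an F U x := fun x => (av_an x).2
  have l2 : ∀ x y : X, an F (U : Subgroup X) x * an F U y * av F U = an F U x * an F U y :=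
    fun x y => by rw [mul_assoc, l]
  have l3 : ∀ x y z : X, an F (U : Subgroup X) x * an F U y * an F U z * av F U =
      an F U x * an F U y * an F U z := fun x y z => by rw [mul_assoc, l]
  have m : ∀ x : X, av F (U : Subgroup X) * an F U x = an F U x := fun x => (av_an x).1
  obtain ⟨b1, b2, b3⟩ := h.br_an (F := F)
  refine ⟨fun i j h1 h2 => ?_, fun i h0 h1 => ?_, fun h1 => ?_⟩
  · simp only [g4bn, g4b_mul (l _) (m _)]
    exact congrArg (· + _) (b1 i j h1 h2)
  · simp only [g4bn, g4b_mul (l _) (m _), g4b_mul (l2 _ _) (m _)]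
    exact congrArg (· + _) (b2 i h0 h1)
  · simp only [g4bn, g4b_mul (l _) (m _), g4b_mul (l2 _ _) (m _), g4b_mul (l3 _ _ _) (m _)]
    exact congrArg (· + _) (b3 h1)

omit [Finite X] [CharZero F] hr in
theorem g4b_tau (g : X) : tau F (U : Subgroup X) g = (Qn (U : Subgroup X) g : F) • g4bn F U g := rfl

omit hr in
theorem g4b_jl {t : X} (ht : t ∈ Tor U N) (g : X) :
    jt F (U : Subgroup X) t * g4bn F U g = g4bn F U (t * g) := by
  rw [jt, g4bn, g4b_mul (by rw [mul_assoc, av_idem]) (av_an g).1, mul_assoc, (av_an g).1,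
    ← an_left ht.2, g4bn]

omit hr in
theorem g4b_jr {t : X} (ht : t ∈ Tor U N) (g : X) :
    g4bn F (U : Subgroup X) g * jt F U t = g4bn F U (g * t) := by
  rw [jt, g4bn, g4b_mul (av_an g).2 (by rw [← mul_assoc, ← av_comm.2 ht.2, mul_assoc, av_idem]),
    ← mul_assoc, ← an_right ht.2, (av_an _).2, g4bn]

omit hr in
theorem g4b_sb {s t g : X} (hs : s ∈ Tor U N) (ht : t ∈ Tor U N) (e : s * g = g * t) :
    jt F (U : Subgroup X) s * g4bn F U g = g4bn F U g * jt F U t := by
  rw [g4b_jl hs, g4b_jr ht, e]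

omit hr in
theorem g4b_sw {s t g : X} (hs : s ∈ Tor U N) (ht : t ∈ Tor U N) (e : s * g = g * t) :
    jt F (U : Subgroup X) s * tau F U g = tau F U g * jt F U t := by
  rw [g4b_tau, mul_smul_comm, smul_mul_assoc, g4b_sb hs ht e]

omit [Finite X] hp hr in
theorem g4b_cj (h : BV p U N) {g t : X} (hg : g ∈ N) (ht : t ∈ Tor U N) :
    g * t * g⁻¹ ∈ Tor U N := (Subgroup.mem_set_normalizer_iff.1 (h.nrm hg) t).1 ht

theorem g4b_ind (h : BV p U N) {m : X} (hm : m ∈ N) (h1 : m ∉ Tor U N) {a : F}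
    {y : MonoidAlgebra F X} (hy : y ∈ Submodule.span F (jt F (U : Subgroup X) '' (Tor U N : Set X)))
    (e : a • (1 : MonoidAlgebra F X) = y * g4bn F U m) : a = 0 := by
  classical
  have _ := Fintype.ofFinite (U : Subgroup X)
  have k : zAvCo F (1 : X) (y * g4bn F U m * av F U) = 0 := by
    clear e
    induction hy using Submodule.span_induction with
    | mem x hx =>
      obtain ⟨t, ht, rfl⟩ := hx
      rw [g4b_jl ht, g4bn, add_mul, (av_an _).2, sub_mul, one_mul, av_idem, sub_self, add_zero,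
        zAv_an, map_smul, map_sum, Finset.sum_eq_zero fun v _ => ?_, smul_zero]
      rw [map_sum]
      refine Finset.sum_eq_zero fun u _ => ?_
      rw [zAv_co, if_neg fun e => h1 ?_]
      have := h.dc (mul_mem ht.1 hm) (one_mem _) u.2 v.2 e
      rw [eq_inv_of_mul_eq_one_right this]
      exact inv_mem ht
    | zero => simp
    | add a b _ _ p q => rw [add_mul, add_mul, map_add, p, q, add_zero]
    | smul c a _ p => rw [smul_mul_assoc, smul_mul_assoc, map_smul, p, smul_zero]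
  rw [← e, smul_mul_assoc, one_mul, map_smul] at k
  exact (smul_eq_zero.1 k).resolve_right ((zAv_co_av 1).2 (one_mem _))

variable (F U N) in
/-- the span of the torus. -/
noncomputable def g4S : Subalgebra F (MonoidAlgebra F X) :=
  (Submodule.span F (jt F (U : Subgroup X) '' (Tor U N : Set X))).toSubalgebra
    (Submodule.subset_span ⟨1, one_mem _, jt_one⟩) fun x y hx hy => by
      induction hx, hy using Submodule.span_induction₂ with
      | mem_mem x y hx hy =>
        obtain ⟨s, hs, rfl⟩ := hx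
        obtain ⟨t, ht, rfl⟩ := hy
        exact Submodule.subset_span ⟨s * t, mul_mem hs ht, jt_mul hs ht⟩
      | zero_left => rw [zero_mul]; exact zero_mem _
      | zero_right => rw [mul_zero]; exact zero_mem _
      | add_left a b c _ _ _ p q => rw [add_mul]; exact add_mem p q
      | add_right a b c _ _ _ p q => rw [mul_add]; exact add_mem p q
      | smul_left c a b _ _ p => rw [smul_mul_assoc]; exact Submodule.smul_mem _ _ p
      | smul_right c a b _ _ p => rw [mul_smul_comm]; exact Submodule.smul_mem _ _ p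

theorem g4S_mem {y : MonoidAlgebra F X} : y ∈ g4S U N F ↔
    y ∈ Submodule.span F (jt F (U : Subgroup X) '' (Tor U N : Set X)) := Iff.rfl

theorem g4S_jt {t : X} (ht : t ∈ Tor U N) : jt F (U : Subgroup X) t ∈ g4S U N F :=
  g4S_mem.2 (Submodule.subset_span ⟨t, ht, rfl⟩)

theorem g4S_ind {P : MonoidAlgebra F X → Prop} (h1 : ∀ t ∈ Tor U N, P (jt F (U : Subgroup X) t))
    (h0 : P 0) (ha : ∀ a b, P a → P b → P (a + b)) (hs : ∀ (c : F) a, P a → P (c • a)) :
    ∀ y ∈ g4S U N F, P y := fun y hy => by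
  rw [g4S_mem] at hy
  induction hy using Submodule.span_induction with
  | mem x hx =>
    obtain ⟨t, ht, rfl⟩ := hx
    exact h1 t ht
  | zero => exact h0
  | add a b _ _ p q => exact ha a b p q
  | smul c a _ p => exact hs c a p

omit hp in
theorem g4S_cm (h : BV p U N) : ∀ y ∈ g4S U N F, ∀ z ∈ g4S U N F, y * z = z * y := by
  refine g4S_ind (fun s hs => g4S_ind (fun t ht => ?_) (by simp) (fun a b p q => ?_)
    fun c a p => ?_) (by simp) (fun a b p q z hz => ?_) fun c a p z hz => ?_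
  · rw [← jt_mul hs ht, ← jt_mul ht hs, h.ab s hs t ht]
  · rw [mul_add, add_mul, p, q]
  · rw [mul_smul_comm, smul_mul_assoc, p]
  · rw [mul_add, add_mul, p z hz, q z hz]
  · rw [mul_smul_comm, smul_mul_assoc, p z hz]

omit hp in
theorem g4S_nb (h : BV p U N) {g : X} (hg : g ∈ N) (h2 : g * g ∈ Tor U N) :
    ∀ y ∈ g4S U N F, ∃ y' ∈ g4S U N F,
      g4bn F U g * y = y' * g4bn F U g ∧ g4bn F U g * y' = y * g4bn F U g := by
  refine g4S_ind (fun t ht => ?_) ⟨0, zero_mem _, by simp⟩ ?_ ?_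
  · have hc := g4b_cj h hg ht
    refine ⟨_, g4S_jt hc, (g4b_sb hc ht (by group)).symm, (g4b_sb ht hc ?_).symm⟩
    rw [← mul_assoc, ← mul_assoc, h.ab _ h2 t ht]
    group
  · rintro a b ⟨a', ha, p1, p2⟩ ⟨b', hb, q1, q2⟩
    exact ⟨a' + b', add_mem ha hb, by rw [mul_add, add_mul, p1, q1], by
      rw [mul_add, add_mul, p2, q2]⟩
  · rintro c a ⟨a', ha, p1, p2⟩
    exact ⟨c • a', Subalgebra.smul_mem _ ha c, by rw [mul_smul_comm, smul_mul_assoc, p1], by
      rw [mul_smul_comm, smul_mul_assoc, p2]⟩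

omit hp in
theorem g4S_nt (h : BV p U N) {g : X} (hg : g ∈ N) (h2 : g * g ∈ Tor U N) :
    ∀ y ∈ g4S U N F, ∃ y' ∈ g4S U N F,
      tau F U g * y = y' * tau F U g ∧ tau F U g * y' = y * tau F U g := fun y hy => by
  obtain ⟨y', h1, p, q⟩ := g4S_nb h hg h2 y hy
  exact ⟨y', h1, by rw [g4b_tau, mul_smul_comm, smul_mul_assoc, p], by
    rw [g4b_tau, mul_smul_comm, smul_mul_assoc, q]⟩

end Pool.Agent.Lib.MP_1ae3da_al.JM
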