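import Pool.Agent.Lib.MP_1ae3da_al.J.G4a

/-! The parameters and the datum attached to the group. -/

namespace Pool.Agent.Lib.MP_1ae3da_al.JM

open SLI CT CT.Z

variable {p r k : ℕ} {X : Type} [Group X] [Finite X] [hp : Fact p.Prime] [hr : Fact r.Prime]
  {U : Sylow r X} {N : Subgroup X} {n : ℕ → X} {F : Type} [Field F] [CharZero F]

theorem g4b_quad (h : TB p k U N n) {i : ℕ} (hi : i < k) :
    ∃ E ∈ g4S U N F, (tau F U (n i) * tau F U (n i) =
      (Qn (U : Subgroup X) (n i) : F) • jt F U (n i * n i) + E * tau F U (n i)) ∧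
      (Qn (U : Subgroup X) (n i) : F) • (g4bn F U (n i) * g4bn F U (n i)) =
        jt F U (n i * n i) + E * g4bn F U (n i) := by
  obtain ⟨Y, _, _, t, -, ht, -, -, -, e⟩ :=
    tau_sq h.v (h.w.mem i hi) (h.w.sq i hi) (h.ts.atom h.v hi)
  have hQ : (Qn (U : Subgroup X) (n i) : F) ≠ 0 :=
    Nat.cast_ne_zero.2 (by have := qn_gt (h.w.mem i hi) (h.w.nt hi); omega)
  refine ⟨_, sum_mem fun y _ => g4S_jt (mul_mem (ht y) (h.w.sq i hi)), e F, ?_⟩
  have := e F
  rw [g4b_tau, smul_mul_assoc, mul_smul_comm, mul_smul_comm, ← smul_add] at this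
  exact smul_right_injective _ hQ this

theorem g4b_qn (h : TB p k U N n) {i : ℕ} (h0 : 0 < i) (hi : i + 1 < k) :
    Qn (U : Subgroup X) (n (i + 1)) = Qn (U : Subgroup X) (n i) := by
  have hi0 : i < k := by omega
  obtain ⟨E, hE, -, q⟩ := g4b_quad (F := ℚ) h hi0
  obtain ⟨E', hE', -, q'⟩ := g4b_quad (F := ℚ) h hi
  have br := (g4b_br (F := ℚ) h).2.1 i h0 hi
  have bg := h.w.br.2.1 i h0 hi
  have m := h.w.mem i hi0
  have m' := h.w.mem _ hi
  have s := h.w.sq i hi0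
  have s' := h.w.sq _ hi
  have nt := h.w.nt hi
  obtain ⟨E1, hE1, -, e1⟩ := g4S_nb h.v m' s' E hE
  obtain ⟨E2, hE2, -, e2⟩ := g4S_nb h.v m s E1 hE1
  simp only [] at br
  generalize n (i + 1) = g' at *
  generalize n i = g at *
  have c1 : g'⁻¹ * (g * g) * g'⁻¹⁻¹ ∈ Tor U N := g4b_cj h.v (inv_mem m') s
  have j1 := g4b_sb (F := ℚ) (g := g') s c1 (by group)
  have j2 := g4b_sb (F := ℚ) (g := g) c1 s' (by
    have : g * (g * g' * g) = g' * (g * (g' * g')) := by
      rw [bg, ← mul_assoc, ← mul_assoc, bg]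
      simp only [mul_assoc]
    rw [inv_inv, ← inv_mul_cancel_left g' (g * (g' * g')), ← this]
    simp only [mul_assoc])
  have i1 := jt_mul (F := ℚ) (inv_mem s) s
  have i2 := jt_mul (F := ℚ) (inv_mem s') s'
  rw [inv_mul_cancel, jt_one] at i1 i2
  have mi := g4S_jt (F := ℚ) (inv_mem s')
  have key := fun a y hy => g4b_ind (F := ℚ) h.v m' nt (a := a) (y := y) (g4S_mem.1 hy)
  generalize jt ℚ (U : Subgroup X) (g'⁻¹ * (g * g) * g'⁻¹⁻¹) = j0 at *
  generalize jt ℚ (U : Subgroup X) (g * g)⁻¹ = ji at *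
  generalize jt ℚ (U : Subgroup X) (g' * g')⁻¹ = ji' at *
  generalize jt ℚ (U : Subgroup X) (g * g) = j at *
  generalize jt ℚ (U : Subgroup X) (g' * g') = j' at *
  generalize g4bn ℚ (U : Subgroup X) g = a at *
  generalize g4bn ℚ (U : Subgroup X) g' = b at *
  have goal : (Qn (U : Subgroup X) g' : ℚ) - Qn (U : Subgroup X) g = 0 := by
    generalize (Qn (U : Subgroup X) g' : ℚ) = Q' at *
    generalize (Qn (U : Subgroup X) g : ℚ) = Q at *
    have la : ji * (Q • a - E) * a = 1 := by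
      rw [mul_assoc, sub_mul, smul_mul_assoc, q, add_sub_cancel_right, ← i1]
    have lb : ji' * (Q' • b - E') * b = 1 := by
      rw [mul_assoc, sub_mul, smul_mul_assoc, q', add_sub_cancel_right, ← i2]
    have ac : a * (b * a) = b * a * b := by rw [← mul_assoc, br]
    have f1 : (j + E * a) * (b * a) = b * a * (j' + E2 * b) := by
      rw [add_mul, mul_add, ← mul_assoc j, j1, mul_assoc b j0, j2, mul_assoc E, ac,
        ← mul_assoc E, ← mul_assoc E, ← e1, mul_assoc b E1, ← e2]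
      simp only [mul_assoc]
    have f2 : b * a * (Q' • (j' + E2 * b)) = b * a * (Q • (j' + E' * b)) := by
      rw [mul_smul_comm, ← f1, ← q, ← q', mul_smul_comm, mul_smul_comm, smul_mul_assoc, smul_comm,
        mul_assoc a a, ac, ← mul_assoc a, ac, mul_assoc _ b b]
    have f3 : Q' • (j' + E2 * b) = Q • (j' + E' * b) := by
      have c : ∀ x, ji * (Q • a - E) * (ji' * (Q' • b - E')) * (b * a * x) = x := fun x => by
        rw [mul_assoc b, mul_assoc, ← mul_assoc _ b, lb, one_mul, ← mul_assoc, la, one_mul]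
      rw [← c (Q' • _), f2, c]
    refine key _ (ji' * (Q • E' - Q' • E2)) (mul_mem mi (sub_mem (Subalgebra.smul_mem _ hE' _)
      (Subalgebra.smul_mem _ hE2 _))) ?_
    rw [i2, ← mul_smul_comm, mul_assoc, sub_mul, smul_mul_assoc, smul_mul_assoc, sub_smul]
    rw [smul_add, smul_add] at f3
    congr 1
    rw [sub_eq_sub_iff_add_eq_add, f3, add_comm]
  exact_mod_cast sub_eq_zero.1 goal

/-- the parameters of the `n i`, `0 < i`, agree. -/
theorem TB.qn_eq (h : TB p k U N n) {i : ℕ} (h0 : 0 < i) (hi : i < k) :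
    Qn (U : Subgroup X) (n i) = Qn (U : Subgroup X) (n 1) := by
  induction i with
  | zero => omega
  | succ i ih =>
    rcases Nat.eq_zero_or_pos i with rfl | h1
    · rfl
    · rw [g4b_qn h h1 hi, ih h1 (by omega)]

variable (F U N) in
/-- the idempotent of the coroot subgroup. -/
noncomputable def g4e (g : X) : MonoidAlgebra F X :=
  (Nat.card (Tor U N) : F)⁻¹ • ∑ᶠ s : Tor U N, jt F (U : Subgroup X) (g * s * g⁻¹ * (s : X)⁻¹)

omit [Finite X] [CharZero F] hr in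
theorem g4e_def [Fintype (Tor U N)] (g : X) : g4e U N F g = (Nat.card (Tor U N) : F)⁻¹ •
    ∑ s : Tor U N, jt F (U : Subgroup X) (g * s * g⁻¹ * (s : X)⁻¹) := by
  rw [g4e, finsum_eq_sum_of_fintype]

omit [Finite X] hp hr in
theorem g4b_ph (h : BV p U N) {g t : X} (hg : g ∈ N) (ht : t ∈ Tor U N) :
    g * t * g⁻¹ * t⁻¹ ∈ Tor U N := mul_mem (g4b_cj h hg ht) (inv_mem ht)

omit hp in
theorem g4e_mem (h : BV p U N) {g : X} (hg : g ∈ N) : g4e U N F g ∈ g4S U N F := by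
  have _ := Fintype.ofFinite (Tor U N)
  rw [g4e_def]
  exact Subalgebra.smul_mem _ (sum_mem fun s _ => g4S_jt (g4b_ph h hg s.2)) _

omit hp in
theorem g4e_abs (h : BV p U N) {g c : X} (hg : g ∈ N) (hc : c ∈ Tor U N) :
    g4e U N F g * jt F U (g * c * g⁻¹ * c⁻¹) = g4e U N F g := by
  have _ := Fintype.ofFinite (Tor U N)
  rw [g4e_def, smul_mul_assoc, Finset.sum_mul, ← Equiv.sum_comp
    (Equiv.mulRight (⟨c, hc⟩ : Tor U N))
    fun s : Tor U N => jt F (U : Subgroup X) (g * s * g⁻¹ * (s : X)⁻¹)]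
  refine congrArg _ (Finset.sum_congr rfl fun s _ => ?_)
  rw [← jt_mul (g4b_ph h hg s.2) (g4b_ph h hg hc), mul_assoc _ (s : X)⁻¹,
    h.ab _ (inv_mem s.2) _ (g4b_ph h hg hc)]
  refine congrArg _ ?_
  change _ = g * (s * c) * g⁻¹ * ((s : X) * c)⁻¹
  group

omit hr in
theorem g4e_mul {g : X} {a : MonoidAlgebra F X}
    (h : ∀ s ∈ Tor U N, jt F (U : Subgroup X) (g * s * g⁻¹ * s⁻¹) * a = a) :
    g4e U N F g * a = a := by
  have _ := Fintype.ofFinite (Tor U N)
  rw [g4e_def, smul_mul_assoc, Finset.sum_mul, Finset.sum_congr rfl fun x _ => h x.1 x.2,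
    Finset.sum_const, Finset.card_univ, ← Nat.card_eq_fintype_card, ← Nat.cast_smul_eq_nsmul F,
    inv_smul_smul₀ zAv_card]

omit hp hr in
theorem g4e_T (h : BV p U N) {g : X} (hg : g ∈ N) (h2 : g * g ∈ Tor U N) :
    g4e U N F g * tau F U g = tau F U g * g4e U N F g := by
  have _ := Fintype.ofFinite (Tor U N)
  rw [g4e_def, smul_mul_assoc, mul_smul_comm, Finset.sum_mul, Finset.mul_sum, ← Equiv.sum_comp
    (Equiv.inv (Tor U N))]
  refine congrArg _ (Finset.sum_congr rfl fun s _ => ?_)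
  refine g4b_sw (g4b_ph h hg (Equiv.inv (Tor U N) s).2) (g4b_ph h hg s.2) ?_
  change g * (s : X)⁻¹ * g⁻¹ * (s : X)⁻¹⁻¹ * g = _
  rw [inv_inv, h.ab _ (g4b_cj h hg (inv_mem s.2)) _ s.2, ← mul_assoc g, ← mul_assoc g,
    ← mul_assoc g, h.ab _ h2 _ s.2]
  group

theorem g4b_sq (h : TB p k U N n) {i : ℕ} (h0 : 0 < i) (hi : i < k) :
    n i * n i * (n i * n i) = 1 ∧ ∃ c ∈ Tor U N, n i * n i = n i * c * (n i)⁻¹ * c⁻¹ := by
  obtain ⟨c, hc, e⟩ := inv_conj h.v (h.w.mem i hi) (h.w.nt hi) (h.one i h0 hi)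
  have s := h.w.sq i hi
  generalize n i = g at *
  refine ⟨?_, c, hc, ?_⟩
  · have : g⁻¹ * g⁻¹ = g * g := by
      conv_lhs => rw [e]
      rw [show c * g * c⁻¹ * (c * g * c⁻¹) = c * (g * g) * c⁻¹ by group, h.v.ab c hc _ s]
      group
    conv_lhs => enter [1]; rw [← this]
    group
  · have : g = c * g⁻¹ * c⁻¹ := by
      have e2 := congrArg (·⁻¹) e
      simpa only [mul_inv_rev, inv_inv, mul_assoc] using e2
    rw [mul_assoc g, mul_assoc g, ← this]

theorem g4b_qT (h : TB p k U N n) {i : ℕ} (h0 : 0 < i) (hi : i < k) :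
    tau F U (n i) * tau F U (n i) = (Qn (U : Subgroup X) (n i) : F) • jt F U (n i * n i) +
      ((Qn (U : Subgroup X) (n i) : F) - 1) • (g4e U N F (n i) * tau F U (n i)) := by
  have m := h.w.mem i hi
  have s := h.w.sq i hi
  obtain ⟨Y, _, _, t, hY, ht, ha, -, hu, e⟩ := tau_sq h.v m s (h.ts.atom h.v hi)
  obtain ⟨-, c, hc, ec⟩ := g4b_sq h h0 hi
  have one := h.one i h0 hi
  generalize n i = g at *
  have k1 : ∀ y, g4e U N F g * jt F U (t y * (g * g)) = g4e U N F g := fun y => by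
    obtain ⟨u, hu, h1, v, hv, w, hw, e1⟩ := hu y
    obtain ⟨b, hb, v', hv', w', hw', e2⟩ := (one u hu).resolve_left h1
    have e3 : t y * g = b * g * b⁻¹ := h.v.dc (mul_mem (ht y).1 m)
      (mul_mem (mul_mem hb.1 m) (inv_mem hb.1)) (mul_mem (inv_mem hv') hv)
      (mul_mem hw (inv_mem hw')) (by
        rw [show v'⁻¹ * v * (t y * g) * (w * w'⁻¹) = v'⁻¹ * (v * (t y * g) * w) * w'⁻¹ by group,
          ← e1, e2]
        group)
    have e4 : t y = g * b⁻¹ * g⁻¹ * b⁻¹⁻¹ := by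
      rw [inv_inv, h.v.ab _ (g4b_cj h.v m (inv_mem hb)) _ hb, eq_mul_inv_of_mul_eq e3]
      group
    rw [jt_mul (ht y) s, ← mul_assoc, e4, g4e_abs h.v m (inv_mem hb), ec, g4e_abs h.v m hc]
  have k2 : g4e U N F g * ∑ y, jt F U (t y * (g * g)) = ∑ y, jt F U (t y * (g * g)) :=
    g4e_mul fun b hb => by
      rw [Finset.mul_sum, ← Equiv.sum_comp (MulAction.toPerm (⟨b, hb⟩ : Tor U N))
        fun y => jt F (U : Subgroup X) (t y * (g * g))]
      refine Finset.sum_congr rfl fun y _ => ?_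
      rw [← jt_mul (g4b_ph h.v m hb) (mul_mem (ht y) s), MulAction.toPerm_apply, ha,
        mul_assoc _ (t y), h.v.ab _ (ht y) _ (inv_mem (⟨b, hb⟩ : Tor U N).2)]
      simp only [mul_assoc]
  rw [e F, ← k2, Finset.mul_sum, Finset.sum_congr rfl fun y _ => k1 y, Finset.sum_const,
    Finset.card_univ, ← hY, Nat.cast_add, Nat.cast_one, add_sub_cancel_right,
    Nat.cast_smul_eq_nsmul, smul_mul_assoc]

omit hp hr in
theorem g4b_tc {g m : X} (h2 : g * g ∈ Tor U N) (e : g * m = m * g) :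
    jt F (U : Subgroup X) (g * g) * tau F U m = tau F U m * jt F U (g * g) :=
  g4b_sw h2 h2 (by rw [mul_assoc, e, ← mul_assoc, e, mul_assoc])

theorem g4b_bt (h : TB p k U N n) : Br k fun i => tau F (U : Subgroup X) (n i) := by
  obtain ⟨b1, b2, b3⟩ := g4b_br (F := F) h
  refine ⟨fun i j h1 h2 => ?_, fun i h0 h1 => ?_, fun h1 => ?_⟩
  · simp only [g4b_tau, smul_mul_assoc, mul_smul_comm]
    rw [smul_comm]
    exact congrArg (fun z => _ • _ • z) (b1 i j h1 h2)
  · simp only [g4b_tau, smul_mul_assoc, mul_smul_comm, g4b_qn h h0 h1]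
    exact congrArg (fun z => _ • _ • _ • z) (b2 i h0 h1)
  · simp only [g4b_tau, smul_mul_assoc, mul_smul_comm, smul_smul]
    have e := b3 h1
    simp only [] at e
    rw [e]
    congr 1
    ring

/-- the datum attached to the group. -/
theorem TB.ex_yd (h : TB p k U N n) (u : F) (κ κ0 : ℕ) (u0 : u ≠ 0)
    (hu : ∀ m : ℤ, u ^ m = 1 → m = 0) (hκ : 0 < κ)
    (hQ : (Qn (U : Subgroup X) (n 1) : F) = u ^ (2 * κ))
    (hQ0 : (Qn (U : Subgroup X) (n 0) : F) = u ^ (2 * κ0)) :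
    ∃ d : YD F (MonoidAlgebra F X), d.u = u ∧ Mt k U N n d := by
  have k3 := h.k3
  have k0 : 0 < k := by omega
  have k1 : 1 < k := by omega
  have m := h.w.mem
  have s := h.w.sq
  obtain ⟨g1, g2, g3⟩ := h.w.br
  obtain ⟨b1, b2, b3⟩ := g4b_bt (F := F) h
  obtain ⟨E, hE, qx, -⟩ := g4b_quad (F := F) h k0
  have c0 : n 0 * (n 1 * n 1)⁻¹ * (n 0)⁻¹ ∈ Tor U N := g4b_cj h.v (m 0 k0) (inv_mem (s 1 k1))
  have hz : n 1 * n 1 * n 0 * (n 1 * n 1)⁻¹ * (n 0)⁻¹ ∈ Tor U N := by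
    have := mul_mem (s 1 k1) c0
    rwa [← mul_assoc, ← mul_assoc] at this
  refine ⟨{
    k := k, κ := κ, κ0 := κ0, u := u, S := g4S U N F, x := tau F U (n 0)
    η := jt F U (n 0 * n 0), ηi := jt F U (n 0 * n 0)⁻¹
    ζ := jt F U (n 1 * n 1 * n 0 * (n 1 * n 1)⁻¹ * (n 0)⁻¹), E := E
    T := fun a => tau F U (n (a + 1)), e := fun a => g4e U N F (n (a + 1))
    h := fun a => jt F U (n (a + 1) * n (a + 1))
    k0 := k0, hκ := hκ, u0 := u0, hu := hu, cm := g4S_cm h.v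
    mη := g4S_jt (s 0 k0), mηi := g4S_jt (inv_mem (s 0 k0)), mζ := g4S_jt hz, mE := hE
    me := fun a ha => g4e_mem h.v (m _ ha), mh := fun a ha => g4S_jt (s _ ha)
    ηη := by rw [← jt_mul (s 0 k0) (inv_mem (s 0 k0)), mul_inv_cancel, jt_one]
    nx := g4S_nt h.v (m 0 k0) (s 0 k0)
    nT := fun a ha => g4S_nt h.v (m _ ha) (s _ ha)
    qx := by rw [qx, hQ0]
    qT := fun a ha => by rw [g4b_qT h a.succ_pos ha, h.qn_eq a.succ_pos ha, hQ]
    ee := fun a ha => g4e_mul fun c hc => by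
      rw [g4S_cm h.v _ (g4S_jt (g4b_ph h.v (m _ ha) hc)) _ (g4e_mem h.v (m _ ha)),
        g4e_abs h.v (m _ ha) hc]
    eh := fun a ha => by
      obtain ⟨-, c, hc, ec⟩ := g4b_sq h a.succ_pos ha
      rw [ec, g4e_abs h.v (m _ ha) hc]
    hh := fun a ha => by rw [← jt_mul (s _ ha) (s _ ha), (g4b_sq h a.succ_pos ha).1, jt_one]
    eT := fun a ha => g4e_T h.v (m _ ha) (s _ ha)
    hT := fun a ha => g4b_tc (s _ ha) rfl
    ab := fun a ha => g4S_ind (fun t ht => ?ab) (by simp)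
      (fun y z p q => by rw [mul_add, add_mul, mul_add, mul_add, p, q])
      fun c y p => by rw [mul_smul_comm, smul_mul_assoc, mul_smul_comm, mul_smul_comm, p]
    TT := fun a c h1 h2 => b1 (a + 1) (c + 1) (by omega) h2
    T3 := fun a ha => b2 (a + 1) a.succ_pos ha
    xT := fun c h1 h2 => b1 0 (c + 1) (by omega) h2
    x4 := b3
    hT1 := fun a c h1 h2 => g4b_tc (s _ (by omega)) (g1 (a + 1) (c + 1) (by omega) h2)
    hT2 := fun a c h1 h2 => g4b_tc (s _ h2) (g1 (a + 1) (c + 1) (by omega) h2).symm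
    h3 := fun a ha => ?h3
    xh := fun c h1 h2 => (g4b_tc (s _ h2) (g1 0 (c + 1) (by omega) h2).symm).symm
    hx := fun _ => ?hx
    ηx := g4b_tc (s 0 k0) rfl
    ηT := fun c h1 h2 => g4b_tc (s 0 k0) (g1 0 (c + 1) (by omega) h2)
    η4 := fun _ => ?e4
    ζζ := ?zz
    ζx := g4b_sw hz hz (h.cen 0 k0).eq
    ζT := fun a ha => g4b_sw hz hz (h.cen _ ha).eq }, rfl,
    ⟨rfl, fun _ => g4S_mem, rfl, fun _ => rfl, rfl, rfl, fun _ => rfl, hQ.symm⟩⟩
  case ab =>
    have hc := g4b_cj h.v (m _ ha) ht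
    rw [← g4b_sw hc ht (by group), ← inv_mul_cancel_right (n (a + 1) * t * (n (a + 1))⁻¹) t,
      jt_mul (g4b_ph h.v (m _ ha) ht) ht, ← mul_assoc, ← mul_assoc, g4e_abs h.v (m _ ha) ht,
      mul_assoc]
  case h3 =>
    have ha1 : a + 1 < k := by omega
    have hc := g4b_cj h.v (m (a + 1 + 1) ha) (s _ ha1)
    have e := g2 (a + 1) a.succ_pos ha
    rw [mul_assoc, ← g4b_sw hc (s _ ha1) (by group), ← mul_assoc,
      ← g4b_sw (s (a + 1 + 1) ha) hc ?_, mul_assoc]
    generalize n (a + 1 + 1) = y at *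
    generalize n (a + 1) = x at *
    have : x * y * x * x = y * y * x * y := by
      rw [e, mul_assoc y x, mul_assoc y, e]
      simp only [mul_assoc]
    rw [← mul_inv_cancel_right (y * y * x) y, ← this]
    simp only [mul_assoc]
  case hx =>
    have hc := g4b_cj h.v (m 0 k0) (s 1 k1)
    rw [← g4b_sw hc (s 1 k1) (by group), ← mul_assoc, ← jt_mul hz hc]
    congr 2
    group
  case e4 =>
    have hc := g4b_cj h.v (m 1 k1) (s 0 k0)
    have hd := g4b_cj h.v (m 0 k0) hc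
    have e := g3 k1
    rw [mul_assoc (_ * _), ← g4b_sw hc (s 0 k0) (by group), ← mul_assoc (_ * _),
      mul_assoc _ _ (jt F _ _), ← g4b_sw hd hc (by group), ← mul_assoc (tau F _ _),
      ← g4b_sw (s 0 k0) hd ?_]
    · simp only [mul_assoc]
    · generalize n 0 = x at *
      generalize n 1 = y at *
      have : y * x * y * x * x = x * x * y * x * y := by
        rw [← e, mul_assoc x y, mul_assoc x, mul_assoc x, ← e]
        simp only [mul_assoc]
      rw [← mul_inv_cancel_right (x * x * y) x, ← mul_inv_cancel_right (x * x * y * x) y, ← this]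
      simp only [mul_assoc]
  case zz =>
    have e := (g4b_sq h Nat.one_pos k1).1
    have c := h.v.ab _ c0 _ (s 1 k1)
    rw [← jt_mul hz hz, ← jt_one (U := U)]
    congr 1
    generalize n 1 * n 1 = y at *
    generalize n 0 = x at *
    have e' : y⁻¹ * y⁻¹ = 1 := by rw [← mul_inv_rev, e, inv_one]
    calc _ = y * (x * y⁻¹ * x⁻¹ * y) * (x * y⁻¹ * x⁻¹) := by group
      _ = y * y * (x * (y⁻¹ * y⁻¹) * x⁻¹) := by
        rw [c]
        simp only [mul_assoc, inv_mul_cancel_left]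
      _ = 1 := by rw [e, e', mul_one, mul_inv_cancel, mul_one]

end Pool.Agent.Lib.MP_1ae3da_al.JM
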