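import Pool.Agent.Lib.MP_1ae3da_al.J.Yd

/-! Relations among the Jucys-Murphy elements. -/

namespace Pool.Agent.Lib.MP_1ae3da_al.JM.YD

variable {F H : Type} [Field F] [Ring H] [Algebra F H] (d : YD F H) {a b c : ℕ}

theorem Q0 : d.Q ≠ 0 := pow_ne_zero _ d.u0

theorem Q1 : d.Q - 1 ≠ 0 := by
  intro h
  have h1 : d.u ^ ((2 * d.κ : ℕ) : ℤ) = 1 := by
    rw [zpow_natCast]; exact sub_eq_zero.1 h
  have h2 := d.hu _ h1
  have h3 := d.hκ
  omega

theorem k1_sq (h : a + 1 < d.k) : (d.T a - (d.Q - 1) • d.e a) * d.T a = d.Q • d.h a := by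
  rw [sub_mul, smul_mul_assoc, d.qT a h]
  exact add_sub_cancel_right _ _

theorem T_Ti (h : a + 1 < d.k) : d.T a * d.Ti a = 1 := by
  have h1 : d.T a * (d.T a - (d.Q - 1) • d.e a) = d.Q • d.h a := by
    rw [← d.k1_sq h, sub_mul, mul_sub, smul_mul_assoc, mul_smul_comm, d.eT a h]
  rw [Ti, mul_smul_comm, ← mul_assoc, ← d.hT a h, mul_assoc, h1, mul_smul_comm, d.hh a h,
    smul_smul, inv_mul_cancel₀ d.Q0, one_smul]

theorem Ti_T (h : a + 1 < d.k) : d.Ti a * d.T a = 1 := by
  rw [Ti, smul_mul_assoc, mul_assoc, d.k1_sq h, mul_smul_comm, d.hh a h,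
    smul_smul, inv_mul_cancel₀ d.Q0, one_smul]

theorem T_unit (h : a + 1 < d.k) : IsUnit (d.T a) :=
  ⟨⟨d.T a, d.Ti a, d.T_Ti h, d.Ti_T h⟩, rfl⟩

theorem k1_ηη : d.ηi * d.η = 1 := by rw [d.cm _ d.mηi _ d.mη, d.ηη]

theorem k1_x_unit : IsUnit d.x := by
  obtain ⟨E', -, -, h2⟩ := d.nx d.E d.mE
  have c0 : d.u ^ (2 * d.κ0) ≠ 0 := pow_ne_zero _ d.u0
  have hl : ((d.u ^ (2 * d.κ0))⁻¹ • (d.ηi * (d.x - d.E))) * d.x = 1 := by
    rw [smul_mul_assoc, mul_assoc, sub_mul, d.qx, add_sub_cancel_right, mul_smul_comm, d.k1_ηη,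
      smul_smul, inv_mul_cancel₀ c0, one_smul]
  have hr : d.x * ((d.u ^ (2 * d.κ0))⁻¹ • ((d.x - E') * d.ηi)) = 1 := by
    rw [mul_smul_comm, ← mul_assoc, mul_sub, d.qx, h2, add_sub_cancel_right, smul_mul_assoc, d.ηη,
      smul_smul, inv_mul_cancel₀ c0, one_smul]
  have he := left_inv_eq_right_inv hl hr
  exact ⟨⟨d.x, _, hr, by rw [← he]; exact hl⟩, rfl⟩

theorem X_unit (h : a < d.k) : IsUnit (d.X a) := by
  induction a with
  | zero => exact d.k1_x_unit
  | succ a ih =>
    have hu : IsUnit (d.h a) := ⟨⟨d.h a, d.h a, d.hh a h, d.hh a h⟩, rfl⟩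
    rw [X, Algebra.smul_def]
    exact ((IsUnit.mk0 _ (inv_ne_zero d.Q0)).map (algebraMap F H)).mul
      ((((d.T_unit h).mul (ih (by omega))).mul (d.T_unit h)).mul hu)

theorem nX (h : a < d.k) {y : H} (hy : y ∈ d.S) :
    ∃ y' ∈ d.S, d.X a * y = y' * d.X a ∧ d.X a * y' = y * d.X a := by
  induction a generalizing y with
  | zero => exact d.nx y hy
  | succ a ih =>
    obtain ⟨y1, m1, a1, b1⟩ := d.nT a h y hy
    obtain ⟨y2, m2, a2, b2⟩ := ih (by omega) m1
    obtain ⟨y3, m3, a3, b3⟩ := d.nT a h y2 m2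
    have key : ∀ {p q r s : H}, p ∈ d.S → d.T a * p = q * d.T a → d.X a * q = r * d.X a →
        d.T a * r = s * d.T a → d.X (a + 1) * p = s * d.X (a + 1) := by
      intro p q r s mp e1 e2 e3
      rw [X, smul_mul_assoc, mul_smul_comm]
      congr 1
      calc d.T a * d.X a * d.T a * d.h a * p = d.T a * d.X a * (d.T a * p) * d.h a := by
            rw [mul_assoc _ (d.h a), d.cm _ (d.mh a h) _ mp]; simp only [mul_assoc]
        _ = d.T a * (d.X a * q) * d.T a * d.h a := by rw [e1]; simp only [mul_assoc]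
        _ = d.T a * r * d.X a * d.T a * d.h a := by rw [e2]; simp only [mul_assoc]
        _ = _ := by rw [e3]; simp only [mul_assoc]
    exact ⟨y3, m3, key hy a1 a2 a3, key m3 b3 b2 b1⟩

/-- what commutes with `T a` and `h a` commutes with `e a`. -/
theorem cm_e (h : a + 1 < d.k) {y : H} (h1 : y * d.T a = d.T a * y) (h2 : y * d.h a = d.h a * y) :
    y * d.e a = d.e a * y := by
  have c1 : Commute y (d.T a) := h1
  have c2 : Commute y (d.h a) := h2
  have e1 : (d.Q - 1) • (d.e a * d.T a) = d.T a * d.T a - d.Q • d.h a := by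
    rw [d.qT a h]; exact (add_sub_cancel_left _ _).symm
  have c3 : Commute y ((d.Q - 1) • (d.e a * d.T a)) := by
    rw [e1]; exact (c1.mul_right c1).sub_right (c2.smul_right _)
  have c4 : Commute y (d.e a * d.T a) := by
    have := c3.smul_right (d.Q - 1)⁻¹
    rwa [smul_smul, inv_mul_cancel₀ d.Q1, one_smul] at this
  refine (d.T_unit h).mul_right_cancel ?_
  rw [mul_assoc, c4.eq, mul_assoc, mul_assoc, h1]

theorem e_abs (h : a + 1 < d.k) {y y' : H} (hy : y ∈ d.S) (h1 : d.T a * y = y' * d.T a) :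
    d.e a * y' = d.e a * y := by
  refine (d.T_unit h).mul_right_cancel ?_
  rw [mul_assoc, mul_assoc, ← h1, d.ab a h y hy]

theorem k1_conj (h : a + 1 < d.k) {y : H} (hy : y ∈ d.S) :
    d.T a * y * d.Ti a ∈ d.S ∧ d.T a * (d.T a * y * d.Ti a) = y * d.T a := by
  obtain ⟨y1, m1, a1, b1⟩ := d.nT a h y hy
  rw [a1, mul_assoc y1, d.T_Ti h, mul_one]
  exact ⟨m1, b1⟩

theorem met (h : a < d.k) : d.et a ∈ d.S := by
  induction a with
  | zero => exact d.mη
  | succ a ih => exact (d.k1_conj h (ih (by omega))).1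

theorem mei (h : a < d.k) : d.ei a ∈ d.S := by
  induction a with
  | zero => exact d.mηi
  | succ a ih => exact (d.k1_conj h (ih (by omega))).1

theorem et_ei (h : a < d.k) : d.et a * d.ei a = 1 := by
  induction a with
  | zero => exact d.ηη
  | succ a ih =>
    calc d.et (a + 1) * d.ei (a + 1)
        = d.T a * (d.et a * (d.Ti a * d.T a) * d.ei a) * d.Ti a := by
          rw [et, ei]; simp only [mul_assoc]
      _ = 1 := by rw [d.Ti_T h, mul_one, ih (by omega), mul_one, d.T_Ti h]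

theorem ei_et (h : a < d.k) : d.ei a * d.et a = 1 := by
  rw [d.cm _ (d.mei h) _ (d.met h), d.et_ei h]

theorem T_et0 (h : a + 1 < d.k) : d.T a * d.et a = d.et (a + 1) * d.T a := by
  rw [et, mul_assoc, d.Ti_T h, mul_one]

theorem T_et1 (h : a + 1 < d.k) : d.T a * d.et (a + 1) = d.et a * d.T a :=
  (d.k1_conj h (d.met (by omega))).2

theorem T_ei0 (h : a + 1 < d.k) : d.T a * d.ei a = d.ei (a + 1) * d.T a := by
  rw [ei, mul_assoc, d.Ti_T h, mul_one]

theorem T_ei1 (h : a + 1 < d.k) : d.T a * d.ei (a + 1) = d.ei a * d.T a :=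
  (d.k1_conj h (d.mei (by omega))).2

theorem k1_cTi (h : a + 1 < d.k) {y : H} (h1 : Commute y (d.T a)) : Commute y (d.Ti a) := by
  refine (d.T_unit h).mul_right_cancel ?_
  rw [mul_assoc, d.Ti_T h, mul_one, mul_assoc, h1.eq, ← mul_assoc, d.Ti_T h, one_mul]

theorem T_et (hc : c + 1 < d.k) (ha : a < d.k) (h0 : a ≠ c) (h1 : a ≠ c + 1) :
    d.T c * d.et a = d.et a * d.T c := by
  induction a using Nat.strong_induction_on generalizing c with
  | _ a ih =>
  rcases a with _ | a
  · exact (d.ηT c (by omega) hc).symm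
  have far : Commute (d.T c) (d.T a) → a ≠ c + 1 →
      d.T c * d.et (a + 1) = d.et (a + 1) * d.T c := fun t1 n1 =>
    ((t1.mul_right (ih a (by omega) hc (by omega) (by omega) n1)).mul_right (d.k1_cTi ha t1)).eq
  rcases lt_trichotomy a (c + 1) with l | l | l
  · exact far (d.TT a c (by omega) hc).symm (by omega)
  · subst l
    have i1 := ih c (by omega) ha (by omega) (by omega) (by omega)
    have e0 := d.T_et0 hc
    have e1 := d.T_et0 ha
    have b := d.T3 c ha
    refine ((d.T_unit ha).mul (d.T_unit hc)).mul_right_cancel ?_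
    calc d.T c * d.et (c + 1 + 1) * (d.T (c + 1) * d.T c)
        = d.T c * (d.et (c + 1 + 1) * d.T (c + 1)) * d.T c := by simp only [mul_assoc]
      _ = d.T c * d.T (c + 1) * (d.et (c + 1) * d.T c) := by rw [← e1]; simp only [mul_assoc]
      _ = d.T c * d.T (c + 1) * d.T c * d.et c := by rw [← e0]; simp only [mul_assoc]
      _ = d.T (c + 1) * d.T c * (d.T (c + 1) * d.et c) := by rw [b]; simp only [mul_assoc]
      _ = d.T (c + 1) * (d.T c * d.et c) * d.T (c + 1) := by rw [i1]; simp only [mul_assoc]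
      _ = d.T (c + 1) * d.et (c + 1) * d.T c * d.T (c + 1) := by rw [e0]; simp only [mul_assoc]
      _ = d.et (c + 1 + 1) * (d.T (c + 1) * d.T c * d.T (c + 1)) := by
          rw [e1]; simp only [mul_assoc]
      _ = _ := by rw [← b]; simp only [mul_assoc]
  · exact far (d.TT c a l ha) (by omega)

theorem T_ei (hc : c + 1 < d.k) (ha : a < d.k) (h0 : a ≠ c) (h1 : a ≠ c + 1) :
    d.T c * d.ei a = d.ei a * d.T c := by
  calc d.T c * d.ei a = d.ei a * d.et a * d.T c * d.ei a := by rw [d.ei_et ha, one_mul]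
    _ = d.ei a * d.T c * (d.et a * d.ei a) := by
        rw [mul_assoc (d.ei a), ← d.T_et hc ha h0 h1]; simp only [mul_assoc]
    _ = _ := by rw [d.et_ei ha, mul_one]

/-- the common image of `h c` under `T (c + 1)` and of `h (c + 1)` under `T c`. -/
theorem k1_mid (h : c + 2 < d.k) : ∃ m ∈ d.S,
    d.T (c + 1) * d.h c = m * d.T (c + 1) ∧ d.T (c + 1) * m = d.h c * d.T (c + 1) ∧
    d.T c * d.h (c + 1) = m * d.T c ∧ d.T c * m = d.h (c + 1) * d.T c := by
  have hc : c + 1 < d.k := by omega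
  obtain ⟨m, mm, a1, b1⟩ := d.nT (c + 1) h _ (d.mh c hc)
  obtain ⟨m', -, a2, b2⟩ := d.nT c hc _ (d.mh (c + 1) h)
  have e1 : d.T c * m = d.h (c + 1) * d.T c := by
    refine (d.T_unit h).mul_right_cancel ?_
    rw [mul_assoc, ← a1, ← mul_assoc, d.h3 c h, mul_assoc]
  have e2 : m = m' := (d.T_unit hc).mul_left_cancel (e1.trans b2.symm)
  exact ⟨m, mm, a1, b1, e2 ▸ a2, e1⟩

theorem k1_X2 (c : ℕ) : d.X (c + 1 + 1) = (d.Q⁻¹ * d.Q⁻¹) •
    (d.T (c + 1) * d.T c * d.X c * (d.T c * d.h c * d.T (c + 1) * d.h (c + 1))) := by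
  rw [X, X, mul_smul_comm, smul_mul_assoc, smul_mul_assoc, smul_smul]
  simp only [mul_assoc]

theorem T_X (hc : c + 1 < d.k) (ha : a < d.k) (h0 : a ≠ c) (h1 : a ≠ c + 1) :
    d.T c * d.X a = d.X a * d.T c := by
  induction a using Nat.strong_induction_on generalizing c with
  | _ a ih =>
  rcases a with _ | a
  · exact (d.xT c (by omega) hc).symm
  have far : Commute (d.T c) (d.T a) → Commute (d.T c) (d.h a) → a ≠ c + 1 →
      d.T c * d.X (a + 1) = d.X (a + 1) * d.T c := fun t1 t2 n1 =>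
    ((((t1.mul_right (ih a (by omega) hc (by omega) (by omega) n1)).mul_right t1).mul_right
      t2).smul_right _).eq
  rcases lt_trichotomy a (c + 1) with l | l | l
  · exact far (d.TT a c (by omega) hc).symm (d.hT1 a c (by omega) hc).symm (by omega)
  · subst l
    have i1 := ih c (by omega) ha (by omega) (by omega) (by omega)
    obtain ⟨m, mm, a1, b1, a2, -⟩ := d.k1_mid ha
    have b := d.T3 c ha
    have w : d.T c * d.h c * d.T (c + 1) * d.h (c + 1) = d.h c * m * (d.T c * d.T (c + 1)) := by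
      rw [← d.hT c hc, mul_assoc _ (d.T (c + 1)), ← d.hT (c + 1) ha]
      calc d.h c * d.T c * (d.h (c + 1) * d.T (c + 1))
          = d.h c * (d.T c * d.h (c + 1)) * d.T (c + 1) := by simp only [mul_assoc]
        _ = _ := by rw [a2]; simp only [mul_assoc]
    have w2 : d.T (c + 1) * (d.h c * m * (d.T c * d.T (c + 1))) =
        d.h c * m * (d.T c * d.T (c + 1)) * d.T c := by
      calc d.T (c + 1) * (d.h c * m * (d.T c * d.T (c + 1)))
          = d.T (c + 1) * d.h c * m * (d.T c * d.T (c + 1)) := by simp only [mul_assoc]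
        _ = m * (d.T (c + 1) * m) * (d.T c * d.T (c + 1)) := by rw [a1]; simp only [mul_assoc]
        _ = m * d.h c * (d.T (c + 1) * d.T c * d.T (c + 1)) := by rw [b1]; simp only [mul_assoc]
        _ = _ := by rw [← b, d.cm _ mm _ (d.mh c hc)]; simp only [mul_assoc]
    rw [k1_X2, w, mul_smul_comm, smul_mul_assoc]
    congr 1
    generalize d.h c * m * (d.T c * d.T (c + 1)) = W at w2 ⊢
    calc d.T c * (d.T (c + 1) * d.T c * d.X c * W)
        = d.T c * d.T (c + 1) * d.T c * d.X c * W := by simp only [mul_assoc]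
      _ = d.T (c + 1) * d.T c * (d.T (c + 1) * d.X c) * W := by rw [b]; simp only [mul_assoc]
      _ = d.T (c + 1) * d.T c * d.X c * (d.T (c + 1) * W) := by rw [i1]; simp only [mul_assoc]
      _ = _ := by rw [w2]; simp only [mul_assoc]
  · exact far (d.TT c a l ha) (d.hT2 c a l ha).symm (by omega)

theorem h_X (hc : c + 1 < d.k) (ha : a < d.k) (h0 : a ≠ c) (h1 : a ≠ c + 1) :
    d.h c * d.X a = d.X a * d.h c := by
  induction a using Nat.strong_induction_on generalizing c with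
  | _ a ih =>
  rcases a with _ | a
  · exact (d.xh c (by omega) hc).symm
  have far : Commute (d.h c) (d.T a) → a ≠ c + 1 →
      d.h c * d.X (a + 1) = d.X (a + 1) * d.h c := fun t1 n1 =>
    ((((t1.mul_right (ih a (by omega) hc (by omega) (by omega) n1)).mul_right t1).mul_right
      (d.cm _ (d.mh c hc) _ (d.mh a ha))).smul_right _).eq
  rcases lt_trichotomy a (c + 1) with l | l | l
  · exact far (d.hT2 a c (by omega) hc) (by omega)
  · subst l
    have i1 := ih c (by omega) ha (by omega) (by omega) (by omega)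
    obtain ⟨m, mm, a1, b1, a2, b2⟩ := d.k1_mid ha
    have w : d.h (c + 1) * (d.T c * d.h c * d.T (c + 1) * d.h (c + 1)) =
        d.T c * d.h c * d.T (c + 1) * d.h (c + 1) * d.h c := by
      calc d.h (c + 1) * (d.T c * d.h c * d.T (c + 1) * d.h (c + 1))
          = d.h (c + 1) * d.T c * d.h c * d.T (c + 1) * d.h (c + 1) := by simp only [mul_assoc]
        _ = d.T c * (m * d.h c) * d.T (c + 1) * d.h (c + 1) := by rw [← b2]; simp only [mul_assoc]
        _ = d.T c * d.h c * (m * d.T (c + 1)) * d.h (c + 1) := by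
            rw [d.cm _ mm _ (d.mh c hc)]; simp only [mul_assoc]
        _ = d.T c * d.h c * d.T (c + 1) * (d.h c * d.h (c + 1)) := by
            rw [← a1]; simp only [mul_assoc]
        _ = _ := by rw [d.cm _ (d.mh c hc) _ (d.mh (c + 1) ha)]; simp only [mul_assoc]
    rw [k1_X2, mul_smul_comm, smul_mul_assoc]
    congr 1
    generalize d.T c * d.h c * d.T (c + 1) * d.h (c + 1) = W at w ⊢
    calc d.h c * (d.T (c + 1) * d.T c * d.X c * W)
        = d.h c * d.T (c + 1) * d.T c * d.X c * W := by simp only [mul_assoc]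
      _ = d.T (c + 1) * (m * d.T c) * d.X c * W := by rw [← b1]; simp only [mul_assoc]
      _ = d.T (c + 1) * d.T c * (d.h (c + 1) * d.X c) * W := by rw [← a2]; simp only [mul_assoc]
      _ = d.T (c + 1) * d.T c * d.X c * (d.h (c + 1) * W) := by rw [i1]; simp only [mul_assoc]
      _ = _ := by rw [w]; simp only [mul_assoc]
  · exact far (d.hT1 c a l ha) (by omega)

theorem e_X (hc : c + 1 < d.k) (ha : a < d.k) (h0 : a ≠ c) (h1 : a ≠ c + 1) :
    d.e c * d.X a = d.X a * d.e c :=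
  (d.cm_e hc (d.T_X hc ha h0 h1).symm (d.h_X hc ha h0 h1).symm).symm

end Pool.Agent.Lib.MP_1ae3da_al.JM.YD
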