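import Pool.Agent.Lib.MP_1ae3da_al.J.Kd

/-! Pairs of positions. -/

namespace Pool.Agent.Lib.MP_1ae3da_al.JM.YD

variable {F H : Type} [Field F] [Ring H] [Algebra F H] {d : YD F H} {a b c : ℕ} {ε : H}

theorem k2_lc {x y z w : H} (h : x * y = z * w) (v : H) : x * (y * v) = z * (w * v) := by
  rw [← mul_assoc, h, mul_assoc]

theorem k2_lc1 {x y z : H} (h : x * y = z) (v : H) : x * (y * v) = z * v := by
  rw [← mul_assoc, h]

theorem k2_lc3 {x y z w t : H} (h : x * y = z * (w * t)) (v : H) :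
    x * (y * v) = z * (w * (t * v)) := by
  rw [← mul_assoc, h, mul_assoc, mul_assoc]

theorem X_ep0 (ha : a < d.k) : d.X a * ε = d.ep a ε * d.X a := by
  rw [ep, mul_assoc, Ring.inverse_mul_cancel _ (d.X_unit ha), mul_one]

theorem k2_ep (ha : a < d.k) (h : ε ∈ d.S) :
    d.ep a ε ∈ d.S ∧ d.X a * d.ep a ε = ε * d.X a := by
  obtain ⟨y, hy, h1, h2⟩ := d.nX ha h
  have e : d.ep a ε = y := (d.X_unit ha).mul_right_cancel ((X_ep0 ha).symm.trans h1)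
  rw [e]
  exact ⟨hy, h2⟩

theorem ep_mem (ha : a < d.k) (h : ε ∈ d.S) : d.ep a ε ∈ d.S := (k2_ep ha h).1
theorem X_ep1 (ha : a < d.k) (h : ε ∈ d.S) : d.X a * d.ep a ε = ε * d.X a := (k2_ep ha h).2

theorem k2_ei (ha : a < d.k) (hb : b < d.k) {y : H} (h : y * d.et a = y * d.et b) :
    y * d.ei a = y * d.ei b := by
  calc y * d.ei a = y * (d.et b * d.ei b) * d.ei a := by rw [d.et_ei hb, mul_one]
    _ = y * d.et a * (d.ei b * d.ei a) := by rw [← mul_assoc, ← h, mul_assoc]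
    _ = y * (d.et a * d.ei a) * d.ei b := by
        rw [d.cm _ (d.mei hb) _ (d.mei ha)]; simp only [mul_assoc]
    _ = y * d.ei b := by rw [d.et_ei ha, mul_one]

namespace Pr
variable (h : d.Pr a b ε)
include h

theorem ak : a < d.k := h.lt.trans h.bk

theorem ep_m : d.ep a ε ∈ d.S := ep_mem h.ak h.mem

theorem pb' : d.X b * d.ep a ε = ε * d.X b := by
  obtain ⟨y, -, h1, h2⟩ := d.nX h.bk h.mem
  have e : d.ep a ε = y := (d.X_unit h.bk).mul_right_cancel (h.pb.symm.trans h1)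
  rw [e, h2]

theorem ep_idem : d.ep a ε * d.ep a ε = d.ep a ε := by
  apply (d.X_unit h.ak).mul_right_cancel
  rw [mul_assoc, ← X_ep0 h.ak, ← mul_assoc, ← X_ep0 h.ak, mul_assoc, h.idem]

theorem ep_oth (hc : c < d.k) (h0 : c ≠ a) (h1 : c ≠ b) :
    d.ep a ε * d.X c = d.X c * d.ep a ε := by
  apply (d.X_unit h.ak).mul_right_cancel
  have e1 := d.XX hc h.ak h0
  calc d.ep a ε * d.X c * d.X a = d.ep a ε * (d.ζ * (d.X a * d.X c)) := by rw [mul_assoc, e1]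
    _ = d.ζ * (d.X a * (ε * d.X c)) := by
        rw [k2_lc (d.cm _ h.ep_m _ d.mζ), k2_lc (X_ep0 h.ak).symm]
    _ = d.X c * (d.X a * ε) := by
        rw [h.oth c hc h0 h1, k2_lc3 e1]
    _ = d.X c * d.ep a ε * d.X a := by rw [X_ep0 h.ak, mul_assoc]

theorem ep_et : d.ep a ε * d.et a = d.ep a ε * d.et b := by
  apply (d.X_unit h.ak).mul_right_cancel
  rw [mul_assoc, mul_assoc, d.et_X h.ak h.ak, d.et_X h.bk h.ak, k2_lc (X_ep0 h.ak).symm,
    k2_lc (X_ep0 h.ak).symm, h.et]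

theorem ei : ε * d.ei a = ε * d.ei b := k2_ei h.ak h.bk h.et
theorem ep_ei : d.ep a ε * d.ei a = d.ep a ε * d.ei b := k2_ei h.ak h.bk h.ep_et

theorem R_l : d.R a b ε = d.ep a ε * (d.X b * (d.X a * d.ei a)) := by
  rw [R, h.pb]; simp only [mul_assoc]

theorem R_r : d.R a b ε = d.X b * (d.X a * (d.ei a * d.ep a ε)) := by
  rw [R, mul_assoc (d.X b), ← X_ep1 h.ak h.mem, d.cm _ (d.mei h.ak) _ h.ep_m]
  simp only [mul_assoc]

theorem ep_R : d.ep a ε * d.R a b ε = d.R a b ε := by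
  rw [h.R_l, k2_lc1 h.ep_idem]

theorem R_ep : d.R a b ε * d.ep a ε = d.R a b ε := by
  rw [h.R_r]; simp only [mul_assoc]; rw [h.ep_idem]

theorem e_R : ε * d.R a b ε = d.R a b ε * ε := by
  rw [R]; simp only [mul_assoc]
  rw [k2_lc h.pb'.symm, d.cm _ (d.mei h.ak) _ h.mem, k2_lc (X_ep0 h.ak),
    k2_lc (d.cm _ h.ep_m _ h.mem)]

theorem ζ_R : d.ζ * d.R a b ε = d.R a b ε * d.ζ := by
  rw [R]; simp only [mul_assoc]
  rw [k2_lc (d.ζ_X h.bk), k2_lc (d.cm _ d.mζ _ h.mem), k2_lc (d.ζ_X h.ak),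
    d.cm _ d.mζ _ (d.mei h.ak)]

theorem Z_R (hc : c < d.k) : d.Z c * d.R a b ε = d.R a b ε * d.Z c := by
  rw [R]; simp only [mul_assoc]
  rw [k2_lc (d.Z_X hc h.bk), k2_lc (d.Z_S hc h.mem), k2_lc (d.Z_X hc h.ak),
    d.Z_S hc (d.mei h.ak)]

theorem R_X (hc : c < d.k) (h0 : c ≠ a) (h1 : c ≠ b) :
    d.R a b ε * d.X c = d.X c * d.R a b ε := by
  rw [R]; simp only [mul_assoc]
  rw [d.ei_X h.ak hc, k2_lc3 (d.XX h.ak hc h0.symm), k2_lc (d.cm _ h.mem _ d.mζ),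
    k2_lc (h.oth c hc h0 h1), k2_lc (d.ζ_X h.bk).symm, k2_lc3 (d.XX hc h.bk h1)]

/-- an inverse square passes two Jucys-Murphy elements. -/
theorem BB_l (v : H) : d.ei a * (d.X b * (d.X b * v)) = d.X b * (d.X b * (d.ei a * v)) := by
  rw [k2_lc (d.ei_X h.ak h.bk), k2_lc (d.ei_X h.ak h.bk)]

theorem Zb_l (v : H) : d.ei b * (d.X b * (d.X b * v)) = d.Z b * v := by
  rw [k2_lc (d.ei_X h.bk h.bk), k2_lc (d.ei_X h.bk h.bk), Z]; simp only [mul_assoc]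

theorem RR : d.R a b ε * d.R a b ε = d.ζ * d.ep a ε * (d.Z a * d.Z b) := by
  have e1 : d.R a b ε * d.R a b ε = d.R a b ε * (d.X b * (d.X a * d.ei a)) := by
    conv_lhs => rw [← h.ep_R, h.R_l]
    conv_lhs => rw [← h.R_l, h.ep_R]
    nth_rewrite 2 [h.R_l]
    rw [k2_lc1 h.R_ep]
  rw [e1, h.R_l, d.ZZ h.ak h.bk]
  simp only [mul_assoc]
  rw [k2_lc (d.ei_X h.ak h.bk), k2_lc3 (d.XX h.ak h.bk h.lt.ne), k2_lc (d.ζ_X h.bk).symm,
    k2_lc (d.cm _ h.ep_m _ d.mζ), k2_lc (d.ei_X h.ak h.ak).symm, ← h.BB_l, k2_lc h.ep_ei,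
    h.Zb_l]
  simp only [Z, mul_assoc]

theorem R_Xa : d.R a b ε * d.X a = d.X b * ε * d.Z a := by
  rw [R, Z]; simp only [mul_assoc]
  rw [d.ei_X h.ak h.ak]

theorem Xb_R : d.X b * d.R a b ε = ε * d.X a * d.Z b := by
  rw [h.R_l, k2_lc h.pb', ← d.ei_X h.ak h.ak, ← h.BB_l, k2_lc h.ei, h.Zb_l,
    d.Z_X h.bk h.ak, mul_assoc]

theorem R_Xb : d.R a b ε * d.X b = d.ζ * (d.X a * ε * d.Z b) := by
  rw [h.R_l]; simp only [mul_assoc]
  rw [d.ei_X h.ak h.bk, k2_lc3 (d.XX h.ak h.bk h.lt.ne), k2_lc (d.ζ_X h.bk).symm,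
    k2_lc (d.cm _ h.ep_m _ d.mζ), ← d.ei_X h.ak h.ak, ← h.BB_l, k2_lc h.ep_ei, h.Zb_l,
    d.Z_X h.bk h.ak, k2_lc (X_ep0 h.ak).symm]

theorem Xa_R : d.X a * d.R a b ε = d.ζ * (ε * d.X b * d.Z a) := by
  rw [R, Z]; simp only [mul_assoc]
  rw [k2_lc3 (d.XX h.ak h.bk h.lt.ne), k2_lc (X_ep0 h.ak), k2_lc h.pb']

/-- the second description of the mixed term. -/
theorem R_eq : d.R a b ε = d.ζ * (d.X a * ε * d.X b * d.ei b) := by
  rw [h.R_l]; simp only [mul_assoc]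
  rw [k2_lc (X_ep0 h.ak), k2_lc3 (d.XX h.ak h.bk h.lt.ne), k2_lc (d.cm _ h.ep_m _ d.mζ),
    k2_lc1 d.ζζ, one_mul, ← d.ei_X h.ak h.ak, ← d.ei_X h.bk h.ak,
    k2_lc (d.ei_X h.ak h.bk).symm, k2_lc (d.ei_X h.bk h.bk).symm, k2_lc h.ep_ei]

end Pr

theorem h_ep (h : a + 1 < d.k) : d.h a * d.ep a (d.e a) = d.ζ * d.ep a (d.e a) := by
  have ha : a < d.k := by omega
  apply (d.X_unit ha).mul_right_cancel
  rw [mul_assoc, mul_assoc, ← X_ep0 ha, k2_lc3 (d.h_X0 h), d.cm _ (d.mh a h) _ (d.me a h),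
    d.eh a h]

/-- hint: `X a * X (a + 1)` commutes with `T a` and `h a`, so with `e a` (`cm_e`). -/
theorem pr1 (h : a + 1 < d.k) : d.Pr a (a + 1) (d.e a) := by
  have ha : a < d.k := by omega
  refine ⟨by omega, h, d.me a h, d.ee a h, fun c hc h0 h1 => d.e_X h hc h0 h1, ?_,
    (d.e_abs h (d.met ha) (d.T_et0 h)).symm, ?_⟩
  · have e0 : d.X (a + 1) = d.Q⁻¹ • (d.T a * d.X a * d.T a * d.h a) := rfl
    have e1 : d.X a * d.X (a + 1) = d.Q⁻¹ • (d.T a * (d.X a * (d.T a * (d.X a * d.h a)))) := by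
      rw [d.XX ha h (by omega), e0, smul_mul_assoc, mul_smul_comm]
      simp only [mul_assoc]
      rw [d.h_X0 h, k2_lc (d.ζT a h).symm, k2_lc (d.ζ_X ha).symm, k2_lc (d.ζT a h).symm,
        k2_lc1 d.ζζ, one_mul]
    have e2 : d.X a * d.X (a + 1) * d.T a = d.T a * (d.X a * d.X (a + 1)) := by
      conv_lhs => rw [e1]
      rw [e0, smul_mul_assoc, mul_smul_comm, mul_smul_comm]
      simp only [mul_assoc]
      rw [d.hT a h]
    have e3 : d.X a * d.X (a + 1) * d.h a = d.h a * (d.X a * d.X (a + 1)) := by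
      rw [k2_lc3 (d.h_X0 h), d.h_X1 h, k2_lc (d.ζ_X ha).symm, k2_lc1 d.ζζ, one_mul, mul_assoc]
    have e4 := d.cm_e h e2 e3
    apply (d.X_unit ha).mul_left_cancel
    rw [← mul_assoc, e4, k2_lc (X_ep1 ha (d.me a h))]
  · rw [mul_assoc, d.cm _ (ep_mem ha (d.me a h)) _ d.mζ, ← h_ep h, k2_lc1 (d.eh a h)]

theorem T_e3a (h : a + 2 < d.k) : d.T (a + 1) * d.e a = d.e3 a * d.T (a + 1) := by
  rw [e3, mul_assoc, d.Ti_T (a := a + 1) h, mul_one]

theorem k2_e3 (h : a + 2 < d.k) :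
    d.e3 a ∈ d.S ∧ d.T (a + 1) * d.e3 a = d.e a * d.T (a + 1) := by
  obtain ⟨y, hy, h1, h2⟩ := d.nT (a + 1) h _ (d.me a (by omega))
  have e : d.e3 a = y := (d.T_unit (a := a + 1) h).mul_right_cancel ((T_e3a h).symm.trans h1)
  rw [e]
  exact ⟨hy, h2⟩

theorem e3_mem (h : a + 2 < d.k) : d.e3 a ∈ d.S := (k2_e3 h).1

theorem T_e3b (h : a + 2 < d.k) : d.T (a + 1) * d.e3 a = d.e a * d.T (a + 1) := (k2_e3 h).2

theorem k2_smul {x y : H} {q : F} (hq : q ≠ 0) (h : q • x = q • y) : x = y := by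
  have := congrArg (fun z => q⁻¹ • z) h
  simpa only [smul_smul, inv_mul_cancel₀ hq, one_smul] using this

theorem T_e3d (h : a + 2 < d.k) : d.T a * d.e3 a = d.e (a + 1) * d.T a := by
  have h1 : a + 1 < d.k := by omega
  have w : d.T a * d.T (a + 1) * d.T a = d.T (a + 1) * (d.T a * d.T (a + 1)) := by
    rw [d.T3 a h, mul_assoc]
  have q1 : d.T a * d.T a = d.Q • d.h a + (d.Q - 1) • (d.e a * d.T a) := d.qT a h1
  have q2 : d.T (a + 1) * d.T (a + 1) =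
      d.Q • d.h (a + 1) + (d.Q - 1) • (d.e (a + 1) * d.T (a + 1)) := d.qT (a + 1) h
  have e1 : d.T a * d.T (a + 1) * (d.T a * d.T a) =
      d.T (a + 1) * d.T (a + 1) * (d.T a * d.T (a + 1)) := by
    rw [← mul_assoc, w, mul_assoc, w, ← mul_assoc]
  rw [q1, q2, mul_add, add_mul, mul_smul_comm, mul_smul_comm, smul_mul_assoc, smul_mul_assoc,
    d.h3 a h] at e1
  have e2 := k2_smul d.Q1 (add_left_cancel e1)
  rw [mul_assoc (d.e (a + 1)), ← w, ← mul_assoc, ← mul_assoc (d.e (a + 1))] at e2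
  have e3 := (d.T_unit h1).mul_right_cancel e2
  apply (d.T_unit (a := a + 1) h).mul_right_cancel
  rw [mul_assoc, ← T_e3a h, ← mul_assoc, e3, mul_assoc]

theorem T_e3c (h : a + 2 < d.k) : d.T a * d.e (a + 1) = d.e3 a * d.T a := by
  have h1 : a + 1 < d.k := by omega
  obtain ⟨y, -, e1, e2⟩ := d.nT a h1 _ (e3_mem h)
  have e : d.e (a + 1) = y := (d.T_unit h1).mul_right_cancel ((T_e3d h).symm.trans e1)
  rw [e, e2]

theorem ep_e3 (h : a + 2 < d.k) :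
    d.ep a (d.e3 a) * d.T (a + 1) = d.T (a + 1) * d.ep a (d.e a) := by
  have ha : a < d.k := by omega
  have t := d.T_X (c := a + 1) h ha (by omega) (by omega)
  apply (d.X_unit ha).mul_right_cancel
  rw [mul_assoc, mul_assoc, t, ← X_ep0 ha, k2_lc (X_ep0 ha).symm, ← T_e3a h, k2_lc t]

theorem pr3 (h : a + 2 < d.k) : d.Pr a (a + 2) (d.e3 a) := by
  have ha : a < d.k := by omega
  have h1 : a + 1 < d.k := by omega
  have u := d.T_unit (a := a + 1) h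
  have p := pr1 h1
  refine ⟨by omega, h, e3_mem h, ?_, fun c hc h0 h2 => ?_, ?_, ?_, ?_⟩
  · apply u.mul_right_cancel
    rw [mul_assoc, ← T_e3a h, k2_lc (T_e3a h).symm, d.ee a h1]
  · by_cases hc1 : c = a + 1
    · subst hc1
      have e0 : d.X (a + 1) = d.Q⁻¹ • (d.T a * d.X a * d.T a * d.h a) := rfl
      rw [e0, smul_mul_assoc, mul_smul_comm]
      simp only [mul_assoc]
      rw [k2_lc (T_e3c h).symm, k2_lc (d.e_X (c := a + 1) h ha (by omega) (by omega)),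
        k2_lc (T_e3d h).symm, d.cm _ (e3_mem h) _ (d.mh a h1)]
    · have t := d.T_X (c := a + 1) h hc hc1 h2
      apply u.mul_right_cancel
      rw [mul_assoc, mul_assoc, ← t, ← T_e3a h, k2_lc (T_e3a h).symm, d.e_X h1 hc h0 hc1,
        k2_lc t]
  · have e0 : d.X (a + 2) =
        d.Q⁻¹ • (d.T (a + 1) * d.X (a + 1) * d.T (a + 1) * d.h (a + 1)) := rfl
    rw [e0, smul_mul_assoc, mul_smul_comm]
    simp only [mul_assoc]
    rw [d.cm _ (d.mh (a + 1) h) _ (e3_mem h), k2_lc (T_e3b h), k2_lc p.pb, k2_lc (ep_e3 h)]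
  · apply u.mul_right_cancel
    rw [mul_assoc, mul_assoc, ← d.T_et (c := a + 1) h ha (by omega) (by omega),
      ← d.T_et0 (a := a + 1) h, k2_lc (T_e3a h).symm, k2_lc (T_e3a h).symm, p.et]
  · apply u.mul_right_cancel
    have z := p.zz
    simp only [mul_assoc] at z ⊢
    rw [d.ζT (a + 1) h, k2_lc (ep_e3 h), ep_e3 h, k2_lc (T_e3a h).symm, k2_lc (T_e3a h).symm, z]

theorem tri1 (h : a + 2 < d.k) : d.e a * d.e (a + 1) = d.e a * d.e3 a :=
  (d.e_abs (by omega) (d.me (a + 1) h) (T_e3c h)).symm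

theorem tri2 (h : a + 2 < d.k) : d.e a * d.e (a + 1) = d.e (a + 1) * d.e3 a := by
  rw [d.e_abs (a := a + 1) h (d.me a (by omega)) (T_e3a h),
    d.cm _ (d.me a (by omega)) _ (d.me (a + 1) h)]

/-- hint: `e a` absorbs `T a` acting on `h (a + 1)`; conjugate by `T (a + 1)`; `h3`. -/
theorem e3_h (h : a + 2 < d.k) : d.e3 a * d.h a = d.e3 a * d.h (a + 1) := by
  have h1 : a + 1 < d.k := by omega
  have u := d.T_unit (a := a + 1) h
  obtain ⟨y, -, y1, y2⟩ := d.nT a h1 _ (d.mh (a + 1) h)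
  obtain ⟨w, -, w1, w2⟩ := d.nT (a + 1) h _ (d.mh a h1)
  have e1 : d.T a * w = d.h (a + 1) * d.T a := by
    apply u.mul_right_cancel
    rw [mul_assoc, ← w1, ← mul_assoc, d.h3 a h, mul_assoc]
  have e2 : w = y := (d.T_unit h1).mul_left_cancel (e1.trans y2.symm)
  have e3 := d.e_abs h1 (d.mh (a + 1) h) y1
  apply u.mul_right_cancel
  rw [mul_assoc, mul_assoc, ← w2, d.hT (a + 1) h, k2_lc (T_e3a h).symm, k2_lc (T_e3a h).symm,
    e2, e3]

theorem R3 (h : a + 1 < d.k) : d.T a * d.Z (a + 1) =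
    d.Z a * d.T a + (d.Q - 1) • (d.e a * d.Z (a + 1) + d.R a (a + 1) (d.e a)) := by
  have ha : a < d.k := by omega
  have r : ∀ v, d.T a * (d.X (a + 1) * v) =
      d.ζ * (d.X a * (d.T a * v)) + (d.Q - 1) • (d.e a * (d.X (a + 1) * v)) := fun v => by
    rw [← mul_assoc, d.R2 h, add_mul, smul_mul_assoc]; simp only [mul_assoc]
  rw [(pr1 h).R_eq, Z, Z]
  simp only [mul_assoc]
  rw [r, r, mul_add, mul_add, k2_lc (d.ζ_X ha).symm, k2_lc1 d.ζζ, one_mul, d.T_ei1 h,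
    mul_smul_comm, mul_smul_comm, smul_add]
  abel

theorem R4 (h : a + 1 < d.k) : d.T a * d.Z a =
    d.Z (a + 1) * d.T a - (d.Q - 1) • (d.e a * d.Z (a + 1) + d.R a (a + 1) (d.e a)) := by
  have r : ∀ v, d.T a * (d.X a * v) =
      d.X (a + 1) * (d.T a * v) - (d.Q - 1) • (d.X (a + 1) * (d.e a * v)) := fun v => by
    rw [← mul_assoc, d.R1 h, sub_mul, smul_mul_assoc]; simp only [mul_assoc]
  rw [← d.Z_S h (d.me a h), R, Z, Z]
  simp only [mul_assoc]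
  rw [r, r, mul_sub, d.T_ei0 h, mul_smul_comm, (pr1 h).ei, d.cm _ (d.me a h) _ (d.mei h),
    smul_add]
  abel

theorem k2_R (h : a + 1 < d.k) : (d.Q - 1) • d.R a (a + 1) (d.e a) =
    d.Z (a + 1) * d.T a - d.T a * d.Z a - (d.Q - 1) • (d.e a * d.Z (a + 1)) := by
  rw [R4 h, smul_add]; abel

/-- hint: solve `R4` for the mixed term. -/
theorem R_S (h : a + 1 < d.k) {y y' : H} (hy : y ∈ d.S) (h1 : d.T a * y = y' * d.T a) :
    d.R a (a + 1) (d.e a) * y = y' * d.R a (a + 1) (d.e a) := by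
  have ha : a < d.k := by omega
  have hy' : y' ∈ d.S := by
    obtain ⟨w, hw, w1, -⟩ := d.nT a h y hy
    rw [(d.T_unit h).mul_right_cancel (h1.symm.trans w1)]
    exact hw
  apply k2_smul d.Q1
  rw [← smul_mul_assoc, ← mul_smul_comm, k2_R h, sub_mul, sub_mul, mul_sub, mul_sub,
    smul_mul_assoc, mul_smul_comm]
  simp only [mul_assoc]
  rw [h1, k2_lc (d.Z_S h hy'), d.Z_S ha hy, k2_lc h1, d.Z_S h hy,
    k2_lc (d.e_abs h hy h1).symm, k2_lc (d.cm _ (d.me a h) _ hy')]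

theorem R_mem (h : a + 1 < d.k) (B : Subring H) (K : Subfield F)
    (hK : ∀ c ∈ K, algebraMap F H c ∈ B) (hu : d.u ∈ K) (h1 : d.T a ∈ B) (h2 : d.e a ∈ B)
    (h3 : d.Z a ∈ B) (h4 : d.Z (a + 1) ∈ B) : d.R a (a + 1) (d.e a) ∈ B := by
  have hq : d.Q - 1 ∈ K := K.sub_mem (K.pow_mem hu _) K.one_mem
  have e : d.R a (a + 1) (d.e a) = (d.Q - 1)⁻¹ • ((d.Q - 1) • d.R a (a + 1) (d.e a)) := by
    rw [smul_smul, inv_mul_cancel₀ d.Q1, one_smul]
  rw [e, k2_R h, Algebra.smul_def, Algebra.smul_def]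
  exact B.mul_mem (hK _ (K.inv_mem hq)) (B.sub_mem (B.sub_mem (B.mul_mem h4 h1) (B.mul_mem h1 h3))
    (B.mul_mem (hK _ hq) (B.mul_mem h2 h4)))

end Pool.Agent.Lib.MP_1ae3da_al.JM.YD
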