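import Pool.Agent.Lib.MP_1ae3da_al.J.K3a

/-! The spectrum of the `Z a`. -/

set_option linter.unusedSectionVars false

namespace Pool.Agent.Lib.MP_1ae3da_al.JM.YD

variable {F H : Type} [Field F] [CharZero F] [Ring H] [Algebra F H] {d : YD F H} {a b c : ℕ}
  {ε v y ψ : H} {z : ℕ → F} {f f' : (ℕ → F) → F}

theorem k3_key (hg : d.Good) (h : a + 1 < d.k) (hv : d.FW z v) (e : z a ≠ z (a + 1))
    (h0 : d.φ a * v = 0) :
    (d.Q * (z a - z (a + 1)) ^ 2) • (d.h a * v) = ((d.Q - 1) ^ 2) •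
      ((z a * z (a + 1)) • (d.e a * v) + (z a + z (a + 1)) • (d.e a * (d.R a (a + 1) (d.e a) * v)) +
        (z a * z (a + 1)) • (d.ζ * (d.ep a (d.e a) * v))) := by
  have ha : a < d.k := by omega
  have p := pr1 h
  have e1 := sub_ne_zero.2 e
  have e2 := sub_ne_zero.2 (Ne.symm e)
  have k := congrArg (· * v) (hg.φ_sq h)
  have r1 : d.e a * (d.e a * v) = d.e a * v := by rw [← mul_assoc, d.ee a h]
  have r2 : d.R a (a + 1) (d.e a) * (d.e a * v) = d.e a * (d.R a (a + 1) (d.e a) * v) := by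
    rw [← mul_assoc, ← p.e_R, mul_assoc]
  have r3 : d.R a (a + 1) (d.e a) * (d.R a (a + 1) (d.e a) * v) =
      (z a * z (a + 1)) • (d.ζ * (d.ep a (d.e a) * v)) := by
    rw [← mul_assoc, p.RR, mul_assoc, mul_assoc (d.Z a), hv.1 _ h, mul_smul_comm, hv.1 _ ha,
      smul_smul, mul_smul_comm, mul_assoc, mul_comm (z a)]
  simp only [mul_assoc, add_mul, smul_mul_assoc, h0, mul_zero] at k
  rw [k3_A hg hv, mul_add, mul_smul_comm, mul_smul_comm, k3_A hg (k3_fe h hv),
    k3_A hg (k3_fR h hv), r1, r2, r3] at k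
  rw [mul_comm d.Q, ← smul_smul, eq_neg_of_add_eq_zero_left k.symm]
  simp only [a1, a2, e, Ne.symm e, if_false]
  match_scalars <;> (field_simp; try ring)

theorem k3_alt (hg : d.Good) (h : a + 1 < d.k) (hv : d.FW z v) (hv0 : v ≠ 0)
    (e : z a ≠ z (a + 1)) (h0 : d.φ a * v = 0) :
    (d.Q * z a - z (a + 1)) * (z a - d.Q * z (a + 1)) = 0 ∨
      (d.Q ^ 2 * z a - z (a + 1)) * (z a - d.Q ^ 2 * z (a + 1)) = 0 := by
  have ha : a < d.k := by omega
  have p := pr1 h
  have e1 := sub_ne_zero.2 e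
  have k := k3_key hg h hv e h0
  have mE := d.me a h
  have mP := ep_mem ha mE
  have mH := d.mh a h
  by_contra hc
  obtain ⟨c1, c2⟩ := not_or.1 hc
  set s := z a
  set t := z (a + 1)
  set E := d.e a
  set P := d.ep a E
  set R := d.R a (a + 1) E
  have EE : ∀ w, E * (E * w) = E * w := fun w => by rw [← mul_assoc, d.ee a h]
  have PP : ∀ w, P * (P * w) = P * w := fun w => by rw [← mul_assoc, p.ep_idem]
  have PE : ∀ w, P * (E * w) = E * (P * w) := fun w => by
    rw [← mul_assoc, d.cm _ mP _ mE, mul_assoc]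
  have PR : ∀ w, P * (R * w) = R * w := fun w => by rw [← mul_assoc, p.ep_R]
  have RP : ∀ w, R * (P * w) = R * w := fun w => by rw [← mul_assoc, p.R_ep]
  have RE : ∀ w, R * (E * w) = E * (R * w) := fun w => by rw [← mul_assoc, ← p.e_R, mul_assoc]
  have EH : ∀ w, E * (d.h a * w) = E * w := fun w => by rw [← mul_assoc, d.eh a h]
  have PH : ∀ w, P * (d.h a * w) = d.ζ * (P * w) := fun w => by
    rw [← mul_assoc, d.cm _ mP _ mH, h_ep h, mul_assoc]
  have Pζ : ∀ w, P * (d.ζ * w) = d.ζ * (P * w) := fun w => by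
    rw [← mul_assoc, d.cm _ mP _ d.mζ, mul_assoc]
  have Eζ : ∀ w, E * (d.ζ * (P * w)) = E * (P * w) := fun w => by
    rw [← Pζ, ← mul_assoc, ← mul_assoc, p.zz, mul_assoc]
  have RR : R * (R * v) = (s * t) • (d.ζ * (P * v)) := by
    rw [← mul_assoc, p.RR, mul_assoc, mul_assoc (d.Z a), hv.1 _ h, mul_smul_comm, hv.1 _ ha,
      smul_smul, mul_smul_comm, mul_assoc, mul_comm s]
  have kE := congrArg (E * ·) k
  have kP := congrArg (P * ·) k
  simp only [mul_smul_comm, mul_add, EE, PP, PE, PR, EH, PH, Pζ, Eζ] at kE kP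
  have kEP := congrArg (E * ·) kP
  simp only [mul_smul_comm, mul_add, EE, Eζ] at kEP
  have kR := congrArg (R * ·) kEP
  simp only [mul_smul_comm, mul_add, RE, RP, RR, Eζ] at kR
  have v4 : E * (P * v) = 0 := by
    refine (smul_eq_zero.1 (?_ : ((s - t) ^ 2 * ((d.Q ^ 2 * s - t) * (s - d.Q ^ 2 * t))) •
      (E * (P * v)) = 0)).resolve_left (mul_ne_zero (pow_ne_zero 2 e1) c2)
    linear_combination (norm := module)
      (d.Q * (s - t) ^ 2 - 2 * (d.Q - 1) ^ 2 * s * t) • kEP + ((d.Q - 1) ^ 2 * (s + t)) • kR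
  have r4 : E * (R * v) = 0 := by rw [← RP, ← RE, v4, mul_zero]
  rw [v4, r4] at kE kP
  rw [r4] at k
  have v2 : E * v = 0 := by
    refine (smul_eq_zero.1 (?_ : ((d.Q * s - t) * (s - d.Q * t)) • (E * v) = 0)).resolve_left c1
    linear_combination (norm := module) kE
  have v3 : d.ζ * (P * v) = 0 := by
    refine (smul_eq_zero.1 (?_ : ((d.Q * s - t) * (s - d.Q * t)) •
      (d.ζ * (P * v)) = 0)).resolve_left c1
    linear_combination (norm := module) kP
  rw [v2, v3] at k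
  have v1 : d.h a * v = 0 := by
    refine (smul_eq_zero.1 (?_ : (d.Q * (s - t) ^ 2) • (d.h a * v) = 0)).resolve_left
      (mul_ne_zero d.Q0 (pow_ne_zero 2 e1))
    simpa using k
  exact hv0 (by rw [← one_mul v, ← d.hh a h, mul_assoc, v1, mul_zero])

theorem k3_spec (hg : d.Good) (a : ℕ) : a < d.k → ∀ z v, d.FW z v → v ≠ 0 →
    ∃ n : ℤ, z a = d.u ^ (2 * n) := by
  induction a with
  | zero => exact fun ha z v h hv => hg.z0 _ v hv (h.1 0 ha)
  | succ a ih =>
    intro h z v hz hv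
    have ha : a < d.k := by omega
    by_cases h0 : d.φ a * v = 0
    swap
    · obtain ⟨n, hn⟩ := ih ha _ _ ((hg.it h).fw hz) h0
      exact ⟨n, by rwa [Function.comp_apply, Equiv.swap_apply_left] at hn⟩
    obtain ⟨n, hn⟩ := ih ha z v hz hv
    by_cases e : z a = z (a + 1)
    · exact ⟨n, e ▸ hn⟩
    have u0 := d.u0
    have q : d.Q = d.u ^ (2 * d.κ : ℤ) := by
      unfold Q
      rw [← zpow_natCast]
      push_cast
      rfl
    have q2 : d.Q ^ 2 = d.u ^ (2 * (2 * d.κ) : ℤ) := by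
      rw [q, ← zpow_natCast, ← zpow_mul, mul_comm]
      rfl
    have w : ∀ m : ℤ, (d.u ^ (2 * m) * z a - z (a + 1)) * (z a - d.u ^ (2 * m) * z (a + 1)) = 0 →
        ∃ n : ℤ, z (a + 1) = d.u ^ (2 * n) := fun m k => by
      rcases mul_eq_zero.1 k with k | k
      · exact ⟨m + n, by rw [← sub_eq_zero.1 k, hn, mul_add, zpow_add₀ u0]⟩
      · refine ⟨n - m, ?_⟩
        rw [mul_sub, zpow_sub₀ u0, ← hn, sub_eq_zero.1 k, mul_div_cancel_left₀ _ (zpow_ne_zero _ u0)]
    rcases k3_alt hg h hz hv e h0 with k | k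
    · exact w _ (q ▸ k)
    · exact w _ (q2 ▸ k)

/-- hint: induction on `a`; if `φ a * v = 0` split `v` by `e` and `ep`, use `φ_sq`, `RR`, `h_ep`;
`z (a + 1) / z a` is `Q ^ j` with `j` among `0, 1, -1, 2, -2`. -/
theorem Good.spec (hg : d.Good) (h : d.FW z v) (hv : v ≠ 0) (ha : a < d.k) :
    z a = d.u ^ (2 * d.lg (z a)) := by
  have k := k3_spec hg a ha z v h hv
  unfold lg
  rw [dif_pos k]
  exact k.choose_spec

theorem lg_eq (n : ℤ) : d.lg (d.u ^ (2 * n)) = n := by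
  have h : ∃ m : ℤ, d.u ^ (2 * n) = d.u ^ (2 * m) := ⟨n, rfl⟩
  unfold lg
  rw [dif_pos h]
  have := d.hu (2 * n - 2 * h.choose) (by
    rw [zpow_sub₀ d.u0, ← h.choose_spec, div_self (zpow_ne_zero _ d.u0)])
  omega

theorem Good.mem (hg : d.Good) (ha : a < d.k) (hb : b < d.k) (B : Subring H) (K : Subfield F)
    (hK : ∀ c ∈ K, algebraMap F H c ∈ B) (hu : d.u ∈ K) (h1 : d.Z a ∈ B) (h2 : d.Z b ∈ B)
    (f : F → F → F) (hf : ∀ s ∈ K, ∀ t ∈ K, f s t ∈ K) :
    d.Fz (fun z => f (z a) (z b)) ∈ B := by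
  have m : ∀ l v, v ≠ 0 → d.FW l v → ∀ c, c < d.k → l c ∈ K := fun l v hv hl c hc => by
    rw [hg.spec hl hv hc]
    exact zpow_mem hu _
  refine hg.spc.mem (J := Bool) (c := fun j => cond j (d.Z a) (d.Z b))
    (g := fun j l => cond j (l a) (l b)) (fun j => ?_) (fun m => f (m true) (m false)) B K hK
    (fun j => ?_) (fun l v hv hl => ⟨fun j => ?_, hf _ (m l v hv hl a ha) _ (m l v hv hl b hb)⟩)
    (hg.dg _)
  · cases j
    · exact k3_dZ hb
    · exact k3_dZ ha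
  · cases j
    · exact h2
    · exact h1
  · cases j
    · exact m l v hv hl b hb
    · exact m l v hv hl a ha

end Pool.Agent.Lib.MP_1ae3da_al.JM.YD
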