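import Pool.Agent.Lib.MP_1ae3da_al.J.K2

/-! Functions of the `Z a`, the intertwiner, its square and the spectrum. -/

set_option linter.unusedSectionVars false

namespace Pool.Agent.Lib.MP_1ae3da_al.JM.YD

variable {F H : Type} [Field F] [CharZero F] [Ring H] [Algebra F H] {d : YD F H} {a b c : ℕ}
  {ε v y ψ : H} {z : ℕ → F} {f f' : (ℕ → F) → F}

/-- extension by zero. -/
def k3x (k : ℕ) (m : Fin k → F) (a : ℕ) : F := if h : a < k then m ⟨a, h⟩ else 0

omit [CharZero F] in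
theorem k3x_eq (h : d.FW z v) : k3x d.k (fun j => z j) = z := by
  funext a
  unfold k3x
  split_ifs with k
  · rfl
  · exact (h.2 a (not_lt.1 k)).symm

omit [CharZero F] in
theorem k3_spc (hg : d.Good) : Spc d.FW := by
  refine ⟨?_, fun y h => ?_⟩
  · choose S hS using fun j : Fin d.k => hg.sp j j.2
    refine ((Set.Finite.pi' fun j : Fin d.k => (S j).finite_toSet).image (k3x d.k)).subset ?_
    rintro l ⟨v, hv, hl⟩
    exact ⟨fun j => l j, fun j => root_mem (hS j) (hl.1 j j.2) hv, k3x_eq hl⟩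
  · refine ext_fam (F := F) (J := Fin d.k) (c := fun j => d.Z j) (fun i j => d.ZZ i.2 j.2)
      (fun j => hg.sp j j.2) fun l v hv => ?_
    by_cases k : v = 0
    · rw [k, mul_zero]
    refine h (k3x d.k l) v k ⟨fun a ha => ?_, fun a ha => ?_⟩
    · unfold k3x
      rw [dif_pos ha]
      exact hv ⟨a, ha⟩
    · unfold k3x
      rw [dif_neg (not_lt.2 ha)]

/-- hint: `ext_fam`, `root_mem`. -/
theorem Good.spc (hg : d.Good) : Spc d.FW := k3_spc hg

theorem k3_dZ (ha : a < d.k) : Dg d.FW (d.Z a) fun l => l a := fun _ _ _ hl => hl.1 a ha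

/-- hint: `Spc.fn` with `J = Fin d.k`. -/
theorem Good.dg (hg : d.Good) (f : (ℕ → F) → F) : Dg d.FW (d.Fz f) f := by
  have h : ∃ y, Dg d.FW y f := by
    obtain ⟨y, -, hy⟩ := hg.spc.fn (J := Fin d.k) (c := fun j => d.Z j) (g := fun j l => l j)
      (fun j => k3_dZ j.2) (fun m => f (k3x d.k m)) ⊤ ⊤ (fun _ _ => trivial) (fun _ => trivial)
      fun _ _ _ _ => ⟨fun _ => trivial, trivial⟩
    exact ⟨y, fun l v hv hl => by rw [hy l v hv hl]; simp only [k3x_eq hl]⟩
  unfold Fz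
  rw [dif_pos h]
  exact h.choose_spec
theorem Good.ap (hg : d.Good) (h : d.FW z v) (f : (ℕ → F) → F) : d.Fz f * v = f z • v :=
  (hg.dg f).ap h
theorem FW.cm (h : d.FW z v) (hy : ∀ a, a < d.k → d.Z a * y = y * d.Z a) : d.FW z (y * v) :=
  ⟨fun a ha => by rw [← mul_assoc, hy a ha, mul_assoc, h.1 a ha, mul_smul_comm], h.2⟩
theorem Good.cm (hg : d.Good) (hy : ∀ a, a < d.k → d.Z a * y = y * d.Z a) (f : (ℕ → F) → F) :
    d.Fz f * y = y * d.Fz f :=
  hg.spc.eq fun l v _ hl => by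
    rw [mul_assoc, mul_assoc, hg.ap (hl.cm hy), hg.ap hl, mul_smul_comm]
theorem Good.mul (hg : d.Good) : d.Fz f * d.Fz f' = d.Fz fun z => f z * f' z :=
  hg.spc.eq fun l v _ hl => by
    rw [mul_assoc, hg.ap hl, mul_smul_comm, hg.ap hl, hg.ap hl, smul_smul, mul_comm]
theorem Good.congr (hg : d.Good) (h : ∀ z v, v ≠ 0 → d.FW z v → f z = f' z) :
    d.Fz f = d.Fz f' :=
  hg.spc.eq fun l v hv hl => by rw [hg.ap hl, hg.ap hl, h l v hv hl]
theorem Good.const (hg : d.Good) (c : F) : d.Fz (fun _ => c) = algebraMap F H c :=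
  hg.spc.eq fun l v _ hl => by rw [hg.ap hl, ← Algebra.smul_def]
theorem Good.Z (hg : d.Good) (ha : a < d.k) : d.Fz (fun z => z a) = d.Z a :=
  hg.spc.eq fun l v _ hl => by rw [hg.ap hl, hl.1 a ha]
theorem Good.Z_Fz (hg : d.Good) (ha : a < d.k) : d.Z a * d.Fz f = d.Fz f * d.Z a :=
  (hg.cm (fun _ hb => d.ZZ hb ha) f).symm
theorem FW.ne (h : d.FW z v) (hv : v ≠ 0) (ha : a < d.k) : z a ≠ 0 := fun k => by
  have := h.1 a ha
  rw [k, zero_smul] at this
  exact hv ((d.Z_unit ha).mul_right_eq_zero.1 this)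

theorem k3_sw (h : a + 1 < d.k) (hc : c < d.k) : Equiv.swap a (a + 1) c < d.k := by
  rw [Equiv.swap_apply_def]
  split_ifs <;> omega

theorem It.Z (h : d.It a ψ) (hc : c < d.k) :
    ψ * d.Z c = d.Z (Equiv.swap a (a + 1) c) * ψ := by
  have hl := h.lt
  by_cases h0 : c = a
  · subst h0
    rw [Equiv.swap_apply_left]
    unfold YD.Z
    rw [← mul_assoc, ← mul_assoc, h.x0, mul_assoc (d.X _) ψ, h.x0, mul_assoc, mul_assoc,
      h.s _ (d.mei hc) _ (d.T_ei0 hl)]
    simp only [mul_assoc]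
  by_cases h1 : c = a + 1
  · subst h1
    have ha : a < d.k := by omega
    rw [Equiv.swap_apply_right]
    unfold YD.Z
    have e : d.ζ * (d.X a * (d.ζ * (d.X a * ψ))) = d.X a * (d.X a * ψ) := by
      rw [← mul_assoc (d.X a) d.ζ, ← d.ζ_X ha, mul_assoc, ← mul_assoc, d.ζζ, one_mul]
    rw [← mul_assoc, ← mul_assoc, h.x1, mul_assoc d.ζ, mul_assoc (d.X _) ψ, h.x1, e, mul_assoc,
      mul_assoc, h.s _ (d.mei hc) _ (d.T_ei1 hl)]
    simp only [mul_assoc]
  rw [Equiv.swap_apply_of_ne_of_ne h0 h1]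
  unfold YD.Z
  rw [← mul_assoc, ← mul_assoc, h.xc c hc h0 h1, mul_assoc (d.X _) ψ, h.xc c hc h0 h1, mul_assoc,
    mul_assoc, h.s _ (d.mei hc) _ (d.T_ei hl hc h0 h1)]
  simp only [mul_assoc]
theorem It.fw (h : d.It a ψ) (hv : d.FW z v) : d.FW (z ∘ Equiv.swap a (a + 1)) (ψ * v) := by
  have hl := h.lt
  refine ⟨fun c hc => ?_, fun c hc => ?_⟩
  · have := h.Z (k3_sw hl hc)
    rw [Equiv.swap_apply_self] at this
    rw [← mul_assoc, ← this, mul_assoc, hv.1 _ (k3_sw hl hc), mul_smul_comm]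
    rfl
  · rw [Function.comp_apply, Equiv.swap_apply_of_ne_of_ne (by omega) (by omega)]
    exact hv.2 c hc
theorem It.fz (hg : d.Good) (h : d.It a ψ) (f : (ℕ → F) → F) :
    ψ * d.Fz f = d.Fz (fun z => f (z ∘ Equiv.swap a (a + 1))) * ψ :=
  hg.spc.eq fun l v _ hl => by
    have e : (l ∘ Equiv.swap a (a + 1)) ∘ Equiv.swap a (a + 1) = l := by
      funext c
      simp only [Function.comp_apply, Equiv.swap_apply_self]
    rw [mul_assoc, mul_assoc, hg.ap hl, hg.ap (h.fw hl), mul_smul_comm, e]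
theorem It.mul (h : d.It a ψ) (h1 : ∀ t ∈ d.S, y * t = t * y)
    (h2 : ∀ c, c < d.k → y * d.X c = d.X c * y) : d.It a (ψ * y) := by
  have hl := h.lt
  refine ⟨hl, fun t ht t' k => ?_, ?_, ?_, fun c hc h0 h1' => ?_⟩
  · rw [mul_assoc, h1 t ht, ← mul_assoc, h.s t ht t' k, mul_assoc]
  · rw [mul_assoc, h2 a (by omega), ← mul_assoc, h.x0, mul_assoc]
  · rw [mul_assoc, h2 _ hl, ← mul_assoc, h.x1, mul_assoc, mul_assoc]
  · rw [mul_assoc, h2 c hc, ← mul_assoc, h.xc c hc h0 h1', mul_assoc]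
theorem It.e (h : d.It a ψ) : ψ * d.e a = d.e a * ψ :=
  h.s _ (d.me a h.lt) _ (d.eT a h.lt).symm
theorem It.R1 (h : d.It a ψ) : ψ * d.R a (a + 1) (d.e a) = d.R a (a + 1) (d.e a) * ψ := by
  have hl := h.lt
  have ha : a < d.k := by omega
  conv_rhs => rw [(pr1 hl).R_eq]
  unfold R
  calc ψ * (d.X (a + 1) * d.e a * d.X a * d.ei a)
      = ψ * d.X (a + 1) * (d.e a * (d.X a * d.ei a)) := by simp only [mul_assoc]
    _ = d.ζ * (d.X a * (ψ * d.e a * (d.X a * d.ei a))) := by rw [h.x1]; simp only [mul_assoc]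
    _ = d.ζ * (d.X a * (d.e a * (ψ * d.X a * d.ei a))) := by rw [h.e]; simp only [mul_assoc]
    _ = d.ζ * (d.X a * (d.e a * (d.X (a + 1) * (ψ * d.ei a)))) := by
      rw [h.x0]; simp only [mul_assoc]
    _ = _ := by rw [h.s _ (d.mei ha) _ (d.T_ei0 hl)]; simp only [mul_assoc]

theorem k3_fe (h : a + 1 < d.k) (hv : d.FW z v) : d.FW z (d.e a * v) :=
  hv.cm fun _ hc => d.Z_S hc (d.me a h)
theorem k3_fR (h : a + 1 < d.k) (hv : d.FW z v) : d.FW z (d.R a (a + 1) (d.e a) * v) :=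
  hv.cm fun _ hc => (pr1 h).Z_R hc
theorem k3_fX (hc : c < d.k) (hv : d.FW z v) : d.FW z (d.X c * v) :=
  hv.cm fun _ hb => d.Z_X hb hc

/-- hint: `R4` and `Spc.ss` for `Z (a + 1)` and the vector `T a * v`. -/
theorem Good.ov2 (hg : d.Good) (h : a + 1 < d.k) (hv : d.FW z v) (e : z a = z (a + 1)) :
    d.R a (a + 1) (d.e a) * v = -(z a • (d.e a * v)) := by
  have ha : a < d.k := by omega
  have k : d.Z (a + 1) * (d.T a * v) - z a • (d.T a * v) =
      (d.Q - 1) • (z a • (d.e a * v) + d.R a (a + 1) (d.e a) * v) := by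
    have := congrArg (· * v) (R4 h)
    simp only [mul_assoc, sub_mul, add_mul, smul_mul_assoc, hv.1 a ha, hv.1 _ h, mul_smul_comm,
      ← e] at this
    rw [this]
    abel
  have k2 := hg.spc.ss (w := d.T a * v) (k3_dZ h) (z a) (by
    rw [k, mul_smul_comm, mul_add, mul_smul_comm, (k3_fe h hv).1 _ h, (k3_fR h hv).1 _ h, ← e,
      smul_comm (z a) (d.Q - 1), smul_add (z a)])
  rw [k2, sub_self] at k
  have := (smul_eq_zero.1 k.symm).resolve_left d.Q1
  exact eq_neg_of_add_eq_zero_right this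

theorem k3_A (hg : d.Good) (hv : d.FW z v) (i j : ℕ) : d.A a b ε i j * v =
    d.a1 (z i) (z j) • (ε * v) + d.a2 (z i) (z j) • (d.R a b ε * v) := by
  unfold A
  rw [add_mul, mul_assoc, mul_assoc, hg.ap hv, hg.ap hv, mul_smul_comm, mul_smul_comm]

/-- hint: `Spc.eq`; `R1`, `R2`, `R_Xa`, `Xb_R`, `R_Xb`, `Xa_R`; for `z a = z (a + 1)` use `ov2`
on `X a * v` and `X (a + 1) * v`. -/
theorem Good.it (hg : d.Good) (h : a + 1 < d.k) : d.It a (d.φ a) := by
  have ha : a < d.k := by omega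
  have p := pr1 h
  refine ⟨h, fun y hy y' k => ?_, ?_, ?_, fun c hc h0 h1 => ?_⟩
  · obtain ⟨y2, m2, k2, -⟩ := d.nT a h y hy
    obtain rfl : y' = y2 := (d.T_unit h).mul_right_cancel (k.symm.trans k2)
    have c1 := fun f => hg.cm (fun _ hc => d.Z_S hc hy) f
    unfold φ A
    rw [add_mul, add_mul, k, mul_assoc, mul_assoc, c1, c1, ← mul_assoc, ← mul_assoc, R_S h hy k,
      ← d.e_abs h hy k, d.cm _ (d.me a h) _ m2]
    simp only [mul_add, mul_assoc]
  · refine hg.spc.eq fun l v hv hl => ?_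
    have r1 : d.R a (a + 1) (d.e a) * (d.X a * v) = l a • (d.X (a + 1) * (d.e a * v)) := by
      rw [← mul_assoc, p.R_Xa, mul_assoc, hl.1 a ha, mul_smul_comm, mul_assoc]
    have r2 : d.X (a + 1) * (d.R a (a + 1) (d.e a) * v) = l (a + 1) • (d.e a * (d.X a * v)) := by
      rw [← mul_assoc, p.Xb_R, mul_assoc, hl.1 _ h, mul_smul_comm, mul_assoc]
    have r3 : d.T a * (d.X a * v) =
        d.X (a + 1) * (d.T a * v) - (d.Q - 1) • (d.X (a + 1) * (d.e a * v)) := by
      rw [← mul_assoc, d.R1 h, sub_mul, smul_mul_assoc, mul_assoc, mul_assoc]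
    unfold φ
    rw [mul_assoc, mul_assoc, add_mul, add_mul, k3_A hg hl, k3_A hg (k3_fX ha hl), mul_add,
      mul_add, mul_smul_comm, mul_smul_comm, r2, r3]
    by_cases e : l a = l (a + 1)
    · have o := hg.ov2 h (k3_fX ha hl) e
      rw [r1, ← smul_neg] at o
      have o2 := smul_right_injective H (hl.ne hv ha) o
      simp only [a1, a2, e, if_true, sub_self, div_zero, zero_smul, add_zero] at o2 ⊢
      rw [o2]
      module
    · have e' := sub_ne_zero.2 e
      rw [r1]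
      simp only [a1, a2, e, if_false]
      match_scalars <;> (field_simp; try ring)
  · refine hg.spc.eq fun l v hv hl => ?_
    have r1 : d.R a (a + 1) (d.e a) * (d.X (a + 1) * v) =
        l (a + 1) • (d.ζ * (d.X a * (d.e a * v))) := by
      rw [← mul_assoc, p.R_Xb, mul_assoc, mul_assoc, hl.1 _ h, mul_smul_comm, mul_smul_comm,
        mul_assoc]
    have r2 : d.ζ * (d.X a * (d.R a (a + 1) (d.e a) * v)) =
        l a • (d.e a * (d.X (a + 1) * v)) := by
      rw [← mul_assoc (d.X a), p.Xa_R, mul_assoc, ← mul_assoc, d.ζζ, one_mul, mul_assoc,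
        hl.1 a ha, mul_smul_comm, mul_assoc]
    have r3 : d.T a * (d.X (a + 1) * v) =
        d.ζ * (d.X a * (d.T a * v)) + (d.Q - 1) • (d.e a * (d.X (a + 1) * v)) := by
      rw [← mul_assoc, d.R2 h, add_mul, smul_mul_assoc, mul_assoc, mul_assoc, mul_assoc]
    unfold φ
    rw [mul_assoc, mul_assoc, mul_assoc, add_mul, add_mul, k3_A hg hl, k3_A hg (k3_fX h hl)]
    simp only [mul_add, mul_smul_comm]
    rw [r2, r3]
    by_cases e : l a = l (a + 1)
    · have o := hg.ov2 h (k3_fX h hl) e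
      rw [r1, ← smul_neg, e] at o
      have o2 := smul_right_injective H (hl.ne hv h) o
      simp only [a1, a2, e, if_true, sub_self, div_zero, zero_smul, add_zero] at o2 ⊢
      rw [o2]
      module
    · have e' := sub_ne_zero.2 e
      rw [r1]
      simp only [a1, a2, e, if_false]
      match_scalars <;> (field_simp; try ring)
  · have c1 := fun f => hg.cm (fun _ hb => d.Z_X hb hc) f
    unfold φ A
    rw [add_mul, add_mul, d.T_X h hc h0 h1, mul_assoc, mul_assoc, c1, c1, ← mul_assoc,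
      ← mul_assoc, p.oth c hc h0 h1, p.R_X hc h0 h1]
    simp only [mul_add, mul_assoc]

theorem Good.φ_A (hg : d.Good) (h : a + 1 < d.k) : d.φ a * d.A a (a + 1) (d.e a) a (a + 1) =
    d.A a (a + 1) (d.e a) (a + 1) a * d.φ a := by
  have i := hg.it h
  unfold A
  rw [mul_add, add_mul, ← mul_assoc, ← mul_assoc, i.e, i.R1, mul_assoc, mul_assoc, mul_assoc,
    mul_assoc, i.fz hg, i.fz hg]
  simp only [Function.comp_apply, Equiv.swap_apply_left, Equiv.swap_apply_right]

/-- hint: `A + A' = - (Q - 1) e`. -/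
theorem Good.φ_sq (hg : d.Good) (h : a + 1 < d.k) : d.φ a * d.φ a =
    d.Q • d.h a + d.A a (a + 1) (d.e a) (a + 1) a * d.A a (a + 1) (d.e a) a (a + 1) := by
  have e : d.A a (a + 1) (d.e a) a (a + 1) =
      -((d.Q - 1) • d.e a) - d.A a (a + 1) (d.e a) (a + 1) a :=
    hg.spc.eq fun l v _ hl => by
      rw [sub_mul, neg_mul, smul_mul_assoc, k3_A hg hl, k3_A hg hl]
      by_cases e : l a = l (a + 1)
      · simp only [a1, a2, e, if_true, sub_self, div_zero, zero_smul, add_zero]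
        module
      · have e1 := sub_ne_zero.2 e
        have e2 := sub_ne_zero.2 (Ne.symm e)
        simp only [a1, a2, e, Ne.symm e, if_false]
        match_scalars <;> (field_simp; try ring)
  have q : d.T a * d.T a = d.Q • d.h a + (d.Q - 1) • (d.e a * d.T a) := d.qT a h
  have k : d.φ a * d.T a = d.Q • d.h a - d.A a (a + 1) (d.e a) (a + 1) a * d.T a := by
    unfold φ
    rw [add_mul, q, e, sub_mul, neg_mul, smul_mul_assoc]
    abel
  calc d.φ a * d.φ a = d.φ a * d.T a + d.φ a * d.A a (a + 1) (d.e a) a (a + 1) := mul_add _ _ _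
    _ = _ := by
      rw [k, hg.φ_A h]
      unfold φ
      rw [mul_add]
      abel

end Pool.Agent.Lib.MP_1ae3da_al.JM.YD
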