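import Pool.Agent.Lib.MP_1ae3da_al.J.K4a

/-! The products of the normalised elements of three positions. -/

namespace Pool.Agent.Lib.MP_1ae3da_al.JM.YD

variable {F H : Type} [Field F] [CharZero F] [Ring H] [Algebra F H] {d : YD F H} {a b c : ℕ}
  {ε v y y' ψ : H} {z : ℕ → F}

/-- the products of the idempotents and mixed terms of three positions. -/
structure Tr (ζ e1 e2 e3 N1 N2 N3 : H) : Prop where
  a1 : e1 * e2 = e3 * e1
  a2 : e1 * e2 = e2 * e3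
  a3 : e2 * e1 = e1 * e2
  a4 : e1 * e3 = e1 * e2
  a5 : e3 * e2 = e1 * e2
  b1 : e1 * N2 = ζ * N3 * N1
  b2 : e1 * N2 = N2 * e3
  c1 : N1 * e2 = e3 * N1
  c2 : N1 * e2 = N2 * (ζ * N3)
  d1 : N1 * N2 = ζ * N3 * e1
  d2 : N1 * N2 = e2 * (ζ * N3)
  f1 : e2 * N1 = N1 * e3
  f2 : e2 * N1 = N3 * N2
  g1 : N2 * e1 = N1 * N3
  g2 : N2 * e1 = e3 * N2
  h1 : N2 * N1 = e1 * N3
  h2 : N2 * N1 = N3 * e2

section
variable {A : Type} [CommRing A] (φ : A →+* H)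

lemma tr_r {n : H} {β β' : A} (h : n * φ β = φ β' * n) (α : A) :
    φ α * n * φ β = φ (α * β') * n := by rw [mul_assoc, h, ← mul_assoc, ← map_mul]

lemma tr_l (n : H) (α β : A) : φ α * (φ β * n) = φ (α * β) * n := by
  rw [← mul_assoc, ← map_mul]

lemma tr_p {n m l : H} {β β' γ : A} (h : n * φ β = φ β' * n) (k : n * m = φ γ * l) (α : A) :
    φ α * n * (φ β * m) = φ (α * β' * γ) * l := by
  rw [← mul_assoc, tr_r φ h, mul_assoc, k, tr_l]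

lemma tr_m {n : H} {β β' γ γ' : A} (h : n * φ β = φ β' * n) (k : n * φ γ = φ γ' * n) :
    n * φ (β * γ) = φ (β' * γ') * n := by
  rw [map_mul, ← mul_assoc, h, mul_assoc, k, tr_l]

lemma tr_abs {ζ e1 e2 e3 f1 f2 f3 i j s t w : A} {n1 n2 n3 : H}
    (hζ : ζ * ζ = 1) (si : s * i = 1) (tj : t * j = 1)
    (t1 : e1 * e2 = e1 * e3) (t2 : e1 * e2 = e2 * e3)
    (u1 : f1 * e2 = f1 * f3) (u2 : f1 * e2 = e2 * f3)
    (v1 : f1 * f2 = f1 * e3) (v2 : f1 * f2 = f2 * e3)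
    (w1 : e1 * f2 = e1 * f3) (w2 : e1 * f2 = f2 * f3)
    (a1 : e1 * i = e1 * j) (a2 : f1 * i = f1 * j) (a3 : e2 * t = e2 * w) (a4 : f2 * t = f2 * w)
    (m1 : n1 * φ e2 = φ f2 * n1) (m2 : n1 * φ f2 = φ e2 * n1)
    (m3 : n1 * φ e3 = φ f3 * n1) (m4 : n1 * φ f3 = φ e3 * n1)
    (m5 : n2 * φ e1 = φ f1 * n2) (m6 : n2 * φ f1 = φ e1 * n2)
    (m7 : n2 * φ e3 = φ f3 * n2) (m8 : n2 * φ f3 = φ e3 * n2)
    (m9 : n3 * φ e1 = φ f1 * n3) (m10 : n3 * φ f1 = φ e1 * n3)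
    (m11 : n3 * φ e2 = φ f2 * n3) (m12 : n3 * φ f2 = φ e2 * n3)
    (i1 : n1 * φ i = φ i * n1) (i2 : n2 * φ i = φ i * n2) (i3 : n3 * φ i = φ i * n3)
    (j1 : n1 * φ j = φ j * n1) (j3 : n3 * φ j = φ j * n3) (z2 : n2 * φ ζ = φ ζ * n2)
    (p31 : n3 * n1 = φ (ζ * s) * n2) (p23 : n2 * n3 = φ (ζ * w) * n1)
    (p12 : n1 * n2 = φ (ζ * t) * n3) (p32 : n3 * n2 = φ w * n1)
    (p13 : n1 * n3 = φ s * n2) (p21 : n2 * n1 = φ t * n3) :
    Tr (φ ζ) (φ e1) (φ e2) (φ e3) (φ (f1 * i) * n1) (φ (f2 * j) * n2) (φ (f3 * i) * n3) := by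
  have k : ∀ {α β : A} (n : H), α = β → φ α * n = φ β * n := fun n e => by rw [e]
  have k0 : ∀ {α β γ δ : A}, α * β = γ * δ → φ α * φ β = φ γ * φ δ := fun e => by
    rw [← map_mul, ← map_mul, e]
  constructor
  · exact k0 (by linear_combination t1)
  · exact k0 t2
  · exact k0 (mul_comm _ _)
  · exact k0 t1.symm
  · exact k0 (by linear_combination -t2)
  · rw [tr_l, tr_l, tr_p φ (tr_m φ m10 i3) p31]
    refine k _ ?_
    linear_combination j * w1 - f3 * a1 - f3 * e1 * i * si - f3 * e1 * i * (s * i) * hζ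
  · rw [tr_l, tr_r φ m7]
    exact k _ (by linear_combination j * w2)
  · rw [tr_l, tr_r φ m1]
    exact k _ (by linear_combination i * v1)
  · rw [tr_l, tr_r φ m1, tr_p φ (tr_m φ z2 (tr_m φ m8 i2)) p23]
    refine k _ ?_
    linear_combination i * v2 - f2 * e3 * i * tj + e3 * i * j * a4 - f2 * e3 * i * j * w * hζ
  · rw [tr_l, tr_r φ m9, tr_p φ (tr_m φ m2 j1) p12]
    refine k _ ?_
    linear_combination ζ * i * u1 + ζ * i * f1 * e2 * tj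
  · rw [tr_l, tr_l, tr_p φ (tr_m φ m2 j1) p12]
    refine k _ ?_
    linear_combination ζ * i * u2 + ζ * i * f1 * e2 * tj
  · rw [tr_l, tr_r φ m3]
    exact k _ (by linear_combination i * u1)
  · rw [tr_l, tr_p φ (tr_m φ m12 j3) p32]
    refine k _ ?_
    linear_combination i * u2 - e2 * f3 * i * tj + f3 * i * j * a3
  · rw [tr_r φ m5, tr_p φ (tr_m φ m4 i1) p13]
    refine k _ ?_
    linear_combination j * v1 - e3 * a2 - f1 * e3 * i * si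
  · rw [tr_l, tr_r φ m5]
    exact k _ (by linear_combination j * v2)
  · rw [tr_l, tr_p φ (tr_m φ m6 i2) p21]
    refine k _ ?_
    linear_combination i * w1 + i * e1 * f2 * tj
  · rw [tr_r φ m11, tr_p φ (tr_m φ m6 i2) p21]
    refine k _ ?_
    linear_combination i * w2 + i * e1 * f2 * tj

end

lemma tr_cj {x p q r p' q' r' : H} (hx : IsUnit x) (h : p * q = p * r) (h1 : x * p = p' * x)
    (h2 : x * q = q' * x) (h3 : x * r = r' * x) : p' * q' = p' * r' := by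
  refine hx.mul_right_cancel ?_
  rw [mul_assoc, mul_assoc, ← h2, ← h3, ← mul_assoc, ← mul_assoc, ← h1, mul_assoc, mul_assoc, h]

lemma tr_cj' {x p q r p' q' r' : H} (hx : IsUnit x) (h : p * q = q * r) (h1 : x * p = p' * x)
    (h2 : x * q = q' * x) (h3 : x * r = r' * x) : p' * q' = q' * r' := by
  refine hx.mul_right_cancel ?_
  rw [mul_assoc, mul_assoc, ← h2, ← h3, ← mul_assoc, ← mul_assoc, ← h1, ← h2, mul_assoc, mul_assoc,
    h]

lemma tr_2 {p q x x' x'' : H} (h1 : p * x = x' * p) (h2 : q * x' = x'' * q) :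
    q * p * x = x'' * (q * p) := by rw [mul_assoc, h1, ← mul_assoc, h2, mul_assoc]

lemma tr_prod {ζ p q r s t w : H} (hζ : ζ * ζ = 1) (zp : Commute ζ p) (zq : Commute ζ q)
    (zr : Commute ζ r) (pq : p * q = ζ * (q * p)) (pr : p * r = ζ * (r * p))
    (qr : q * r = ζ * (r * q)) (hs : p * p = s) (ht : q * q = t) (hw : r * r = w)
    (sq : q * s = s * q) (sr : r * s = s * r) (tr : r * t = t * r) :
    r * p * (q * p) = ζ * s * (r * q) ∧ r * q * (r * p) = ζ * w * (q * p) ∧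
    q * p * (r * q) = ζ * t * (r * p) ∧ r * p * (r * q) = w * (q * p) ∧
    q * p * (r * p) = s * (r * q) ∧ r * q * (q * p) = t * (r * p) := by
  have pq' : ∀ x, p * (q * x) = ζ * (q * (p * x)) := fun x => by
    rw [← mul_assoc, pq]; simp only [mul_assoc]
  have pr' : ∀ x, p * (r * x) = ζ * (r * (p * x)) := fun x => by
    rw [← mul_assoc, pr]; simp only [mul_assoc]
  have qr' : ∀ x, q * (r * x) = ζ * (r * (q * x)) := fun x => by
    rw [← mul_assoc, qr]; simp only [mul_assoc]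
  have zz : ∀ x, ζ * (ζ * x) = x := fun x => by rw [← mul_assoc, hζ, one_mul]
  have qz : ∀ x, q * (ζ * x) = ζ * (q * x) := fun x => (zq.left_comm x).symm
  have rz : ∀ x, r * (ζ * x) = ζ * (r * x) := fun x => (zr.left_comm x).symm
  have rs : ∀ x, r * (s * x) = s * (r * x) := fun x => by rw [← mul_assoc, sr, mul_assoc]
  have rt : ∀ x, r * (t * x) = t * (r * x) := fun x => by rw [← mul_assoc, tr, mul_assoc]
  have qq : ∀ x, q * (q * x) = t * x := fun x => by rw [← mul_assoc, ht]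
  have rr : ∀ x, r * (r * x) = w * x := fun x => by rw [← mul_assoc, hw]
  have _ := zp
  refine ⟨?_, ?_, ?_, ?_, ?_, ?_⟩
  · rw [mul_assoc, mul_assoc, pq', hs, sq, rz, rs]
  · rw [mul_assoc, mul_assoc, qr', rz, rr]
  · rw [mul_assoc, mul_assoc, pr', pq, rz, zz, qr', qq, rt]
  · rw [mul_assoc, pr', pq, rz, rz, rz, zz, rr]
  · rw [mul_assoc, pr', hs, qz, qr', zz, sq, rs]
  · rw [mul_assoc, qq, rt]

omit [CharZero F] in
/-- the commutative ring structure of the torus algebra. -/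
@[reducible] def crS (d : YD F H) : CommRing d.S :=
  { (inferInstance : Ring d.S) with mul_comm := fun x y => Subtype.ext (d.cm _ x.2 _ y.2) }

lemma Good.N_eq (hg : d.Good) (h : d.Pr a b ε) :
    d.N a b ε = d.ep a ε * d.ei a * (d.ν b * d.ν a) := by
  have ha : a < d.k := h.lt.trans h.bk
  unfold N
  rw [hg.ν_S h.pb h.mem, mul_assoc, mul_assoc, hg.k4ei ha ha, ← mul_assoc (d.ν b),
    hg.k4ei ha h.bk]
  simp only [mul_assoc]

/-- hint: write `N a b ε = ep a ε * (ν b * ν a * ei a)`, move all idempotents to the left, and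
conjugate `tri1`, `tri2` by `X a`, `X (a + 1)`, `X (a + 2)`. -/
theorem Good.tr (hg : d.Good) (h : a + 2 < d.k) : Tr d.ζ (d.e a) (d.e (a + 1)) (d.e3 a)
    (d.N a (a + 1) (d.e a)) (d.N (a + 1) (a + 2) (d.e (a + 1))) (d.N a (a + 2) (d.e3 a)) := by
  have h0 : a < d.k := by omega
  have h1 : a + 1 < d.k := by omega
  have P1 : d.Pr a (a + 1) (d.e a) := pr1 h1
  have P2 : d.Pr (a + 1) (a + 2) (d.e (a + 1)) := pr1 h
  have P3 : d.Pr a (a + 2) (d.e3 a) := pr3 h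
  have q1 := ep_mem h0 P1.mem
  have q2 := ep_mem h1 P2.mem
  have q3 := ep_mem h0 P3.mem
  have xe11 := X_ep0 (ε := d.e a) h0
  have xf11 := X_ep1 h0 P1.mem
  have xe21 := P1.pb
  have xf21 := P1.pb'
  have xe31 := (P1.oth _ h (by omega) (by omega)).symm
  have xf31 := (P1.ep_oth h (by omega) (by omega)).symm
  have xe12 := (P2.oth _ h0 (by omega) (by omega)).symm
  have xf12 := (P2.ep_oth h0 (by omega) (by omega)).symm
  have xe22 := X_ep0 (ε := d.e (a + 1)) h1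
  have xf22 := X_ep1 h1 P2.mem
  have xe32 := P2.pb
  have xf32 := P2.pb'
  have xe13 := X_ep0 (ε := d.e3 a) h0
  have xf13 := X_ep1 h0 P3.mem
  have xe23 := (P3.oth _ h1 (by omega) (by omega)).symm
  have xf23 := (P3.ep_oth h1 (by omega) (by omega)).symm
  have xe33 := P3.pb
  have xf33 := P3.pb'
  obtain ⟨p31, p23, p12, p32, p13, p21⟩ := tr_prod d.ζζ (hg.k4ζ h0).symm (hg.k4ζ h1).symm
    (hg.k4ζ h).symm (hg.νν h0 h1 (by omega)) (hg.νν h0 h (by omega)) (hg.νν h1 h (by omega))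
    (hg.ν_sq h0) (hg.ν_sq h1) (hg.ν_sq h) (hg.k4et h0 h1) (hg.k4et h0 h) (hg.k4et h1 h)
  rw [hg.N_eq P1, hg.N_eq P2, hg.N_eq P3]
  let _ := crS d
  exact tr_abs (A := d.S) (d.S.val : d.S →+* H) (ζ := ⟨_, d.mζ⟩) (e1 := ⟨_, P1.mem⟩)
    (e2 := ⟨_, P2.mem⟩) (e3 := ⟨_, P3.mem⟩) (f1 := ⟨_, q1⟩) (f2 := ⟨_, q2⟩) (f3 := ⟨_, q3⟩)
    (i := ⟨_, d.mei h0⟩) (j := ⟨_, d.mei h1⟩) (s := ⟨_, d.met h0⟩) (t := ⟨_, d.met h1⟩)
    (w := ⟨_, d.met h⟩) (Subtype.ext d.ζζ) (Subtype.ext (d.et_ei h0)) (Subtype.ext (d.et_ei h1))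
    (Subtype.ext (tri1 h)) (Subtype.ext (tri2 h))
    (Subtype.ext (tr_cj (d.X_unit h0) (tri1 h) xe11 xe12 xe13))
    (Subtype.ext (tr_cj' (d.X_unit h0) (tri2 h) xe11 xe12 xe13))
    (Subtype.ext (tr_cj (d.X_unit h1) (tri1 h) xe21 xe22 xe23))
    (Subtype.ext (tr_cj' (d.X_unit h1) (tri2 h) xe21 xe22 xe23))
    (Subtype.ext (tr_cj (d.X_unit h) (tri1 h) xe31 xe32 xe33))
    (Subtype.ext (tr_cj' (d.X_unit h) (tri2 h) xe31 xe32 xe33))
    (Subtype.ext P1.ei) (Subtype.ext P1.ep_ei) (Subtype.ext P2.et) (Subtype.ext P2.ep_et)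
    (tr_2 (hg.ν_S xe12 P2.mem) (hg.ν_S xe22 P2.mem)) (tr_2 (hg.ν_S xf12 q2) (hg.ν_S xf22 q2))
    (tr_2 (hg.ν_S xe13 P3.mem) (hg.ν_S xf23 q3)) (tr_2 (hg.ν_S xf13 q3) (hg.ν_S xe23 P3.mem))
    (tr_2 (hg.ν_S xe21 P1.mem) (hg.ν_S xf31 q1)) (tr_2 (hg.ν_S xf21 q1) (hg.ν_S xe31 P1.mem))
    (tr_2 (hg.ν_S xe23 P3.mem) (hg.ν_S xe33 P3.mem)) (tr_2 (hg.ν_S xf23 q3) (hg.ν_S xf33 q3))
    (tr_2 (hg.ν_S xe11 P1.mem) (hg.ν_S xf31 q1)) (tr_2 (hg.ν_S xf11 q1) (hg.ν_S xe31 P1.mem))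
    (tr_2 (hg.ν_S xe12 P2.mem) (hg.ν_S xe32 P2.mem)) (tr_2 (hg.ν_S xf12 q2) (hg.ν_S xf32 q2))
    (tr_2 (hg.k4ei h0 h0) (hg.k4ei h0 h1)) (tr_2 (hg.k4ei h0 h1) (hg.k4ei h0 h))
    (tr_2 (hg.k4ei h0 h0) (hg.k4ei h0 h)) (tr_2 (hg.k4ei h1 h0) (hg.k4ei h1 h1))
    (tr_2 (hg.k4ei h1 h0) (hg.k4ei h1 h)) (tr_2 (hg.k4ζ h1) (hg.k4ζ h))
    p31 p23 p12 p32 p13 p21

end Pool.Agent.Lib.MP_1ae3da_al.JM.YD
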