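import Pool.Agent.Lib.MP_1ae3da_al.J.K3

/-! The normalised elements. -/

namespace Pool.Agent.Lib.MP_1ae3da_al.JM.YD

variable {F H : Type} [Field F] [CharZero F] [Ring H] [Algebra F H] {d : YD F H} {a b c : ℕ}
  {ε v y y' ψ : H} {z : ℕ → F}

namespace Good
variable (hg : d.Good)
include hg

lemma k4X (hb : b < d.k) (f : (ℕ → F) → F) : Commute (d.Fz f) (d.X b) :=
  hg.cm (fun _ ha => d.Z_X ha hb) f

lemma k4S (hy : y ∈ d.S) (f : (ℕ → F) → F) : Commute (d.Fz f) y :=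
  hg.cm (fun _ ha => d.Z_S ha hy) f

lemma k4F (f f' : (ℕ → F) → F) : Commute (d.Fz f) (d.Fz f') :=
  hg.cm (fun _ ha => hg.Z_Fz ha) f

lemma k4R (h : d.Pr a b ε) (f : (ℕ → F) → F) : Commute (d.Fz f) (d.R a b ε) :=
  hg.cm (fun _ hc => h.Z_R hc) f

lemma k4one {f : (ℕ → F) → F} (h : ∀ z v, v ≠ 0 → d.FW z v → f z = 1) : d.Fz f = 1 := by
  rw [hg.congr (f' := fun _ => 1) h, hg.const, map_one]

theorem ν_S (h : d.X a * y = y' * d.X a) (hy : y ∈ d.S) : d.ν a * y = y' * d.ν a := by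
  unfold ν
  rw [mul_assoc, (hg.k4S hy _).eq, ← mul_assoc, h, mul_assoc]

theorem ν_sq (ha : a < d.k) : d.ν a * d.ν a = d.et a := by
  have e1 : d.X a * d.X a = d.et a * d.Z a := by
    rw [← d.Z_S ha (d.met ha), YD.Z, mul_assoc (d.X a * d.X a), d.ei_et ha, mul_one]
  have e2 : d.Z a * (d.Fz (fun z => (d.u ^ d.lg (z a))⁻¹) *
      d.Fz fun z => (d.u ^ d.lg (z a))⁻¹) = 1 := by
    rw [← hg.Z ha, hg.mul, hg.mul]
    refine hg.k4one fun z v hv hz => ?_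
    have h1 := hg.spec hz hv ha
    have h2 := zpow_ne_zero (d.lg (z a)) d.u0
    rw [two_mul, zpow_add₀ d.u0] at h1
    generalize d.u ^ d.lg (z a) = t at h1 h2
    rw [h1]
    field_simp
  unfold ν
  rw [mul_assoc, ← mul_assoc _ (d.X a), (hg.k4X ha _).eq, mul_assoc, ← mul_assoc, e1, mul_assoc,
    e2, mul_one]

theorem ν_X (ha : a < d.k) (hb : b < d.k) (h : a ≠ b) :
    d.ν a * d.X b = d.ζ * (d.X b * d.ν a) := by
  unfold ν
  rw [mul_assoc, (hg.k4X hb _).eq, ← mul_assoc, d.XX ha hb h]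
  simp only [mul_assoc]

lemma k4ν (hb : b < d.k) (f : (ℕ → F) → F) : Commute (d.Fz f) (d.ν b) :=
  (hg.k4X hb f).mul_right (hg.k4F f _)

theorem νν (ha : a < d.k) (hb : b < d.k) (h : a ≠ b) :
    d.ν a * d.ν b = d.ζ * (d.ν b * d.ν a) := by
  have e : d.ν b = d.X b * d.Fz fun z => (d.u ^ d.lg (z b))⁻¹ := rfl
  rw [e, ← mul_assoc, hg.ν_X ha hb h, mul_assoc, mul_assoc, ← (hg.k4ν ha _).eq, mul_assoc]

theorem Z_ν (ha : a < d.k) (hb : b < d.k) : d.Z a * d.ν b = d.ν b * d.Z a := by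
  have c1 : Commute (d.Z a) (d.X b) := d.Z_X ha hb
  exact (c1.mul_right (hg.Z_Fz ha)).eq

theorem X_ν (ha : a < d.k) : d.X a = d.ν a * d.Fz fun z => d.u ^ d.lg (z a) := by
  have _ := ha
  unfold ν
  rw [mul_assoc, hg.mul, hg.k4one fun z _ _ _ => inv_mul_cancel₀ (zpow_ne_zero _ d.u0), mul_one]

theorem ν0 (h : d.It a ψ) : ψ * d.ν a = d.ν (a + 1) * ψ := by
  unfold ν
  rw [← mul_assoc, h.x0, mul_assoc, h.fz hg, mul_assoc]
  simp only [Function.comp_apply, Equiv.swap_apply_left]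

theorem ν1 (h : d.It a ψ) : ψ * d.ν (a + 1) = d.ζ * (d.ν a * ψ) := by
  unfold ν
  rw [← mul_assoc, h.x1, mul_assoc, mul_assoc, h.fz hg, mul_assoc]
  simp only [Function.comp_apply, Equiv.swap_apply_right]

theorem νc (h : d.It a ψ) (hc : c < d.k) (h0 : c ≠ a) (h1 : c ≠ a + 1) :
    ψ * d.ν c = d.ν c * ψ := by
  unfold ν
  rw [← mul_assoc, h.xc c hc h0 h1, mul_assoc, h.fz hg, mul_assoc]
  simp only [Function.comp_apply, Equiv.swap_apply_of_ne_of_ne h0 h1]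

theorem N_R (h : d.Pr a b ε) :
    d.N a b ε = d.R a b ε * d.Fz fun z => (d.u ^ (d.lg (z a) + d.lg (z b)))⁻¹ := by
  have ha : a < d.k := h.lt.trans h.bk
  have e : (d.Fz fun z => (d.u ^ (d.lg (z a) + d.lg (z b)))⁻¹) =
      d.Fz (fun z => (d.u ^ d.lg (z b))⁻¹) * d.Fz fun z => (d.u ^ d.lg (z a))⁻¹ := by
    rw [hg.mul]
    exact hg.congr fun z _ _ _ => by rw [zpow_add₀ d.u0, mul_inv, mul_comm]
  have c1 := (((hg.k4S h.mem fun z => (d.u ^ d.lg (z b))⁻¹).mul_right (hg.k4X ha _)).mul_right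
    (hg.k4S (d.mei ha) _)).eq
  have c2 := (hg.k4S (d.mei ha) fun z => (d.u ^ d.lg (z a))⁻¹).eq
  rw [e]
  unfold N R ν
  generalize (d.Fz fun z => (d.u ^ d.lg (z b))⁻¹) = p at c1 ⊢
  generalize (d.Fz fun z => (d.u ^ d.lg (z a))⁻¹) = q at c2 ⊢
  calc d.X b * p * ε * (d.X a * q) * d.ei a = d.X b * p * ε * d.X a * (q * d.ei a) := by
        simp only [mul_assoc]
    _ = d.X b * (p * (ε * d.X a * d.ei a)) * q := by rw [c2]; simp only [mul_assoc]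
    _ = _ := by rw [c1]; simp only [mul_assoc]

theorem R_N (h : d.Pr a b ε) :
    d.R a b ε = d.N a b ε * d.Fz fun z => d.u ^ (d.lg (z a) + d.lg (z b)) := by
  rw [hg.N_R h, mul_assoc, hg.mul,
    hg.k4one fun z _ _ _ => inv_mul_cancel₀ (zpow_ne_zero _ d.u0), mul_one]

theorem NN (h : d.Pr a b ε) : d.N a b ε * d.N a b ε = d.ζ * d.ep a ε := by
  have ha : a < d.k := h.lt.trans h.bk
  have e2 : d.Z a * d.Z b * (d.Fz (fun z => (d.u ^ (d.lg (z a) + d.lg (z b)))⁻¹) *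
      d.Fz fun z => (d.u ^ (d.lg (z a) + d.lg (z b)))⁻¹) = 1 := by
    rw [← hg.Z ha, ← hg.Z h.bk, hg.mul, hg.mul, hg.mul]
    refine hg.k4one fun z v hv hz => ?_
    have h1 := hg.spec hz hv ha
    have h2 := zpow_ne_zero (d.lg (z a)) d.u0
    have h3 := hg.spec hz hv h.bk
    have h4 := zpow_ne_zero (d.lg (z b)) d.u0
    rw [two_mul, zpow_add₀ d.u0] at h1 h3
    rw [zpow_add₀ d.u0]
    generalize d.u ^ d.lg (z a) = t at h1 h2
    generalize d.u ^ d.lg (z b) = s at h3 h4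
    rw [h1, h3]
    field_simp
  rw [hg.N_R h, mul_assoc, ← mul_assoc _ (d.R a b ε), (hg.k4R h _).eq, mul_assoc, ← mul_assoc,
    h.RR, mul_assoc, e2, mul_one]

theorem ep_N (h : d.Pr a b ε) : d.ep a ε * d.N a b ε = d.N a b ε := by
  rw [hg.N_R h, ← mul_assoc, h.ep_R]

theorem N_ep (h : d.Pr a b ε) : d.N a b ε * d.ep a ε = d.N a b ε := by
  rw [hg.N_R h, mul_assoc, (hg.k4S (ep_mem (h.lt.trans h.bk) h.mem) _).eq, ← mul_assoc, h.R_ep]

lemma k4N (h : d.Pr a b ε) (h1 : y * d.R a b ε = d.R a b ε * y)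
    (h2 : ∀ f, Commute (d.Fz f) y) : y * d.N a b ε = d.N a b ε * y := by
  have c1 : Commute y (d.R a b ε) := h1
  rw [hg.N_R h]
  exact (c1.mul_right (h2 _).symm).eq

theorem e_N (h : d.Pr a b ε) : ε * d.N a b ε = d.N a b ε * ε :=
  hg.k4N h h.e_R (hg.k4S h.mem)

theorem ζ_N (h : d.Pr a b ε) : d.ζ * d.N a b ε = d.N a b ε * d.ζ :=
  hg.k4N h h.ζ_R (hg.k4S d.mζ)

theorem Z_N (h : d.Pr a b ε) (hc : c < d.k) : d.Z c * d.N a b ε = d.N a b ε * d.Z c :=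
  hg.k4N h (h.Z_R hc) fun _ => (hg.Z_Fz hc).symm

theorem N_X (h : d.Pr a b ε) (hc : c < d.k) (h0 : c ≠ a) (h1 : c ≠ b) :
    d.N a b ε * d.X c = d.X c * d.N a b ε :=
  (hg.k4N h (h.R_X hc h0 h1).symm (hg.k4X hc)).symm

theorem N_S (h : a + 1 < d.k) (hy : y ∈ d.S) (h1 : d.T a * y = y' * d.T a) :
    d.N a (a + 1) (d.e a) * y = y' * d.N a (a + 1) (d.e a) := by
  rw [hg.N_R (pr1 h), mul_assoc, (hg.k4S hy _).eq, ← mul_assoc, R_S h hy h1, mul_assoc]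

/-- the sign operator commutes with the torus and with every `X c`. -/
theorem M_S (h : a + 1 < d.k) (hy : y ∈ d.S) :
    d.e a * d.N a (a + 1) (d.e a) * y = y * (d.e a * d.N a (a + 1) (d.e a)) := by
  obtain ⟨y', -, h1, -⟩ := d.nT a h y hy
  rw [mul_assoc, hg.N_S h hy h1, ← mul_assoc, d.e_abs h hy h1, d.cm _ (d.me a h) _ hy, mul_assoc]

theorem M_X (h : d.Pr a b ε) (hc : c < d.k) :
    ε * d.N a b ε * d.X c = d.X c * (ε * d.N a b ε) := by
  have ha : a < d.k := h.lt.trans h.bk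
  have hp := ep_mem ha h.mem
  have c0 := d.cm _ h.mem _ hp
  have z1 : d.ep a ε * (d.ζ * ε) = ε * d.ep a ε := by
    rw [d.cm _ d.mζ _ h.mem, ← mul_assoc, ← c0, h.zz]
  have z2 : ε * (d.ζ * d.ep a ε) = d.ep a ε * ε := by
    rw [d.cm _ d.mζ _ hp, ← mul_assoc, h.zz, c0]
  have key : ε * d.R a b ε * d.X c = d.X c * (ε * d.R a b ε) := by
    by_cases h0 : c = a
    · subst h0
      calc ε * d.R c b ε * d.X c = ε * (d.X b * ε) * d.Z c := by
            rw [mul_assoc, h.R_Xa]; simp only [mul_assoc]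
        _ = d.ep c ε * (d.ζ * ε) * (d.X b * d.Z c) := by rw [h.pb, z1]; simp only [mul_assoc]
        _ = d.ep c ε * (d.X c * d.R c b ε) := by rw [h.Xa_R]; simp only [mul_assoc]
        _ = _ := by rw [← mul_assoc, ← X_ep0 ha, mul_assoc]
    · by_cases h1 : c = b
      · subst h1
        calc ε * d.R a c ε * d.X c = ε * (d.ζ * (d.X a * ε)) * d.Z c := by
              rw [mul_assoc, h.R_Xb]; simp only [mul_assoc]
          _ = ε * (d.ζ * d.ep a ε) * (d.X a * d.Z c) := by rw [X_ep0 ha]; simp only [mul_assoc]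
          _ = d.ep a ε * (d.X c * d.R a c ε) := by rw [z2, h.Xb_R]; simp only [mul_assoc]
          _ = _ := by rw [← mul_assoc, ← h.pb, mul_assoc]
      · rw [mul_assoc, h.R_X hc h0 h1, ← mul_assoc, h.oth c hc h0 h1, mul_assoc]
  rw [hg.N_R h, ← mul_assoc, mul_assoc _ _ (d.X c), (hg.k4X hc _).eq, ← mul_assoc, key]
  simp only [mul_assoc]

lemma k4ei (ha : a < d.k) (hb : b < d.k) : d.ν b * d.ei a = d.ei a * d.ν b :=
  hg.ν_S (d.ei_X ha hb).symm (d.mei ha)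

lemma k4et (ha : a < d.k) (hb : b < d.k) : d.ν b * d.et a = d.et a * d.ν b :=
  hg.ν_S (d.et_X ha hb).symm (d.met ha)

lemma k4ζ (hb : b < d.k) : d.ν b * d.ζ = d.ζ * d.ν b := hg.ν_S (d.ζ_X hb).symm d.mζ

lemma k4sq (ha : a < d.k) : d.ν a * (d.ν a * d.ei a) = 1 := by
  rw [← mul_assoc, hg.ν_sq ha, d.et_ei ha]

lemma k4ab (ha : a < d.k) (hb : b < d.k) (hy : y ∈ d.S) (h : y * d.et a = y * d.et b) :
    d.ν b * (d.ν b * (y * (d.ν a * d.ei a))) = y * d.ν a := by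
  rw [← mul_assoc, hg.ν_sq hb, ← mul_assoc, d.cm _ (d.met hb) _ hy, ← h, mul_assoc,
    ← mul_assoc (d.et a), ← hg.k4et ha ha, mul_assoc, d.et_ei ha, mul_one]

theorem P_ν0 (h : d.Pr a b ε) : (ε + d.N a b ε) * d.ν a = d.ν b * (ε + d.N a b ε) := by
  have ha : a < d.k := h.lt.trans h.bk
  have e1 : d.N a b ε * d.ν a = d.ν b * ε := by
    unfold N
    rw [mul_assoc, ← hg.k4ei ha ha, mul_assoc, hg.k4sq ha, mul_one]
  have e2 : d.ν b * d.N a b ε = ε * d.ν a := by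
    unfold N
    rw [← hg.k4ab ha h.bk h.mem h.et]
    simp only [mul_assoc]
  rw [add_mul, mul_add, e1, e2, add_comm]

theorem P_ν1 (h : d.Pr a b ε) :
    (ε + d.N a b ε) * d.ν b = d.ζ * (d.ν a * (ε + d.N a b ε)) := by
  have ha : a < d.k := h.lt.trans h.bk
  have hp := ep_mem ha h.mem
  have n1 := hg.νν ha h.bk h.lt.ne
  have p1 : d.ν b * d.ep a ε = ε * d.ν b := hg.ν_S h.pb' hp
  have p2 : d.ν a * ε = d.ep a ε * d.ν a := hg.ν_S (X_ep0 ha) h.mem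
  have e1 : d.N a b ε * d.ν b = d.ζ * (d.ν a * ε) := by
    unfold N
    calc d.ν b * ε * d.ν a * d.ei a * d.ν b = d.ν b * ε * (d.ν a * d.ν b) * d.ei a := by
          rw [mul_assoc _ _ (d.ν b), ← hg.k4ei ha h.bk]; simp only [mul_assoc]
      _ = d.ν b * (ε * d.ζ) * (d.ν b * d.ν a) * d.ei a := by rw [n1]; simp only [mul_assoc]
      _ = (d.ν b * d.ζ) * (ε * d.ν b) * d.ν a * d.ei a := by
          rw [d.cm _ h.mem _ d.mζ]; simp only [mul_assoc]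
      _ = d.ζ * (d.ν b * (d.ν b * (d.ep a ε * (d.ν a * d.ei a)))) := by
          rw [hg.k4ζ h.bk, ← p1]; simp only [mul_assoc]
      _ = _ := by rw [hg.k4ab ha h.bk hp h.ep_et, p2]
  have e2 : d.ζ * (d.ν a * d.N a b ε) = ε * d.ν b := by
    unfold N
    calc d.ζ * (d.ν a * (d.ν b * ε * d.ν a * d.ei a))
        = d.ζ * (d.ν a * d.ν b) * ε * (d.ν a * d.ei a) := by simp only [mul_assoc]
      _ = (d.ζ * d.ζ) * d.ν b * (d.ν a * ε) * (d.ν a * d.ei a) := by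
          rw [n1]; simp only [mul_assoc]
      _ = d.ν b * d.ep a ε * (d.ν a * (d.ν a * d.ei a)) := by
          rw [d.ζζ, one_mul, p2]; simp only [mul_assoc]
      _ = _ := by rw [hg.k4sq ha, mul_one, p1]
  rw [add_mul, mul_add, mul_add, e1, e2, add_comm]

theorem ov2N (h : a + 1 < d.k) (hv : d.FW z v) (e : z a = z (a + 1)) :
    (d.e a + d.N a (a + 1) (d.e a)) * v = 0 := by
  by_cases h0 : v = 0
  · rw [h0, mul_zero]
  have h1 := hg.spec hv h0 (by omega : a < d.k)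
  rw [add_mul, hg.N_R (pr1 h), mul_assoc, hg.ap hv, mul_smul_comm, hg.ov2 h hv e, ← e, ← two_mul,
    ← h1, smul_neg, smul_smul, inv_mul_cancel₀ (hv.ne h0 (by omega)), one_smul, add_neg_cancel]

theorem N3_h (h : a + 2 < d.k) :
    d.ζ * d.N a (a + 2) (d.e3 a) * d.h a = d.N a (a + 2) (d.e3 a) * d.h (a + 1) := by
  have ha : a < d.k := by omega
  have h1 : a + 1 < d.k := by omega
  have x1 : d.X a * d.h a = d.ζ * d.h a * d.X a := by
    rw [mul_assoc, d.h_X0 h1, ← mul_assoc, d.ζζ, one_mul]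
  have n1 := hg.ν_S x1 (d.mh a h1)
  have n2 := hg.ν_S (d.h_X (c := a + 1) h ha (by omega) (by omega)).symm (d.mh _ h)
  have c1 := d.cm _ (d.mei ha) _ (d.mh a h1)
  have c2 := d.cm _ (d.mei ha) _ (d.mh _ h)
  have c3 := d.cm _ (pr3 h).mem _ d.mζ
  unfold N
  calc d.ζ * (d.ν (a + 2) * d.e3 a * d.ν a * d.ei a) * d.h a
      = d.ζ * d.ν (a + 2) * d.e3 a * d.ν a * (d.ei a * d.h a) := by simp only [mul_assoc]
    _ = d.ζ * d.ν (a + 2) * d.e3 a * (d.ν a * d.h a) * d.ei a := by rw [c1]; simp only [mul_assoc]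
    _ = (d.ζ * d.ν (a + 2)) * (d.e3 a * d.ζ) * d.h a * d.ν a * d.ei a := by
        rw [n1]; simp only [mul_assoc]
    _ = d.ν (a + 2) * (d.ζ * d.ζ) * (d.e3 a * d.h a) * d.ν a * d.ei a := by
        rw [← hg.k4ζ h, c3]; simp only [mul_assoc]
    _ = d.ν (a + 2) * d.e3 a * (d.h (a + 1) * d.ν a) * d.ei a := by
        rw [d.ζζ, mul_one, e3_h h]; simp only [mul_assoc]
    _ = d.ν (a + 2) * d.e3 a * d.ν a * (d.h (a + 1) * d.ei a) := by
        rw [← n2]; simp only [mul_assoc]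
    _ = _ := by rw [← c2]; simp only [mul_assoc]

theorem itN11 (h : d.It a ψ) : ψ * d.N a (a + 1) (d.e a) = d.N a (a + 1) (d.e a) * ψ := by
  rw [hg.N_R (pr1 h.lt), ← mul_assoc, h.R1, mul_assoc, h.fz hg, mul_assoc]
  simp only [Function.comp_apply, Equiv.swap_apply_left, Equiv.swap_apply_right, add_comm]

omit hg in
lemma k4mv {p1 p2 p3 p4 q1 q2 q3 q4 : H} (h1 : ψ * p1 = q1 * ψ) (h2 : ψ * p2 = q2 * ψ)
    (h3 : ψ * p3 = q3 * ψ) (h4 : ψ * p4 = q4 * ψ) :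
    ψ * (p1 * p2 * p3 * p4) = q1 * q2 * q3 * q4 * ψ :=
  ((SemiconjBy.mul_right (SemiconjBy.mul_right h1 h2) h3).mul_right h4).eq

theorem itN21 (h : d.It (a + 1) ψ) :
    ψ * d.N a (a + 1) (d.e a) = d.N a (a + 2) (d.e3 a) * ψ := by
  have hl := h.lt
  have ha : a < d.k := by omega
  exact k4mv (hg.ν0 h) (h.s _ (d.me a (by omega)) _ (T_e3a hl))
    (hg.νc h ha (by omega) (by omega)) (h.s _ (d.mei ha) _ (d.T_ei hl ha (by omega) (by omega)))

theorem itN23 (h : d.It (a + 1) ψ) :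
    ψ * d.N a (a + 2) (d.e3 a) = d.ζ * d.N a (a + 1) (d.e a) * ψ := by
  have hl := h.lt
  have ha : a < d.k := by omega
  refine (k4mv ((hg.ν1 h).trans (mul_assoc _ _ _).symm) (h.s _ (pr3 hl).mem _ (T_e3b hl))
    (hg.νc h ha (by omega) (by omega))
    (h.s _ (d.mei ha) _ (d.T_ei hl ha (by omega) (by omega)))).trans ?_
  simp only [N, mul_assoc]

theorem itN13 (h : d.It a ψ) (h2 : a + 2 < d.k) :
    ψ * d.N a (a + 2) (d.e3 a) = d.N (a + 1) (a + 2) (d.e (a + 1)) * ψ :=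
  k4mv (hg.νc h h2 (by omega) (by omega)) (h.s _ (pr3 h2).mem _ (T_e3d h2)) (hg.ν0 h)
    (h.s _ (d.mei (by omega)) _ (d.T_ei0 h.lt))

theorem itN12 (h : d.It a ψ) (h2 : a + 2 < d.k) :
    ψ * d.N (a + 1) (a + 2) (d.e (a + 1)) = d.ζ * d.N a (a + 2) (d.e3 a) * ψ := by
  refine (k4mv (hg.νc h h2 (by omega) (by omega)) (h.s _ (d.me _ h2) _ (T_e3c h2))
    ((hg.ν1 h).trans (mul_assoc _ _ _).symm) (h.s _ (d.mei h.lt) _ (d.T_ei1 h.lt))).trans ?_
  have c3 := d.cm _ (pr3 h2).mem _ d.mζ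
  unfold N
  rw [← mul_assoc _ d.ζ, mul_assoc _ _ d.ζ, c3, ← mul_assoc _ d.ζ, hg.k4ζ h2]
  simp only [mul_assoc]

end Good

end Pool.Agent.Lib.MP_1ae3da_al.JM.YD
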