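import Pool.Agent.Lib.MP_1ae3da_al.J.K5a

/-! The braid relation of the intertwiners. -/

namespace Pool.Agent.Lib.MP_1ae3da_al.JM.YD

section abs
variable {F H : Type} [Field F] [CharZero F] [Ring H] [Algebra F H] {W : Submodule F H}
  {q ρ ρ1 ρ2 : F} {ζ e N e1 N1 e2 N2 e3 N3 M w : H}

/-- the coefficient of one sign. -/
def kp (q ρ : F) : F := q / (2 * (ρ - 1))

/-- the correction on a weight space. -/
def Lp (q ρ : F) (e N : H) : H := kp q ρ • (e + N) + kp q (-ρ) • (e - N)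

/-- a pair of positions seen on a weight space. -/
structure Pw (W : Submodule F H) (ρ : F) (e N : H) : Prop where
  se : ∀ w ∈ W, e * w ∈ W
  sn : ∀ w ∈ W, N * w ∈ W
  r0 : ρ ≠ 0
  r1 : ρ ≠ -1
  ov : ρ = 1 → ∀ w ∈ W, N * w = -(e * w)

omit [CharZero F] in
theorem Pw.lp (h : Pw W ρ e N) (q ρ' : F) (hw : w ∈ W) : Lp q ρ' e N * w ∈ W := by
  rw [Lp, add_mul, smul_mul_assoc, smul_mul_assoc, add_mul, sub_mul]
  exact add_mem (W.smul_mem _ (add_mem (h.se w hw) (h.sn w hw)))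
    (W.smul_mem _ (sub_mem (h.se w hw) (h.sn w hw)))

theorem kp_id {r s : F} (r0 : r ≠ 0) (h1 : r ≠ 1) (h2 : s ≠ 1) (h3 : r * s ≠ 1) :
    kp q (r * s) * kp q r⁻¹ + kp q r * kp q s - kp q s * kp q (r * s) = 0 := by
  have k1 := sub_ne_zero.2 h1
  have k2 := sub_ne_zero.2 h2
  have k3 := sub_ne_zero.2 h3
  have k4 := sub_ne_zero.2 h1.symm
  have e : kp q r⁻¹ = -(r * kp q r) := by
    simp only [kp]
    field_simp
    ring
  rw [e]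
  simp only [kp]
  field_simp
  ring

theorem tri_a (h1 : Pw W ρ1 e1 N1) (h2 : Pw W ρ2 e2 N2) (h3 : Pw W (ρ1 * ρ2) e3 M)
    (a1 : e3 * e1 = e1 * e2) (a2 : e2 * e3 = e1 * e2) (b1 : M * N1 = e1 * N2)
    (b2 : N2 * e3 = e1 * N2) (c1 : e3 * N1 = N1 * e2) (c2 : N2 * M = N1 * e2)
    (d1 : M * e1 = N1 * N2) (d2 : e2 * M = N1 * N2) (hw : w ∈ W) :
    (Lp q (ρ1 * ρ2) e3 M * Lp q ρ1⁻¹ e1 N1 + Lp q ρ1 e1 N1 * Lp q ρ2 e2 N2 -
      Lp q ρ2 e2 N2 * Lp q (ρ1 * ρ2) e3 M) * w = 0 := by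
  have n1 : -ρ1 ≠ 1 := fun k => h1.r1 (neg_eq_iff_eq_neg.1 k)
  have n2 : -ρ2 ≠ 1 := fun k => h2.r1 (neg_eq_iff_eq_neg.1 k)
  have n3 : -(ρ1 * ρ2) ≠ 1 := fun k => h3.r1 (neg_eq_iff_eq_neg.1 k)
  have o1 : ρ1 = 1 → N1 * e2 * w = -(e1 * e2 * w) ∧ N1 * N2 * w = -(e1 * N2 * w) := fun k => by
    simp only [mul_assoc]
    exact ⟨h1.ov k _ (h2.se w hw), h1.ov k _ (h2.sn w hw)⟩
  have o2 : ρ2 = 1 → e1 * N2 * w = -(e1 * e2 * w) ∧ N1 * N2 * w = -(N1 * e2 * w) := fun k => by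
    simp only [mul_assoc, h2.ov k w hw, mul_neg, and_self]
  have o3 : ρ1 * ρ2 = 1 → N1 * N2 * w = -(e1 * e2 * w) ∧ N1 * e2 * w = -(e1 * N2 * w) :=
    fun k => by
      rw [← d2, ← a2, ← c2, ← b2]
      simp only [mul_assoc, h3.ov k w hw, mul_neg, and_self]
  have k1 : (kp q (ρ1 * ρ2) * kp q ρ1⁻¹ + kp q ρ1 * kp q ρ2 - kp q ρ2 * kp q (ρ1 * ρ2)) •
      (e1 * e2 * w + e1 * N2 * w + N1 * e2 * w + N1 * N2 * w) = 0 := by
    by_cases u1 : ρ1 = 1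
    · rw [(o1 u1).1, (o1 u1).2]; module
    by_cases u2 : ρ2 = 1
    · rw [(o2 u2).1, (o2 u2).2]; module
    by_cases u3 : ρ1 * ρ2 = 1
    · rw [(o3 u3).1, (o3 u3).2]; module
    rw [kp_id h1.r0 u1 u2 u3, zero_smul]
  have k2 : (kp q (-(ρ1 * ρ2)) * kp q ρ1⁻¹ + kp q ρ1 * kp q (-ρ2) -
      kp q (-ρ2) * kp q (-(ρ1 * ρ2))) •
      (e1 * e2 * w - e1 * N2 * w + N1 * e2 * w - N1 * N2 * w) = 0 := by
    by_cases u1 : ρ1 = 1
    · rw [(o1 u1).1, (o1 u1).2]; module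
    rw [← mul_neg, kp_id h1.r0 u1 n2 (by rwa [mul_neg]), zero_smul]
  have k3 : (kp q (-(ρ1 * ρ2)) * kp q (-ρ1⁻¹) + kp q (-ρ1) * kp q ρ2 -
      kp q ρ2 * kp q (-(ρ1 * ρ2))) •
      (e1 * e2 * w + e1 * N2 * w - N1 * e2 * w - N1 * N2 * w) = 0 := by
    by_cases u2 : ρ2 = 1
    · rw [(o2 u2).1, (o2 u2).2]; module
    rw [← neg_mul, ← inv_neg, kp_id (neg_ne_zero.2 h1.r0) n1 u2 (by rwa [neg_mul]), zero_smul]
  have k4 : (kp q (ρ1 * ρ2) * kp q (-ρ1⁻¹) + kp q (-ρ1) * kp q (-ρ2) -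
      kp q (-ρ2) * kp q (ρ1 * ρ2)) •
      (e1 * e2 * w - e1 * N2 * w - N1 * e2 * w + N1 * N2 * w) = 0 := by
    by_cases u3 : ρ1 * ρ2 = 1
    · rw [(o3 u3).1, (o3 u3).2]; module
    rw [← neg_mul_neg ρ1, ← inv_neg, kp_id (neg_ne_zero.2 h1.r0) n1 n2 (by rwa [neg_mul_neg]),
      zero_smul]
  simp only [Lp, add_mul, mul_add, sub_mul, mul_sub, smul_mul_assoc, mul_smul_comm, a1, a2, b1, b2,
    c1, c2, d1, d2]
  linear_combination (norm := module) k1 + k2 + k3 + k4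

theorem tri_b (t : Tr ζ e1 e2 e3 N1 N2 N3) (h1 : Pw W ρ1 e1 N1) (h2 : Pw W ρ2 e2 N2)
    (h3 : Pw W (ρ1 * ρ2) e3 N3) (h4 : Pw W (ρ1 * ρ2) e3 (ζ * N3)) (zz : ζ * ζ = 1)
    (i1 : e1 * e1 = e1) (i2 : e2 * e2 = e2) (j1 : e1 * N1 = N1 * e1) (j2 : e2 * N2 = N2 * e2)
    (z3 : ζ * N3 = N3 * ζ) (l1 : N1 * N1 * N1 = ζ * N1) (l2 : N2 * N2 * N2 = ζ * N2)
    (hw : w ∈ W) :
    (Lp q ρ2 e2 N2 * Lp q (ρ1 * ρ2) e3 (ζ * N3) * Lp q ρ1 e1 N1 -
      Lp q ρ1 e1 N1 * Lp q (ρ1 * ρ2) e3 N3 * Lp q ρ2 e2 N2) * w = 0 := by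
  have sq : ∀ {ρ : F} {e N : H}, Pw W ρ e N → ρ = 1 → e * e = e → e * N = N * e →
      ∀ v ∈ W, N * N * v = e * v := fun {ρ e N} h k i j v hv => by
    rw [mul_assoc, h.ov k _ (h.sn v hv), ← mul_assoc, j, mul_assoc, h.ov k _ (h.se v hv), neg_neg,
      ← mul_assoc, i]
  have zc : ∀ x y : H, ζ * x = y → x = ζ * y := fun x y k => by
    rw [← k, ← mul_assoc, zz, one_mul]
  have key : ((kp q ρ1 + kp q (-ρ1)) * (kp q (ρ1 * ρ2) - kp q (-(ρ1 * ρ2))) *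
      (kp q ρ2 + kp q (-ρ2)) - (kp q ρ1 - kp q (-ρ1)) * (kp q (ρ1 * ρ2) + kp q (-(ρ1 * ρ2))) *
      (kp q ρ2 - kp q (-ρ2))) • (N1 * N2 * w - N2 * N1 * w) = 0 := by
    by_cases u1 : ρ1 = 1
    · have s := sq h1 u1 i1 j1
      have f1 : e1 * N2 * (N1 * N1) = ζ * (e1 * N2) := by
        rw [t.b1, mul_assoc, ← mul_assoc N1, l1, ← mul_assoc, mul_assoc ζ, ← z3]
        simp only [mul_assoc]
      have f2 : N1 * N1 * (N2 * e1) = ζ * (N2 * e1) := by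
        rw [t.g1, ← mul_assoc, l1, mul_assoc]
      have f3 : ζ * (e1 * N2) * w = ζ * (N2 * e1) * w := by
        rw [← f1, ← f2, mul_assoc, s w hw, mul_assoc (N1 * N1), mul_assoc N2,
          s _ (h2.sn _ (h1.se w hw)), mul_assoc]
      rw [mul_assoc, mul_assoc ζ] at f3
      have f4 := zc _ _ f3
      rw [← mul_assoc ζ, zz, one_mul] at f4
      rw [mul_assoc N1, mul_assoc N2, h1.ov u1 _ (h2.sn w hw), h1.ov u1 w hw, mul_neg,
        ← mul_assoc e1, ← mul_assoc N2, f4, sub_self, smul_zero]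
    by_cases u2 : ρ2 = 1
    · have s := sq h2 u2 i2 j2
      have f1 : e2 * N1 * (N2 * N2) = ζ * (e2 * N1) := by
        rw [t.f2, mul_assoc, ← mul_assoc N2, l2, ← mul_assoc, ← z3, mul_assoc]
      have f2 : N2 * N2 * (N1 * e2) = ζ * (N1 * e2) := by
        rw [t.c2, ← mul_assoc, l2, mul_assoc]
      have f3 : ζ * (e2 * N1) * w = ζ * (N1 * e2) * w := by
        rw [← f1, ← f2, mul_assoc, s w hw, mul_assoc (N2 * N2), mul_assoc N1,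
          s _ (h1.sn _ (h2.se w hw)), mul_assoc]
      rw [mul_assoc, mul_assoc ζ] at f3
      have f4 := zc _ _ f3
      rw [← mul_assoc ζ, zz, one_mul] at f4
      rw [mul_assoc N1, mul_assoc N2, h2.ov u2 _ (h1.sn w hw), h2.ov u2 w hw, mul_neg,
        ← mul_assoc e2, ← mul_assoc N1, f4, sub_self, smul_zero]
    by_cases u3 : ρ1 * ρ2 = 1
    · rw [t.d1, t.h2, mul_assoc (ζ * N3), mul_assoc N3, h4.ov u3 _ (h1.se w hw),
        h3.ov u3 _ (h2.se w hw), ← mul_assoc e3, ← mul_assoc e3, ← t.a1, t.a5, sub_self, smul_zero]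
    have k1 := sub_ne_zero.2 u1
    have k2 := sub_ne_zero.2 u2
    have k3 := sub_ne_zero.2 u3
    have n1 : -ρ1 - 1 ≠ 0 := sub_ne_zero.2 fun k => h1.r1 (neg_eq_iff_eq_neg.1 k)
    have n2 : -ρ2 - 1 ≠ 0 := sub_ne_zero.2 fun k => h2.r1 (neg_eq_iff_eq_neg.1 k)
    have n3 : -(ρ1 * ρ2) - 1 ≠ 0 := sub_ne_zero.2 fun k => h3.r1 (neg_eq_iff_eq_neg.1 k)
    refine smul_eq_zero.2 (Or.inl ?_)
    simp only [kp]
    field_simp
    ring
  have m1 : e2 * e3 * e1 = e1 * e3 * e2 := by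
    rw [mul_assoc, ← t.a1, mul_assoc e1, t.a5, ← mul_assoc, ← mul_assoc, i1, t.a3, mul_assoc, i2]
  have m2 : e2 * e3 * N1 = N1 * e3 * e2 := by rw [mul_assoc, ← t.c1, ← t.f1, mul_assoc]
  have m3 : e2 * (ζ * N3) * e1 = N1 * N2 := by
    rw [← t.d2, t.d1, mul_assoc, i1]
  have m4 : e1 * N3 * e2 = N2 * N1 := by rw [← t.h1, t.h2, mul_assoc, i2]
  have m5 : N2 * e3 * e1 = e1 * e3 * N2 := by rw [← t.b2, mul_assoc, t.g2, mul_assoc]
  have m6 : e2 * (ζ * N3) * N1 = N1 * N3 * e2 := by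
    rw [mul_assoc, ← t.b1, ← t.g1, ← mul_assoc, t.a3, mul_assoc, j2, ← mul_assoc, t.b2, mul_assoc,
      t.a5, mul_assoc]
  have m7 : N2 * (ζ * N3) * e1 = e1 * N3 * N2 := by
    rw [← t.c2, t.c1, mul_assoc, ← j1, ← mul_assoc, ← t.a1, mul_assoc, t.f2, mul_assoc]
  have m8 : N2 * e3 * N1 = N2 * N1 := by
    rw [← t.b2, mul_assoc, t.h1, ← mul_assoc, i1]
  have m9 : N1 * e3 * N2 = N1 * N2 := by
    rw [← t.f1, mul_assoc, t.d2, ← mul_assoc, i2]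
  have m0 : N2 * (ζ * N3) * N1 = N1 * N3 * N2 := by
    rw [mul_assoc, ← t.b1, ← t.g1, mul_assoc]
  simp only [Lp, add_mul, mul_add, sub_mul, mul_sub, smul_mul_assoc, mul_smul_comm, m1, m2, m3, m4,
    m5, m6, m7, m8, m9, m0]
  linear_combination (norm := module) key

end abs

variable {F H : Type} [Field F] [CharZero F] [Ring H] [Algebra F H] {d : YD F H} {a b i j : ℕ}
  {ε ε' M M' v ψ : H} {z : ℕ → F}

/-- the correction with a free mixed term. -/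
noncomputable def Bq (d : YD F H) (ε M : H) (i j : ℕ) : H :=
  ε * d.Fz (fun z => d.a1 (z i) (z j)) +
    M * d.Fz fun z => d.u ^ (d.lg (z i) + d.lg (z j)) * d.a2 (z i) (z j)

/-- the weight space. -/
def Ws (d : YD F H) (z : ℕ → F) : Submodule F H where
  carrier := {v | ∀ a, a < d.k → d.Z a * v = z a • v}
  add_mem' := fun hx hy a ha => by rw [mul_add, hx a ha, hy a ha, smul_add]
  zero_mem' := fun a _ => by rw [mul_zero, smul_zero]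
  smul_mem' := fun c x hx a ha => by rw [mul_smul_comm, hx a ha, smul_comm]

/-- the ratio of the roots of two eigenvalues. -/
noncomputable def ρq (d : YD F H) (z : ℕ → F) (i j : ℕ) : F := d.u ^ (d.lg (z i) - d.lg (z j))

theorem Good.A_Bq (hg : d.Good) (h : d.Pr a b ε) :
    d.A a b ε a b = d.Bq ε (d.N a b ε) a b ∧ d.A a b ε b a = d.Bq ε (d.N a b ε) b a := by
  simp only [A, Bq, hg.R_N h, mul_assoc, hg.mul, true_and]
  congr 3
  funext z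
  rw [add_comm]

theorem Good.it_Bq (hg : d.Good) (h : d.It a ψ) (h1 : ψ * ε = ε' * ψ) (h2 : ψ * M = M' * ψ)
    {i' j' : ℕ} (hi : Equiv.swap a (a + 1) i = i') (hj : Equiv.swap a (a + 1) j = j') :
    ψ * d.Bq ε M i j = d.Bq ε' M' i' j' * ψ := by
  rw [Bq, Bq, mul_add, add_mul, ← mul_assoc, ← mul_assoc, h1, h2, mul_assoc, mul_assoc, h.fz hg,
    h.fz hg, ← hi, ← hj, mul_assoc, mul_assoc]
  rfl

omit [CharZero F] in
theorem ρq_mul (l : ℕ) : d.ρq z i j * d.ρq z j l = d.ρq z i l := by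
  rw [ρq, ρq, ρq, ← zpow_add₀ d.u0, sub_add_sub_cancel]

omit [CharZero F] in
theorem ρq_inv : (d.ρq z i j)⁻¹ = d.ρq z j i := by rw [ρq, ρq, ← zpow_neg, neg_sub]

theorem Good.pw (hg : d.Good) (hv : d.FW z v) (v0 : v ≠ 0) (hi : i < d.k) (hj : j < d.k)
    (h1 : ∀ c, c < d.k → d.Z c * ε = ε * d.Z c) (h2 : ∀ c, c < d.k → d.Z c * M = M * d.Z c)
    (ov : z i = z j → ∀ w, d.FW z w → (ε + M) * w = 0) : Pw (d.Ws z) (d.ρq z i j) ε M := by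
  refine ⟨fun w hw => (FW.cm ⟨hw, hv.2⟩ h1).1, fun w hw => (FW.cm ⟨hw, hv.2⟩ h2).1,
    zpow_ne_zero _ d.u0, fun k => ?_, fun k w hw => ?_⟩
  · have e : d.u ^ (2 * (d.lg (z i) - d.lg (z j))) = 1 := by
      rw [mul_comm, zpow_mul, ← ρq, k]
      norm_num
    rw [ρq, show d.lg (z i) - d.lg (z j) = 0 by have := d.hu _ e; omega, zpow_zero] at k
    norm_num at k
  · have e := ov (by
      rw [hg.spec hv v0 hi, hg.spec hv v0 hj, sub_eq_zero.1 (d.hu _ k)]) w ⟨hw, hv.2⟩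
    rw [add_mul] at e
    exact eq_neg_of_add_eq_zero_right e

theorem Good.Bq_ap (hg : d.Good) (hv : d.FW z v) (v0 : v ≠ 0) (hi : i < d.k) (hj : j < d.k)
    (h : Pw (d.Ws z) (d.ρq z i j) ε M) {w : H} (hw : w ∈ d.Ws z) :
    d.Bq ε M i j * w = Lp (d.Q - 1) (d.ρq z i j) ε M * w := by
  have fw : d.FW z w := ⟨hw, hv.2⟩
  have si := hg.spec hv v0 hi
  have sj := hg.spec hv v0 hj
  rw [Bq, Lp, add_mul, mul_assoc, mul_assoc, hg.ap fw, hg.ap fw, mul_smul_comm, mul_smul_comm,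
    add_mul, smul_mul_assoc, smul_mul_assoc, add_mul, sub_mul]
  by_cases e : z i = z j
  · have r : d.ρq z i j = 1 := by rw [ρq, e, sub_self, zpow_zero]
    rw [h.ov r w hw, r, a1, a2, if_pos e, e, kp, kp]
    match_scalars
    field_simp
    ring
  · have r1 := h.r1
    have u0 := d.u0
    rw [mul_comm, zpow_mul, zpow_two] at si sj
    rw [ρq, zpow_sub₀ u0] at r1
    rw [a1, a2, if_neg e, ρq, zpow_sub₀ u0, zpow_add₀ u0, kp, kp]
    have y0 : d.u ^ d.lg (z j) ≠ 0 := zpow_ne_zero _ u0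
    generalize d.u ^ d.lg (z i) = x at *
    generalize d.u ^ d.lg (z j) = y at *
    have k1 : x - y ≠ 0 := sub_ne_zero.2 fun k => e (by rw [si, sj, k])
    have k2 : -x - y ≠ 0 := fun k => r1 (by
      rw [div_eq_iff y0]
      linear_combination -k)
    rw [si, sj, show x * x - y * y = -((x - y) * (-x - y)) by ring]
    match_scalars <;> field_simp <;> ring

theorem Good.φ3 (hg : d.Good) (h : a + 2 < d.k) :
    d.φ a * d.φ (a + 1) * d.φ a = d.φ (a + 1) * d.φ a * d.φ (a + 1) := by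
  have l1 : a + 1 < d.k := by omega
  have l0 : a < d.k := by omega
  have p1 : d.Pr a (a + 1) (d.e a) := pr1 l1
  have p2 : d.Pr (a + 1) (a + 2) (d.e (a + 1)) := pr1 h
  have p3 : d.Pr a (a + 2) (d.e3 a) := pr3 h
  have t1 := hg.it l1
  have t2 : d.It (a + 1) (d.φ (a + 1)) := hg.it h
  have tr := hg.tr h
  have s0 : Equiv.swap a (a + 1) (a + 2) = a + 2 :=
    Equiv.swap_apply_of_ne_of_ne (by omega) (by omega)
  have s1 : Equiv.swap (a + 1) (a + 2) a = a := Equiv.swap_apply_of_ne_of_ne (by omega) (by omega)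
  have c1 : d.φ a * d.ζ = d.ζ * d.φ a := t1.s _ d.mζ _ (d.ζT a l1).symm
  have c2 : d.φ (a + 1) * d.ζ = d.ζ * d.φ (a + 1) := t2.s _ d.mζ _ (d.ζT _ h).symm
  have E := expand (σ := d.φ a) (τ := d.φ (a + 1)) (hg.φ_A l1) (hg.φ_A h)
    (p := d.Bq (d.e3 a) (d.N a (a + 2) (d.e3 a)) a (a + 2))
    (m := d.Bq (d.e3 a) (d.ζ * d.N a (a + 2) (d.e3 a)) a (a + 2))
    (by
      rw [(hg.A_Bq p1).1]
      exact hg.it_Bq t2 (t2.s _ p1.mem _ (T_e3a h)) (hg.itN21 t2) s1 (Equiv.swap_apply_left _ _))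
    (by
      rw [(hg.A_Bq p2).1]
      exact hg.it_Bq t1 (t1.s _ p3.mem _ (T_e3d h)) (hg.itN13 t1 h) (Equiv.swap_apply_left _ _) s0)
    (by
      rw [(hg.A_Bq p2).1]
      exact hg.it_Bq t1 (t1.s _ p2.mem _ (T_e3c h)) (hg.itN12 t1 h) (Equiv.swap_apply_right _ _) s0)
    (by
      rw [(hg.A_Bq p1).1]
      refine hg.it_Bq t2 (t2.s _ p3.mem _ (T_e3b h)) ?_ s1 (Equiv.swap_apply_right _ _)
      rw [← mul_assoc, c2, mul_assoc, hg.itN23 t2, ← mul_assoc, ← mul_assoc, d.ζζ, one_mul])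
  have eT : ∀ c, d.φ c - d.A c (c + 1) (d.e c) c (c + 1) = d.T c :=
    fun c => add_sub_cancel_right _ _
  rw [hg.φ_sq l1, hg.φ_sq h, eT, eT, d.T3 a h, sub_self, (hg.A_Bq p1).1, (hg.A_Bq p1).2,
    (hg.A_Bq p2).1, (hg.A_Bq p2).2] at E
  have hh : d.Bq (d.e3 a) (d.ζ * d.N a (a + 2) (d.e3 a)) a (a + 2) * d.h a =
      d.Bq (d.e3 a) (d.N a (a + 2) (d.e3 a)) a (a + 2) * d.h (a + 1) := by
    have g1 := hg.cm fun c hc => d.Z_S hc (d.mh a l1)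
    have g2 := hg.cm fun c hc => d.Z_S hc (d.mh (a + 1) h)
    rw [Bq, Bq, add_mul, add_mul, mul_assoc, mul_assoc _ _ (d.h a), mul_assoc _ _ (d.h (a + 1)),
      mul_assoc _ _ (d.h (a + 1)), g1, g1, g2, g2, ← mul_assoc, ← mul_assoc, ← mul_assoc,
      ← mul_assoc, e3_h h, hg.N3_h h]
  have cube : ∀ {b c : ℕ} {ε : H}, d.Pr b c ε →
      d.N b c ε * d.N b c ε * d.N b c ε = d.ζ * d.N b c ε := fun p => by
    rw [hg.NN p, mul_assoc, hg.ep_N p]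
  generalize hb1 : d.Bq (d.e a) _ a (a + 1) = b1 at E
  generalize hc1 : d.Bq (d.e a) _ (a + 1) a = c1 at E
  generalize hb2 : d.Bq (d.e (a + 1)) _ (a + 1) (a + 2) = b2 at E
  generalize hc2 : d.Bq (d.e (a + 1)) _ (a + 2) (a + 1) = c2 at E
  generalize hm : d.Bq (d.e3 a) (d.ζ * _) a (a + 2) = m at E hh
  generalize hp : d.Bq (d.e3 a) (d.N _ _ _) a (a + 2) = p at E hh
  have all : ∀ z v, v ≠ 0 → d.FW z v → (m * c1 + b1 * b2 - b2 * m) * v = 0 ∧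
      (p * c2 + b2 * b1 - b1 * p) * v = 0 ∧ (b2 * m * b1 - b1 * p * b2) * v = 0 := by
    intro z v v0 hv
    have q1 := hg.pw hv v0 l0 l1 (fun c hc => d.Z_S hc p1.mem) (fun c => hg.Z_N p1)
      fun e w hw => hg.ov2N l1 hw e
    have q2 := hg.pw hv v0 l1 h (fun c hc => d.Z_S hc p2.mem) (fun c => hg.Z_N p2)
      fun e w hw => hg.ov2N h hw e
    have q1' := hg.pw hv v0 l1 l0 (fun c hc => d.Z_S hc p1.mem) (fun c => hg.Z_N p1)
      fun e w hw => hg.ov2N l1 hw e.symm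
    have q2' := hg.pw hv v0 h l1 (fun c hc => d.Z_S hc p2.mem) (fun c => hg.Z_N p2)
      fun e w hw => hg.ov2N h hw e.symm
    have q3 := hg.pw hv v0 l0 h (fun c hc => d.Z_S hc p3.mem) (fun c => hg.Z_N p3)
      fun e w hw => (hg.ov3 h hw e).1
    have q4 := hg.pw hv v0 l0 h (M := d.ζ * d.N a (a + 2) (d.e3 a)) (fun c hc => d.Z_S hc p3.mem)
      (fun c hc => by rw [← mul_assoc, d.Z_S hc d.mζ, mul_assoc, hg.Z_N p3 hc, mul_assoc])
      fun e w hw => (hg.ov3 h hw e).2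
    have f1 := fun w => hb1 ▸ hg.Bq_ap hv v0 l0 l1 q1 (w := w)
    have f2 := fun w => hb2 ▸ hg.Bq_ap hv v0 l1 h q2 (w := w)
    have g1 := fun w => hc1 ▸ hg.Bq_ap hv v0 l1 l0 q1' (w := w)
    have g2 := fun w => hc2 ▸ hg.Bq_ap hv v0 h l1 q2' (w := w)
    have f3 := fun w => hp ▸ hg.Bq_ap hv v0 l0 h q3 (w := w)
    have f4 := fun w => hm ▸ hg.Bq_ap hv v0 l0 h q4 (w := w)
    have wv : v ∈ d.Ws z := hv.1
    have r := ρq_mul (d := d) (z := z) (i := a) (j := a + 1) (a + 2)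
    have A1 := tri_a (q := d.Q - 1) q1 q2 (r ▸ q4) tr.a1.symm tr.a2.symm tr.b1.symm tr.b2.symm
      tr.c1.symm tr.c2.symm tr.d1.symm tr.d2.symm wv
    have A2 := tri_a (q := d.Q - 1) q2 q1 ((mul_comm _ _).trans r ▸ q3) (tr.a5.trans tr.a3.symm)
      (tr.a4.trans tr.a3.symm) tr.f2.symm tr.f1.symm tr.g2.symm tr.g1.symm tr.h2.symm tr.h1.symm wv
    have A3 := tri_b (q := d.Q - 1) tr q1 q2 (r ▸ q3) (r ▸ q4) d.ζζ p1.idem p2.idem (hg.e_N p1)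
      (hg.e_N p2) (hg.ζ_N p3) (cube p1) (cube p2) wv
    rw [mul_comm (d.ρq z (a + 1) (a + 2))] at A2
    rw [r, ρq_inv] at A1 A2
    rw [r] at A3
    simp only [add_mul, sub_mul, mul_assoc] at A1 A2 A3 ⊢
    rw [g1 v wv, g2 v wv, f1 v wv, f2 v wv, f3 v wv, f4 v wv, f4 _ (q1.lp _ _ wv),
      f4 _ (q1.lp _ _ wv), f3 _ (q2.lp _ _ wv), f3 _ (q2.lp _ _ wv), f1 _ (q2.lp _ _ wv),
      f2 _ (q1.lp _ _ wv), f2 _ (q4.lp _ _ wv), f1 _ (q3.lp _ _ wv),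
      f2 _ (q4.lp _ _ (q1.lp _ _ wv)), f1 _ (q3.lp _ _ (q2.lp _ _ wv))]
    exact ⟨A1, A2, A3⟩
  have C1 := hg.spc.ext _ fun z v v0 hv => (all z v v0 hv).1
  have C2 := hg.spc.ext _ fun z v v0 hv => (all z v v0 hv).2.1
  have C3 := hg.spc.ext _ fun z v v0 hv => (all z v v0 hv).2.2
  have C0 : m * (d.Q • d.h a + c1 * b1) - p * (d.Q • d.h (a + 1) + c2 * b2) + b1 * b2 * b1 -
      b2 * b1 * b2 = (m * c1 + b1 * b2 - b2 * m) * b1 - (p * c2 + b2 * b1 - b1 * p) * b2 +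
      (b2 * m * b1 - b1 * p * b2) := by
    rw [mul_add, mul_add, mul_smul_comm, mul_smul_comm, hh]
    noncomm_ring
  rw [C0, C1, C2, C3] at E
  simpa [sub_eq_zero] using E.symm

end Pool.Agent.Lib.MP_1ae3da_al.JM.YD
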