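import Pool.Agent.Lib.MP_1ae3da_al.J.K4

/-! The expansion of a braid word, and the weights with equal outer values. -/

namespace Pool.Agent.Lib.MP_1ae3da_al.JM.YD

/-- the expansion of a braid word; `p`, `m` are the two forms of the term of the outer pair. -/
theorem expand {H : Type} [Ring H] {σ τ b1 c1 b2 c2 p m : H} (h1 : σ * b1 = c1 * σ)
    (h2 : τ * b2 = c2 * τ) (h3 : τ * b1 = p * τ) (h4 : σ * p = b2 * σ) (h5 : σ * b2 = m * σ)
    (h6 : τ * m = b1 * τ) :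
    (σ - b1) * (τ - b2) * (σ - b1) - (τ - b2) * (σ - b1) * (τ - b2) =
      (σ * τ * σ - τ * σ * τ) + (m * c1 + b1 * b2 - b2 * m) * σ - (p * c2 + b2 * b1 - b1 * p) * τ -
        (m * (σ * σ) - p * (τ * τ) + b1 * b2 * b1 - b2 * b1 * b2) := by
  have e1 : σ * τ * b1 = b2 * σ * τ := by rw [mul_assoc, h3, ← mul_assoc, h4]
  have e2 : τ * σ * b2 = b1 * τ * σ := by rw [mul_assoc, h5, ← mul_assoc, h6]
  have e3 : σ * b2 * σ = m * (σ * σ) := by rw [h5, mul_assoc]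
  have e4 : σ * b2 * b1 = m * c1 * σ := by rw [h5, mul_assoc, h1, mul_assoc]
  have e5 : b1 * τ * b1 = b1 * p * τ := by rw [mul_assoc, h3, mul_assoc]
  have e6 : τ * b1 * τ = p * (τ * τ) := by rw [h3, mul_assoc]
  have e7 : τ * b1 * b2 = p * c2 * τ := by rw [h3, mul_assoc, h2, mul_assoc]
  have e8 : b2 * σ * b2 = b2 * m * σ := by rw [mul_assoc, h5, mul_assoc]
  have k : (σ - b1) * (τ - b2) * (σ - b1) - (τ - b2) * (σ - b1) * (τ - b2) =
      σ * τ * σ - σ * τ * b1 - σ * b2 * σ + σ * b2 * b1 - b1 * τ * σ + b1 * τ * b1 + b1 * b2 * σ -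
        b1 * b2 * b1 - (τ * σ * τ - τ * σ * b2 - τ * b1 * τ + τ * b1 * b2 - b2 * σ * τ +
          b2 * σ * b2 + b2 * b1 * τ - b2 * b1 * b2) := by noncomm_ring
  rw [k, e1, e2, e3, e4, e5, e6, e7, e8]
  noncomm_ring

variable {F H : Type} [Field F] [CharZero F] [Ring H] [Algebra F H] {d : YD F H} {a : ℕ}
  {v w : H} {z : ℕ → F}

lemma ka_two {x : H} (h : x = -x) (F : Type) [Field F] [CharZero F] [Algebra F H] : x = 0 := by
  have : (2 : F) • x = 0 := by rw [two_smul]; exact eq_neg_iff_add_eq_zero.1 h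
  exact (smul_eq_zero.1 this).resolve_left two_ne_zero

omit [CharZero F] in
lemma ka_ep {ψ ε ε' : H} {b c : ℕ} (hb : b < d.k) (hc : c < d.k) (h1 : ψ * d.X b = d.X c * ψ)
    (h2 : ψ * ε = ε' * ψ) : ψ * d.ep b ε = d.ep c ε' * ψ := by
  refine (d.X_unit hb).mul_right_cancel ?_
  rw [mul_assoc, ← X_ep0 hb, ← mul_assoc, h1, mul_assoc, h2, ← mul_assoc, X_ep0 hc, mul_assoc,
    ← h1, mul_assoc]

/-- the vectors which have to vanish. -/
structure KaP (d : YD F H) (a : ℕ) (z : ℕ → F) (w : H) : Prop where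
  fw : d.FW z w
  e3 : d.e3 a * w = w
  n3 : d.N a (a + 2) (d.e3 a) * w = d.ep a (d.e3 a) * w

lemma KaP.φ1 (hg : d.Good) (h : a + 2 < d.k) (e : z a = z (a + 2)) (hw : KaP d a z w) :
    d.φ (a + 1) * w = 0 := by
  have h1 : a + 1 < d.k := by omega
  have h0 : a < d.k := by omega
  have it := hg.it (a := a + 1) h
  have p1 := pr1 h1
  have k1 : d.φ (a + 1) * d.e3 a = d.e a * d.φ (a + 1) := it.s _ (pr3 h).mem _ (T_e3b h)
  have k2 := ka_ep h0 h0 (it.xc a h0 (by omega) (by omega)) k1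
  have k3 := hg.itN23 it
  have k4 := hg.ov2N h1 (it.fw hw.fw) (by
    simp only [Function.comp, Equiv.swap_apply_left]
    rw [Equiv.swap_apply_of_ne_of_ne (by omega) (by omega), e])
  obtain ⟨u, hu⟩ : ∃ u, u = d.φ (a + 1) * w := ⟨_, rfl⟩
  rw [← hu] at k4 ⊢
  have u1 : d.e a * u = u := by rw [hu, ← mul_assoc, ← k1, mul_assoc, hw.e3]
  have u2 : d.ζ * (d.N a (a + 1) (d.e a) * u) = d.ep a (d.e a) * u := by
    rw [hu, ← mul_assoc, ← mul_assoc, ← k3, mul_assoc, hw.n3, ← mul_assoc, k2, mul_assoc]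
  have u3 : d.N a (a + 1) (d.e a) * u = -u := by
    rw [add_mul, u1] at k4
    exact eq_neg_of_add_eq_zero_right k4
  rw [u3, mul_neg] at u2
  have m1 := ep_mem h0 p1.mem
  have u4 : d.ep a (d.e a) * (d.ζ * u) = d.ep a (d.e a) * u := by
    rw [← u1, ← mul_assoc, ← mul_assoc, ← mul_assoc, d.cm _ (mul_mem m1 d.mζ) _ p1.mem,
      ← mul_assoc, p1.zz, d.cm _ m1 _ p1.mem]
  have u5 : d.ep a (d.e a) * u = 0 := by
    refine ka_two ?_ F
    rw [← u4, ← mul_neg, u2, ← mul_assoc (d.ep a (d.e a)) (d.ep a (d.e a)), p1.ep_idem, u4]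
  rw [u5, neg_eq_zero] at u2
  rw [← one_mul u, ← d.ζζ, mul_assoc, u2, mul_zero]

lemma KaP.φ0 (hg : d.Good) (h : a + 2 < d.k) (e : z a = z (a + 2)) (hw : KaP d a z w) :
    d.φ a * w = 0 := by
  have h1 : a + 1 < d.k := by omega
  have h0 : a < d.k := by omega
  have it := hg.it h1
  have p2 := pr1 (a := a + 1) h
  have k1 : d.φ a * d.e3 a = d.e (a + 1) * d.φ a := it.s _ (pr3 h).mem _ (T_e3d h)
  have k2 := ka_ep h0 h1 it.x0 k1
  have k3 := hg.itN13 it h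
  have k4 := hg.ov2N (a := a + 1) h (it.fw hw.fw) (by
    simp only [Function.comp, Equiv.swap_apply_right]
    rw [Equiv.swap_apply_of_ne_of_ne (by omega) (by omega), e])
  obtain ⟨u, hu⟩ : ∃ u, u = d.φ a * w := ⟨_, rfl⟩
  rw [← hu] at k4 ⊢
  have u1 : d.e (a + 1) * u = u := by rw [hu, ← mul_assoc, ← k1, mul_assoc, hw.e3]
  have u2 : d.N (a + 1) (a + 2) (d.e (a + 1)) * u = d.ep (a + 1) (d.e (a + 1)) * u := by
    rw [hu, ← mul_assoc, ← k3, mul_assoc, hw.n3, ← mul_assoc, k2, mul_assoc]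
  have u3 : d.ep (a + 1) (d.e (a + 1)) * u = -u := by
    rw [add_mul, u1, u2] at k4
    exact eq_neg_of_add_eq_zero_right k4
  have u5 : d.ep (a + 1) (d.e (a + 1)) * u = 0 := by
    refine ka_two ?_ F
    rw [← mul_neg, ← u3, ← mul_assoc, p2.ep_idem]
  rw [u5] at u3
  exact neg_eq_zero.1 u3.symm

omit [CharZero F] in
lemma ka_e13 (h : a + 2 < d.k) : d.e a * d.e3 a = d.e (a + 1) * d.e3 a :=
  (tri1 h).symm.trans (tri2 h)

omit [CharZero F] in
lemma ka_p12 (h : a + 2 < d.k) :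
    d.ep a (d.e a) * d.e (a + 1) = d.ep a (d.e a) * d.ep a (d.e3 a) := by
  have h0 : a < d.k := by omega
  refine (d.X_unit h0).mul_right_cancel ?_
  rw [mul_assoc, d.e_X (c := a + 1) h h0 (by omega) (by omega), ← mul_assoc, ← X_ep0 h0, mul_assoc,
    tri1 h, mul_assoc, ← X_ep0 h0, ← mul_assoc (d.ep a (d.e a)), ← X_ep0 h0, mul_assoc]

omit [CharZero F] in
lemma ka_p32 (h : a + 2 < d.k) :
    d.ep a (d.e a) * d.e (a + 1) = d.ep a (d.e3 a) * d.e (a + 1) := by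
  have h0 : a < d.k := by omega
  refine (d.X_unit h0).mul_right_cancel ?_
  rw [mul_assoc, mul_assoc, d.e_X (c := a + 1) h h0 (by omega) (by omega), ← mul_assoc,
    ← mul_assoc, ← X_ep0 h0, ← X_ep0 h0, mul_assoc, mul_assoc, tri2 h,
    d.cm _ (d.me _ h) _ (pr3 h).mem]

omit [CharZero F] in
lemma KaP.e12 (h : a + 2 < d.k) (hw : KaP d a z w) : d.e (a + 1) * w = d.e a * w := by
  rw [← hw.e3, ← mul_assoc, ← mul_assoc, ka_e13 h]

lemma KaP.e1 (hg : d.Good) (h : a + 2 < d.k) (hw : KaP d a z w) : KaP d a z (d.e a * w) := by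
  have h1 : a + 1 < d.k := by omega
  have m1 := d.me a h1
  have m3 := (pr3 h).mem
  have t := hg.tr h
  refine ⟨hw.fw.cm fun c hc => d.Z_S hc m1, ?_, ?_⟩
  · rw [← mul_assoc, d.cm _ m3 _ m1, mul_assoc, hw.e3]
  · rw [← mul_assoc (d.ep a _), d.cm _ (ep_mem (by omega) m3) _ m1, mul_assoc, ← hw.n3,
      ← hw.e12 h, ← mul_assoc, ← t.h2, t.h1, mul_assoc]

lemma KaP.X1 (hg : d.Good) (h : a + 2 < d.k) (hw : KaP d a z w) :
    KaP d a z (d.X (a + 1) * w) := by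
  have h1 : a + 1 < d.k := by omega
  have p3 := pr3 h
  refine ⟨hw.fw.cm fun c hc => d.Z_X hc h1, ?_, ?_⟩
  · rw [← mul_assoc, p3.oth _ h1 (by omega) (by omega), mul_assoc, hw.e3]
  · rw [← mul_assoc, hg.N_X p3 h1 (by omega) (by omega), mul_assoc, hw.n3, ← mul_assoc,
      ← p3.ep_oth h1 (by omega) (by omega), mul_assoc]

lemma KaP.N1 (hg : d.Good) (h : a + 2 < d.k) (hw : KaP d a z w) (h2 : d.e a * w = w) :
    d.N (a + 1) (a + 2) (d.e (a + 1)) * w = d.N a (a + 1) (d.e a) * w := by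
  have h1 : a + 1 < d.k := by omega
  have t := hg.tr h
  have k : d.ep a (d.e a) * (d.ep a (d.e3 a) * w) = d.ep a (d.e a) * w := by
    rw [← mul_assoc, ← ka_p12 h, mul_assoc, hw.e12 h, h2]
  calc _ = d.N (a + 1) (a + 2) (d.e (a + 1)) * d.e a * w := by rw [mul_assoc, h2]
    _ = d.N a (a + 1) (d.e a) * d.ep a (d.e a) * (d.ep a (d.e3 a) * w) := by
      rw [t.g1, mul_assoc, hw.n3, hg.N_ep (pr1 h1)]
    _ = _ := by rw [mul_assoc, k, ← mul_assoc, hg.N_ep (pr1 h1)]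

lemma KaP.N2 (hg : d.Good) (h : a + 2 < d.k) (hw : KaP d a z w) (h2 : d.e a * w = w) :
    KaP d a z (d.N a (a + 1) (d.e a) * w) ∧
      d.e a * (d.N a (a + 1) (d.e a) * w) = d.N a (a + 1) (d.e a) * w := by
  have h1 : a + 1 < d.k := by omega
  have p1 := pr1 h1
  have t := hg.tr h
  have k0 := hw.N1 hg h h2
  obtain ⟨y, hy⟩ : ∃ y, y = d.N a (a + 1) (d.e a) * w := ⟨_, rfl⟩
  have k1 : d.e a * y = y := by rw [hy, ← mul_assoc, hg.e_N p1, mul_assoc, h2]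
  have k3 : d.e3 a * y = y := by rw [hy, ← mul_assoc, ← t.c1, mul_assoc, hw.e12 h, h2]
  have k2 : d.e (a + 1) * y = y := by
    rw [← k3, ← mul_assoc, ← ka_e13 h, mul_assoc, k3, k1]
  have k4 : d.ep a (d.e a) * y = y := by rw [hy, ← mul_assoc, hg.ep_N p1]
  have k5 : d.ep a (d.e3 a) * y = y := by
    rw [← k2, ← mul_assoc, ← ka_p32 h, mul_assoc, k2, k4]
  have k6 : d.ζ * y = y := by
    have : y = d.e a * d.ep a (d.e a) * y := by rw [mul_assoc, k4, k1]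
    rw [this, ← mul_assoc, d.cm _ d.mζ _ (mul_mem p1.mem (ep_mem (by omega) p1.mem)), p1.zz]
  have k7 : d.ζ * (d.N a (a + 2) (d.e3 a) * y) = y := by
    rw [hy, ← mul_assoc, ← mul_assoc, ← t.b1, mul_assoc, k0, ← hy, k1]
  rw [← hy]
  refine ⟨⟨hy ▸ hw.fw.cm fun c hc => hg.Z_N p1 hc, k3, ?_⟩, k1⟩
  rw [k5, ← one_mul (_ * y), ← d.ζζ, mul_assoc, k7, k6]

lemma ka_A (hg : d.Good) {b i j : ℕ} {ε : H} (p : d.Pr a b ε) (hw : d.FW z w) :
    d.A a b ε i j * w = d.a1 (z i) (z j) • (ε * w) +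
      (d.a2 (z i) (z j) * d.u ^ (d.lg (z a) + d.lg (z b))) • (d.N a b ε * w) := by
  rw [A, add_mul, mul_assoc, mul_assoc, hg.ap hw, hg.ap hw, mul_smul_comm, mul_smul_comm,
    hg.R_N p, mul_assoc, hg.ap hw, mul_smul_comm, smul_smul]

lemma ka_a1 (s t : F) : d.a1 s t + d.a1 t s = -(d.Q - 1) := by
  unfold a1
  by_cases e : s = t
  · rw [if_pos e, if_pos e.symm]; ring
  · rw [if_neg e, if_neg (Ne.symm e)]
    have h1 := sub_ne_zero.2 e
    have h2 := sub_ne_zero.2 (Ne.symm e)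
    field_simp
    ring

omit [CharZero F] in
lemma ka_a2 (s t : F) : d.a2 t s = -d.a2 s t := by
  unfold a2
  rw [← neg_sub s t, div_neg]

lemma KaP.TT (hg : d.Good) (h : a + 2 < d.k) (e : z a = z (a + 2)) (hw : KaP d a z w)
    (h2 : d.e a * w = w) : (∃ α β : F, d.T a * w = α • w + β • (d.N a (a + 1) (d.e a) * w)) ∧
      d.T (a + 1) * w = (d.Q - 1) • w - d.T a * w := by
  have h1 : a + 1 < d.k := by omega
  have k0 := hw.φ0 hg h e
  have k1 := hw.φ1 hg h e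
  rw [φ, add_mul, ka_A hg (pr1 h1) hw.fw, h2] at k0
  rw [φ, add_mul, ka_A hg (pr1 (a := a + 1) h) hw.fw, hw.e12 h, h2, hw.N1 hg h h2, ← e,
    ka_a2 (z a), add_comm (d.lg (z (a + 1))), eq_sub_of_add_eq' (ka_a1 (d := d) (z a) (z (a + 1)))]
    at k1
  refine ⟨⟨_, _, by rw [eq_neg_of_add_eq_zero_left k0, neg_add, ← neg_smul, ← neg_smul]⟩, ?_⟩
  rw [eq_neg_of_add_eq_zero_left k0, eq_neg_of_add_eq_zero_left k1]
  module

omit [CharZero F] in
lemma ka_Q : d.Q + 1 ≠ 0 := fun h => by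
  have h1 : d.Q = -1 := eq_neg_of_add_eq_zero_left h
  have h2 : d.u ^ ((4 * d.κ : ℕ) : ℤ) = 1 := by
    rw [zpow_natCast, show 4 * d.κ = 2 * d.κ * 2 by ring, pow_mul]
    change d.Q ^ 2 = 1
    rw [h1]; norm_num
  have h3 := d.hu _ h2
  have := d.hκ
  omega

lemma KaP.z1 (hg : d.Good) (h : a + 2 < d.k) (e : z a = z (a + 2)) (hw : KaP d a z w)
    (h2 : d.e a * w = w) : w = 0 := by
  have h1 : a + 1 < d.k := by omega
  obtain ⟨⟨α, β, k1⟩, k2⟩ := hw.TT hg h e h2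
  obtain ⟨n1, n2⟩ := hw.N2 hg h h2
  have k3 := (n1.TT hg h e n2).2
  have k4 : d.T (a + 1) * (d.T a * w) = (d.Q - 1) • (d.T a * w) - d.T a * (d.T a * w) := by
    conv_lhs => rw [k1, mul_add, mul_smul_comm, mul_smul_comm, k2, k3]
    conv_rhs => rw [k1, mul_add, mul_smul_comm, mul_smul_comm]
    module
  have k5 : d.T a * (d.T a * w) = d.Q • w + (d.Q - 1) • (d.T a * w) := by
    have hw' : d.h a * w = w := by
      rw [← h2, ← mul_assoc, d.cm _ (d.mh a h1) _ (d.me a h1), d.eh a h1]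
    rw [← mul_assoc, d.qT a h1, add_mul, smul_mul_assoc, smul_mul_assoc, hw', d.eT a h1,
      mul_assoc, h2]
    rfl
  have k6 : d.T (a + 1) * (d.T a * w) = -(d.Q • w) := by rw [k4, k5]; module
  have k7 : d.T a * (d.T (a + 1) * w) = -(d.Q • w) := by
    rw [k2, mul_sub, mul_smul_comm, k5]; module
  have k8 := congrArg (· * w) (d.T3 a h)
  simp only [mul_assoc] at k8
  rw [k6, k7, mul_neg, mul_neg, neg_inj, mul_smul_comm, mul_smul_comm] at k8
  have k9 : d.T a * w = d.T (a + 1) * w := smul_right_injective H d.Q0 k8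
  have k10 : d.T a * w = ((d.Q - 1) / 2) • w := by
    have : (2 : F) • (d.T a * w) = (d.Q - 1) • w := by
      rw [two_smul]
      exact eq_sub_iff_add_eq.1 (k9.trans k2)
    rw [div_eq_inv_mul, mul_smul, ← this, inv_smul_smul₀ two_ne_zero]
  rw [k10, mul_smul_comm, k10] at k5
  have k11 : (((d.Q + 1) / 2) ^ 2) • w = 0 := by
    have : (((d.Q + 1) / 2) ^ 2) • w = d.Q • w + (d.Q - 1) • ((d.Q - 1) / 2) • w -
        ((d.Q - 1) / 2) • ((d.Q - 1) / 2) • w := by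
      rw [smul_smul, smul_smul, ← add_smul, ← sub_smul]
      congr 1
      ring
    rw [this, ← k5, sub_self]
  exact (smul_eq_zero.1 k11).resolve_left (pow_ne_zero _ (div_ne_zero ka_Q two_ne_zero))

lemma KaP.zero (hg : d.Good) (h : a + 2 < d.k) (e : z a = z (a + 2)) (hw : KaP d a z w) :
    w = 0 := by
  have h1 : a + 1 < d.k := by omega
  have p1 := pr1 h1
  have k : ∀ {y}, KaP d a z y → d.e a * y = 0 := fun hy =>
    (hy.e1 hg h).z1 hg h e (by rw [← mul_assoc, p1.idem])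
  have k1 : d.ep a (d.e a) * w = 0 := by
    refine (d.X_unit h1).mul_left_cancel ?_
    rw [← mul_assoc, p1.pb', mul_assoc, k (hw.X1 hg h), mul_zero]
  have k0 := hw.φ0 hg h e
  rw [φ, add_mul, ka_A hg p1 hw.fw, k hw, ← hg.N_ep p1, mul_assoc, k1, mul_zero, smul_zero,
    smul_zero, add_zero, add_zero] at k0
  exact (d.T_unit h1).mul_left_cancel (k0.trans (mul_zero _).symm)

theorem Good.ov3 (hg : d.Good) (h : a + 2 < d.k) (hv : d.FW z v) (e : z a = z (a + 2)) :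
    (d.e3 a + d.N a (a + 2) (d.e3 a)) * v = 0 ∧
      (d.e3 a + d.ζ * d.N a (a + 2) (d.e3 a)) * v = 0 := by
  have h0 : a < d.k := by omega
  have p := pr3 h
  have m := ep_mem h0 p.mem
  have c := d.cm _ m _ p.mem
  have i1 := p.idem
  have i2 := p.ep_idem
  have n1 := hg.ep_N p
  have n2 := hg.N_ep p
  have n3 := hg.e_N p
  have n4 := hg.NN p
  have zz := p.zz
  have cz := d.cm _ m _ d.mζ
  have x0 : d.X a * d.e3 a = _ := X_ep0 h0
  have x1 := X_ep1 h0 p.mem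
  have kA : ∀ {y}, d.FW z y → d.e3 a * (1 - d.ep a (d.e3 a)) * y = 0 := fun hy => by
    have q : d.ep a (d.e3 a) * (d.e3 a * (1 - d.ep a (d.e3 a))) = 0 := by
      rw [← mul_assoc, c, mul_assoc, mul_sub, mul_one, i2, sub_self, mul_zero]
    refine KaP.zero hg h e ⟨hy.cm fun b hb => d.Z_S hb (mul_mem p.mem (sub_mem (one_mem _) m)),
      by rw [← mul_assoc, ← mul_assoc, i1], ?_⟩
    rw [← n2, mul_assoc, ← mul_assoc (d.ep a (d.e3 a)), q, zero_mul, mul_zero]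
  have kB : (1 - d.e3 a) * d.ep a (d.e3 a) * v = 0 := by
    refine (d.X_unit h0).mul_left_cancel ?_
    have := kA (hv.cm fun b hb => d.Z_X hb h0)
    rw [mul_zero, ← this, ← mul_assoc, ← mul_assoc, ← mul_assoc, mul_sub, sub_mul, mul_one, x1,
      x0, mul_assoc (d.ep a _), x1, ← mul_assoc, c, mul_sub, mul_one]
    noncomm_ring
  have n5 : d.e3 a * d.ep a (d.e3 a) * d.N a (a + 2) (d.e3 a) = d.e3 a * d.N a (a + 2) (d.e3 a) := by
    rw [mul_assoc, n1]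
  have kC : (d.e3 a * d.ep a (d.e3 a) + d.e3 a * d.N a (a + 2) (d.e3 a)) * v = 0 := by
    refine KaP.zero hg h e ⟨hv.cm fun b hb => ?_, ?_, ?_⟩
    · rw [mul_add, add_mul, d.Z_S hb (mul_mem p.mem m), ← mul_assoc (d.Z b), d.Z_S hb p.mem,
        mul_assoc _ (d.Z b), hg.Z_N p hb, mul_assoc _ _ (d.Z b), mul_assoc _ _ (d.Z b)]
    · rw [← mul_assoc, mul_add, ← mul_assoc, ← mul_assoc, i1]
    · rw [← mul_assoc, ← mul_assoc, mul_add, mul_add, ← mul_assoc, ← mul_assoc, ← mul_assoc,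
        ← mul_assoc, ← n3, c, mul_assoc _ _ (d.ep a _), n2, mul_assoc _ _ (d.N _ _ _), n4,
        mul_assoc _ _ (d.ep a _), i2, n5, ← cz, ← mul_assoc, zz, add_comm]
  have k1 : (d.e3 a + d.N a (a + 2) (d.e3 a)) * v = 0 := by
    have : d.e3 a + d.N a (a + 2) (d.e3 a) = d.e3 a * (1 - d.ep a (d.e3 a)) +
        (d.e3 a * d.ep a (d.e3 a) + d.e3 a * d.N a (a + 2) (d.e3 a)) +
        d.N a (a + 2) (d.e3 a) * ((1 - d.e3 a) * d.ep a (d.e3 a)) := by
      rw [sub_mul, one_mul, mul_sub (d.N _ _ _), n2, ← c, ← mul_assoc, n2, ← n3, c]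
      noncomm_ring
    rw [this, add_mul, add_mul, kA hv, kC, mul_assoc, kB, mul_zero, add_zero, add_zero]
  refine ⟨k1, ?_⟩
  have n6 : d.ζ * (d.e3 a * d.N a (a + 2) (d.e3 a)) = d.e3 a * d.N a (a + 2) (d.e3 a) := by
    rw [← n5, ← mul_assoc, d.cm _ d.mζ _ (mul_mem p.mem m), zz]
  have : d.e3 a + d.ζ * d.N a (a + 2) (d.e3 a) = d.e3 a * (1 - d.ep a (d.e3 a)) +
      (d.e3 a * d.ep a (d.e3 a) + d.e3 a * d.N a (a + 2) (d.e3 a)) +
      d.ζ * (d.N a (a + 2) (d.e3 a) * ((1 - d.e3 a) * d.ep a (d.e3 a))) := by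
    rw [sub_mul, one_mul, mul_sub (d.N _ _ _), n2, ← c, ← mul_assoc, n2, ← n3, mul_sub d.ζ, n6,
      c]
    noncomm_ring
  rw [this, add_mul, add_mul, kA hv, kC, mul_assoc, mul_assoc, kB, mul_zero, mul_zero, add_zero,
    add_zero]

end Pool.Agent.Lib.MP_1ae3da_al.JM.YD
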