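import Pool.Agent.Lib.MP_1ae3da_al.J.K6s

/-! The four kinds of pairs and the squares of the new generators. -/

namespace Pool.Agent.Lib.MP_1ae3da_al.JM.YD

variable {F H : Type} [Field F] [CharZero F] [Ring H] [Algebra F H] {d : YD F H} {a b c : ℕ}
  {ε v y y' ψ : H} {z : ℕ → F} {f0 f1 f2 f3 g0 g1 g2 g3 : (ℕ → F) → F}

namespace Good
variable (hg : d.Good)
include hg

/-- two elements agree if they agree on the joint eigenvectors of every kind. -/
theorem ext5 (h : d.Pr a b ε) {x y : H}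
    (k0 : ∀ z w, w ≠ 0 → d.FW z w → ε * w = 0 → d.ep a ε * w = 0 → x * w = y * w)
    (k1 : ∀ z w, w ≠ 0 → d.FW z w → ε * w = w → d.ep a ε * w = 0 → x * w = y * w)
    (k2 : ∀ z w, w ≠ 0 → d.FW z w → ε * w = 0 → d.ep a ε * w = w → x * w = y * w)
    (k3 : ∀ z w, w ≠ 0 → d.FW z w → ε * w = w → d.ep a ε * w = w → d.N a b ε * w = w →
      x * w = y * w)
    (k4 : ∀ z w, w ≠ 0 → d.FW z w → ε * w = w → d.ep a ε * w = w → d.N a b ε * w = -w →
      x * w = y * w) : x = y := by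
  have ha : a < d.k := h.lt.trans h.bk
  have hp := ep_mem ha h.mem
  have e1 : ∀ w, ε * (ε * w) = ε * w := fun w => by rw [← mul_assoc, h.idem]
  have e2 : ∀ w, d.ep a ε * (d.ep a ε * w) = d.ep a ε * w := fun w => by
    rw [← mul_assoc, h.ep_idem]
  have e3 : ∀ w, d.ep a ε * (ε * w) = ε * (d.ep a ε * w) := fun w => by
    rw [← mul_assoc, d.cm _ hp _ h.mem, mul_assoc]
  have e4 : ∀ w, d.N a b ε * (ε * w) = ε * (d.N a b ε * w) := fun w => by
    rw [← mul_assoc, ← hg.e_N h, mul_assoc]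
  have e5 : ∀ w, d.ep a ε * (d.N a b ε * w) = d.N a b ε * w := fun w => by
    rw [← mul_assoc, hg.ep_N h]
  have e6 : ∀ w, d.N a b ε * (d.ep a ε * w) = d.N a b ε * w := fun w => by
    rw [← mul_assoc, hg.N_ep h]
  have e7 : ∀ w, ε * (d.N a b ε * (d.N a b ε * w)) = ε * (d.ep a ε * w) := fun w => by
    rw [← mul_assoc (d.N a b ε), hg.NN h, d.cm _ d.mζ _ hp, ← mul_assoc, ← mul_assoc, h.zz,
      mul_assoc]
  have z1 : ∀ c, c < d.k → Commute (d.Z c) ε := fun c hc => d.Z_S hc h.mem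
  have z2 : ∀ c, c < d.k → Commute (d.Z c) (d.ep a ε) := fun c hc => d.Z_S hc hp
  have z3 : ∀ c, c < d.k → Commute (d.Z c) (d.N a b ε) := fun c hc => hg.Z_N h hc
  have nz : ∀ w : H, (w ≠ 0 → x * w = y * w) → x * w = y * w := fun w k => by
    by_cases e : w = 0
    · rw [e, mul_zero, mul_zero]
    · exact k e
  refine hg.spc.eq fun z v _ hv => ?_
  have e : v = (1 - ε) * (1 - d.ep a ε) * v + ε * (1 - d.ep a ε) * v + (1 - ε) * d.ep a ε * v +
      ((2 : F)⁻¹ • (ε * d.ep a ε + ε * d.N a b ε)) * v +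
      ((2 : F)⁻¹ • (ε * d.ep a ε - ε * d.N a b ε)) * v := by
    simp only [add_mul, sub_mul, mul_sub, mul_assoc, one_mul, smul_mul_assoc, mul_one]
    module
  rw [e]
  simp only [mul_add x, mul_add y]
  congr 1
  congr 1
  congr 1
  congr 1
  · refine nz _ fun w0 => k0 z _ w0 (hv.cm fun c hc => (((Commute.one_right _).sub_right
      (z1 c hc)).mul_right ((Commute.one_right _).sub_right (z2 c hc))).eq) ?_ ?_ <;>
    · simp only [sub_mul, mul_sub, mul_assoc, one_mul, mul_one, e1, e2, e3]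
      abel
  · refine nz _ fun w0 => k1 z _ w0 (hv.cm fun c hc => ((z1 c hc).mul_right
      ((Commute.one_right _).sub_right (z2 c hc))).eq) ?_ ?_ <;>
    simp only [sub_mul, mul_sub, mul_assoc, mul_one, e1, e2, e3, sub_self]
  · refine nz _ fun w0 => k2 z _ w0 (hv.cm fun c hc => (((Commute.one_right _).sub_right
      (z1 c hc)).mul_right (z2 c hc)).eq) ?_ ?_ <;>
    simp only [sub_mul, mul_sub, mul_assoc, one_mul, e1, e2, e3, sub_self]
  · refine nz _ fun w0 => k3 z _ w0 (hv.cm fun c hc => ((((z1 c hc).mul_right (z2 c hc)).add_right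
      ((z1 c hc).mul_right (z3 c hc))).smul_right _).eq) ?_ ?_ ?_ <;>
    simp only [add_mul, mul_add, mul_assoc, smul_mul_assoc, mul_smul_comm, e1, e2, e3, e4, e5, e6,
      e7, add_comm]
  · refine nz _ fun w0 => k4 z _ w0 (hv.cm fun c hc => ((((z1 c hc).mul_right (z2 c hc)).sub_right
      ((z1 c hc).mul_right (z3 c hc))).smul_right _).eq) ?_ ?_ ?_ <;>
    simp only [sub_mul, mul_sub, mul_assoc, smul_mul_assoc, mul_smul_comm, e1, e2, e3, e4, e5, e6,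
      e7, ← smul_neg, neg_sub]

theorem k6_ap (hv : d.FW z v) : d.K4 a b ε f0 f1 f2 f3 * v =
    f0 z • (v - d.ep a ε * v - (ε * v - ε * (d.ep a ε * v))) +
      f1 z • (ε * v - ε * (d.ep a ε * v) + (d.ep a ε * v - ε * (d.ep a ε * v))) +
      (2 : F)⁻¹ • f2 z • (ε * (d.ep a ε * v) + ε * (d.N a b ε * v)) +
      (2 : F)⁻¹ • f3 z • (ε * (d.ep a ε * v) - ε * (d.N a b ε * v)) := by
  rw [K4]
  simp only [add_mul, smul_mul_assoc, mul_assoc, hg.ap hv, mul_smul_comm, sub_mul, mul_sub,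
    one_mul, mul_one]
  module

theorem K4_0 (hv : d.FW z v) (h1 : ε * v = 0) (h2 : d.ep a ε * v = 0) (h : d.Pr a b ε) :
    d.K4 a b ε f0 f1 f2 f3 * v = f0 z • v := by
  have h3 : d.N a b ε * v = 0 := by rw [← hg.N_ep h, mul_assoc, h2, mul_zero]
  rw [hg.k6_ap hv]
  simp [h1, h2, h3]

theorem K4_1 (hv : d.FW z v) (h1 : ε * v = v) (h2 : d.ep a ε * v = 0) (h : d.Pr a b ε) :
    d.K4 a b ε f0 f1 f2 f3 * v = f1 z • v := by
  have h3 : d.N a b ε * v = 0 := by rw [← hg.N_ep h, mul_assoc, h2, mul_zero]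
  rw [hg.k6_ap hv]
  simp [h1, h2, h3]

theorem K4_2 (hv : d.FW z v) (h1 : ε * v = 0) (h2 : d.ep a ε * v = v) (h : d.Pr a b ε) :
    d.K4 a b ε f0 f1 f2 f3 * v = f1 z • v := by
  have h3 : ε * (d.N a b ε * v) = 0 := by rw [← mul_assoc, hg.e_N h, mul_assoc, h1, mul_zero]
  rw [hg.k6_ap hv]
  simp [h1, h2, h3]

theorem K4_3 (hv : d.FW z v) (h1 : ε * v = v) (h2 : d.ep a ε * v = v) (h3 : d.N a b ε * v = v) :
    d.K4 a b ε f0 f1 f2 f3 * v = f2 z • v := by
  rw [hg.k6_ap hv]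
  simp only [h1, h2, h3]
  module

theorem K4_4 (hv : d.FW z v) (h1 : ε * v = v) (h2 : d.ep a ε * v = v) (h3 : d.N a b ε * v = -v) :
    d.K4 a b ε f0 f1 f2 f3 * v = f3 z • v := by
  rw [hg.k6_ap hv]
  simp only [h1, h2, h3, mul_neg]
  module

theorem K4_mul (h : d.Pr a b ε) : d.K4 a b ε f0 f1 f2 f3 * d.K4 a b ε g0 g1 g2 g3 =
    d.K4 a b ε (fun z => f0 z * g0 z) (fun z => f1 z * g1 z) (fun z => f2 z * g2 z)
      fun z => f3 z * g3 z := by
  refine hg.ext5 h (fun z w _ hw h1 h2 => ?_) (fun z w _ hw h1 h2 => ?_)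
    (fun z w _ hw h1 h2 => ?_) (fun z w _ hw h1 h2 h3 => ?_) fun z w _ hw h1 h2 h3 => ?_
  · simp only [mul_assoc, hg.K4_0 hw h1 h2 h, mul_smul_comm, smul_smul, mul_comm]
  · simp only [mul_assoc, hg.K4_1 hw h1 h2 h, mul_smul_comm, smul_smul, mul_comm]
  · simp only [mul_assoc, hg.K4_2 hw h1 h2 h, mul_smul_comm, smul_smul, mul_comm]
  · simp only [mul_assoc, hg.K4_3 hw h1 h2 h3, mul_smul_comm, smul_smul, mul_comm]
  · simp only [mul_assoc, hg.K4_4 hw h1 h2 h3, mul_smul_comm, smul_smul, mul_comm]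

theorem K4_one (h : d.Pr a b ε) :
    d.K4 a b ε (fun _ => 1) (fun _ => 1) (fun _ => 1) (fun _ => 1) = 1 := by
  refine hg.ext5 h (fun z w _ hw h1 h2 => ?_) (fun z w _ hw h1 h2 => ?_)
    (fun z w _ hw h1 h2 => ?_) (fun z w _ hw h1 h2 h3 => ?_) fun z w _ hw h1 h2 h3 => ?_
  · rw [hg.K4_0 hw h1 h2 h, one_smul, one_mul]
  · rw [hg.K4_1 hw h1 h2 h, one_smul, one_mul]
  · rw [hg.K4_2 hw h1 h2 h, one_smul, one_mul]
  · rw [hg.K4_3 hw h1 h2 h3, one_smul, one_mul]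
  · rw [hg.K4_4 hw h1 h2 h3, one_smul, one_mul]

theorem K4_cm (hz : ∀ c, c < d.k → d.Z c * y = y * d.Z c)
    (h0 : Commute ((1 - ε) * (1 - d.ep a ε)) y)
    (h1 : Commute (ε * (1 - d.ep a ε) + (1 - ε) * d.ep a ε) y) (h2 : Commute (ε * d.ep a ε) y)
    (h3 : Commute (ε * d.N a b ε) y) :
    d.K4 a b ε f0 f1 f2 f3 * y = y * d.K4 a b ε f0 f1 f2 f3 := by
  have k : ∀ f, Commute (d.Fz f) y := fun f => hg.cm hz f
  exact ((((h0.mul_left (k _)).add_left (h1.mul_left (k _))).add_left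
    (((h2.add_left h3).mul_left (k _)).smul_left _)).add_left
    (((h2.sub_left h3).mul_left (k _)).smul_left _)).eq

theorem K4_S (h : a + 1 < d.k) (hy : y ∈ d.S) :
    d.K4 a (a + 1) (d.e a) f0 f1 f2 f3 * y = y * d.K4 a (a + 1) (d.e a) f0 f1 f2 f3 := by
  have m1 := d.me a h
  have m2 := ep_mem (a := a) (by omega) m1
  have o := d.S.one_mem
  exact hg.K4_cm (fun c hc => d.Z_S hc hy)
    (d.cm _ (mul_mem (sub_mem o m1) (sub_mem o m2)) _ hy)
    (d.cm _ (add_mem (mul_mem m1 (sub_mem o m2)) (mul_mem (sub_mem o m1) m2)) _ hy)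
    (d.cm _ (mul_mem m1 m2) _ hy) (hg.M_S h hy)

theorem K4_X (h : d.Pr a b ε) (hc : c < d.k) :
    d.K4 a b ε f0 f1 f2 f3 * d.X c = d.X c * d.K4 a b ε f0 f1 f2 f3 := by
  have ha : a < d.k := h.lt.trans h.bk
  have cm := d.cm _ h.mem _ (ep_mem ha h.mem)
  have k : Commute (ε + d.ep a ε) (d.X c) ∧ Commute (ε * d.ep a ε) (d.X c) := by
    have sw : d.X c * ε = d.ep a ε * d.X c → d.X c * d.ep a ε = ε * d.X c →
        Commute (ε + d.ep a ε) (d.X c) ∧ Commute (ε * d.ep a ε) (d.X c) := fun p q =>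
      ⟨by rw [Commute, SemiconjBy, add_mul, mul_add, p, q, add_comm],
        by rw [Commute, SemiconjBy, ← mul_assoc, p, mul_assoc (d.ep a ε), q, ← mul_assoc, cm]⟩
    by_cases h0 : c = a
    · exact sw (h0 ▸ X_ep0 hc) (h0 ▸ X_ep1 hc h.mem)
    by_cases h1 : c = b
    · exact sw (h1 ▸ h.pb) (h1 ▸ h.pb')
    have p : Commute ε (d.X c) := h.oth c hc h0 h1
    have q : Commute (d.ep a ε) (d.X c) := h.ep_oth hc h0 h1
    exact ⟨p.add_left q, p.mul_left q⟩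
  refine hg.K4_cm (fun i hi => d.Z_X hi hc) ?_ ?_ k.2 (hg.M_X h hc)
  · have : (1 - ε) * (1 - d.ep a ε) = 1 - (ε + d.ep a ε) + ε * d.ep a ε := by noncomm_ring
    rw [this]
    exact ((Commute.one_left _).sub_left k.1).add_left k.2
  · have : ε * (1 - d.ep a ε) + (1 - ε) * d.ep a ε =
        ε + d.ep a ε - ε * d.ep a ε - ε * d.ep a ε := by noncomm_ring
    rw [this]
    exact (k.1.sub_left k.2).sub_left k.2

theorem itσ (h : a + 1 < d.k) : d.It a (d.σ a) :=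
  (hg.it h).mul (fun _ ht => (hg.K4_S h ht).symm ▸ rfl) fun _ hc => hg.K4_X (pr1 h) hc

theorem it_K4 (h : d.It a ψ) : ψ * d.K4 a (a + 1) (d.e a) f0 f1 f2 f3 =
    d.K4 a (a + 1) (d.e a) (fun z => f0 (z ∘ Equiv.swap a (a + 1)))
      (fun z => f1 (z ∘ Equiv.swap a (a + 1))) (fun z => f2 (z ∘ Equiv.swap a (a + 1)))
      (fun z => f3 (z ∘ Equiv.swap a (a + 1))) * ψ := by
  have c1 : Commute ψ (d.e a) := h.e_cm
  have c2 : Commute ψ (d.ep a (d.e a)) := h.ep_cm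
  have c3 : Commute ψ (d.N a (a + 1) (d.e a)) := hg.itN11 h
  have o := Commute.one_right ψ
  have k : ∀ {p : H} (f : (ℕ → F) → F), Commute ψ p →
      ψ * (p * d.Fz f) = p * d.Fz (fun z => f (z ∘ Equiv.swap a (a + 1))) * ψ := fun f hp => by
    rw [← mul_assoc, hp.eq, mul_assoc, It.fz hg h, mul_assoc]
  rw [K4, K4, mul_add, mul_add, mul_add, mul_smul_comm, mul_smul_comm,
    k _ ((o.sub_right c1).mul_right (o.sub_right c2)),
    k _ ((c1.mul_right (o.sub_right c2)).add_right ((o.sub_right c1).mul_right c2)),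
    k _ ((c1.mul_right c2).add_right (c1.mul_right c3)),
    k _ ((c1.mul_right c2).sub_right (c1.mul_right c3))]
  simp only [add_mul, smul_mul_assoc]

theorem A_ap (h : d.Pr a b ε) (hv : d.FW z v) (i j : ℕ) : d.A a b ε i j * v =
    d.a1 (z i) (z j) • (ε * v) +
      (d.a2 (z i) (z j) * d.u ^ (d.lg (z a) + d.lg (z b))) • (d.N a b ε * v) := by
  rw [A, hg.R_N h]
  simp only [add_mul, mul_assoc, hg.ap hv, mul_smul_comm, smul_smul]

theorem P_ap (hv : d.FW z v) (i j : ℕ) : (ε + d.N a b ε) * d.bi i j * v =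
    ((d.κ : F) / (d.β i j z : F)) • (ε * v + d.N a b ε * v) := by
  rw [bi, mul_assoc, hg.ap hv, mul_smul_comm, add_mul]

theorem σ_sq (h : a + 1 < d.k) : d.σ a * d.σ a = d.h a -
    (d.e a + d.N a (a + 1) (d.e a)) * d.bi a (a + 1) *
      ((d.e a + d.N a (a + 1) (d.e a)) * d.bi a (a + 1)) := by
  have p := pr1 h
  have ha : a < d.k := by omega
  have hN : ∀ w, d.ep a (d.e a) * w = 0 → d.N a (a + 1) (d.e a) * w = 0 := fun w h2 => by
    rw [← hg.N_ep p, mul_assoc, h2, mul_zero]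
  have hh : ∀ w, d.e a * w = w → d.h a * w = w := fun w h1 => by
    rw [← h1, ← mul_assoc, d.cm _ (d.mh a h) _ p.mem, d.eh a h]
  have hb : ∀ z w, w ≠ 0 → d.FW z w → z a ≠ z (a + 1) → d.β a (a + 1) z ≠ 0 :=
    fun z w w0 hw e k => e (by rw [hg.spec hw w0 ha, hg.spec hw w0 h, sub_eq_zero.1 k])
  have key : ∀ (w : H) (s t q : F), d.g a (a + 1) (d.e a) a (a + 1) * w = s • w →
      d.K4 a (a + 1) (d.e a) (fun _ => (d.u ^ d.κ)⁻¹)
        (fun z => d.Gf (2 * d.β a (a + 1) (z ∘ Equiv.swap a (a + 1))))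
        (fun z => d.Gf (d.β a (a + 1) (z ∘ Equiv.swap a (a + 1))))
        (fun z => d.Gm (d.β a (a + 1) (z ∘ Equiv.swap a (a + 1)))) * w = t • w →
      d.A a (a + 1) (d.e a) (a + 1) a * (d.A a (a + 1) (d.e a) a (a + 1) * w) = q • (d.h a * w) →
      d.σ a * d.σ a * w = (t * (d.Q + q) * s) • (d.h a * w) := fun w s t q h1 h2 h3 => by
    have e := hg.it_K4 (f0 := fun _ => (d.u ^ d.κ)⁻¹) (f1 := fun z => d.Gf (2 * d.β a (a + 1) z))
      (f2 := fun z => d.Gf (d.β a (a + 1) z)) (f3 := fun z => d.Gm (d.β a (a + 1) z)) (hg.it h)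
    rw [σ, mul_assoc, mul_assoc (d.φ a) _ w, h1, g, e, mul_assoc, ← mul_assoc (d.φ a), hg.φ_sq h,
      mul_smul_comm, mul_smul_comm, add_mul, mul_assoc, h3, smul_mul_assoc, ← add_smul,
      mul_smul_comm, ← mul_assoc, hg.K4_S h (d.mh a h), mul_assoc, h2, mul_smul_comm, smul_smul,
      smul_smul]
    congr 1
    ring
  refine hg.ext5 p (fun z w w0 hw h1 h2 => ?_) (fun z w w0 hw h1 h2 => ?_)
    (fun z w w0 hw h1 h2 => ?_) (fun z w w0 hw h1 h2 h3 => ?_) fun z w w0 hw h1 h2 h3 => ?_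
  · rw [key w _ _ 0 (hg.K4_0 hw h1 h2 p) (hg.K4_0 hw h1 h2 p)
      (by rw [hg.A_ap p hw, h1, hN w h2]; simp), sub_mul, mul_assoc _ _ w, hg.P_ap hw, h1, hN w h2]
    have : (d.u ^ d.κ)⁻¹ * (d.Q + 0) * (d.u ^ d.κ)⁻¹ = 1 := by
      have := pow_ne_zero d.κ d.u0
      rw [Q]
      field_simp
      ring
    rw [this]
    simp
  · have e : z a ≠ z (a + 1) := fun e => w0 (by
      have := hg.ov2N h hw e
      rwa [add_mul, h1, hN w h2, add_zero] at this)
    have b0 := hb z w w0 hw e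
    rw [key w _ _ (d.a1 (z a) (z (a + 1)) * d.a1 (z (a + 1)) (z a)) (hg.K4_1 hw h1 h2 p)
      (hg.K4_1 hw h1 h2 p)
      (by simp only [hg.A_ap p hw, h1, hN w h2, hh w h1, smul_zero, add_zero, mul_smul_comm,
        smul_smul]), (val (hg.spec hw w0 ha) (hg.spec hw w0 h) e).1, β_swap, mul_neg, ← β,
      Gf_mul (by omega), sub_mul, mul_assoc _ _ w]
    simp only [hg.P_ap hw, h1, hN w h2, hh w h1, add_zero, mul_smul_comm, smul_smul]
    have b1 : (d.β a (a + 1) z : F) ≠ 0 := Int.cast_ne_zero.2 b0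
    match_scalars
    field_simp
  · have n2 : d.N a (a + 1) (d.e a) * (d.N a (a + 1) (d.e a) * w) = d.h a * w := by
      rw [← mul_assoc, hg.NN p, ← h_ep h, mul_assoc, h2]
    have n1 : d.e a * (d.N a (a + 1) (d.e a) * w) = 0 := by
      rw [← mul_assoc, hg.e_N p, mul_assoc, h1, mul_zero]
    have hw' : d.FW z (d.N a (a + 1) (d.e a) * w) := hw.cm fun c hc => hg.Z_N p hc
    have e : z a ≠ z (a + 1) := fun e => w0 (by
      have := hg.ov2N h hw e
      rw [add_mul, h1, zero_add] at this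
      rw [this, mul_zero] at n2
      rw [← one_mul w, ← d.hh a h, mul_assoc, ← n2, mul_zero])
    have b0 := hb z w w0 hw e
    rw [key w _ _ (d.a2 (z a) (z (a + 1)) * d.u ^ (d.lg (z a) + d.lg (z (a + 1))) *
      (d.a2 (z (a + 1)) (z a) * d.u ^ (d.lg (z a) + d.lg (z (a + 1))))) (hg.K4_2 hw h1 h2 p)
      (hg.K4_2 hw h1 h2 p)
      (by simp only [hg.A_ap p hw, hg.A_ap p hw', h1, n1, n2, smul_zero, zero_add, mul_smul_comm,
        smul_smul]), (val (hg.spec hw w0 ha) (hg.spec hw w0 h) e).2.1, β_swap, mul_neg, ← β,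
      Gf_mul (by omega), sub_mul, mul_assoc _ _ w]
    simp only [hg.P_ap hw, hg.P_ap hw', h1, n1, n2, zero_add, mul_smul_comm, smul_smul]
    have b1 : (d.β a (a + 1) z : F) ≠ 0 := Int.cast_ne_zero.2 b0
    match_scalars
    field_simp
  · have e : z a ≠ z (a + 1) := fun e => w0 (by
      have := hg.ov2N h hw e
      rw [add_mul, h1, h3, ← two_smul F] at this
      exact (smul_eq_zero.1 this).resolve_left two_ne_zero)
    have b0 := hb z w w0 hw e
    rw [key w _ _ ((d.a1 (z a) (z (a + 1)) +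
        d.a2 (z a) (z (a + 1)) * d.u ^ (d.lg (z a) + d.lg (z (a + 1)))) *
      (d.a1 (z (a + 1)) (z a) + d.a2 (z (a + 1)) (z a) * d.u ^ (d.lg (z a) + d.lg (z (a + 1)))))
      (hg.K4_3 hw h1 h2 h3) (hg.K4_3 hw h1 h2 h3)
      (by simp only [hg.A_ap p hw, h1, h3, hh w h1, ← add_smul, mul_smul_comm, smul_smul]),
      (val (hg.spec hw w0 ha) (hg.spec hw w0 h) e).2.2.1, β_swap, ← β, Gf_mul b0, sub_mul,
      mul_assoc _ _ w]
    simp only [hg.P_ap hw, h1, h3, hh w h1, mul_add, mul_smul_comm]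
    match_scalars
    ring
  · have e : d.Q + (d.a1 (z a) (z (a + 1)) -
        d.a2 (z a) (z (a + 1)) * d.u ^ (d.lg (z a) + d.lg (z (a + 1)))) *
        (d.a1 (z (a + 1)) (z a) - d.a2 (z (a + 1)) (z a) * d.u ^ (d.lg (z a) + d.lg (z (a + 1)))) =
        (d.Q * d.u ^ d.β a (a + 1) z + 1) * (d.u ^ d.β a (a + 1) z + d.Q) /
          (d.u ^ d.β a (a + 1) z + 1) ^ 2 := by
      by_cases e : z a = z (a + 1)
      · rw [β, ← e, sub_self]
        exact val0 _ _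
      · exact (val (hg.spec hw w0 ha) (hg.spec hw w0 h) e).2.2.2
    rw [key w _ _ ((d.a1 (z a) (z (a + 1)) -
        d.a2 (z a) (z (a + 1)) * d.u ^ (d.lg (z a) + d.lg (z (a + 1)))) *
      (d.a1 (z (a + 1)) (z a) - d.a2 (z (a + 1)) (z a) * d.u ^ (d.lg (z a) + d.lg (z (a + 1)))))
      (hg.K4_4 hw h1 h2 h3) (hg.K4_4 hw h1 h2 h3)
      (by simp only [hg.A_ap p hw, h1, h3, hh w h1, smul_neg, ← sub_eq_add_neg, ← sub_smul,
        mul_smul_comm, smul_smul]), e, β_swap, Gm_mul, sub_mul, mul_assoc _ _ w, hg.P_ap hw, h1, h3]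
    simp

theorem s_sq (h : a + 1 < d.k) : d.s (a + 1) * d.s (a + 1) = d.h a := by
  have it := hg.itσ h
  have e1 : d.σ a * d.bi a (a + 1) = -d.bi a (a + 1) * d.σ a := by
    rw [bi, It.fz hg it]
    congr 1
    refine hg.spc.eq fun z v _ hv => ?_
    rw [neg_mul, hg.ap hv, hg.ap hv, β_swap, Int.cast_neg, div_neg, neg_smul]
  have e2 : d.σ a * ((d.e a + d.N a (a + 1) (d.e a)) * d.bi a (a + 1)) =
      -((d.e a + d.N a (a + 1) (d.e a)) * d.bi a (a + 1) * d.σ a) := by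
    rw [← mul_assoc, mul_add, it.e_cm, hg.itN11 it, ← add_mul, mul_assoc, e1, neg_mul, mul_neg,
      mul_assoc]
  rw [s, mul_sub, sub_mul, sub_mul, hg.σ_sq h, e2]
  abel

end Good

end Pool.Agent.Lib.MP_1ae3da_al.JM.YD
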