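import Pool.Agent.Lib.MP_1ae3da_al.J.K6a
import Pool.Agent.Lib.MP_1ae3da_al.J.K5

/-! The new generators satisfy the braid relations. -/

namespace Pool.Agent.Lib.MP_1ae3da_al.JM.YD

theorem kb_P {H : Type} [Ring H] {ζ e1 e2 e3 N1 N2 N3 : H} (t : Tr ζ e1 e2 e3 N1 N2 N3) :
    (e3 + ζ * N3) * (e1 + N1) = (e1 + N1) * (e2 + N2) ∧
    (e2 + N2) * (e3 + ζ * N3) = (e1 + N1) * (e2 + N2) ∧
    (e1 + N1) * (e3 + N3) = (e2 + N2) * (e1 + N1) ∧
    (e3 + N3) * (e2 + N2) = (e2 + N2) * (e1 + N1) := by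
  simp only [add_mul, mul_add]
  refine ⟨?_, ?_, ?_, ?_⟩
  · rw [← t.a1, ← t.b1, ← t.c1, ← t.d1]; abel
  · rw [← t.a2, ← t.b2, ← t.c2, ← t.d2]; abel
  · rw [t.a4, t.a3, ← t.f1, ← t.g1, ← t.h1]; abel
  · rw [t.a5, t.a3, ← t.f2, ← t.g2, ← t.h2]; abel

theorem kb_mul {H : Type} [Ring H] {U V x y : H} (h : x * V = V * x) :
    U * x * (V * y) = U * V * (x * y) := by
  rw [mul_assoc, ← mul_assoc x, h, mul_assoc, mul_assoc]

theorem kb_s3 {H : Type} [Ring H] {σ τ P1 P2 Pp Pm x y w h1 h2 : H}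
    (x1 : x * P1 = P1 * x) (x2 : x * P2 = P2 * x) (xp : x * Pp = Pp * x)
    (y1 : y * P1 = P1 * y) (y2 : y * P2 = P2 * y) (ym : y * Pm = Pm * y)
    (w1 : w * P1 = P1 * w) (w2 : w * P2 = P2 * w) (wh1 : w * h1 = h1 * w) (wh2 : w * h2 = h2 * w)
    (xy : y * x = x * y) (xw : w * x = x * w) (yw : w * y = y * w)
    (r1 : Pm * P1 = P1 * P2) (r2 : P2 * Pm = P1 * P2) (r3 : P1 * Pp = P2 * P1)
    (r4 : Pp * P2 = P2 * P1) (rh : Pm * h1 = Pp * h2)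
    (k1 : P1 * P2 * (x * y - x * w - y * w) = 0) (k2 : P2 * P1 * (x * y - x * w - y * w) = 0)
    (s1 : σ * σ = h1 - P1 * x * (P1 * x)) (s2 : τ * τ = h2 - P2 * y * (P2 * y))
    (s3 : σ * τ * σ = τ * σ * τ)
    (e1 : σ * (P1 * x) = P1 * (-x) * σ) (e2 : τ * (P2 * y) = P2 * (-y) * τ)
    (e3 : τ * (P1 * x) = Pp * w * τ) (e4 : σ * (Pp * w) = P2 * y * σ)
    (e5 : σ * (P2 * y) = Pm * w * σ) (e6 : τ * (Pm * w) = P1 * x * τ) :
    (σ - P1 * x) * (τ - P2 * y) * (σ - P1 * x) = (τ - P2 * y) * (σ - P1 * x) * (τ - P2 * y) := by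
  have c1 : Pm * w * (P1 * (-x)) + P1 * x * (P2 * y) - P2 * y * (Pm * w) = 0 := by
    rw [kb_mul w1, kb_mul x2, kb_mul ym, r1, r2, mul_neg, xw, ← k1]
    noncomm_ring
  have c2 : Pp * w * (P2 * (-y)) + P2 * y * (P1 * x) - P1 * x * (Pp * w) = 0 := by
    rw [kb_mul w2, kb_mul y1, kb_mul xp, r3, r4, mul_neg, yw, xy, ← k2]
    noncomm_ring
  have D : P2 * P1 * P2 = P1 * P2 * P1 := by rw [← r2, mul_assoc, mul_assoc, r1]
  have k3 : P1 * P2 * P1 * (x * y - x * w - y * w) = 0 := by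
    rw [mul_assoc P1, mul_assoc P1, k2, mul_zero]
  have a1 : Pm * w * (P1 * x * (P1 * x)) = P1 * P2 * P1 * (x * w * x) := by
    rw [← mul_assoc (Pm * w), kb_mul w1, r1, xw,
      kb_mul ((Commute.mul_left x1 w1 : Commute (x * w) P1)).eq]
  have a2 : Pp * w * (P2 * y * (P2 * y)) = P1 * P2 * P1 * (y * w * y) := by
    rw [← mul_assoc (Pp * w), kb_mul w2, r4, yw,
      kb_mul ((Commute.mul_left y2 w2 : Commute (y * w) P2)).eq, D]
  have a3 : P1 * x * (P2 * y) * (P1 * x) = P1 * P2 * P1 * (x * y * x) := by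
    rw [kb_mul x2, kb_mul ((Commute.mul_left x1 y1 : Commute (x * y) P1)).eq]
  have a4 : P2 * y * (P1 * x) * (P2 * y) = P1 * P2 * P1 * (x * y * y) := by
    rw [kb_mul y1, xy, kb_mul ((Commute.mul_left x2 y2 : Commute (x * y) P2)).eq, D]
  have a5 : Pm * w * h1 = Pp * w * h2 := by
    rw [mul_assoc, wh1, ← mul_assoc, rh, mul_assoc, ← wh2, mul_assoc]
  have a6 : y * w * x = x * w * y := by
    rw [mul_assoc, xw, ← mul_assoc, xy, mul_assoc, ← yw, mul_assoc]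
  have c3 : Pm * w * (σ * σ) - Pp * w * (τ * τ) + P1 * x * (P2 * y) * (P1 * x) -
      P2 * y * (P1 * x) * (P2 * y) = 0 := by
    rw [s1, s2, mul_sub, mul_sub, a1, a2, a3, a4, a5]
    linear_combination (norm := noncomm_ring) k3 * (x - y) + P1 * P2 * P1 * a6
  rw [← sub_eq_zero, expand e1 e2 e3 e4 e5 e6, c1, c2, c3, s3]
  simp

variable {F H : Type} [Field F] [CharZero F] [Ring H] [Algebra F H] {d : YD F H} {a b c : ℕ}
  {ε v y y' ψ : H} {z : ℕ → F} {f0 f1 f2 f3 g0 g1 g2 g3 : (ℕ → F) → F}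

omit [CharZero F] in
theorem kb_K4 {a' b' : ℕ} {ε' : H} (h1 : SemiconjBy ψ ε ε')
    (h2 : SemiconjBy ψ (d.ep a ε) (d.ep a' ε'))
    (h3 : SemiconjBy ψ (ε * d.N a b ε) (ε' * d.N a' b' ε'))
    (k0 : SemiconjBy ψ (d.Fz f0) (d.Fz g0)) (k1 : SemiconjBy ψ (d.Fz f1) (d.Fz g1))
    (k2 : SemiconjBy ψ (d.Fz f2) (d.Fz g2)) (k3 : SemiconjBy ψ (d.Fz f3) (d.Fz g3)) :
    SemiconjBy ψ (d.K4 a b ε f0 f1 f2 f3) (d.K4 a' b' ε' g0 g1 g2 g3) := by
  have o := SemiconjBy.one_right ψ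
  exact (((((o.sub_right h1).mul_right (o.sub_right h2)).mul_right k0).add_right
    (((h1.mul_right (o.sub_right h2)).add_right ((o.sub_right h1).mul_right h2)).mul_right
      k1)).add_right ((((h1.mul_right h2).add_right h3).mul_right k2).smul_right _)).add_right
    ((((h1.mul_right h2).sub_right h3).mul_right k3).smul_right _)

omit [CharZero F] in
theorem kb_ep {a' : ℕ} {ε' t : H} (ha : a < d.k) (ha' : a' < d.k) (h1 : ψ * ε = ε' * ψ)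
    (hX : ψ * d.X a = t * (d.X a' * ψ)) (ht : t * d.ep a' ε' = d.ep a' ε' * t) :
    ψ * d.ep a ε = d.ep a' ε' * ψ := by
  refine (d.X_unit ha).mul_right_cancel ?_
  rw [mul_assoc, ← X_ep0 ha, ← mul_assoc, hX, mul_assoc, mul_assoc, h1, ← mul_assoc (d.X a'),
    X_ep0 ha', mul_assoc, ← mul_assoc t, ht, mul_assoc, mul_assoc, hX]

namespace Good
variable (hg : d.Good)
include hg

theorem kb_zN (h : d.Pr a b ε) : ε * (d.ζ * d.N a b ε) = ε * d.N a b ε := by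
  have m := ep_mem (h.lt.trans h.bk) h.mem
  rw [← hg.ep_N h, ← mul_assoc d.ζ, d.cm _ d.mζ _ m, ← mul_assoc, ← mul_assoc, h.zz, mul_assoc]

theorem kb_cm (h : d.Pr a b ε) (h1 : ∀ t ∈ d.S, y * t = t * y)
    (h2 : ∀ c, c < d.k → y * d.X c = d.X c * y) :
    y * d.K4 a b ε f0 f1 f2 f3 = d.K4 a b ε f0 f1 f2 f3 * y := by
  have ha := h.lt.trans h.bk
  have z : ∀ f, Commute y (d.Fz f) := fun f => (hg.cm (fun c hc =>
    (((Commute.mul_right (h2 c hc) (h2 c hc)).mul_right (h1 _ (d.mei hc))).symm).eq) f).symm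
  have n : ∀ c, c < d.k → Commute y (d.ν c) := fun c hc => Commute.mul_right (h2 c hc) (z _)
  have e : Commute y ε := h1 _ h.mem
  exact kb_K4 e (h1 _ (ep_mem ha h.mem)) (e.mul_right
    ((((n b h.bk).mul_right e).mul_right (n a ha)).mul_right (h1 _ (d.mei ha))))
    (z _) (z _) (z _) (z _)

theorem kb_g {a' b' i j i' j' : ℕ} {ε' : H} (h : d.It c ψ) (h1 : ψ * ε = ε' * ψ)
    (h2 : ψ * d.ep a ε = d.ep a' ε' * ψ) (h3 : SemiconjBy ψ (ε * d.N a b ε) (ε' * d.N a' b' ε'))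
    (hi : Equiv.swap c (c + 1) i = i') (hj : Equiv.swap c (c + 1) j = j') :
    d.g a' b' ε' i' j' * ψ = ψ * d.g a b ε i j := by
  subst hi hj
  exact (kb_K4 h1 h2 h3 (h.fz hg fun _ => (d.u ^ d.κ)⁻¹) (h.fz hg fun z => d.Gf (2 * d.β i j z))
    (h.fz hg fun z => d.Gf (d.β i j z)) (h.fz hg fun z => d.Gm (d.β i j z))).symm

theorem kb_bi {i j i' j' : ℕ} (h : d.It c ψ) (hi : Equiv.swap c (c + 1) i = i')
    (hj : Equiv.swap c (c + 1) j = j') : SemiconjBy ψ (d.bi i j) (d.bi i' j') := by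
  subst hi hj
  exact h.fz hg _

/-- hint: move the factors `g` to the right (`It.fz`, `itN..`, `It.s`); the three factors commute
by `Tr`. -/
theorem σ3 (h : a + 2 < d.k) :
    d.σ a * d.σ (a + 1) * d.σ a = d.σ (a + 1) * d.σ a * d.σ (a + 1) := by
  have ha : a < d.k := by omega
  have h1 : a + 1 < d.k := by omega
  have h2 : a + 1 + 1 < d.k := h
  have p1 : d.Pr a (a + 1) (d.e a) := pr1 h1
  have p2 : d.Pr (a + 1) (a + 2) (d.e (a + 1)) := pr1 h2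
  have p3 := pr3 h
  have i1 := hg.it h1
  have i2 := hg.it h2
  have s1 : Equiv.swap a (a + 1) (a + 2) = a + 2 :=
    Equiv.swap_apply_of_ne_of_ne (by omega) (by omega)
  have s2 : Equiv.swap (a + 1) (a + 1 + 1) a = a :=
    Equiv.swap_apply_of_ne_of_ne (by omega) (by omega)
  have x2 := (i2.xc a ha (by omega) (by omega)).trans (one_mul _).symm
  have e13 := i1.s _ p3.mem _ (T_e3d h)
  have e12 := i1.s _ p2.mem _ (T_e3c h)
  have e23 := i2.s _ p3.mem _ (T_e3b h)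
  have e21 := i2.s _ p1.mem _ (T_e3a h)
  have m13 := hg.kb_g (b := a + 2) (b' := a + 2) i1 e13
    (kb_ep ha h1 e13 (i1.x0.trans (one_mul _).symm) (by simp))
    (SemiconjBy.mul_right e13 (hg.itN13 i1 h)) (Equiv.swap_apply_left _ _) s1
  have m12 := hg.kb_g (b := a + 2) (b' := a + 2) i1 e12
    (kb_ep h1 ha e12 i1.x1 (d.cm _ d.mζ _ (ep_mem ha p3.mem)))
    (hg.kb_zN p3 ▸ SemiconjBy.mul_right e12 (hg.itN12 i1 h)) (Equiv.swap_apply_right _ _) s1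
  have m23 := hg.kb_g (b := a + 2) (b' := a + 1) i2 e23 (kb_ep ha ha e23 x2 (by simp))
    (hg.kb_zN p1 ▸ SemiconjBy.mul_right e23 (hg.itN23 i2)) s2 (Equiv.swap_apply_right _ _)
  have m21 := hg.kb_g (b := a + 1) (b' := a + 2) i2 e21 (kb_ep ha ha e21 x2 (by simp))
    (SemiconjBy.mul_right e21 (hg.itN21 i2)) s2 (Equiv.swap_apply_left _ _)
  have c12 : d.g a (a + 1) (d.e a) a (a + 1) * d.g (a + 1) (a + 2) (d.e (a + 1)) (a + 1) (a + 2) =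
      _ := hg.kb_cm p2 (fun t ht => hg.K4_S h1 ht) fun c hc => hg.K4_X p1 hc
  have c13 : d.g a (a + 1) (d.e a) a (a + 1) * d.g a (a + 2) (d.e3 a) a (a + 2) = _ :=
    hg.kb_cm p3 (fun t ht => hg.K4_S h1 ht) fun c hc => hg.K4_X p1 hc
  have c23 : d.g (a + 1) (a + 2) (d.e (a + 1)) (a + 1) (a + 2) *
      d.g a (a + 2) (d.e3 a) a (a + 2) = _ :=
    hg.kb_cm p3 (fun t ht => hg.K4_S h2 ht) fun c hc => hg.K4_X p2 hc
  have key : ∀ φ1 φ2 g1 g2 g3 : H, g2 * φ1 = φ1 * g3 → g3 * φ1 = φ1 * g2 → g1 * φ2 = φ2 * g3 →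
      g3 * φ2 = φ2 * g1 → g1 * g2 = g2 * g1 → g1 * g3 = g3 * g1 → g2 * g3 = g3 * g2 →
      φ1 * φ2 * φ1 = φ2 * φ1 * φ2 →
      φ1 * g1 * (φ2 * g2) * (φ1 * g1) = φ2 * g2 * (φ1 * g1) * (φ2 * g2) := by
    intro φ1 φ2 g1 g2 g3 q1 q2 q3 q4 q5 q6 q7 q8
    linear_combination (norm := noncomm_ring) φ1 * g1 * φ2 * q1 * g1 + φ1 * q3 * φ1 * g3 * g1 +
      φ1 * φ2 * q2 * g3 * g1 - φ2 * g2 * φ1 * q3 * g2 - φ2 * q1 * φ2 * g3 * g2 -
      φ2 * φ1 * q4 * g3 * g2 + q8 * g2 * g3 * g1 + φ2 * φ1 * φ2 * q7 * g1 -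
      φ2 * φ1 * φ2 * g3 * q5 - φ2 * φ1 * φ2 * q6 * g2
  exact key _ _ _ _ _ m13 m12 m23 m21 c12 c13 c23 (hg.φ3 h)

theorem s_S (h : a + 1 < d.k) (hy : y ∈ d.S) (h1 : d.T a * y = y' * d.T a) :
    d.s (a + 1) * y = y' * d.s (a + 1) := by
  obtain ⟨t, ht, h2, -⟩ := d.nT a h y hy
  have e : y' = t := (d.T_unit h).mul_right_cancel (h1.symm.trans h2)
  have k1 : SemiconjBy (d.e a) y y' := by
    rw [SemiconjBy, ← d.e_abs h hy h1, d.cm _ (d.me a h) _ (e ▸ ht)]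
  exact SemiconjBy.sub_left ((hg.itσ h).s y hy y' h1) (SemiconjBy.mul_left
    (k1.add_left (hg.N_S h hy h1)) (hg.cm (fun c hc => d.Z_S hc hy) _))

theorem s_ν0 (h : a + 1 < d.k) : d.s (a + 1) * d.ν a = d.ν (a + 1) * d.s (a + 1) :=
  SemiconjBy.sub_left (hg.ν0 (hg.itσ h)) (SemiconjBy.mul_left (hg.P_ν0 (pr1 h))
    (hg.cm (fun _ hc => hg.Z_ν hc (by omega)) _))

theorem s_ν1 (h : a + 1 < d.k) :
    d.s (a + 1) * d.ν (a + 1) = d.ζ * (d.ν a * d.s (a + 1)) := by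
  rw [← mul_assoc]
  exact SemiconjBy.sub_left ((hg.ν1 (hg.itσ h)).trans (mul_assoc _ _ _).symm)
    (SemiconjBy.mul_left ((hg.P_ν1 (pr1 h)).trans (mul_assoc _ _ _).symm)
      (hg.cm (fun _ hc => hg.Z_ν hc h) _))

theorem s4 (h : 1 < d.k) : d.s 0 * d.s 1 * d.s 0 * d.s 1 = d.s 1 * d.s 0 * d.s 1 * d.s 0 := by
  have a0 : d.s 1 * d.ν 0 = d.ν 1 * d.s 1 := hg.s_ν0 (a := 0) h
  have a1 : d.s 1 * d.ν 1 = d.ζ * (d.ν 0 * d.s 1) := hg.s_ν1 (a := 0) h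
  have a2 := hg.νν d.k0 h zero_ne_one
  have a3 := hg.ν_S (d.ζ_X h).symm d.mζ
  show d.ν 0 * d.s 1 * d.ν 0 * d.s 1 = d.s 1 * d.ν 0 * d.s 1 * d.ν 0
  linear_combination (norm := noncomm_ring) d.ν 0 * a0 * d.s 1 + a2 * d.s 1 * d.s 1 -
    d.s 1 * d.ν 0 * a0 - a0 * d.ν 1 * d.s 1 - d.ν 1 * a1 * d.s 1 - a3 * d.ν 0 * d.s 1 * d.s 1

theorem kb_neg (i j : ℕ) : d.bi j i = -d.bi i j :=
  hg.spc.eq fun z v _ hz => by
    rw [neg_mul, bi, bi, hg.ap hz, hg.ap hz, ← neg_smul, ← div_neg, β, β, ← Int.cast_neg, neg_sub]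

theorem kb_eq (hz : d.FW z v) (hv : v ≠ 0) (ha : a < d.k) (hb : b < d.k) (e : d.β a b z = 0) :
    z a = z b := by
  rw [hg.spec hz hv ha, hg.spec hz hv hb, sub_eq_zero.1 e]

theorem kb_zero {U : H} (hb : b < d.k) (ha : a < d.k) (hc : c < d.k)
    (h1 : ∀ z v, d.FW z v → z a = z b → U * v = 0) (h2 : ∀ z v, d.FW z v → z b = z c → U * v = 0)
    (h3 : ∀ z v, d.FW z v → z a = z c → U * v = 0) :
    U * (d.bi a b * d.bi b c - d.bi a b * d.bi a c - d.bi b c * d.bi a c) = 0 :=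
  hg.spc.ext _ fun z v hv hz => by
    simp only [bi, mul_assoc, sub_mul, hg.ap hz, mul_smul_comm, smul_smul, ← sub_smul]
    by_cases k1 : d.β a b z = 0
    · rw [h1 z v hz (hg.kb_eq hz hv ha hb k1), smul_zero]
    by_cases k2 : d.β b c z = 0
    · rw [h2 z v hz (hg.kb_eq hz hv hb hc k2), smul_zero]
    by_cases k3 : d.β a c z = 0
    · rw [h3 z v hz (hg.kb_eq hz hv ha hc k3), smul_zero]
    have e : (d.β a c z : F) = d.β a b z + d.β b c z := by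
      simp only [β]; push_cast; ring
    have l1 : (d.β a b z : F) ≠ 0 := Int.cast_ne_zero.2 k1
    have l2 : (d.β b c z : F) ≠ 0 := Int.cast_ne_zero.2 k2
    have l3 : (d.β a c z : F) ≠ 0 := Int.cast_ne_zero.2 k3
    refine smul_eq_zero_of_left ?_ _
    field_simp
    rw [e]
    ring

/-- hint: `expand`; `P1 P2 = Pm P1 = P2 Pm`, `P2 P1 = P1 Pp = Pp P2` from `Tr`, with
`Pp = e3 + N3`, `Pm = e3 + ζ N3`; additivity of `β`; `ov2N`, `ov3` where a `β` vanishes; `e3_h`,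
`N3_h`. -/
theorem s3 (h : a + 2 < d.k) :
    d.s (a + 1) * d.s (a + 2) * d.s (a + 1) = d.s (a + 2) * d.s (a + 1) * d.s (a + 2) := by
  have ha : a < d.k := by omega
  have h1 : a + 1 < d.k := by omega
  have h2 : a + 1 + 1 < d.k := h
  have p1 : d.Pr a (a + 1) (d.e a) := pr1 h1
  have p2 : d.Pr (a + 1) (a + 2) (d.e (a + 1)) := pr1 h2
  have p3 := pr3 h
  have i1 := hg.itσ h1
  have i2 := hg.itσ h2
  have s1 : Equiv.swap a (a + 1) (a + 2) = a + 2 :=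
    Equiv.swap_apply_of_ne_of_ne (by omega) (by omega)
  have s2 : Equiv.swap (a + 1) (a + 1 + 1) a = a :=
    Equiv.swap_apply_of_ne_of_ne (by omega) (by omega)
  obtain ⟨r1, r2, r3, r4⟩ := kb_P (hg.tr h)
  have cS : ∀ {t : H}, t ∈ d.S → ∀ i j, Commute (d.bi i j) t := fun ht i j =>
    hg.cm (fun c hc => d.Z_S hc ht) _
  have cN : ∀ {a b : ℕ} {ε : H}, d.Pr a b ε → ∀ i j, Commute (d.bi i j) (d.N a b ε) :=
    fun p i j => hg.cm (fun c hc => hg.Z_N p hc) _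
  have cP : ∀ {a b : ℕ} {ε : H}, d.Pr a b ε → ∀ i j, Commute (d.bi i j) (ε + d.N a b ε) :=
    fun p i j => (cS p.mem i j).add_right (cN p i j)
  have cc : ∀ i j l m, d.bi i j * d.bi l m = d.bi l m * d.bi i j := fun i j l m =>
    hg.spc.comm (hg.dg _) (hg.dg _)
  have zζ : SemiconjBy (d.σ (a + 1)) d.ζ d.ζ := i2.s _ d.mζ _ (d.ζT _ h2).symm
  refine kb_s3 (Pp := d.e3 a + d.N a (a + 2) (d.e3 a))
    (Pm := d.e3 a + d.ζ * d.N a (a + 2) (d.e3 a)) (w := d.bi a (a + 2))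
    (cP p1 _ _) (cP p2 _ _) (cP p3 _ _) (cP p1 _ _) (cP p2 _ _)
    ((cS p3.mem _ _).add_right ((cS d.mζ _ _).mul_right (cN p3 _ _))) (cP p1 _ _) (cP p2 _ _)
    (cS (d.mh _ h1) _ _) (cS (d.mh _ h2) _ _) (cc _ _ _ _) (cc _ _ _ _) (cc _ _ _ _) r1 r2 r3 r4
    (by rw [add_mul, add_mul, e3_h h, hg.N3_h h])
    (hg.kb_zero h1 ha h (fun z v hz e => ?_) (fun z v hz e => ?_) fun z v hz e => ?_)
    (hg.kb_zero h1 ha h (fun z v hz e => ?_) (fun z v hz e => ?_) fun z v hz e => ?_)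
    (hg.σ_sq h1) (hg.σ_sq h2) (hg.σ3 h) ?_ ?_ ?_ ?_ ?_ ?_
  · rw [← r1, mul_assoc, hg.ov2N h1 hz e, mul_zero]
  · rw [mul_assoc, hg.ov2N h2 hz e, mul_zero]
  · rw [← r2, mul_assoc, (hg.ov3 h hz e).2, mul_zero]
  · rw [mul_assoc, hg.ov2N h1 hz e, mul_zero]
  · rw [← r4, mul_assoc, hg.ov2N h2 hz e, mul_zero]
  · rw [← r3, mul_assoc, (hg.ov3 h hz e).1, mul_zero]
  · rw [← hg.kb_neg]
    exact SemiconjBy.mul_right (SemiconjBy.add_right (i1.s _ p1.mem _ (d.eT _ h1).symm)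
      (hg.itN11 i1)) (hg.kb_bi i1 (Equiv.swap_apply_left _ _) (Equiv.swap_apply_right _ _))
  · rw [← hg.kb_neg]
    exact SemiconjBy.mul_right (SemiconjBy.add_right (i2.s _ p2.mem _ (d.eT _ h2).symm)
      (hg.itN11 i2)) (hg.kb_bi i2 (Equiv.swap_apply_left _ _) (Equiv.swap_apply_right _ _))
  · exact SemiconjBy.mul_right (SemiconjBy.add_right (i2.s _ p1.mem _ (T_e3a h)) (hg.itN21 i2))
      (hg.kb_bi i2 s2 (Equiv.swap_apply_left _ _))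
  · exact SemiconjBy.mul_right (SemiconjBy.add_right (i1.s _ p3.mem _ (T_e3d h)) (hg.itN13 i1 h))
      (hg.kb_bi i1 (Equiv.swap_apply_left _ _) s1)
  · exact SemiconjBy.mul_right (SemiconjBy.add_right (i1.s _ p2.mem _ (T_e3c h)) (hg.itN12 i1 h))
      (hg.kb_bi i1 (Equiv.swap_apply_right _ _) s1)
  · have k := SemiconjBy.mul_right zζ (hg.itN23 i2)
    rw [← mul_assoc, d.ζζ, one_mul] at k
    exact SemiconjBy.mul_right (SemiconjBy.add_right (i2.s _ p3.mem _ (T_e3b h)) k)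
      (hg.kb_bi i2 s2 (Equiv.swap_apply_right _ _))

end Good

end Pool.Agent.Lib.MP_1ae3da_al.JM.YD
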