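import Pool.Agent.Lib.MP_1ae3da_al.J.K4

/-! Scalar identities for the squares of the new generators. -/

namespace Pool.Agent.Lib.MP_1ae3da_al.JM.YD

variable {F H : Type} [Field F] [CharZero F] [Ring H] [Algebra F H] {d : YD F H} {a b c : ℕ}
  {ε v y y' ψ : H} {z : ℕ → F} {f0 f1 f2 f3 g0 g1 g2 g3 : (ℕ → F) → F}

omit [CharZero F] in
theorem u_ne {m n : ℤ} (h : m ≠ n) : d.u ^ m ≠ d.u ^ n := fun e =>
  h (sub_eq_zero.1 (d.hu _ (by rw [zpow_sub₀ d.u0, e, div_self (zpow_ne_zero _ d.u0)])))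

theorem u_add (n : ℤ) : d.u ^ n + 1 ≠ 0 := fun e => by
  have e1 : d.u ^ n = -1 := eq_neg_of_add_eq_zero_left e
  have e2 : n + n = 0 := d.hu _ (by rw [zpow_add₀ d.u0, e1]; norm_num)
  have e3 : n = 0 := by omega
  rw [e3, zpow_zero] at e
  norm_num at e

omit [CharZero F] in
theorem Q_z : d.Q = d.u ^ (2 * d.κ : ℤ) := by
  rw [Q, ← zpow_natCast]
  norm_num

theorem Gf_mul {n : ℤ} (hn : n ≠ 0) :
    d.Gf (-n) * ((d.Q * d.u ^ n - 1) * (d.u ^ n - d.Q) / (d.u ^ n - 1) ^ 2) * d.Gf n =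
      1 - (2 * d.κ / (n : F)) ^ 2 := by
  have hk : (d.κ : F) ≠ 0 := Nat.cast_ne_zero.2 d.hκ.ne'
  by_cases h1 : n = -(2 * d.κ : ℤ)
  · have : d.Q * d.u ^ n - 1 = 0 := by
      rw [Q_z, ← zpow_add₀ d.u0, h1, add_neg_cancel, zpow_zero, sub_self]
    rw [this, h1]
    push_cast
    field_simp
    ring
  by_cases h2 : n = (2 * d.κ : ℤ)
  · have : d.u ^ n - d.Q = 0 := by rw [Q_z, h2, sub_self]
    rw [this, h2]
    push_cast
    field_simp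
    ring
  have r0 : d.u ^ n ≠ 0 := zpow_ne_zero _ d.u0
  have r1 : d.u ^ n - 1 ≠ 0 := sub_ne_zero.2 fun e => hn (d.hu _ e)
  have r2 : d.Q - d.u ^ n ≠ 0 := sub_ne_zero.2 (Q_z (d := d) ▸ u_ne (Ne.symm h2))
  have r3 : d.Q * d.u ^ n - 1 ≠ 0 := sub_ne_zero.2 fun e => h1 (by
    rw [Q_z, ← zpow_add₀ d.u0] at e
    have := d.hu _ e
    omega)
  have r4 : (n : F) ≠ 0 := Int.cast_ne_zero.2 hn
  have r5 : d.Q * (d.u ^ n)⁻¹ - 1 = (d.Q - d.u ^ n) / d.u ^ n := by field_simp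
  rw [Gf, Gf, if_neg h1, if_neg fun e => h2 (neg_injective e), zpow_neg, r5]
  generalize d.Q * d.u ^ n - 1 = p at *
  generalize d.u ^ n = r at *
  push_cast
  field_simp
  ring

theorem Gm_mul (n : ℤ) :
    d.Gm (-n) * ((d.Q * d.u ^ n + 1) * (d.u ^ n + d.Q) / (d.u ^ n + 1) ^ 2) * d.Gm n = 1 := by
  have r0 : d.u ^ n ≠ 0 := zpow_ne_zero _ d.u0
  have r1 : d.u ^ n + 1 ≠ 0 := u_add n
  have r3 : d.Q * d.u ^ n + 1 ≠ 0 := by
    rw [Q_z, ← zpow_add₀ d.u0]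
    exact u_add _
  have r2 : d.Q + d.u ^ n ≠ 0 := fun e => u_add (d := d) (2 * d.κ - n) (by
    rw [zpow_sub₀ d.u0, ← Q_z, eq_neg_of_add_eq_zero_left e, neg_div, div_self r0, neg_add_cancel])
  have r5 : d.Q * (d.u ^ n)⁻¹ + 1 = (d.Q + d.u ^ n) / d.u ^ n := by field_simp
  rw [Gm, Gm, zpow_neg, r5]
  generalize d.Q * d.u ^ n + 1 = p at *
  generalize d.u ^ n = r at *
  field_simp
  ring

omit [CharZero F] in
theorem pw (m n : ℤ) : ∃ x t : F, x ≠ 0 ∧ t ≠ 0 ∧ d.u ^ (2 * m) = x ^ 2 ∧ d.u ^ (2 * n) = t ^ 2 ∧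
    d.u ^ (m + n) = x * t ∧ d.u ^ (m - n) = x / t ∧ d.u ^ (2 * (m - n)) = (x / t) ^ 2 :=
  ⟨d.u ^ m, d.u ^ n, zpow_ne_zero _ d.u0, zpow_ne_zero _ d.u0,
    by rw [two_mul, zpow_add₀ d.u0, sq], by rw [two_mul, zpow_add₀ d.u0, sq], zpow_add₀ d.u0 _ _,
    zpow_sub₀ d.u0 _ _, by rw [two_mul, zpow_add₀ d.u0, sq, zpow_sub₀ d.u0]⟩

omit [CharZero F] in
theorem val {m n : ℤ} {s t : F} (hs : s = d.u ^ (2 * m)) (ht : t = d.u ^ (2 * n)) (h : s ≠ t) :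
    (d.Q + d.a1 s t * d.a1 t s = (d.Q * d.u ^ (2 * (m - n)) - 1) * (d.u ^ (2 * (m - n)) - d.Q) /
      (d.u ^ (2 * (m - n)) - 1) ^ 2) ∧
    (d.Q + d.a2 s t * d.u ^ (m + n) * (d.a2 t s * d.u ^ (m + n)) =
      (d.Q * d.u ^ (2 * (m - n)) - 1) * (d.u ^ (2 * (m - n)) - d.Q) /
        (d.u ^ (2 * (m - n)) - 1) ^ 2) ∧
    (d.Q + (d.a1 s t + d.a2 s t * d.u ^ (m + n)) * (d.a1 t s + d.a2 t s * d.u ^ (m + n)) =
      (d.Q * d.u ^ (m - n) - 1) * (d.u ^ (m - n) - d.Q) / (d.u ^ (m - n) - 1) ^ 2) ∧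
    d.Q + (d.a1 s t - d.a2 s t * d.u ^ (m + n)) * (d.a1 t s - d.a2 t s * d.u ^ (m + n)) =
      (d.Q * d.u ^ (m - n) + 1) * (d.u ^ (m - n) + d.Q) / (d.u ^ (m - n) + 1) ^ 2 := by
  obtain ⟨x, w, hx, hw, e1, e2, e3, e4, e5⟩ := pw (d := d) m n
  rw [a1, a1, a2, a2, if_neg h, if_neg h.symm, e3, e4, e5]
  rw [e1] at hs
  rw [e2] at ht
  subst hs ht
  have k1 : x - w ≠ 0 := fun e => h (by rw [sub_eq_zero.1 e])
  have k2 : x + w ≠ 0 := fun e => h (by rw [eq_neg_of_add_eq_zero_left e]; ring)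
  have q1 : x ^ 2 - w ^ 2 = (x - w) * (x + w) := by ring
  have q2 : w ^ 2 - x ^ 2 = -((x - w) * (x + w)) := by ring
  have q3 : (x / w) ^ 2 - 1 = (x - w) * (x + w) / w ^ 2 := by field_simp; ring
  have q4 : x / w - 1 = (x - w) / w := by field_simp
  have q5 : x / w + 1 = (x + w) / w := by field_simp
  rw [q1, q2, q3, q4, q5]
  generalize hp : x - w = p at k1
  generalize hq : x + w = q at k2
  refine ⟨?_, ?_, ?_, ?_⟩ <;> (field_simp; subst hp hq; ring)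

theorem val0 (s c : F) : d.Q + (d.a1 s s - d.a2 s s * c) * (d.a1 s s - d.a2 s s * c) =
    (d.Q * d.u ^ (0 : ℤ) + 1) * (d.u ^ (0 : ℤ) + d.Q) / (d.u ^ (0 : ℤ) + 1) ^ 2 := by
  rw [a1, a2, if_pos rfl, sub_self, div_zero, zpow_zero]
  field_simp
  ring

omit [CharZero F] in
theorem β_swap (z : ℕ → F) :
    d.β a (a + 1) (z ∘ Equiv.swap a (a + 1)) = -d.β a (a + 1) z := by
  simp [β]

omit [CharZero F] in
theorem It.e_cm (h : d.It a ψ) : ψ * d.e a = d.e a * ψ :=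
  h.s _ (d.me a h.lt) _ (d.eT a h.lt).symm

omit [CharZero F] in
theorem It.ep_cm (h : d.It a ψ) : ψ * d.ep a (d.e a) = d.ep a (d.e a) * ψ := by
  have p := pr1 h.lt
  refine (d.X_unit h.lt).mul_left_cancel ?_
  rw [← mul_assoc, ← h.x0, mul_assoc, X_ep1 (by have := h.lt; omega) p.mem, ← mul_assoc, h.e_cm,
    mul_assoc, h.x0, ← mul_assoc, ← mul_assoc, p.pb']

end Pool.Agent.Lib.MP_1ae3da_al.JM.YD
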