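import Pool.Agent.Lib.MP_1ae3da_al.J.K1b

/-! The intertwiners and the new generators: definitions. -/

namespace Pool.Agent.Lib.MP_1ae3da_al.JM.YD

variable {F H : Type} [Field F] [Ring H] [Algebra F H] (d : YD F H)

/-- `ε` is the idempotent of the root that joins the positions `a` and `b`. -/
structure Pr (a b : ℕ) (ε : H) : Prop where
  lt : a < b
  bk : b < d.k
  mem : ε ∈ d.S
  idem : ε * ε = ε
  oth : ∀ c, c < d.k → c ≠ a → c ≠ b → ε * d.X c = d.X c * ε
  pb : d.X b * ε = d.ep a ε * d.X b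
  et : ε * d.et a = ε * d.et b
  zz : ε * d.ep a ε * d.ζ = ε * d.ep a ε

/-- the idempotent of the positions `a`, `a + 2`. -/
def e3 (a : ℕ) : H := d.T (a + 1) * d.e a * d.Ti (a + 1)

/-- the mixed term. -/
def R (a b : ℕ) (ε : H) : H := d.X b * ε * d.X a * d.ei a

/-- joint eigenvectors of the `Z a`. -/
def FW (z : ℕ → F) (v : H) : Prop :=
  (∀ a, a < d.k → d.Z a * v = z a • v) ∧ ∀ a, d.k ≤ a → z a = 0

open Classical in
/-- functions of the `Z a`. -/
noncomputable def Fz (f : (ℕ → F) → F) : H :=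
  if h : ∃ y, Dg d.FW y f then h.choose else 0

/-- `ψ` intertwines like `T a` without lower terms. -/
structure It (a : ℕ) (ψ : H) : Prop where
  lt : a + 1 < d.k
  s : ∀ y ∈ d.S, ∀ y', d.T a * y = y' * d.T a → ψ * y = y' * ψ
  x0 : ψ * d.X a = d.X (a + 1) * ψ
  x1 : ψ * d.X (a + 1) = d.ζ * (d.X a * ψ)
  xc : ∀ c, c < d.k → c ≠ a → c ≠ a + 1 → ψ * d.X c = d.X c * ψ

open Classical in
/-- the coefficient of the idempotent. -/
noncomputable def a1 (s t : F) : F := if s = t then -(d.Q - 1) / 2 else (d.Q - 1) * t / (s - t)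

/-- the coefficient of the mixed term. -/
def a2 (s t : F) : F := (d.Q - 1) / (s - t)

/-- the correction; `(i, j)` is `(a, b)` or `(b, a)`. -/
noncomputable def A (a b : ℕ) (ε : H) (i j : ℕ) : H :=
  ε * d.Fz (fun z => d.a1 (z i) (z j)) + d.R a b ε * d.Fz fun z => d.a2 (z i) (z j)

/-- the intertwiner. -/
noncomputable def φ (a : ℕ) : H := d.T a + d.A a (a + 1) (d.e a) a (a + 1)

open Classical in
/-- the logarithm to the base `u ^ 2`. -/
noncomputable def lg (c : F) : ℤ := if h : ∃ n : ℤ, c = d.u ^ (2 * n) then h.choose else 0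

/-- the normalised Jucys-Murphy element. -/
noncomputable def ν (a : ℕ) : H := d.X a * d.Fz fun z => (d.u ^ d.lg (z a))⁻¹

/-- the normalised mixed term. -/
noncomputable def N (a b : ℕ) (ε : H) : H := d.ν b * ε * d.ν a * d.ei a

/-- the difference of the contents. -/
noncomputable def β (i j : ℕ) (z : ℕ → F) : ℤ := d.lg (z i) - d.lg (z j)

/-- the ratio of the classical and the quantum norm. -/
noncomputable def Gf (n : ℤ) : F :=
  if n = -(2 * d.κ : ℤ) then 1 else
    ((n : F) + 2 * d.κ) * (d.u ^ n - 1) / ((n : F) * (d.Q * d.u ^ n - 1))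

/-- the ratio for opposite signs. -/
noncomputable def Gm (n : ℤ) : F := (d.u ^ n + 1) / (d.Q * d.u ^ n + 1)

/-- a function of the four kinds of pairs: unrelated, simply related, doubly related with the
sign `+` and with the sign `-`. -/
noncomputable def K4 (a b : ℕ) (ε : H) (f0 f1 f2 f3 : (ℕ → F) → F) : H :=
  (1 - ε) * (1 - d.ep a ε) * d.Fz f0 + (ε * (1 - d.ep a ε) + (1 - ε) * d.ep a ε) * d.Fz f1 +
    (2 : F)⁻¹ • ((ε * d.ep a ε + ε * d.N a b ε) * d.Fz f2) +
    (2 : F)⁻¹ • ((ε * d.ep a ε - ε * d.N a b ε) * d.Fz f3)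

/-- the normalising factor; `(i, j)` is `(a, b)` or `(b, a)`. -/
noncomputable def g (a b : ℕ) (ε : H) (i j : ℕ) : H :=
  d.K4 a b ε (fun _ => (d.u ^ d.κ)⁻¹) (fun z => d.Gf (2 * d.β i j z)) (fun z => d.Gf (d.β i j z))
    fun z => d.Gm (d.β i j z)

/-- the scalar of the classical correction. -/
noncomputable def bi (i j : ℕ) : H := d.Fz fun z => (d.κ : F) / (d.β i j z : F)

/-- the normalised intertwiner. -/
noncomputable def σ (a : ℕ) : H := d.φ a * d.g a (a + 1) (d.e a) a (a + 1)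

/-- the new generators. -/
noncomputable def s : ℕ → H
  | 0 => d.ν 0
  | a + 1 => d.σ a - (d.e a + d.N a (a + 1) (d.e a)) * d.bi a (a + 1)

end Pool.Agent.Lib.MP_1ae3da_al.JM.YD
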