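import Pool.Agent.Lib.MP_1ae3da_al.J.D6

/-! Split Tits systems with a Weyl group of type `B` or `D`: the hypotheses in one place. -/

namespace Pool.Agent.Lib.MP_1ae3da_al.JM

variable {r : ℕ} {X : Type} [Group X]

/-- `X = U N U`, the torus `T = N ⊓ N_X(U)` is abelian and normal in `N`, `p` divides the length of
every non-trivial orbit of `T` on `U`, no element of `N` outside `T` acts quadratically on the
`p`-part of `T`, `N` is generated by `T` and `n 0, …, n (k - 1)` with squares in `T`, the axiom of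
Tits holds, `n 1, …, n (k - 1)` satisfy the braid relations of a chain, and for these nodes
`n U n⁻¹` lies in the union of `U` and the `U (s n s⁻¹) U`, `s ∈ T`. -/
def Split (p k : ℕ) (U : Sylow r X) (N T : Subgroup X) (n : ℕ → X) : Prop :=
  T = N ⊓ Subgroup.normalizer (U : Set X) ∧ (∀ x ∈ T, ∀ y ∈ T, x * y = y * x) ∧
  N ≤ Subgroup.normalizer (T : Set X) ∧ (∀ x, ∃ u ∈ U, ∃ m ∈ N, ∃ v ∈ U, x = u * m * v) ∧
  (∀ u ∈ U, u ≠ 1 → p ∣ (Subgroup.centralizer {u}).relIndex T) ∧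
  (∀ m ∈ N, (∀ d ∈ T, (∃ c, d ^ p ^ c = 1) → Commute (d * m * d⁻¹ * m⁻¹) m) → m ∈ T) ∧
  (∀ i < k, n i ∈ N ∧ n i * n i ∈ T) ∧ N ≤ Subgroup.closure ((T : Set X) ∪ n '' Set.Iio k) ∧
  (∀ i < k, ∀ m ∈ N, ∀ u ∈ U, ∃ v ∈ U, ∃ t ∈ T, ∃ w ∈ U,
    n i * u * m = v * (t * (n i * m)) * w ∨ n i * u * m = v * (t * m) * w) ∧
  (∀ i j, 0 < i → i + 1 < j → j < k → n i * n j = n j * n i) ∧
  (∀ i, 0 < i → i + 1 < k → n i * n (i + 1) * n i = n (i + 1) * n i * n (i + 1)) ∧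
  ∀ i, 0 < i → i < k → ∀ u ∈ U, n i * u * (n i)⁻¹ ∈ U ∨
    ∃ s ∈ T, ∃ v ∈ U, ∃ w ∈ U, n i * u * (n i)⁻¹ = v * (s * n i * s⁻¹) * w

/-- type `B k`, `k ≥ 3`: the node `0` is joined to `1` by a double bond. -/
def TyB (k : ℕ) (N T : Subgroup X) (n : ℕ → X) : Prop :=
  3 ≤ k ∧ T.relIndex N = 2 ^ k * k.factorial ∧ (∀ j, 1 < j → j < k → n 0 * n j = n j * n 0) ∧
  n 0 * n 1 * n 0 * n 1 = n 1 * n 0 * n 1 * n 0 ∧
  ∀ i < k, Commute (n 1 * n 1 * n 0 * (n 1 * n 1)⁻¹ * (n 0)⁻¹) (n i)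

/-- type `D k`, `k ≥ 5`: an automorphism of order two fixes `U`, `N` and the nodes `i ≥ 2` and
exchanges the commuting nodes `0` and `1`. -/
def TyD (k : ℕ) (U : Sylow r X) (N T : Subgroup X) (n : ℕ → X) : Prop :=
  5 ≤ k ∧ T.relIndex N = 2 ^ (k - 1) * k.factorial ∧ n 0 * n 1 = n 1 * n 0 ∧
  (∀ i < k, Commute (n 1 * n 1 * (n 0 * n 0)⁻¹) (n i)) ∧
  ∃ g : MulAut X, (∀ x, g (g x) = x) ∧ (∀ x, g x ∈ U ↔ x ∈ U) ∧ (∀ x, g x ∈ N ↔ x ∈ N) ∧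
    g (n 1) = n 0 ∧ ∀ i, 2 ≤ i → i < k → g (n i) = n i

theorem thm_bd (p r k : ℕ) (hp : p.Prime) (h2 : p ≠ 2) (hr : r.Prime) (hpr : p ≠ r) (X : Type)
    [Group X] [Finite X] (U : Sylow r X) (N T : Subgroup X) (n : ℕ → X) (h : Split p k U N T n)
    (ht : TyB k N T n ∨ TyD k U N T n) : (∃ R : Sylow p X, (R : Subgroup X) ≤ N) ∧
      ∀ R : Sylow p X, (R : Subgroup X) ≤ N → NSV.IndN p X R N := by
  have : Fact p.Prime := ⟨hp⟩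
  have : Fact r.Prime := ⟨hr⟩
  obtain ⟨rfl, a1, a2, a3, a4, a5, a6, a7, a8, a9, a10, a11⟩ := h
  have v : BV p U N := ⟨hpr, a1, a2, a3, a4, a5⟩
  rcases ht with ⟨b1, b2, b3, b4, b5⟩ | ⟨b1, b2, b3, b4, g, g1, g2, g3, g4, g5⟩
  · refine TB.ind (k := k) (n := n) ⟨v, ⟨inf_le_left, a2, fun i hi => (a6 i hi).1,
      fun i hi => (a6 i hi).2, ⟨fun i j h1 h3 => ?_, a10, fun _ => b4⟩, a7, b2⟩, b1, a8, a11, b5⟩ h2
    rcases Nat.eq_zero_or_pos i with rfl | h0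
    · exact b3 j h1 h3
    · exact a9 i j h0 h1 h3
  have gT : ∀ x, g x ∈ SLI.Tor U N ↔ x ∈ SLI.Tor U N := fun x =>
    and_congr (g3 x) (CT.Z.zTh_nrm (D := (U : Subgroup X)) g2 x)
  refine TD.ind (k := k) (n := n) (g := g) ⟨v, ⟨inf_le_left, a2, by omega, g1, gT, g3, g4, g5,
    fun i hi => (a6 i hi).1, fun i hi => (a6 i hi).2, b3, a9, a10, a7, b2⟩, b1, g2, a8,
    fun i hi u hu => ?_, b4⟩ h2
  rcases Nat.eq_zero_or_pos i with rfl | h0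
  swap
  · exact a11 i h0 hi u hu
  have e : ∀ x, n 0 * u * (n 0)⁻¹ = g x ↔ n 1 * g u * (n 1)⁻¹ = x := fun x => by
    rw [← g.injective.eq_iff (a := n 1 * g u * (n 1)⁻¹), map_mul, map_mul, map_inv, g4, g1]
  rcases a11 1 one_pos (by omega) (g u) ((g2 u).2 hu) with h1 | ⟨s, hs, v, hv, w, hw, h1⟩
  · exact Or.inl ((e _).2 rfl ▸ (g2 _).2 h1)
  · refine Or.inr ⟨g s, (gT s).2 hs, g v, (g2 v).2 hv, g w, (g2 w).2 hw, ?_⟩
    rw [(e _).2 h1, map_mul, map_mul, map_mul, map_mul, map_inv, g4]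

end Pool.Agent.Lib.MP_1ae3da_al.JM
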