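import Pool.Agent.Lib.MP_1ae3da_al.Z.Cl2

/-! The axiom of Tits for groups of matrices that are closed under the Bruhat decomposition. -/

namespace Pool.Agent.Lib.MP_1ae3da_al.SLI

open Matrix

variable {F : Type} [Field F] {m : ℕ}

/-- `σ` is increasing on every block. -/
def Inc (b : Fin m → ℕ) (σ : Equiv.Perm (Fin m)) : Prop := ∀ i j, i < j → b i = b j → σ i < σ j

/-- `σ` is decreasing on every block. -/
def Dec (b : Fin m → ℕ) (σ : Equiv.Perm (Fin m)) : Prop := ∀ i j, i < j → b i = b j → σ j < σ i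

/-- `w` reverses the blocks, and every element of `W` keeps or reverses the order on all blocks. -/
structure Wall (b : Fin m → ℕ) (w : Equiv.Perm (Fin m)) (W : Subgroup (Equiv.Perm (Fin m))) :
    Prop where
  mono : Monotone b
  fix : ∀ i, b (w i) = b i
  anti : Dec b w
  dich : ∀ σ ∈ W, Inc b σ ∨ Dec b σ

/-- `H` is closed under the Bruhat decomposition and its permutations lie in `W`. -/
structure Bc (H : Subgroup (SLm m F)) (W : Subgroup (Equiv.Perm (Fin m))) : Prop where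
  cl : ∀ x ∈ H, ∃ u ∈ US m F, ∃ n ∈ MonS m F, ∃ v ∈ US m F, u ∈ H ∧ n ∈ H ∧ v ∈ H ∧ x = u * n * v
  sp : ∀ n ∈ H, n ∈ MonS m F → ∀ u ∈ H, u ∈ US m F → ∃ a ∈ H, a ∈ US m F ∧
    n⁻¹ * a * n ∈ LS m F ∧ n⁻¹ * (a⁻¹ * u) * n ∈ US m F
  wey : ∀ n ∈ H, ∀ σ, IsMon n.1 σ → σ ∈ W

lemma split_fix [Finite F] (θ : SLm m F →* SLm m F) (hU : ∀ u ∈ US m F, θ u ∈ US m F)
    (hL : ∀ u ∈ LS m F, θ u ∈ LS m F) {n u : SLm m F} (hn : θ n = n) (hm : n ∈ MonS m F)
    (hu : θ u = u) (hu' : u ∈ US m F) : ∃ a, θ a = a ∧ a ∈ US m F ∧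
      n⁻¹ * a * n ∈ LS m F ∧ n⁻¹ * (a⁻¹ * u) * n ∈ US m F := by
  obtain ⟨σ, hσ⟩ := hm
  obtain ⟨a, ha, ha', c, -, hc', e⟩ := split_U hσ hu'
  have h1 := hL _ ha'
  have h2 := hU _ hc'
  rw [map_mul, map_mul, map_inv, hn] at h1 h2
  have e1 : θ a * θ c = a * c := by rw [← map_mul, ← e, hu]
  have e3 : (n⁻¹ * a * n)⁻¹ * (n⁻¹ * θ a * n) = n⁻¹ * c * n * (n⁻¹ * θ c * n)⁻¹ := by
    rw [eq_mul_inv_of_mul_eq e1]; group
  have e4 := US_LS (e3 ▸ mul_mem hc' (inv_mem h2)) (mul_mem (inv_mem ha') h1)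
  rw [inv_mul_eq_one] at e4
  exact ⟨a, (mul_left_cancel (mul_right_cancel e4)).symm, ha, ha', by
    rwa [e, inv_mul_cancel_left]⟩

lemma iso_bc [Finite F] (φ : F →+* F) {ε : Fin m → F} (hε : ∀ i, ε i ≠ 0) :
    Bc (Iso φ (JJ ε)) (Subgroup.centralizer {(Fin.revPerm : Equiv.Perm (Fin m))}) :=
  ⟨iso_cl φ hε, fun _ hn hm _ hu hu' => by
    obtain ⟨a, h1, h2⟩ := split_fix (th φ hε) (th_U φ hε) (th_L φ hε) ((th_fix φ hε).mpr hn) hm
      ((th_fix φ hε).mpr hu) hu'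
    exact ⟨a, (th_fix φ hε).mp h1, h2⟩, fun _ hn _ h => iso_wey φ hε hn h⟩

variable {b : Fin m → ℕ} {w σ : Equiv.Perm (Fin m)} {W : Subgroup (Equiv.Perm (Fin m))}
  {H : Subgroup (SLm m F)} {g n a u x y : SLm m F}

lemma Inc.one (hb : Monotone b) (h : Inc b σ) (hf : ∀ i, b (σ i) = b i) : σ = 1 := by
  have : StrictMono σ := fun i j hij => by
    rcases (hb hij.le).eq_or_lt with e | e
    · exact h i j hij e
    · exact hb.reflect_lt (by rwa [hf, hf])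
  exact Equiv.ext fun i => le_antisymm this.apply_le this.le_apply

/-- block upper triangular matrices. -/
def BU (b : Fin m → ℕ) (x : SLm m F) : Prop := ∀ i j, b j < b i → x.1 i j = 0

lemma BU.mul (hx : BU b x) (hy : BU b y) : BU b (x * y) := fun i j h => by
  show (x.1 * y.1) i j = 0
  rw [Matrix.mul_apply]
  refine Finset.sum_eq_zero fun l _ => ?_
  rcases lt_or_ge (b l) (b i) with e | e
  · rw [hx i l e, zero_mul]
  · rw [hy l j (h.trans_le e), mul_zero]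

lemma BU.of_US (hb : Monotone b) (hu : u ∈ US m F) : BU b u :=
  fun i j h => (mem_US'.mp hu).1 i j (hb.reflect_lt h)

lemma BU.fix (h : BU b n) (hn : IsMon n.1 σ) (i : Fin m) : b (σ i) = b i := by
  have h1 : ∀ i ∈ Finset.univ, b i ≤ b (σ i) := fun i _ =>
    not_lt.mp fun e => mon_ne hn i (h i _ e)
  exact ((Finset.sum_eq_sum_iff_of_le h1).mp (Equiv.sum_comp σ b).symm i (Finset.mem_univ i)).symm

namespace Wall
variable (h : Wall b w W)
include h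

lemma inc_mul (hσ : Dec b σ) : Inc b (σ * w) := fun i j hij e =>
  hσ _ _ (h.anti i j hij e) (by rw [h.fix, h.fix, e])

lemma sq : w * w = 1 :=
  (h.inc_mul h.anti).one h.mono fun i => by rw [Equiv.Perm.mul_apply, h.fix, h.fix]

lemma inv : w⁻¹ = w := inv_eq_of_mul_eq_one_left h.sq

lemma eq (hσ : Dec b σ) (hf : ∀ i, b (σ i) = b i) : σ = w := by
  have := (h.inc_mul hσ).one h.mono fun i => by rw [Equiv.Perm.mul_apply, hf, h.fix]
  rw [eq_inv_of_mul_eq_one_left this, h.inv]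

lemma conj (hg : IsMon g.1 w) (i j : Fin m) : (g * a * g⁻¹).1 (w i) (w j) = 0 ↔ a.1 i j = 0 := by
  have := conj_zero (mon_inv hg) (u := a) (i := i) (j := j)
  rwa [inv_inv, h.inv] at this

lemma blk (hg : IsMon g.1 w) (hl : g * a * g⁻¹ ∈ LS m F) {i j : Fin m} (e : b i < b j) :
    a.1 i j = 0 :=
  (h.conj hg i j).mp ((mem_LS.mp hl).1 _ _ (h.mono.reflect_lt (by rwa [h.fix, h.fix])))

lemma up (hg : IsMon g.1 w) (ha : a ∈ US m F) (hl : g * a * g⁻¹ ∈ LS m F) (hn : IsMon n.1 σ)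
    (hσ : Inc b σ) : n⁻¹ * a * n ∈ US m F := by
  refine mem_US'.mpr ⟨fun i j hij => ?_, fun i => ?_⟩
  · obtain ⟨i, rfl⟩ := σ.surjective i
    obtain ⟨j, rfl⟩ := σ.surjective j
    rw [conj_zero hn]
    rcases lt_trichotomy i j with e | rfl | e
    · rcases (h.mono e.le).eq_or_lt with e' | e'
      · exact absurd (hσ i j e e') hij.not_gt
      · exact h.blk hg hl e'
    · exact absurd hij (lt_irrefl _)
    · exact (mem_US'.mp ha).1 i j e
  · obtain ⟨i, rfl⟩ := σ.surjective i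
    rw [conj_dg hn, (mem_US'.mp ha).2]

omit h in
lemma _root_.Pool.Agent.Lib.MP_1ae3da_al.SLI.Bc.split (hH : Bc H W) (hg : g ∈ H)
    (hm : IsMon g.1 w) (hu : u ∈ H) (hu' : u ∈ US m F) : ∃ a ∈ H, a ∈ US m F ∧
      g * a * g⁻¹ ∈ LS m F ∧ g * (u * a⁻¹) * g⁻¹ ∈ US m F := by
  obtain ⟨a, h1, h2, h3, h4⟩ := hH.sp _ (inv_mem hg) ⟨_, mon_inv hm⟩ _ (inv_mem hu) (inv_mem hu')
  refine ⟨a⁻¹, inv_mem h1, inv_mem h2, ?_, ?_⟩
  · convert inv_mem h3 using 1
    group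
  · convert inv_mem h4 using 1
    group

/-- the relation of rank one. -/
lemma one (hH : Bc H W) (hg : g ∈ H) (hm : IsMon g.1 w) (ha : a ∈ H) (ha' : a ∈ US m F)
    (hl : g * a * g⁻¹ ∈ LS m F) (h1 : a ≠ 1) : ∃ v ∈ H, v ∈ US m F ∧ ∃ t ∈ H, IsMon t.1 1 ∧
      ∃ c ∈ H, c ∈ US m F ∧ g * c * g⁻¹ ∈ LS m F ∧ g * a * g⁻¹ = v * (t * g) * c := by
  obtain ⟨u, hu, n, ⟨σ, hσ⟩, v, hv, m1, m2, m3, e⟩ :=
    hH.cl _ (mul_mem (mul_mem hg ha) (inv_mem hg))
  have k1 : BU b (g * a * g⁻¹) := fun i j hij => by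
    obtain ⟨i, rfl⟩ := w.surjective i
    obtain ⟨j, rfl⟩ := w.surjective j
    rw [h.fix, h.fix] at hij
    exact (h.conj hm i j).mpr (BU.of_US h.mono ha' i j hij)
  have k2 : BU b n := by
    have : n = u⁻¹ * (g * a * g⁻¹) * v⁻¹ := by rw [e]; group
    rw [this]
    exact ((BU.of_US h.mono (inv_mem hu)).mul k1).mul (BU.of_US h.mono (inv_mem hv))
  rcases h.dich σ (hH.wey n m2 σ hσ) with d | d
  · obtain rfl := d.one h.mono (k2.fix hσ)
    have k3 : BU Fin.val (g * a * g⁻¹) := by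
      rw [e]
      exact ((BU.of_US Fin.val_strictMono.monotone hu).mul
        fun i j hij => hσ i j fun e => hij.ne (congrArg Fin.val e)).mul
        (BU.of_US Fin.val_strictMono.monotone hv)
    have k4 := US_LS (mem_US'.mpr ⟨fun i j hij => k3 i j hij, (mem_LS.mp hl).2⟩) hl
    exact absurd (by simpa using k4) h1
  · obtain rfl := h.eq d (k2.fix hσ)
    obtain ⟨c, c1, c2, c3, c4⟩ := hH.split hg hm m3 hv
    have ht : IsMon (n * g⁻¹).1 1 := by
      have := mon_mul hσ (mon_inv hm)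
      rwa [inv_mul_cancel] at this
    have k5 := dg_norm (mon_inv ht) c4
    refine ⟨_, ?_, mul_mem hu k5, n * g⁻¹, mul_mem m2 (inv_mem hg), ht, c, c1, c2, c3, ?_⟩
    · have := mul_mem m2 (inv_mem hg)
      exact mul_mem m1 (mul_mem (mul_mem (inv_mem (inv_mem this))
        (mul_mem (mul_mem hg (mul_mem m3 (inv_mem c1))) (inv_mem hg))) (inv_mem this))
    · rw [e]
      group

/-- the axiom of Tits. -/
theorem tits (hH : Bc H W) (hg : g ∈ H) (hm : IsMon g.1 w) (hn : n ∈ H) (hn' : n ∈ MonS m F)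
    (hu : u ∈ H) (hu' : u ∈ US m F) : ∃ v ∈ H, v ∈ US m F ∧ ∃ t ∈ H, IsMon t.1 1 ∧
      ∃ c ∈ H, c ∈ US m F ∧
        (g * u * n = v * (t * (g * n)) * c ∨ g * u * n = v * (t * n) * c) := by
  obtain ⟨σ, hσ⟩ := hn'
  obtain ⟨a, a1, a2, a3, a4⟩ := hH.split hg hm hu hu'
  have a5 : g * (u * a⁻¹) * g⁻¹ ∈ H := mul_mem (mul_mem hg (mul_mem hu (inv_mem a1))) (inv_mem hg)
  by_cases h1 : a = 1
  · exact ⟨_, a5, a4, 1, one_mem _, mon_one, 1, one_mem _, one_mem _, Or.inl (by rw [h1]; group)⟩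
  rcases h.dich σ (hH.wey n hn σ hσ) with d | d
  · exact ⟨_, a5, a4, 1, one_mem _, mon_one, _, mul_mem (mul_mem (inv_mem hn) a1) hn,
      h.up hm a2 a3 hσ d, Or.inl (by group)⟩
  · obtain ⟨v, v1, v2, t, t1, t2, c, c1, c2, c3, e⟩ := h.one hH hg hm a1 a2 a3 h1
    have k := h.up hm c2 c3 (n := g * n) (mon_mul hm hσ) (h.inc_mul d)
    have hgn := mul_mem hg hn
    refine ⟨_, mul_mem a5 v1, mul_mem a4 v2, t * g * g, mul_mem (mul_mem t1 hg) hg, ?_, _,
      mul_mem (mul_mem (inv_mem hgn) c1) hgn, k, Or.inr ?_⟩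
    · have := mon_mul (mon_mul t2 hm) hm
      rwa [mul_one, h.sq] at this
    · have : a = g⁻¹ * (v * (t * g) * c) * g := by rw [← e]; group
      calc g * u * n = g * (u * a⁻¹) * a * n := by group
        _ = g * (u * a⁻¹) * (g⁻¹ * (v * (t * g) * c) * g) * n := by rw [← this]
        _ = _ := by group

end Wall

/-- induction over the group generated by a family of walls. -/
theorem walls_ind {k : ℕ} {b : ℕ → Fin m → ℕ} {w : ℕ → Equiv.Perm (Fin m)}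
    (h : ∀ i, i < k → Wall (b i) (w i) W) (hW : ∀ i, i < k → w i ∈ W)
    (cov : ∀ σ ∈ W, (∀ i, i < k → Inc (b i) σ) → σ = 1) (P : Equiv.Perm (Fin m) → Prop) (h1 : P 1)
    (hs : ∀ i, i < k → ∀ σ ∈ W, P (σ * w i) → P σ) (σ : Equiv.Perm (Fin m)) : σ ∈ W → P σ := by
  induction σ using (InvImage.wf (fun σ : Equiv.Perm (Fin m) => toLex (σ : Fin m → Fin m))
    wellFounded_lt).induction with
  | _ σ ih =>
    intro hσ
    by_cases c : ∀ i, i < k → Inc (b i) σ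
    · rwa [cov σ hσ c]
    push Not at c
    obtain ⟨i, hi, c⟩ := c
    have d := ((h i hi).dich σ hσ).resolve_left c
    refine hs i hi σ hσ (ih _ ?_ (mul_mem hσ (hW i hi)))
    have hne : ∃ x, w i x ≠ x := by
      by_contra e
      push Not at e
      exact c fun x y hxy e' => absurd ((h i hi).anti x y hxy e') (by
        rw [e, e]; exact hxy.not_gt)
    obtain ⟨x, hx, hmin⟩ := wellFounded_lt.has_min {x | w i x ≠ x} hne
    have hlt : ∀ y, y < x → w i y = y := fun y hy => by_contra fun e => hmin y e hy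
    refine ⟨x, fun y hy => congrArg σ (hlt y hy), d x _ ?_ ((h i hi).fix x).symm⟩
    exact lt_of_le_of_ne (not_lt.mp fun e => hx ((w i).injective (hlt _ e))) (Ne.symm hx)

/-- the monomial elements are generated by the diagonal ones and one element for each wall. -/
theorem Bc.gen (hH : Bc H W) {k : ℕ} {b : ℕ → Fin m → ℕ} {w : ℕ → Equiv.Perm (Fin m)}
    (h : ∀ i, i < k → Wall (b i) (w i) W) (cov : ∀ σ ∈ W, (∀ i, i < k → Inc (b i) σ) → σ = 1)
    {g : ℕ → SLm m F} (hg : ∀ i, i < k → g i ∈ H) (hm : ∀ i, i < k → IsMon (g i).1 (w i))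
    (P : SLm m F → Prop) (h1 : ∀ t ∈ H, IsMon t.1 1 → P t)
    (hs : ∀ i, i < k → ∀ n ∈ H, P (g i * n) → P n) (hn : n ∈ H) (hn' : n ∈ MonS m F) : P n := by
  obtain ⟨σ, hσ⟩ := hn'
  exact walls_ind h (fun i hi => hH.wey _ (hg i hi) _ (hm i hi)) cov
    (fun σ => ∀ n ∈ H, IsMon n.1 σ → P n) h1
    (fun i hi σ _ ih n hn hσ => hs i hi n hn
      (ih _ (mul_mem (hg i hi) hn) (mon_mul (hm i hi) hσ))) σ (hH.wey n hn σ hσ) n hn hσ

end Pool.Agent.Lib.MP_1ae3da_al.SLI
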